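import Mathlib

/-!
GD, module B1: growth of a polynomial outside the unit disc.
-/

namespace MP2794d1.GD

open Polynomial

theorem poly_growth (q : Polynomial ℂ) (N : ℕ) (hq : q.natDegree ≤ N) (M : ℝ)
    (hM : ∀ t : ℂ, ‖t‖ ≤ 1 → ‖q.eval t‖ ≤ M) (t : ℂ) (ht : 1 ≤ ‖t‖) :
    ‖q.eval t‖ ≤ ‖t‖ ^ N * M := by
  have key : ∀ x : ℂ, x ≠ 0 → (q.reflect N).eval (x⁻¹) * x ^ N = q.eval x := by
    intro x hx
    let _ : Invertible x := invertibleOfNonzero hx
    have h := Polynomial.eval₂_reflect_mul_pow (RingHom.id ℂ) x N q hq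
    rw [invOf_eq_inv] at h
    exact h
  -- the reflected polynomial is bounded by `M` on the unit circle
  have hcirc : ∀ z : ℂ, ‖z‖ = 1 → ‖(q.reflect N).eval z‖ ≤ M := by
    intro z hz
    have hz0 : z ≠ 0 := by
      intro h
      rw [h, norm_zero] at hz
      exact zero_ne_one hz
    have h := key (z⁻¹) (inv_ne_zero hz0)
    rw [inv_inv] at h
    have h1 : ‖(z⁻¹) ^ N‖ = 1 := by
      rw [norm_pow, norm_inv, hz, inv_one, one_pow]
    have h2 : ‖(q.reflect N).eval z‖ = ‖q.eval (z⁻¹)‖ := by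
      rw [← h, norm_mul, h1, mul_one]
    rw [h2]
    apply hM
    rw [norm_inv, hz, inv_one]
  have hball : ‖(q.reflect N).eval (t⁻¹)‖ ≤ M := by
    refine Complex.norm_le_of_forall_mem_frontier_norm_le
      (U := Metric.ball (0 : ℂ) 1) (f := fun z => (q.reflect N).eval z)
      Metric.isBounded_ball ?_ ?_ ?_
    · exact (Polynomial.differentiable (q.reflect N)).diffContOnCl
    · intro z hz
      rw [frontier_ball (0 : ℂ) one_ne_zero] at hz
      exact hcirc z (mem_sphere_zero_iff_norm.mp hz)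
    · rw [closure_ball (0 : ℂ) one_ne_zero, mem_closedBall_zero_iff, norm_inv]
      exact inv_le_one_of_one_le₀ ht
  have ht0 : t ≠ 0 := by
    intro h
    rw [h, norm_zero] at ht
    linarith
  rw [← key t ht0, norm_mul, norm_pow, mul_comm]
  exact mul_le_mul_of_nonneg_left hball (by positivity)

end MP2794d1.GD
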