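import Pool.Agent.Lib.MP_2794d1_ag.GD.B1

/-!
GD, module B2: a polynomial on `ℂ^r` of degree at most `N` which has a zero within `ε` of every
point of a ball of radius `δ` is zero, as soon as `ε N` is small against `δ`.
-/

namespace MP2794d1.GD

open Polynomial Metric

theorem growth_aux {r : ℕ} (f : (Fin r → ℂ) → ℂ) (N : ℕ) (M ρ : ℝ) (hρ : 0 < ρ)
    (hpoly : ∀ a b : Fin r → ℂ, ∃ q : Polynomial ℂ, q.natDegree ≤ N ∧
      ∀ t : ℂ, f (a + t • b) = q.eval t)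
    (hM : ∀ u : Fin r → ℂ, ‖u‖ ≤ ρ → ‖f u‖ ≤ M) (u : Fin r → ℂ) (hu : ρ ≤ ‖u‖) :
    ‖f u‖ ≤ (‖u‖ / ρ) ^ N * M := by
  have hu0 : 0 < ‖u‖ := lt_of_lt_of_le hρ hu
  obtain ⟨q, hq, hqf⟩ := hpoly 0 (((ρ / ‖u‖ : ℝ) : ℂ) • u)
  have h1 : ∀ t : ℂ, ‖t‖ ≤ 1 → ‖q.eval t‖ ≤ M := by
    intro t ht
    rw [← hqf t, zero_add]
    apply hM
    rw [norm_smul, norm_smul, Complex.norm_real, Real.norm_of_nonneg (by positivity)]
    rw [div_mul_cancel₀ _ hu0.ne']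
    nlinarith
  have h2 := poly_growth q N hq M h1 ((‖u‖ / ρ : ℝ) : ℂ) (by
    rw [Complex.norm_real, Real.norm_of_nonneg (by positivity)]
    rw [le_div_iff₀ hρ, one_mul]
    exact hu)
  rw [← hqf, zero_add, smul_smul, ← Complex.ofReal_mul, Complex.norm_real,
    Real.norm_of_nonneg (by positivity)] at h2
  have h3 : ‖u‖ / ρ * (ρ / ‖u‖) = 1 := by
    field_simp
  rw [h3, Complex.ofReal_one, one_smul] at h2
  exact h2

theorem one_add_inv_pow_le (N : ℕ) (hN : 1 ≤ N) : (1 + 1 / (N : ℝ)) ^ N ≤ 3 := by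
  have hN0 : (0 : ℝ) < N := by exact_mod_cast hN
  have h1 : 1 + 1 / (N : ℝ) ≤ Real.exp (1 / (N : ℝ)) := by
    have := Real.add_one_le_exp (1 / (N : ℝ))
    linarith
  have h2 : (1 + 1 / (N : ℝ)) ^ N ≤ (Real.exp (1 / (N : ℝ))) ^ N :=
    pow_le_pow_left₀ (by positivity) h1 N
  have h3 : (Real.exp (1 / (N : ℝ))) ^ N = Real.exp 1 := by
    rw [← Real.exp_nat_mul]
    congr 1
    field_simp
  have h4 : Real.exp 1 < 3 := lt_trans Real.exp_one_lt_d9 (by norm_num)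
  linarith

theorem bern_aux {r : ℕ} (f : (Fin r → ℂ) → ℂ) (N : ℕ) (δ ε : ℝ) (hf : Continuous f)
    (hN : 1 ≤ N)
    (hpoly : ∀ a b : Fin r → ℂ, ∃ q : Polynomial ℂ, q.natDegree ≤ N ∧
      ∀ t : ℂ, f (a + t • b) = q.eval t)
    (hδ : 0 < δ) (hε : ε * (N : ℝ) ≤ 1 / 32 * δ)
    (hz : ∀ u : Fin r → ℂ, ‖u‖ < δ → ∃ s, ‖s - u‖ ≤ ε ∧ f s = 0) (x : Fin r → ℂ) :
    f x = 0 := by
  have hN0 : (0 : ℝ) < N := by exact_mod_cast hN
  obtain ⟨ρ, hρdef⟩ : ∃ ρ : ℝ, ρ = δ / 2 := ⟨_, rfl⟩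
  have hρ : 0 < ρ := by rw [hρdef]; linarith
  obtain ⟨z, hzK, hzmax⟩ := (isCompact_closedBall (0 : Fin r → ℂ) ρ).exists_isMaxOn
    ⟨0, mem_closedBall_self hρ.le⟩ (hf.norm.continuousOn)
  have hz1 : ‖z‖ ≤ ρ := mem_closedBall_zero_iff.mp hzK
  have hMax : ∀ u : Fin r → ℂ, ‖u‖ ≤ ρ → ‖f u‖ ≤ ‖f z‖ := fun u hu =>
    hzmax (mem_closedBall_zero_iff.mpr hu)
  obtain ⟨M, hM⟩ : ∃ M : ℝ, M = ‖f z‖ := ⟨_, rfl⟩
  have hM0 : 0 ≤ M := by rw [hM]; exact norm_nonneg _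
  rw [← hM] at hMax
  have hgrow := growth_aux f N M ρ hρ hpoly hMax
  -- the bound on the slightly larger ball
  have hbig : ∀ u : Fin r → ℂ, ‖u‖ ≤ ρ * (1 + 1 / (N : ℝ)) → ‖f u‖ ≤ 3 * M := by
    intro u hu
    rcases le_total ρ ‖u‖ with h | h
    · have h1 := hgrow u h
      have h2 : ‖u‖ / ρ ≤ 1 + 1 / (N : ℝ) := by
        rw [div_le_iff₀ hρ]
        linarith
      have h3 : (‖u‖ / ρ) ^ N ≤ (1 + 1 / (N : ℝ)) ^ N :=
        pow_le_pow_left₀ (by positivity) h2 N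
      have h4 := one_add_inv_pow_le N hN
      have h5 : (‖u‖ / ρ) ^ N * M ≤ 3 * M := mul_le_mul_of_nonneg_right (le_trans h3 h4) hM0
      linarith
    · have h1 := hMax u h
      linarith
  have hMzero : M = 0 := by
    obtain ⟨s, hs, hfs⟩ := hz z (by rw [hρdef] at hz1; linarith)
    by_cases hsz : s = z
    · rw [hM, ← hsz, hfs, norm_zero]
    have hd0 : 0 < ‖s - z‖ := norm_pos_iff.mpr (sub_ne_zero.mpr hsz)
    obtain ⟨q, hq, hqf⟩ := hpoly z ((((‖s - z‖)⁻¹ : ℝ) : ℂ) • (s - z))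
    have hb : ‖(((‖s - z‖)⁻¹ : ℝ) : ℂ) • (s - z)‖ = 1 := by
      rw [norm_smul, Complex.norm_real, Real.norm_of_nonneg (by positivity)]
      exact inv_mul_cancel₀ hd0.ne'
    have hR : 0 < ρ / (N : ℝ) := div_pos hρ hN0
    have hg0 : q.eval 0 = f z := by
      rw [← hqf 0, zero_smul, add_zero]
    have hg1 : q.eval ((‖s - z‖ : ℝ) : ℂ) = 0 := by
      rw [← hqf, smul_smul, ← Complex.ofReal_mul, mul_inv_cancel₀ hd0.ne', Complex.ofReal_one,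
        one_smul, add_sub_cancel, hfs]
    have hmaps : Set.MapsTo (fun t => q.eval t) (ball (0 : ℂ) (ρ / (N : ℝ)))
        (closedBall (q.eval 0) (4 * M)) := by
      intro t ht
      rw [mem_ball_zero_iff] at ht
      rw [mem_closedBall]
      have h1 : ‖q.eval t‖ ≤ 3 * M := by
        rw [← hqf t]
        apply hbig
        refine le_trans (norm_add_le _ _) ?_
        rw [norm_smul, hb, mul_one]
        have h2 : ρ * (1 + 1 / (N : ℝ)) = ρ + ρ / (N : ℝ) := by ring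
        rw [h2]
        linarith
      have h2 : ‖q.eval 0‖ = M := by rw [hg0, hM]
      have h3 : dist (q.eval t) (q.eval 0) ≤ ‖q.eval t‖ + ‖q.eval 0‖ := by
        rw [dist_eq_norm]
        exact norm_sub_le _ _
      linarith
    have hsε : ‖s - z‖ < ρ / (N : ℝ) := by
      rw [lt_div_iff₀ hN0]
      have h1 : ‖s - z‖ * (N : ℝ) ≤ ε * (N : ℝ) := mul_le_mul_of_nonneg_right hs hN0.le
      rw [hρdef]
      linarith
    have hsch := Complex.dist_le_div_mul_dist_of_mapsTo_ball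
      (f := fun t => q.eval t) (c := 0) (R₁ := ρ / (N : ℝ)) (R₂ := 4 * M)
      (z := ((‖s - z‖ : ℝ) : ℂ)) q.differentiable.differentiableOn hmaps (by
        rw [mem_ball_zero_iff, Complex.norm_real, norm_norm]
        exact hsε)
    rw [hg1, dist_comm, dist_zero_right, hg0, ← hM, dist_zero_right, Complex.norm_real,
      norm_norm] at hsch
    -- M ≤ 4 M / (ρ / N) * ‖s - z‖ ≤ M / 4
    have h1 : 4 * M / (ρ / (N : ℝ)) * ‖s - z‖ = 4 * M * (‖s - z‖ * (N : ℝ)) / ρ := by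
      field_simp
    have h2 : ‖s - z‖ * (N : ℝ) ≤ 1 / 16 * ρ := by
      have h1 : ‖s - z‖ * (N : ℝ) ≤ ε * (N : ℝ) := mul_le_mul_of_nonneg_right hs hN0.le
      rw [hρdef]
      linarith
    have h3 : 4 * M * (‖s - z‖ * (N : ℝ)) / ρ ≤ M / 4 := by
      rw [div_le_iff₀ hρ]
      have := mul_le_mul_of_nonneg_left h2 (by positivity : 0 ≤ 4 * M)
      linarith
    rw [h1] at hsch
    linarith
  rcases le_total ρ ‖x‖ with h | h
  · have h1 := hgrow x h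
    rw [hMzero, mul_zero] at h1
    exact norm_le_zero_iff.mp h1
  · have h1 := hMax x h
    rw [hMzero] at h1
    exact norm_le_zero_iff.mp h1

theorem bern (r : ℕ) : ∃ c : ℝ, 0 < c ∧ ∀ (f : (Fin r → ℂ) → ℂ) (N : ℕ), 1 ≤ N → Continuous f →
    (∀ a b : Fin r → ℂ, ∃ q : Polynomial ℂ, q.natDegree ≤ N ∧ ∀ t : ℂ, q.eval t = f (a + t • b)) →
    ∀ δ ε : ℝ, 0 < δ → 0 < ε → ε * N ≤ c * δ →
    (∀ u : Fin r → ℂ, ‖u‖ < δ → ∃ s : Fin r → ℂ, ‖s - u‖ ≤ ε ∧ f s = 0) → ∀ u, f u = 0 := by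
  refine ⟨1 / 32, by norm_num, ?_⟩
  intro f N hN hf hpoly δ ε hδ _ hε hz u
  refine bern_aux f N δ ε hf hN (fun a b => ?_) hδ hε hz u
  obtain ⟨q, hq, h⟩ := hpoly a b
  exact ⟨q, hq, fun t => (h t).symm⟩

end MP2794d1.GD
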