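import Pool.Agent.Lib.MP_2794d1_ag.GD.Defs

/-!
B3: a form of degree `d` in the Pluecker coordinates of the flag of the `LP lo hi p (μ + N) * W p` is a polynomial in `N`, of degree
at most `L d` on every line.
-/

namespace MP2794d1.GD

open Matrix Complex Filter Topology MP2794d1.PC

/-- polynomial functions of degree at most `L` -/
def IP (L : ℕ) (φ : ℂ → ℂ) : Prop :=
  ∃ q : Polynomial ℂ, q.natDegree ≤ L ∧ ∀ t : ℂ, q.eval t = φ t

theorem IP.const (c : ℂ) (L : ℕ) : IP L (fun _ => c) :=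
  ⟨Polynomial.C c, by rw [Polynomial.natDegree_C]; exact Nat.zero_le _, fun t => by
    rw [Polynomial.eval_C]⟩

theorem IP.mono {L L' : ℕ} {φ : ℂ → ℂ} (h : IP L φ) (hL : L ≤ L') : IP L' φ := by
  obtain ⟨q, hq, h⟩ := h
  exact ⟨q, le_trans hq hL, h⟩

theorem IP.lin (a b : ℂ) : IP 1 (fun t => a + t * b) := by
  refine ⟨Polynomial.C a + Polynomial.X * Polynomial.C b, ?_, fun t => ?_⟩
  · refine le_trans (Polynomial.natDegree_add_le _ _) ?_
    rw [Polynomial.natDegree_C]
    refine max_le (Nat.zero_le _) ?_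
    refine le_trans Polynomial.natDegree_mul_le ?_
    rw [Polynomial.natDegree_X, Polynomial.natDegree_C]
  · rw [Polynomial.eval_add, Polynomial.eval_mul, Polynomial.eval_C, Polynomial.eval_X,
      Polynomial.eval_C]

theorem IP.mul {L L' : ℕ} {φ ψ : ℂ → ℂ} (h : IP L φ) (h' : IP L' ψ) :
    IP (L + L') (fun t => φ t * ψ t) := by
  obtain ⟨q, hq, h⟩ := h
  obtain ⟨q', hq', h'⟩ := h'
  refine ⟨q * q', le_trans Polynomial.natDegree_mul_le (add_le_add hq hq'), fun t => ?_⟩
  rw [Polynomial.eval_mul, h, h']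

theorem IP.add {L : ℕ} {φ ψ : ℂ → ℂ} (h : IP L φ) (h' : IP L ψ) :
    IP L (fun t => φ t + ψ t) := by
  obtain ⟨q, hq, h⟩ := h
  obtain ⟨q', hq', h'⟩ := h'
  refine ⟨q + q', le_trans (Polynomial.natDegree_add_le _ _) (max_le hq hq'), fun t => ?_⟩
  rw [Polynomial.eval_add, h, h']

theorem IP.sum {ι : Type*} (s : Finset ι) {L : ℕ} {φ : ι → ℂ → ℂ} (h : ∀ i ∈ s, IP L (φ i)) :
    IP L (fun t => ∑ i ∈ s, φ i t) := by
  classical
  induction s using Finset.induction_on with
  | empty =>
    simp only [Finset.sum_empty]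
    exact IP.const 0 L
  | insert a s ha ih =>
    simp only [Finset.sum_insert ha]
    exact (h a (Finset.mem_insert_self a s)).add
      (ih fun i hi => h i (Finset.mem_insert_of_mem hi))

theorem IP.prod {ι : Type*} (s : Finset ι) {L : ι → ℕ} {φ : ι → ℂ → ℂ}
    (h : ∀ i ∈ s, IP (L i) (φ i)) :
    IP (∑ i ∈ s, L i) (fun t => ∏ i ∈ s, φ i t) := by
  classical
  induction s using Finset.induction_on with
  | empty =>
    simp only [Finset.prod_empty]
    exact IP.const 1 _
  | insert a s ha ih =>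
    simp only [Finset.prod_insert ha, Finset.sum_insert ha]
    exact (h a (Finset.mem_insert_self a s)).mul
      (ih fun i hi => h i (Finset.mem_insert_of_mem hi))

theorem IP.cmul {L : ℕ} {φ : ℂ → ℂ} (c : ℂ) (h : IP L φ) : IP L (fun t => c * φ t) := by
  have h1 := (IP.const c 0).mul h
  rw [zero_add] at h1
  exact h1

/-- entries of the powers of `A + t B` -/
theorem IP.matpow {n : ℕ} (A B : Matrix (Fin n) (Fin n) ℂ) (l : ℕ) :
    ∀ i j, IP l (fun t => ((A + t • B) ^ l) i j) := by
  induction l with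
  | zero =>
    intro i j
    simp only [pow_zero]
    exact IP.const _ 0
  | succ l ih =>
    intro i j
    have h : (fun t : ℂ => ((A + t • B) ^ (l + 1)) i j) =
        fun t => ∑ k, ((A + t • B) ^ l) i k * (A k j + t * B k j) := by
      funext t
      rw [pow_succ, Matrix.mul_apply]
      apply Finset.sum_congr rfl
      intro k _
      rw [Matrix.add_apply, Matrix.smul_apply, smul_eq_mul]
    rw [h]
    exact IP.sum _ fun k _ => (ih i k).mul (IP.lin _ _)

theorem IP.lp {n : ℕ} (lo hi p : ℤ) (A B : Matrix (Fin n) (Fin n) ℂ) (i j : Fin n) :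
    IP (lpol lo hi p).natDegree (fun t => (LP lo hi p (A + t • B)) i j) := by
  have h : (fun t : ℂ => (LP lo hi p (A + t • B)) i j) =
      fun t => ∑ l ∈ Finset.range ((lpol lo hi p).natDegree + 1),
        (lpol lo hi p).coeff l * ((A + t • B) ^ l) i j := by
    funext t
    unfold LP
    rw [Polynomial.aeval_eq_sum_range, Matrix.sum_apply]
    apply Finset.sum_congr rfl
    intro l _
    rw [Matrix.smul_apply, smul_eq_mul]
  rw [h]
  refine IP.sum _ fun l hl => IP.cmul _ ((IP.matpow A B l i j).mono ?_)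
  exact Nat.lt_succ_iff.mp (Finset.mem_range.mp hl)

theorem IP.minor {n r L : ℕ} {Φ : ℂ → Matrix (Fin n) (Fin r) ℂ}
    (h : ∀ i j, IP L (fun t => Φ t i j)) (f : Fin r → Fin n) :
    IP (r * L) (fun t => MP2794d1.minor (Φ t) f) := by
  have h1 : (fun t => MP2794d1.minor (Φ t) f) = fun t => ∑ σ : Equiv.Perm (Fin r),
      (((Equiv.Perm.sign σ : ℤˣ) : ℤ) : ℂ) * ∏ i, Φ t (f (σ i)) i := by
    funext t
    unfold MP2794d1.minor
    rw [Matrix.det_apply']
    rfl
  rw [h1]
  refine IP.sum _ fun σ _ => IP.cmul _ ?_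
  have h2 := IP.prod (Finset.univ : Finset (Fin r)) (L := fun _ => L)
    (φ := fun i t => Φ t (f (σ i)) i) (fun i _ => h _ _)
  rw [Finset.sum_const, Finset.card_univ, Fintype.card_fin, smul_eq_mul] at h2
  exact h2

theorem form_line {n M : ℕ} (rr : Fin M → ℕ) (lo hi : ℤ) (pp : Fin M → ℤ) : ∃ L : ℕ,
    ∀ (W : (p : Fin M) → Matrix (Fin n) (Fin (rr p)) ℂ) (d : ℕ) (F : (PIdx n M rr → ℂ) → ℂ),
      CForm d F → ∀ A B : Matrix (Fin n) (Fin n) ℂ, ∃ q : Polynomial ℂ, q.natDegree ≤ L * d ∧
        ∀ t : ℂ, q.eval t = F (pmin rr (fun p => LP lo hi (pp p) (A + t • B) * W p)) := by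
  refine ⟨∑ p, rr p * (lpol lo hi (pp p)).natDegree, ?_⟩
  intro W d F hF A B
  obtain ⟨c, hc⟩ := hF
  have h1 : ∀ f : PIdx n M rr, IP (∑ p, rr p * (lpol lo hi (pp p)).natDegree)
      (fun t => pmin rr (fun p => LP lo hi (pp p) (A + t • B) * W p) f) := by
    intro f
    unfold pmin
    refine IP.prod (Finset.univ : Finset (Fin M))
      (L := fun p => rr p * (lpol lo hi (pp p)).natDegree)
      (φ := fun p t => MP2794d1.minor (LP lo hi (pp p) (A + t • B) * W p) (f p))
      (fun p _ => IP.minor ?_ _)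
    intro i j
    have h2 : (fun t : ℂ => (LP lo hi (pp p) (A + t • B) * W p) i j) =
        fun t => ∑ l, W p l j * (LP lo hi (pp p) (A + t • B)) i l := by
      funext t
      rw [Matrix.mul_apply]
      exact Finset.sum_congr rfl fun l _ => mul_comm _ _
    rw [h2]
    exact IP.sum _ fun l _ => IP.cmul _ (IP.lp lo hi (pp p) A B i l)
  have h2 : IP ((∑ p, rr p * (lpol lo hi (pp p)).natDegree) * d)
      (fun t => F (pmin rr (fun p => LP lo hi (pp p) (A + t • B) * W p))) := by
    simp only [hc]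
    refine IP.sum _ fun I _ => IP.cmul _ ?_
    have h3 := IP.prod (Finset.univ : Finset (Fin d))
      (L := fun _ => ∑ p, rr p * (lpol lo hi (pp p)).natDegree)
      (φ := fun i t => pmin rr (fun p => LP lo hi (pp p) (A + t • B) * W p) (I i))
      (fun i _ => h1 _)
    rw [Finset.sum_const, Finset.card_univ, Fintype.card_fin, smul_eq_mul, mul_comm] at h3
    exact h3
  exact h2

theorem form_cont {n M : ℕ} (rr : Fin M → ℕ) (lo hi : ℤ) (pp : Fin M → ℤ)
    (W : (p : Fin M) → Matrix (Fin n) (Fin (rr p)) ℂ) (d : ℕ) (F : (PIdx n M rr → ℂ) → ℂ)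
    (hF : CForm d F) :
    Continuous (fun A : Matrix (Fin n) (Fin n) ℂ =>
      F (pmin rr (fun p => LP lo hi (pp p) A * W p))) := by
  obtain ⟨c, hc⟩ := hF
  simp only [hc]
  refine continuous_finsetSum _ fun I _ => Continuous.mul continuous_const ?_
  refine continuous_finsetProd _ fun i _ => ?_
  unfold pmin
  refine continuous_finsetProd _ fun p _ => ?_
  unfold MP2794d1.minor
  refine Continuous.matrix_det ?_
  refine Continuous.matrix_submatrix ?_ _ _
  refine Continuous.matrix_mul ?_ continuous_const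
  unfold LP
  exact Polynomial.continuous_aeval _

end MP2794d1.GD
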