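import Pool.Agent.Lib.MP_2794d1_ag.AH.B04
import Pool.Agent.Lib.MP_2794d1_ag.AE.Defs

/-!
C0: a variation on the upper half plane as a variation on the complex manifold `UH`, the upper half plane as an open
subset of `Fin 1 → ℂ`, with the trivial group.
-/

namespace MP2794d1.GD

open Matrix Complex Filter Topology MP2794d1.AH
open scoped ContDiff Manifold

/-- the upper half plane as an open subset of `Fin 1 → ℂ` -/
def UH : TopologicalSpace.Opens (Fin 1 → ℂ) :=
  ⟨{v | 0 < (v 0).im}, isOpen_lt continuous_const (Complex.continuous_im.comp (continuous_apply 0))⟩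

theorem UH_pos (x : UH) : 0 < (x.1 0).im := x.2

/-- the trivial action of the trivial group -/
instance instUH : MulAction Unit UH where
  smul _ x := x
  one_smul _ := rfl
  mul_smul _ _ _ := rfl

/-- the point of `UH` of a complex number -/
noncomputable def uc (z : ℂ) : UH :=
  if h : 0 < z.im then ⟨fun _ => z, h⟩ else ⟨fun _ => Complex.I, by
    show 0 < Complex.I.im
    simp⟩

theorem uc_val {z : ℂ} (hz : 0 < z.im) : (uc z).1 0 = z := by
  unfold uc
  rw [dif_pos hz]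

theorem uc_coe (x : UH) : uc (x.1 0) = x := by
  unfold uc
  rw [dif_pos (UH_pos x)]
  apply Subtype.ext
  funext i
  show x.1 0 = x.1 i
  rw [Subsingleton.elim i 0]

instance instUHconn : ConnectedSpace UH := by
  have h1 : Convex ℝ {v : Fin 1 → ℂ | 0 < (v 0).im} := by
    intro v hv w hw a b ha hb hab
    show 0 < ((a • v + b • w) 0).im
    have hv' : 0 < (v 0).im := hv
    have hw' : 0 < (w 0).im := hw
    have h2 : ((a • v + b • w) 0).im = a * (v 0).im + b * (w 0).im := by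
      simp
    rw [h2]
    rcases ha.lt_or_eq with h | h
    · have := mul_pos h hv'
      have := mul_nonneg hb hw'.le
      linarith
    · rw [← h, zero_add] at hab
      rw [← h, hab]
      linarith
  have h2 : IsConnected {v : Fin 1 → ℂ | 0 < (v 0).im} := by
    refine ⟨⟨fun _ => Complex.I, ?_⟩, h1.isPreconnected⟩
    show 0 < Complex.I.im
    simp
  exact isConnected_iff_connectedSpace.1 h2

theorem uc_hol (z : ℂ) (hz : 0 < z.im) : ContMDiffAt 𝓘(ℂ, ℂ) 𝓘(ℂ, Fin 1 → ℂ) ω uc z := by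
  have h0 : ContMDiffAt 𝓘(ℂ, ℂ) 𝓘(ℂ, Fin 1 → ℂ) ω (Subtype.val ∘ uc) z ↔
      ContMDiffAt 𝓘(ℂ, ℂ) 𝓘(ℂ, Fin 1 → ℂ) ω uc z :=
    ChartedSpace.liftPropWithinAt_subtypeVal_comp_iff ..
  rw [← h0]
  have h1 : ContMDiffAt 𝓘(ℂ, ℂ) 𝓘(ℂ, Fin 1 → ℂ) ω (fun z : ℂ => (fun _ : Fin 1 => z)) z := by
    refine ContDiff.contMDiff ?_ |>.contMDiffAt
    exact contDiff_pi.2 fun _ => contDiff_id
  refine h1.congr_of_eventuallyEq ?_
  have h2 : ∀ᶠ w : ℂ in 𝓝 z, 0 < w.im :=
    (isOpen_lt continuous_const Complex.continuous_im).mem_nhds hz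
  filter_upwards [h2] with w hw
  funext i
  show (uc w).1 i = w
  rw [Subsingleton.elim i 0, uc_val hw]

/-- an analytic function on the upper half plane is holomorphic on `UH` -/
theorem hf_of_analytic (f : ℂ → ℂ) (x : UH) (hf : AnalyticAt ℂ f (x.1 0)) :
    Hf 1 (fun y : UH => f (y.1 0)) x := by
  unfold Hf
  have h1 : ContMDiffAt 𝓘(ℂ, Fin 1 → ℂ) 𝓘(ℂ, ℂ) ω (fun v : Fin 1 → ℂ => f (v 0)) x.1 := by
    refine ContDiffAt.contMDiffAt ?_
    have h2 : ContDiffAt ℂ ω (fun v : Fin 1 → ℂ => v 0) x.1 := (contDiff_apply ℂ ℂ 0).contDiffAt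
    exact ContDiffAt.comp x.1 (g := f) hf.contDiffAt h2
  exact contMDiffAt_subtype_iff.2 h1

theorem dX_uc (f : UH → ℂ) (x : UH) (hf : Hf 1 f x) :
    AnalyticAt ℂ (fun z => f (uc z)) (x.1 0) ∧
    deriv (fun z => f (uc z)) (x.1 0) = dX 1 f x (vel 1 uc (x.1 0)) := by
  have h1 := uc_hol (x.1 0) (UH_pos x)
  have h2 : Hf 1 f (uc (x.1 0)) := by
    rw [uc_coe]
    exact hf
  have h3 := dX_comp h2 h1
  rw [uc_coe] at h3
  exact h3

theorem vel_uc_ne (x : UH) : vel 1 uc (x.1 0) ≠ 0 := by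
  intro h0
  have h1 := dX_uc (fun y : UH => y.1 0) x (hf_of_analytic (fun z => z) x analyticAt_id)
  rw [h0] at h1
  have h2 : deriv (fun z => (uc z).1 0) (x.1 0) = 1 := by
    have h3 : (fun z => (uc z).1 0) =ᶠ[𝓝 (x.1 0)] fun z => z := by
      have h4 : ∀ᶠ w : ℂ in 𝓝 (x.1 0), 0 < w.im :=
        (isOpen_lt continuous_const Complex.continuous_im).mem_nhds (UH_pos x)
      filter_upwards [h4] with w hw
      exact uc_val hw
    rw [h3.deriv_eq]
    exact deriv_id _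
  rw [h2] at h1
  have h5 : dX 1 (fun y : UH => y.1 0) x 0 = 0 :=
    map_zero (mfderiv 𝓘(ℂ, Fin 1 → ℂ) 𝓘(ℂ, ℂ) (fun y : UH => y.1 0) x)
  rw [h5] at h1
  exact one_ne_zero h1.2

theorem vel_span (x : UH) (v : Fin 1 → ℂ) : ∃ a : ℂ, v = a • vel 1 uc (x.1 0) := by
  have h1 := vel_uc_ne x
  have h2 : vel 1 uc (x.1 0) 0 ≠ 0 := by
    intro h
    apply h1
    funext i
    rw [Subsingleton.elim i 0, h]
    rfl
  refine ⟨v 0 / vel 1 uc (x.1 0) 0, ?_⟩
  funext i
  rw [Subsingleton.elim i 0, Pi.smul_apply, smul_eq_mul, div_mul_cancel₀ _ h2]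

/-- the variation on `UH` -/
noncomputable def toM {n : ℕ} (V : PolVHS n) : MVHS n 1 UH Unit where
  wt := V.wt
  rho := 1
  Q := V.Q
  F := fun p x => V.F p (x.1 0)
  lo := V.lo
  hi := V.hi
  F_lo := fun x => V.F_lo _ (UH_pos x)
  F_hi := fun x => V.F_hi _ (UH_pos x)
  flat := by
    intro g
    show ((1 : Matrix (Fin n) (Fin n) ℤ))ᵀ * V.Q * (1 : Matrix (Fin n) (Fin n) ℤ) = V.Q
    rw [Matrix.transpose_one, Matrix.one_mul, Matrix.mul_one]
  phs := fun x => V.phs _ (UH_pos x)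
  hol := by
    intro p x
    obtain ⟨r, W, hW, hev⟩ := V.hol p (x.1 0) (UH_pos x)
    refine ⟨r, fun y => W (y.1 0), fun i j => hf_of_analytic (fun z => W z i j) x (hW i j), ?_⟩
    have hc : ContinuousAt (fun y : UH => y.1 0) x :=
      ((continuous_apply (0 : Fin 1)).comp continuous_subtype_val).continuousAt
    exact hc.eventually hev
  griffiths := by
    intro p x s hs hF v
    obtain ⟨a, ha⟩ := vel_span x v
    have hc : ContinuousAt uc (x.1 0) := (uc_hol _ (UH_pos x)).continuousAt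
    have hF2 : ∀ᶠ z in 𝓝 (x.1 0), s (uc z) ∈ V.F p z := by
      have h1 : ∀ᶠ y in 𝓝 (uc (x.1 0)), s y ∈ V.F p (y.1 0) := by
        rw [uc_coe]
        exact hF
      have h2 := hc.eventually h1
      have h4 : ∀ᶠ w : ℂ in 𝓝 (x.1 0), 0 < w.im :=
        (isOpen_lt continuous_const Complex.continuous_im).mem_nhds (UH_pos x)
      filter_upwards [h2, h4] with z hz1 hz2
      rw [uc_val hz2] at hz1
      exact hz1
    have h5 := V.griffiths p (x.1 0) (UH_pos x) (fun z => s (uc z)) (fun i => (dX_uc _ x (hs i)).1)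
      hF2
    have h6 : (fun i => dX 1 (fun y => s y i) x v) =
        a • fun i => deriv (fun z => s (uc z) i) (x.1 0) := by
      funext i
      rw [ha]
      show _ = a • deriv (fun z => s (uc z) i) (x.1 0)
      rw [(dX_uc _ x (hs i)).2]
      exact map_smul (mfderiv 𝓘(ℂ, Fin 1 → ℂ) 𝓘(ℂ, ℂ) (fun y => s y i) x) a _
    rw [h6]
    exact (V.F (p - 1) (x.1 0)).smul_mem a h5
  equiv := by
    intro g p x
    show V.F p (x.1 0) = (V.F p (x.1 0)).map (im (1 : Matrix (Fin n) (Fin n) ℤ)).mulVecLin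
    have h1 : im (1 : Matrix (Fin n) (Fin n) ℤ) = 1 := by
      unfold im
      rw [Matrix.map_one _ Int.cast_zero Int.cast_one]
    rw [h1, Matrix.mulVecLin_one, Submodule.map_id]

theorem toM_F {n : ℕ} (V : PolVHS n) (p : ℤ) (x : UH) : (toM V).F p x = V.F p (x.1 0) := rfl

theorem toM_gr {n : ℕ} (V : PolVHS n) (x : UH) (μ : Matrix (Fin n) (Fin n) ℂ) :
    IsGrX (toM V) x μ ↔ IsGrading V (x.1 0) μ := Iff.rfl

theorem toM_cm {n : ℕ} (V : PolVHS n) (x : UH) (h : ℝ) :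
    IsCMX (toM V) x h ↔ IsCMc V (x.1 0) h := Iff.rfl

theorem toM_gMT {n : ℕ} (V : PolVHS n) : gMT (toM V) = genericMT V := by
  unfold gMT genericMT
  congr 1
  ext m
  constructor
  · rintro ⟨h1, h2⟩
    refine ⟨h1, fun z hz μ hμ => ?_⟩
    have h3 := h2 (uc z) μ
    rw [toM_gr, uc_val hz] at h3
    exact h3 hμ
  · rintro ⟨h1, h2⟩
    exact ⟨h1, fun x μ hμ => h2 _ (UH_pos x) μ hμ⟩

end MP2794d1.GD
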