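import Pool.Agent.Lib.MP_2794d1_ag.GD.C0
import Pool.Agent.Lib.MP_2794d1_ag.AC.G10
import Pool.Agent.Lib.MP_2794d1_ag.AC.G8
import Pool.Agent.Lib.MP_2794d1_ag.AN.C1
import Pool.Agent.Lib.MP_2794d1_ag.J06
import Pool.Agent.Lib.MP_2794d1_ag.AH.B08

/-!
C0b: if the variation on the half plane is of Shimura type (`IsShimuraCurve`) and not constant, then `toM V` is of
Shimura type with dominant period map of rank one.
-/

namespace MP2794d1.GD

open Matrix Complex Filter Topology MP2794d1.AH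
open scoped ContDiff Manifold

theorem c0b_Dz_mem {n : ℕ} (W : Submodule ℂ (Matrix (Fin n) (Fin n) ℂ))
    (f : ℂ → Matrix (Fin n) (Fin n) ℂ) (z : ℂ) (hf : SmA f z) (h : ∀ᶠ y in 𝓝 z, f y ∈ W) :
    Dz f z ∈ W := by
  by_contra hcon
  obtain ⟨φ, hφ1, hφ2⟩ := Submodule.exists_dual_map_eq_bot_of_notMem hcon inferInstance
  have hφ : ∀ M ∈ W, φ M = 0 := by
    intro M hM
    have h3 : φ M ∈ W.map φ := Submodule.mem_map_of_mem hM
    rw [hφ2] at h3
    exact (Submodule.mem_bot ℂ).1 h3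
  have hphi : ∀ M : Matrix (Fin n) (Fin n) ℂ,
      φ M = ∑ i, ∑ j, φ (Matrix.single i j 1) * M i j := by
    intro M
    rw [AN.c1_phi φ M]
    exact Finset.sum_congr rfl fun i _ => Finset.sum_congr rfl fun j _ => mul_comm _ _
  apply hφ1
  rw [hphi]
  have hd : ∀ i j, DifferentiableAt ℝ (fun y => f y i j) z := fun i j => smooth_diff (hf i j)
  have h1 : dz (fun y => ∑ i, ∑ j, φ (Matrix.single i j 1) * f y i j) z =
      ∑ i, ∑ j, φ (Matrix.single i j 1) * Dz f z i j := by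
    rw [dz_sum Finset.univ fun i _ => ?_]
    · refine Finset.sum_congr rfl fun i _ => ?_
      rw [dz_sum Finset.univ fun j _ => ?_]
      · exact Finset.sum_congr rfl fun j _ => dz_cmul _ (hd i j)
      · exact (hd i j).const_mul _
    · exact DifferentiableAt.fun_sum fun j _ => (hd i j).const_mul _
  rw [← h1]
  have h2 : (fun y => ∑ i, ∑ j, φ (Matrix.single i j 1) * f y i j) =ᶠ[𝓝 z] fun _ => (0 : ℂ) := by
    filter_upwards [h] with y hy
    rw [← hphi]
    exact hφ _ hy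
  rw [dz_congr h2, dz_const]

theorem TV_mem_MT {n : ℕ} (V : PolVHS n) (h : ∀ z : ℂ, 0 < z.im → ∃ μ, IsGrading V z μ ∧
    μ ∈ cx (genericMT V : Set (Matrix (Fin n) (Fin n) ℚ))) {z : ℂ} (hz : 0 < z.im) :
    TV V z ∈ cx (genericMT V : Set (Matrix (Fin n) (Fin n) ℚ)) := by
  have h1 : ∀ y : ℂ, 0 < y.im → JV V y ∈ cx (genericMT V : Set (Matrix (Fin n) (Fin n) ℚ)) := by
    intro y hy
    obtain ⟨μ, h2, h3⟩ := h y hy
    have h4 : IsGr V.wt (fun p => V.F p y) μ := h2
    rw [gr_unique (V.phs y hy) (JV_gr V hy) h4]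
    exact h3
  refine c0b_Dz_mem _ (JV V) z (JV_smooth V hz) ?_
  filter_upwards [(isOpen_lt continuous_const Complex.continuous_im).mem_nhds
    (show z ∈ {y : ℂ | 0 < y.im} from hz)] with y hy
  exact h1 y hy

theorem c0b_span {n : ℕ} (V : PolVHS n) (hS : IsShimuraCurve V) {z : ℂ} (hz : 0 < z.im)
    (hT : TV V z ≠ 0) (A : Matrix (Fin n) (Fin n) ℚ) (hA : A ∈ genericMT V) :
    ∃ a : ℂ, cm A - a • TV V z ∈ FEnd (fun p => V.F p z) 0 := by
  have h1 := TV_mem_MT V hS.grading hz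
  have h2 : ∃ X₀ ∈ genericMT V, cm X₀ ∉ FEnd (fun p => V.F p z) 0 := by
    by_contra hcon
    push Not at hcon
    apply hT
    refine AC.TV_F0 V hz ?_
    have h3 : cx (genericMT V : Set (Matrix (Fin n) (Fin n) ℚ)) ≤
        FEnd (fun p => V.F p z) 0 := by
      refine Submodule.span_le.2 ?_
      rintro _ ⟨X, hX, rfl⟩
      exact hcon X hX
    exact h3 h1
  obtain ⟨X₀, hX₀, hX₀'⟩ := h2
  have hF : ∀ M : Matrix (Fin n) (Fin n) ℂ, M ∈ FEnd (fun p => V.F p z) 0 ↔
      ∀ p, ∀ x ∈ V.F p z, M *ᵥ x ∈ V.F p z := by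
    intro M
    constructor
    · intro h p x hx
      have h3 := h p x hx
      simpa using h3
    · intro h p x hx
      have h3 := h p x hx
      simpa using h3
  have h3 : ∀ Y ∈ genericMT V, ∃ c : ℂ, cm Y - c • cm X₀ ∈ FEnd (fun p => V.F p z) 0 := by
    intro Y hY
    obtain ⟨a, b, hab, h4⟩ := hS.dim z hz Y hY X₀ hX₀
    have h5 : a • cm Y + b • cm X₀ ∈ FEnd (fun p => V.F p z) 0 := (hF _).2 h4
    by_cases ha : a = 0
    · exfalso
      rw [ha, zero_smul, zero_add] at h5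
      have hb : b ≠ 0 := by
        rcases hab with h | h
        · exact absurd ha h
        · exact h
      apply hX₀'
      have h6 := Submodule.smul_mem _ b⁻¹ h5
      rwa [smul_smul, inv_mul_cancel₀ hb, one_smul] at h6
    · refine ⟨-(a⁻¹ * b), ?_⟩
      have h6 := Submodule.smul_mem _ a⁻¹ h5
      rw [smul_add, smul_smul, smul_smul, inv_mul_cancel₀ ha, one_smul] at h6
      rw [neg_smul, sub_neg_eq_add]
      exact h6
  have h4 : ∀ Y ∈ cx (genericMT V : Set (Matrix (Fin n) (Fin n) ℚ)), ∃ c : ℂ,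
      Y - c • cm X₀ ∈ FEnd (fun p => V.F p z) 0 := by
    intro Y hY
    refine Submodule.span_induction (p := fun Y _ => ∃ c : ℂ,
      Y - c • cm X₀ ∈ FEnd (fun p => V.F p z) 0) ?_ ?_ ?_ ?_ hY
    · rintro _ ⟨Y, hY, rfl⟩
      exact h3 Y hY
    · refine ⟨0, ?_⟩
      rw [zero_smul, sub_zero]
      exact Submodule.zero_mem _
    · rintro x y _ _ ⟨c, hc⟩ ⟨d, hd⟩
      refine ⟨c + d, ?_⟩
      rw [add_smul, add_sub_add_comm]
      exact Submodule.add_mem _ hc hd
    · rintro a x _ ⟨c, hc⟩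
      refine ⟨a * c, ?_⟩
      rw [mul_smul, ← smul_sub]
      exact Submodule.smul_mem _ a hc
  obtain ⟨c, hc⟩ := h4 _ h1
  obtain ⟨d, hd⟩ := h3 A hA
  have hc0 : c ≠ 0 := by
    intro h
    rw [h, zero_smul, sub_zero] at hc
    exact hT (AC.TV_F0 V hz hc)
  refine ⟨d / c, ?_⟩
  have h5 : cm A - (d / c) • TV V z =
      (cm A - d • cm X₀) - (d / c) • (TV V z - c • cm X₀) := by
    rw [smul_sub, smul_smul, div_mul_cancel₀ _ hc0]
    abel
  rw [h5]
  exact Submodule.sub_mem _ hd (Submodule.smul_mem _ _ hc)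

theorem toM_sec {n : ℕ} (V : PolVHS n) (p : ℤ) (x : UH) (s : UH → (Fin n → ℂ))
    (hs : ∀ i, Hf 1 (fun y => s y i) x) (hF : ∀ᶠ y in 𝓝 x, s y ∈ (toM V).F p y) (a : ℂ) :
    (fun i => dX 1 (fun y => s y i) x (a • vel 1 uc (x.1 0))) - a • (TV V (x.1 0) *ᵥ s x) ∈
      V.F p (x.1 0) := by
  have hc : ContinuousAt uc (x.1 0) := (uc_hol _ (UH_pos x)).continuousAt
  have hF2 : ∀ᶠ z in 𝓝 (x.1 0), s (uc z) ∈ V.F p z := by
    have h1 : ∀ᶠ y in 𝓝 (uc (x.1 0)), s y ∈ V.F p (y.1 0) := by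
      rw [uc_coe]
      exact hF
    have h2 := hc.eventually h1
    have h4 : ∀ᶠ w : ℂ in 𝓝 (x.1 0), 0 < w.im :=
      (isOpen_lt continuous_const Complex.continuous_im).mem_nhds (UH_pos x)
    filter_upwards [h2, h4] with z hz1 hz2
    rw [uc_val hz2] at hz1
    exact hz1
  have h5 := section_theta V (UH_pos x) p (fun z => s (uc z)) (fun i => (dX_uc _ x (hs i)).1) hF2
  have h6 : (fun i => dX 1 (fun y => s y i) x (a • vel 1 uc (x.1 0))) =
      a • fun i => deriv (fun z => s (uc z) i) (x.1 0) := by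
    funext i
    show _ = a • deriv (fun z => s (uc z) i) (x.1 0)
    rw [(dX_uc _ x (hs i)).2]
    exact map_smul (mfderiv 𝓘(ℂ, Fin 1 → ℂ) 𝓘(ℂ, ℂ) (fun y => s y i) x) a _
  rw [h6, ← smul_sub]
  have h7 := (V.F p (x.1 0)).smul_mem a h5
  rw [uc_coe] at h7
  exact h7

theorem c0b_ker {n : ℕ} (V : PolVHS n) (x : UH) (hT : TV V (x.1 0) = 0) :
    kerX (toM V) x = ⊤ := by
  rw [eq_top_iff]
  intro v _
  show ∀ (p : ℤ) (s : UH → (Fin n → ℂ)), (∀ i, Hf 1 (fun y => s y i) x) →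
    (∀ᶠ y in 𝓝 x, s y ∈ (toM V).F p y) → (fun i => dX 1 (fun y => s y i) x v) ∈ (toM V).F p x
  intro p s hs hF
  obtain ⟨a, ha⟩ := vel_span x v
  have h2 := toM_sec V p x s hs hF a
  rw [hT, Matrix.zero_mulVec, smul_zero, sub_zero, ← ha] at h2
  exact h2

theorem c0b_rank_le {n : ℕ} (V : PolVHS n) (x : UH) : rankX (toM V) x ≤ 1 := by
  unfold rankX
  have h := Submodule.finrank_quotient_le (kerX (toM V) x)
  rw [Module.finrank_fin_fun] at h
  exact h

theorem c0b_rank_zero {n : ℕ} (V : PolVHS n) (x : UH) (hT : TV V (x.1 0) = 0) :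
    rankX (toM V) x = 0 := by
  unfold rankX
  rw [c0b_ker V x hT]
  have h := Submodule.finrank_quotient_add_finrank (⊤ : Submodule ℂ (Fin 1 → ℂ))
  rw [finrank_top] at h
  omega

/-- the differential of the period map does not vanish at `x`, so the rank is one -/
theorem c0b_rank_one {n : ℕ} (V : PolVHS n) (x : UH) (hT : TV V (x.1 0) ≠ 0) :
    rankX (toM V) x = 1 := by
  refine le_antisymm (c0b_rank_le V x) ?_
  by_contra hcon
  have h0 : rankX (toM V) x = 0 := by omega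
  have h1 : kerX (toM V) x = ⊤ := by
    unfold rankX at h0
    have h := Submodule.finrank_quotient_add_finrank (kerX (toM V) x)
    rw [h0, zero_add] at h
    exact Submodule.eq_top_of_finrank_eq h
  apply hT
  refine AC.TV_F0 V (UH_pos x) ?_
  intro p y hy
  obtain ⟨s, hs, hF, hsx⟩ := B08_sec (toM V) x p y hy
  have h2 : vel 1 uc (x.1 0) ∈ kerX (toM V) x := by
    rw [h1]
    exact Submodule.mem_top
  have h3 : (fun i => dX 1 (fun y => s y i) x (vel 1 uc (x.1 0))) ∈ V.F p (x.1 0) := h2 p s hs hF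
  have h4 := toM_sec V p x s hs hF 1
  rw [one_smul, one_smul, hsx] at h4
  have h5 := (V.F p (x.1 0)).sub_mem h3 h4
  rw [sub_sub_cancel] at h5
  show TV V (x.1 0) *ᵥ y ∈ V.F (p + 0) (x.1 0)
  rw [add_zero]
  exact h5

/-- Shimura type and nonconstant period map: dominant period map of rank one -/
theorem dom_of_curve {n : ℕ} (V : PolVHS n) (hS : IsShimuraCurve V) :
    IsShimuraDom (toM V) 1 where
  grading := by
    intro x
    rw [toM_gMT]
    exact hS.grading _ (UH_pos x)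
  lie := by
    rw [toM_gMT]
    exact hS.lie
  sv1 := by
    intro x A hA p y hy
    rw [toM_gMT] at hA
    exact hS.sv1 _ (UH_pos x) A hA p y hy
  dom := by
    intro x hx A hA
    rw [toM_gMT] at hA
    have hT : TV V (x.1 0) ≠ 0 := by
      intro h
      rw [c0b_rank_zero V x h] at hx
      exact zero_ne_one hx
    obtain ⟨a, ha⟩ := c0b_span V hS (UH_pos x) hT A hA
    refine ⟨a • vel 1 uc (x.1 0), fun p s hs hF => ?_⟩
    have h1 := toM_sec V p x s hs hF a
    have h2 : s x ∈ V.F p (x.1 0) := hF.self_of_nhds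
    have h3 := ha p (s x) h2
    rw [add_zero, Matrix.sub_mulVec, Matrix.smul_mulVec] at h3
    have h4 := (V.F p (x.1 0)).sub_mem h1 h3
    have h5 : ((fun i => dX 1 (fun y => s y i) x (a • vel 1 uc (x.1 0))) -
        a • (TV V (x.1 0) *ᵥ s x)) - (cm A *ᵥ s x - a • (TV V (x.1 0) *ᵥ s x)) =
        (fun i => dX 1 (fun y => s y i) x (a • vel 1 uc (x.1 0))) - cm A *ᵥ s x := by
      abel
    rw [h5] at h4
    exact h4

theorem exists_rank_one {n : ℕ} (V : PolVHS n)
    (hnc : ∃ z w : ℂ, 0 < z.im ∧ 0 < w.im ∧ ∃ p, V.F p z ≠ V.F p w) :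
    ∃ x : UH, rankX (toM V) x = 1 := by
  by_contra hcon
  push Not at hcon
  obtain ⟨z, w, hz, hw, p, hp⟩ := hnc
  have h1 : ∀ y : ℂ, 0 < y.im → TV V y = 0 := by
    intro y hy
    by_contra h
    have h2 := hcon (uc y)
    apply h2
    refine c0b_rank_one V (uc y) ?_
    rw [uc_val hy]
    exact h
  have hU : IsOpen {y : ℂ | 0 < y.im} := isOpen_lt continuous_const Complex.continuous_im
  have hUc : IsPreconnected {y : ℂ | 0 < y.im} := (convex_halfSpace_im_gt 0).isPreconnected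
  exact hp (AC.G10_fam V _ hU hUc (fun _ h => h) (fun y hy => h1 y hy) p z hz w hw)

end MP2794d1.GD
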