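import Pool.Agent.Lib.MP_2794d1_ag.PG.E2

/-!
C2: `rho_bdd`: the integral matrices `ρ(g)` of the elements `g` with `z ∈ K`, `g z ∈ K` (`K` compact) form a finite set: the
columns `v = ρ(g) e_i` have Hodge norm `qf V (g z) v = qf V z e_i` (`qf_equiv`), bounded on `K`, and `v = S (S⁻¹ v)` in an
adapted frame at `g z` (`frame_bound`, `qf_adapted`). `class_count`: points of `K` with pairwise different Hodge flags in at
most `#S` classes under the group number at most `B #S`.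
-/

namespace MP2794d1.GD

open Matrix Complex Filter Topology MP2794d1.PG

theorem qf_bdd {n : ℕ} (V : PolVHS n) (K : Set ℂ) (hK : IsCompact K)
    (hKH : ∀ z ∈ K, 0 < z.im) : ∃ m : ℝ, 0 ≤ m ∧ ∀ z ∈ K, ∀ i, qf V z (Pi.single i 1) ≤ m := by
  have h1 : ∀ i : Fin n, ∃ m : ℝ, ∀ z ∈ K, qf V z (Pi.single i 1) ≤ m := by
    intro i
    have hcont : ContinuousOn (fun z => qf V z (Pi.single i 1)) K := fun z hz =>
      (qf_smooth V (hKH z hz) (Pi.single i 1)).continuousAt.continuousWithinAt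
    obtain ⟨m, hm⟩ := hK.bddAbove_image hcont
    exact ⟨m, fun z hz => hm ⟨z, hz, rfl⟩⟩
  choose m hm using h1
  refine ⟨∑ i, |m i|, Finset.sum_nonneg fun i _ => abs_nonneg _, fun z hz i => ?_⟩
  calc qf V z (Pi.single i 1) ≤ m i := hm i z hz
    _ ≤ |m i| := le_abs_self _
    _ ≤ ∑ i, |m i| := Finset.single_le_sum (f := fun i => |m i|) (fun j _ => abs_nonneg _)
        (Finset.mem_univ i)

/-- the entries of `ρ(g)` are bounded for `z, g z ∈ K` -/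
theorem rho_entries {n : ℕ} (V : PolVHS n) (K : Set ℂ) (hK : IsCompact K)
    (hKH : ∀ z ∈ K, 0 < z.im) : ∃ B : ℕ, ∀ (g : V.grp) (z : ℂ), z ∈ K → mob g z ∈ K →
      ∀ i j, |(V.rho g : Matrix (Fin n) (Fin n) ℤ) i j| ≤ (B : ℤ) := by
  obtain ⟨m, hm0, hm⟩ := qf_bdd V K hK hKH
  obtain ⟨C, hC0, hC⟩ := frame_bound V m
  obtain ⟨B, hB⟩ := exists_nat_ge ((n : ℝ) * (C * (1 + m)))
  refine ⟨B, fun g z hz hgz i j => ?_⟩
  have hz0 := hKH z hz
  have hz1 := hKH _ hgz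
  obtain ⟨S, d, hS⟩ := exists_adapted (V.phs _ hz1)
  have hent := hC _ hz1 (hm _ hgz) S d hS
  set v : Fin n → ℂ := im (V.rho g : Matrix (Fin n) (Fin n) ℤ) *ᵥ (Pi.single j 1) with hv
  have h1 : qf V (mob g z) v ≤ m := by
    rw [hv, qf_equiv V g hz0]
    exact hm z hz j
  rw [qf_adapted V hz1 hS] at h1
  have h2 : ∀ a, ‖(S⁻¹ *ᵥ v) a‖ ≤ 1 + m := L05_norm_le _ h1
  have h3 : v = S *ᵥ (S⁻¹ *ᵥ v) := by
    rw [Matrix.mulVec_mulVec, Matrix.mul_nonsing_inv S hS.inv, Matrix.one_mulVec]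
  have h4 : v i = (((V.rho g : Matrix (Fin n) (Fin n) ℤ) i j : ℤ) : ℂ) := by
    rw [hv, Matrix.mulVec_single_one]
    rfl
  have h5 : ‖v i‖ ≤ (n : ℝ) * (C * (1 + m)) := by
    rw [h3]
    show ‖∑ a, S i a * (S⁻¹ *ᵥ v) a‖ ≤ _
    refine (norm_sum_le _ _).trans ?_
    refine (Finset.sum_le_card_nsmul _ _ (C * (1 + m)) fun a _ => ?_).trans ?_
    · rw [norm_mul]
      exact mul_le_mul (hent i a).1 (h2 a) (norm_nonneg _) hC0
    · simp
  have h6 : |((((V.rho g : Matrix (Fin n) (Fin n) ℤ) i j : ℤ)) : ℝ)| ≤ (B : ℝ) := by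
    rw [h4] at h5
    have h7 : ‖(((V.rho g : Matrix (Fin n) (Fin n) ℤ) i j : ℤ) : ℂ)‖ =
        |((((V.rho g : Matrix (Fin n) (Fin n) ℤ) i j : ℤ)) : ℝ)| := by
      rw [Complex.norm_intCast]
    rw [h7] at h5
    exact h5.trans hB
  exact_mod_cast h6

theorem rho_bdd {n : ℕ} (V : PolVHS n) (K : Set ℂ) (hK : IsCompact K)
    (hKH : ∀ z ∈ K, 0 < z.im) : ∃ R : Finset (Matrix (Fin n) (Fin n) ℤ),
      ∀ (g : V.grp) (z : ℂ), z ∈ K → mob g z ∈ K →
        (V.rho g : Matrix (Fin n) (Fin n) ℤ) ∈ R := by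
  obtain ⟨B, hB⟩ := rho_entries V K hK hKH
  have hfin : {A : Matrix (Fin n) (Fin n) ℤ |
      ∀ i, A i ∈ {r : Fin n → ℤ | ∀ j, r j ∈ Set.Icc (-(B : ℤ)) B}}.Finite :=
    Set.Finite.pi' fun i => Set.Finite.pi' fun j => Set.finite_Icc _ _
  refine ⟨hfin.toFinset, fun g z hz hgz => ?_⟩
  rw [Set.Finite.mem_toFinset]
  intro i j
  exact abs_le.1 (hB g z hz hgz i j)

theorem class_count {n : ℕ} (V : PolVHS n) (K : Set ℂ) (hK : IsCompact K)
    (hKH : ∀ z ∈ K, 0 < z.im) : ∃ B : ℕ, ∀ (P S : Finset ℂ), (∀ z ∈ P, z ∈ K) →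
      (∀ z ∈ P, ∀ w ∈ P, (∀ p, V.F p z = V.F p w) → z = w) →
      (∀ z ∈ P, ∃ g : V.grp, ∃ w ∈ S, 0 < w.im ∧ z = mob g w) → P.card ≤ B * S.card := by
  classical
  obtain ⟨R, hR⟩ := rho_bdd V K hK hKH
  refine ⟨R.card, fun P S hP hinj hcl => ?_⟩
  choose! g w hw using hcl
  refine Finset.card_le_mul_card_image_of_maps_to (f := w) (fun z hz => (hw z hz).1) _
    fun b _ => ?_
  rcases Finset.eq_empty_or_nonempty (P.filter fun z => w z = b) with h0 | ⟨z₀, hz₀⟩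
  · rw [h0]
    simp
  rw [Finset.mem_filter] at hz₀
  obtain ⟨hz₀P, hz₀b⟩ := hz₀
  obtain ⟨-, hb0, hz₀w⟩ := hw z₀ hz₀P
  have key : ∀ z ∈ P.filter (fun z => w z = b), z = mob (g z * (g z₀)⁻¹ : V.grp) z₀ := by
    intro z hz
    rw [Finset.mem_filter] at hz
    obtain ⟨hzP, hzb⟩ := hz
    obtain ⟨-, hz0, hzw⟩ := hw z hzP
    have e1 : z = mob (g z) b := by rw [← hzb]; exact hzw
    have e2 : z₀ = mob (g z₀) b := by rw [← hz₀b]; exact hz₀w
    have hb : 0 < b.im := by rw [← hzb]; exact hz0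
    have e3 : ∀ a c : V.grp, mob (a * c⁻¹ : V.grp) (mob c b) = mob a b := by
      intro a c
      rw [mob_mob _ _ _ hb, ← Subgroup.coe_mul, inv_mul_cancel_right]
    have e4 : mob (g z * (g z₀)⁻¹ : V.grp) z₀ = mob (g z * (g z₀)⁻¹ : V.grp) (mob (g z₀) b) :=
      congrArg _ e2
    rw [e4, e3]
    exact e1
  refine Finset.card_le_card_of_injOn
    (fun z => (V.rho (g z * (g z₀)⁻¹) : Matrix (Fin n) (Fin n) ℤ)) (fun z hz => ?_) ?_
  · have hz' := Finset.mem_coe.1 hz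
    apply hR (g z * (g z₀)⁻¹) z₀ (hP z₀ hz₀P)
    rw [← key z hz']
    exact hP z (Finset.mem_filter.1 hz').1
  · intro z hz z' hz' heq
    have hz := Finset.mem_coe.1 hz
    have hz' := Finset.mem_coe.1 hz'
    apply hinj z (Finset.mem_filter.1 hz).1 z' (Finset.mem_filter.1 hz').1
    intro p
    have hz₀0 := hKH z₀ (hP z₀ hz₀P)
    rw [key z hz, key z' hz', V.equiv _ p z₀ hz₀0, V.equiv _ p z₀ hz₀0]
    have h := heq
    simp only at h
    rw [h]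

end MP2794d1.GD
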