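import Pool.Agent.Lib.MP_2794d1_ag.GD.T9

/-!
T10: centralisers of minimal dimension are abelian. `cen_add`: diagonalise `J` and `A` simultaneously (`simdiag` for `{J, A}`):
`J = P a P⁻¹`, `A = P b P⁻¹`; choose a real `t ≠ 0` with `a i - a j + t (b i - b j) ≠ 0` whenever `(a i, b i) ≠ (a j, b j)` (finitely
many excluded `t`); a matrix commuting with `J + t A` has entries (in this basis) only where `(a i, b i) = (a j, b j)`.
`min_abelian`: with `J0 = I • (2 μ - wt)` (real: `gr_conj`; in `cx g`: `HD.one`) and `cen_add`, minimality and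
`Submodule.eq_of_le_of_finrank_le`: `cen g J = cen g (J + t J0) ≤ cen g J0`, so every `Z ∈ cen g J` commutes with `μ`. For
`Z ∈ cen g J` the real parts `(Z + mconj Z)/2`, `(Z - mconj Z)/(2 I)` are in `cen g J` and commute with `μ`; for a real `A` of them
`cen g J = cen g (J + t A)` commutes with `A`.
-/

namespace MP2794d1.GD

open Matrix Complex Filter Topology

variable {n : ℕ} {wt : ℤ} {Q : Matrix (Fin n) (Fin n) ℤ} {g : Submodule ℚ (Matrix (Fin n) (Fin n) ℚ)}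
  {Fl : ℤ → Submodule ℂ (Fin n → ℂ)} {μ : Matrix (Fin n) (Fin n) ℂ}

theorem T10_t {n : ℕ} (a b : Fin n → ℂ) : ∃ t : ℝ, ∀ i j, a i + (t : ℂ) * b i = a j + (t : ℂ) * b j →
    a i = a j ∧ b i = b j := by
  have hfin : (⋃ i, ⋃ j, {t : ℝ | a i + (t : ℂ) * b i = a j + (t : ℂ) * b j ∧
      ¬ (a i = a j ∧ b i = b j)}).Finite := by
    refine Set.finite_iUnion fun i => Set.finite_iUnion fun j => ?_
    refine Set.Subsingleton.finite ?_
    rintro s ⟨hs, hn⟩ t ⟨ht, -⟩
    by_cases hb : b i = b j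
    · exact absurd ⟨by rw [hb] at hs; exact add_right_cancel hs, hb⟩ hn
    · have h1 : ((s : ℂ) - (t : ℂ)) * (b i - b j) = 0 := by linear_combination hs - ht
      rcases mul_eq_zero.1 h1 with h2 | h2
      · exact_mod_cast sub_eq_zero.1 h2
      · exact absurd (sub_eq_zero.1 h2) hb
  obtain ⟨t, ht⟩ := hfin.infinite_compl.nonempty
  refine ⟨t, fun i j h => ?_⟩
  by_contra hn
  exact ht (Set.mem_iUnion.2 ⟨i, Set.mem_iUnion.2 ⟨j, h, hn⟩⟩)

theorem T10_entry {P : Matrix (Fin n) (Fin n) ℂ} (hP : IsUnit P.det) (D : Fin n → ℂ)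
    (Z : Matrix (Fin n) (Fin n) ℂ) :
    br (P * Matrix.diagonal D * P⁻¹) Z = 0 ↔ ∀ i j, (D i - D j) * (P⁻¹ * Z * P) i j = 0 := by
  have h1 : P * P⁻¹ = 1 := Matrix.mul_nonsing_inv P hP
  have h2 : P⁻¹ * P = 1 := Matrix.nonsing_inv_mul P hP
  have e1 : P⁻¹ * br (P * Matrix.diagonal D * P⁻¹) Z * P =
      Matrix.diagonal D * (P⁻¹ * Z * P) - (P⁻¹ * Z * P) * Matrix.diagonal D := by
    unfold br
    rw [Matrix.mul_sub, Matrix.sub_mul]
    congr 1
    · calc P⁻¹ * (P * Matrix.diagonal D * P⁻¹ * Z) * P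
          = (P⁻¹ * P) * Matrix.diagonal D * (P⁻¹ * Z * P) := by simp only [Matrix.mul_assoc]
        _ = _ := by rw [h2, Matrix.one_mul]
    · calc P⁻¹ * (Z * (P * Matrix.diagonal D * P⁻¹)) * P
          = (P⁻¹ * Z * P) * Matrix.diagonal D * (P⁻¹ * P) := by simp only [Matrix.mul_assoc]
        _ = _ := by rw [h2, Matrix.mul_one]
  have e2 : ∀ i j, (Matrix.diagonal D * (P⁻¹ * Z * P) - (P⁻¹ * Z * P) * Matrix.diagonal D) i j =
      (D i - D j) * (P⁻¹ * Z * P) i j := by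
    intro i j
    rw [Matrix.sub_apply, Matrix.diagonal_mul, Matrix.mul_diagonal]
    ring
  constructor
  · intro h i j
    rw [← e2, ← e1, h]
    simp
  · intro h
    have e3 : P⁻¹ * br (P * Matrix.diagonal D * P⁻¹) Z * P = 0 := by
      rw [e1]
      ext i j
      rw [e2, h i j]
      rfl
    calc br (P * Matrix.diagonal D * P⁻¹) Z
        = (P * P⁻¹) * br (P * Matrix.diagonal D * P⁻¹) Z * (P * P⁻¹) := by
          rw [h1, Matrix.one_mul, Matrix.mul_one]
      _ = P * (P⁻¹ * br (P * Matrix.diagonal D * P⁻¹) Z * P) * P⁻¹ := by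
          simp only [Matrix.mul_assoc]
      _ = 0 := by rw [e3, Matrix.mul_zero, Matrix.zero_mul]

theorem cen_add {J A : Matrix (Fin n) (Fin n) ℂ} (hJ : ∃ P, Dia P J) (hA : ∃ P, Dia P A)
    (hc : J * A = A * J) : ∃ t : ℝ, ∀ Z : Matrix (Fin n) (Fin n) ℂ,
      br (J + (t : ℂ) • A) Z = 0 → br J Z = 0 ∧ br A Z = 0 := by
  obtain ⟨P, hP, hall⟩ := simdiag {J, A} (by
    rintro X (rfl | rfl) Y (rfl | rfl)
    · rfl
    · exact hc
    · exact hc.symm
    · rfl) (by
    rintro X (rfl | rfl)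
    · exact hJ
    · exact hA)
  obtain ⟨-, a, ha⟩ := hall J (by simp)
  obtain ⟨-, b, hb⟩ := hall A (by simp)
  obtain ⟨t, ht⟩ := T10_t a b
  refine ⟨t, fun Z hZ => ?_⟩
  have e : J + (t : ℂ) • A = P * Matrix.diagonal (fun i => a i + (t : ℂ) * b i) * P⁻¹ := by
    rw [ha, hb, ← Matrix.smul_mul, ← Matrix.mul_smul, ← Matrix.add_mul, ← Matrix.mul_add,
      ← Matrix.diagonal_smul, Matrix.diagonal_add]
    rfl
  rw [e, T10_entry hP] at hZ
  rw [ha, hb, T10_entry hP, T10_entry hP]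
  constructor
  · intro i j
    rcases mul_eq_zero.1 (hZ i j) with h | h
    · rw [(ht i j (sub_eq_zero.1 h)).1, sub_self, zero_mul]
    · rw [h, mul_zero]
  · intro i j
    rcases mul_eq_zero.1 (hZ i j) with h | h
    · rw [(ht i j (sub_eq_zero.1 h)).2, sub_self, zero_mul]
    · rw [h, mul_zero]

theorem T10_br_add (μ X Y : Matrix (Fin n) (Fin n) ℂ) : br μ (X + Y) = br μ X + br μ Y := by
  unfold br
  rw [Matrix.mul_add, Matrix.add_mul]
  abel

theorem T10_br_smul (μ X : Matrix (Fin n) (Fin n) ℂ) (c : ℂ) : br μ (c • X) = c • br μ X := by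
  unfold br
  rw [Matrix.mul_smul, Matrix.smul_mul, smul_sub]

theorem T10_mconj_add (X Y : Matrix (Fin n) (Fin n) ℂ) : mconj (X + Y) = mconj X + mconj Y := by
  ext i j
  simp [mconj]

theorem T10_mconj_smul (X : Matrix (Fin n) (Fin n) ℂ) (c : ℂ) :
    mconj (c • X) = (starRingEnd ℂ) c • mconj X := by
  ext i j
  simp [mconj]

theorem T10_mconj_br (X Y : Matrix (Fin n) (Fin n) ℂ) : mconj (br X Y) = br (mconj X) (mconj Y) := by
  have e : mconj (X * Y - Y * X) = mconj (X * Y) - mconj (Y * X) := by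
    ext i j
    simp only [mconj, Matrix.map_apply, Matrix.sub_apply, map_sub]
  unfold br
  rw [e, e06_mul, e06_mul]

/-- if `A` is a real element commuting with `J` and with `μ`, then the centraliser of `J` commutes
with `A` -/
theorem T10_key (h : HD wt Q g Fl μ) {J : Matrix (Fin n) (Fin n) ℂ}
    (hJ : J ∈ cx (g : Set (Matrix (Fin n) (Fin n) ℚ))) (hr : mconj J = J) (h0 : br μ J = 0)
    (hmin : ∀ A ∈ cx (g : Set (Matrix (Fin n) (Fin n) ℚ)), mconj A = A → br μ A = 0 →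
      Module.finrank ℂ (cen g J) ≤ Module.finrank ℂ (cen g A))
    {A : Matrix (Fin n) (Fin n) ℂ} (hA : A ∈ cx (g : Set (Matrix (Fin n) (Fin n) ℚ)))
    (hAr : mconj A = A) (hA0 : br μ A = 0) (hJA : br J A = 0) :
    ∀ Z ∈ cen g J, br A Z = 0 := by
  obtain ⟨t, ht⟩ := cen_add (h.diag hJ hr h0) (h.diag hA hAr hA0) (sub_eq_zero.1 hJA)
  have hle : cen g (J + (t : ℂ) • A) ≤ cen g J := by
    rintro Z ⟨hZ, hZ'⟩
    exact ⟨hZ, (ht Z hZ').1⟩
  have h1 : J + (t : ℂ) • A ∈ cx (g : Set (Matrix (Fin n) (Fin n) ℚ)) :=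
    Submodule.add_mem _ hJ (Submodule.smul_mem _ _ hA)
  have h2 : mconj (J + (t : ℂ) • A) = J + (t : ℂ) • A := by
    rw [T10_mconj_add, T10_mconj_smul, hr, hAr, Complex.conj_ofReal]
  have h3 : br μ (J + (t : ℂ) • A) = 0 := by
    rw [T10_br_add, T10_br_smul, h0, hA0, smul_zero, add_zero]
  have heq : cen g (J + (t : ℂ) • A) = cen g J :=
    Submodule.eq_of_le_of_finrank_le hle (hmin _ h1 h2 h3)
  intro Z hZ
  rw [← heq] at hZ
  exact (ht Z hZ.2).2

theorem min_abelian (h : HD wt Q g Fl μ) {J : Matrix (Fin n) (Fin n) ℂ}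
    (hJ : J ∈ cx (g : Set (Matrix (Fin n) (Fin n) ℚ))) (hr : mconj J = J) (h0 : br μ J = 0)
    (hmin : ∀ A ∈ cx (g : Set (Matrix (Fin n) (Fin n) ℚ)), mconj A = A → br μ A = 0 →
      Module.finrank ℂ (cen g J) ≤ Module.finrank ℂ (cen g A)) :
    (∀ Z ∈ cen g J, br μ Z = 0) ∧ ∀ Z ∈ cen g J, ∀ Z' ∈ cen g J, Z * Z' = Z' * Z := by
  have hone : ∀ X : Matrix (Fin n) (Fin n) ℂ, ∀ c : ℂ, br (c • (1 : Matrix (Fin n) (Fin n) ℂ)) X = 0 := by
    intro X c
    unfold br
    rw [Matrix.smul_mul, Matrix.mul_smul, Matrix.one_mul, Matrix.mul_one, sub_self]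
  -- the Weil element
  set J0 : Matrix (Fin n) (Fin n) ℂ := Complex.I • ((2 : ℂ) • μ + (-1 : ℂ) • ((wt : ℂ) • (1 : Matrix (Fin n) (Fin n) ℂ)))
    with hJ0
  have hbr0 : ∀ X, br J0 X = (2 * Complex.I) • br μ X := by
    intro X
    have e1 : br J0 X = Complex.I • ((2 : ℂ) • br μ X + (-1 : ℂ) • br ((wt : ℂ) • (1 : Matrix (Fin n) (Fin n) ℂ)) X) := by
      rw [hJ0]
      unfold br
      simp only [Matrix.smul_mul, Matrix.mul_smul, Matrix.add_mul, Matrix.mul_add, smul_sub, smul_add]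
      abel
    rw [e1, hone, smul_zero, add_zero, smul_smul, mul_comm]
  have hJ0m : J0 ∈ cx (g : Set (Matrix (Fin n) (Fin n) ℚ)) :=
    Submodule.smul_mem _ _ (Submodule.add_mem _ (Submodule.smul_mem _ _ h.mem)
      (Submodule.smul_mem _ _ h.one))
  have hJ0r : mconj J0 = J0 := by
    have e1 := gr_conj h.phs h.gr
    rw [hJ0, T10_mconj_smul, T10_mconj_add, T10_mconj_smul, T10_mconj_smul, T10_mconj_smul, e1,
      e06_one]
    simp only [Complex.conj_I, map_ofNat, map_neg, map_one, map_intCast]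
    ext i j
    simp only [Matrix.smul_apply, Matrix.add_apply, Matrix.sub_apply, smul_eq_mul]
    ring
  have hμJ0 : br μ J0 = 0 := by
    have e1 : br μ J0 = -br J0 μ := by unfold br; abel
    rw [e1, hbr0]
    have e2 : br μ μ = 0 := by unfold br; rw [sub_self]
    rw [e2, smul_zero, neg_zero]
  have hJJ0 : br J J0 = 0 := by
    have e1 : br J J0 = -br J0 J := by unfold br; abel
    rw [e1, hbr0, h0, smul_zero, neg_zero]
  have hfirst : ∀ Z ∈ cen g J, br μ Z = 0 := by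
    intro Z hZ
    have h1 := T10_key h hJ hr h0 hmin hJ0m hJ0r hμJ0 hJJ0 Z hZ
    rw [hbr0] at h1
    exact (smul_eq_zero.1 h1).resolve_left (by simp)
  refine ⟨hfirst, ?_⟩
  have hconj : ∀ Z ∈ cen g J, mconj Z ∈ cen g J := by
    rintro Z ⟨hZ, hZ'⟩
    refine ⟨cx_conj hZ, ?_⟩
    have e1 := T10_mconj_br J Z
    rw [hr, hZ'] at e1
    rw [← e1]
    ext i j
    simp [mconj]
  have hreal : ∀ A ∈ cen g J, mconj A = A → ∀ Z ∈ cen g J, br A Z = 0 := by
    intro A hA hAr Z hZ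
    exact T10_key h hJ hr h0 hmin hA.1 hAr (hfirst A hA) hA.2 Z hZ
  intro Z hZ Z' hZ'
  have hZc := hconj Z hZ
  have hmm : mconj (mconj Z) = Z := e06_mconj_mconj Z
  have hA1 : Z + mconj Z ∈ cen g J := Submodule.add_mem _ hZ hZc
  have hA1r : mconj (Z + mconj Z) = Z + mconj Z := by
    rw [T10_mconj_add, hmm, add_comm]
  have hA2 : Complex.I • (Z + (-1 : ℂ) • mconj Z) ∈ cen g J :=
    Submodule.smul_mem _ _ (Submodule.add_mem _ hZ (Submodule.smul_mem _ _ hZc))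
  have hA2r : mconj (Complex.I • (Z + (-1 : ℂ) • mconj Z)) = Complex.I • (Z + (-1 : ℂ) • mconj Z) := by
    rw [T10_mconj_smul, T10_mconj_add, T10_mconj_smul, hmm, Complex.conj_I]
    simp only [map_neg, map_one]
    ext i j
    simp only [Matrix.smul_apply, Matrix.add_apply, smul_eq_mul]
    ring
  have b1 := hreal _ hA1 hA1r Z' hZ'
  have b2 := hreal _ hA2 hA2r Z' hZ'
  have e3 : (2 : ℂ) • br Z Z' = br (Z + mconj Z) Z' + (-Complex.I) • br (Complex.I • (Z + (-1 : ℂ) • mconj Z)) Z' := by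
    unfold br
    simp only [Matrix.smul_mul, Matrix.mul_smul, Matrix.add_mul, Matrix.mul_add]
    ext i j
    simp only [Matrix.smul_apply, Matrix.add_apply, Matrix.sub_apply, smul_eq_mul]
    linear_combination (((Z * Z') i j - (mconj Z * Z') i j) - ((Z' * Z) i j - (Z' * mconj Z) i j)) * Complex.I_sq
  rw [b1, b2, smul_zero, add_zero] at e3
  have e4 : br Z Z' = 0 := (smul_eq_zero.1 e3).resolve_left (by norm_num)
  exact sub_eq_zero.1 e4

end MP2794d1.GD
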