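import Mathlib

/-!
T8: simultaneous diagonalisation of a set of commuting diagonalisable complex matrices. The simultaneous
maximal generalised eigenspaces span everything (Mathlib), and for diagonalisable matrices their elements
are common eigenvectors; choose a basis of common eigenvectors.
-/

namespace MP2794d1.GD

open Matrix

/-- `A` is diagonalised by `P` -/
def Dia {n : ℕ} (P A : Matrix (Fin n) (Fin n) ℂ) : Prop :=
  IsUnit P.det ∧ ∃ D : Fin n → ℂ, A = P * Matrix.diagonal D * P⁻¹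

theorem T8_pow {n : ℕ} {P A : Matrix (Fin n) (Fin n) ℂ} (hP : IsUnit P.det) {D : Fin n → ℂ}
    (hA : A = P * Matrix.diagonal D * P⁻¹) (k : ℕ) :
    A ^ k = P * Matrix.diagonal (fun i => D i ^ k) * P⁻¹ := by
  induction k with
  | zero =>
    simp only [pow_zero]
    rw [show (Matrix.diagonal (fun _ : Fin n => (1 : ℂ))) = 1 from Matrix.diagonal_one,
      Matrix.mul_one, Matrix.mul_nonsing_inv _ hP]
  | succ k ih =>
    rw [pow_succ, ih, hA]
    have h1 : P * Matrix.diagonal (fun i => D i ^ k) * P⁻¹ * (P * Matrix.diagonal D * P⁻¹) =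
        P * (Matrix.diagonal (fun i => D i ^ k) * ((P⁻¹ * P) * Matrix.diagonal D)) * P⁻¹ := by
      simp only [Matrix.mul_assoc]
    rw [h1, Matrix.nonsing_inv_mul _ hP, Matrix.one_mul, Matrix.diagonal_mul_diagonal]
    simp only [pow_succ]

theorem T8_eig {n : ℕ} {P A : Matrix (Fin n) (Fin n) ℂ} (h : Dia P A) (c : ℂ) (k : ℕ)
    (v : Fin n → ℂ) (hv : ((A - c • (1 : Matrix (Fin n) (Fin n) ℂ)) ^ k) *ᵥ v = 0) :
    A *ᵥ v = c • v := by
  obtain ⟨hP, D, hA⟩ := h
  have hA' : A - c • (1 : Matrix (Fin n) (Fin n) ℂ) =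
      P * Matrix.diagonal (fun i => D i - c) * P⁻¹ := by
    have e1 : Matrix.diagonal (fun i => D i - c) = Matrix.diagonal D - c • (1 : Matrix (Fin n) (Fin n) ℂ) := by
      ext i j
      by_cases hij : i = j
      · subst hij; simp
      · simp [hij]
    rw [e1, Matrix.mul_sub, Matrix.sub_mul, ← hA, Matrix.mul_smul, Matrix.smul_mul, Matrix.mul_one,
      Matrix.mul_nonsing_inv _ hP]
  rw [T8_pow hP hA' k] at hv
  have h1 : (P⁻¹ * (P * Matrix.diagonal (fun i => (D i - c) ^ k) * P⁻¹)) *ᵥ v = 0 := by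
    rw [← Matrix.mulVec_mulVec, hv, Matrix.mulVec_zero]
  rw [← Matrix.mul_assoc, ← Matrix.mul_assoc, Matrix.nonsing_inv_mul _ hP, Matrix.one_mul,
    ← Matrix.mulVec_mulVec] at h1
  have h2 : ∀ i, (D i - c) * (P⁻¹ *ᵥ v) i = 0 := by
    intro i
    have h3 := congrFun h1 i
    rw [Matrix.mulVec_diagonal, Pi.zero_apply] at h3
    rcases mul_eq_zero.mp h3 with h4 | h4
    · have h5 : D i - c = 0 := by
        by_contra hne
        exact (pow_ne_zero k hne) h4
      rw [h5, zero_mul]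
    · rw [h4, mul_zero]
  have h3 : (A - c • (1 : Matrix (Fin n) (Fin n) ℂ)) *ᵥ v = 0 := by
    rw [hA', ← Matrix.mulVec_mulVec, ← Matrix.mulVec_mulVec]
    have h4 : Matrix.diagonal (fun i => D i - c) *ᵥ (P⁻¹ *ᵥ v) = 0 := by
      ext i
      rw [Matrix.mulVec_diagonal, h2 i, Pi.zero_apply]
    rw [h4, Matrix.mulVec_zero]
  rw [Matrix.sub_mulVec, Matrix.smul_mulVec, Matrix.one_mulVec, sub_eq_zero] at h3
  exact h3

theorem simdiag {n : ℕ} (s : Set (Matrix (Fin n) (Fin n) ℂ)) (hc : ∀ A ∈ s, ∀ B ∈ s, A * B = B * A)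
    (hd : ∀ A ∈ s, ∃ P, Dia P A) :
    ∃ P : Matrix (Fin n) (Fin n) ℂ, IsUnit P.det ∧ ∀ A ∈ s, Dia P A := by
  classical
  have hspan : Submodule.span ℂ {v : Fin n → ℂ | ∀ A ∈ s, ∃ c : ℂ, A *ᵥ v = c • v} = ⊤ := by
    rw [eq_top_iff]
    have h1 := Module.End.iSup_iInf_maxGenEigenspace_eq_top_of_iSup_maxGenEigenspace_eq_top_of_commute
      (fun A : s => Matrix.toLinAlgEquiv' (A : Matrix (Fin n) (Fin n) ℂ))
      (fun A B _ => by
        show _ * _ = _ * _
        rw [← map_mul, ← map_mul, hc A.1 A.2 B.1 B.2])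
      (fun A => Module.End.iSup_maxGenEigenspace_eq_top _)
    rw [← h1]
    refine iSup_le fun χ => ?_
    intro v hv
    apply Submodule.subset_span
    intro A hA
    refine ⟨χ ⟨A, hA⟩, ?_⟩
    rw [Module.End.mem_iInf_maxGenEigenspace_iff] at hv
    obtain ⟨k, hk⟩ := hv ⟨A, hA⟩
    obtain ⟨P, hP⟩ := hd A hA
    refine T8_eig hP (χ ⟨A, hA⟩) k v ?_
    have h2 : (Matrix.toLinAlgEquiv' A - χ ⟨A, hA⟩ • (1 : Module.End ℂ (Fin n → ℂ))) ^ k =
        Matrix.toLinAlgEquiv' ((A - χ ⟨A, hA⟩ • (1 : Matrix (Fin n) (Fin n) ℂ)) ^ k) := by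
      rw [map_pow, map_sub, map_smul, map_one]
    have h3 : ((Matrix.toLinAlgEquiv' A - χ ⟨A, hA⟩ • (1 : Module.End ℂ (Fin n → ℂ))) ^ k) v = 0 := hk
    rw [h2, Matrix.toLinAlgEquiv'_apply] at h3
    exact h3
  obtain ⟨b, hbE, hbs, hbl⟩ := exists_linearIndependent ℂ
    {v : Fin n → ℂ | ∀ A ∈ s, ∃ c : ℂ, A *ᵥ v = c • v}
  have hbt : ⊤ ≤ Submodule.span ℂ (Set.range (Subtype.val : b → (Fin n → ℂ))) := by
    rw [Subtype.range_coe, hbs, hspan]
  let B := Module.Basis.mk hbl hbt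
  have : Fintype b := Module.Basis.fintypeIndexOfRankLtAleph0 B (by
    rw [rank_fin_fun]; exact Cardinal.natCast_lt_aleph0)
  have hcard : Fintype.card b = n := by
    rw [← Module.finrank_eq_card_basis B, Module.finrank_fin_fun]
  let e : Fin n ≃ b := (Fintype.equivFinOfCardEq hcard).symm
  have hli : LinearIndependent ℂ (fun j : Fin n => ((e j : b) : Fin n → ℂ)) :=
    hbl.comp e e.injective
  let P : Matrix (Fin n) (Fin n) ℂ := Matrix.of fun i j => ((e j : b) : Fin n → ℂ) i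
  have hcol : LinearIndependent ℂ P.col := hli
  have hPu : IsUnit P := Matrix.linearIndependent_cols_iff_isUnit.mp hcol
  have hPd : IsUnit P.det := (Matrix.isUnit_iff_isUnit_det P).mp hPu
  refine ⟨P, hPd, ?_⟩
  intro A hA
  have hex : ∀ j : Fin n, ∃ c : ℂ, A *ᵥ ((e j : b) : Fin n → ℂ) = c • ((e j : b) : Fin n → ℂ) :=
    fun j => hbE (e j).2 A hA
  choose D hD using hex
  refine ⟨hPd, D, ?_⟩
  have h1 : A * P = P * Matrix.diagonal D := by
    ext i j
    have h2 := congrFun (hD j) i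
    rw [Matrix.mul_diagonal]
    show ∑ l, A i l * P l j = _
    have h3 : (A *ᵥ ((e j : b) : Fin n → ℂ)) i = ∑ l, A i l * P l j := rfl
    rw [← h3, h2, Pi.smul_apply, smul_eq_mul, mul_comm]
    rfl
  rw [← h1, Matrix.mul_assoc, Matrix.mul_nonsing_inv _ hPd, Matrix.mul_one]

end MP2794d1.GD
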