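import Pool.Agent.Lib.MP_2794d1_ag.GD.T13
import Pool.Agent.Lib.MP_2794d1_ag.GD.T8
import Pool.Agent.Lib.MP_2794d1_ag.H01

/-!
T15: the commutant contains (over `ℂ`) a matrix with separable characteristic polynomial: if all
`cm Z`, `Z ∈ g`, `[Y, Z] = 0`, are diagonalised by `P` then `D = P * diagonal (i ↦ i) * P⁻¹`
commutes with them; its characteristic polynomial is `∏ (X - i)`. `D ∈ cx (comm2 g Y)`:
`mem_cx_iff` (H01).
-/

namespace MP2794d1.GD

open Matrix Complex Filter Topology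

variable {n : ℕ}

theorem comm2_cx (g : Submodule ℚ (Matrix (Fin n) (Fin n) ℚ)) (Y : Matrix (Fin n) (Fin n) ℚ)
    (D : Matrix (Fin n) (Fin n) ℂ) (hD : ∀ Z ∈ g, Y * Z = Z * Y → D * cm Z = cm Z * D) :
    D ∈ cx (comm2 g Y : Set (Matrix (Fin n) (Fin n) ℚ)) := by
  rw [mem_cx_iff]
  intro l Z hZ hYZ
  have h1 := hD Z hZ hYZ
  ext i j
  have h2 : (D * cm Z) i j = (cm Z * D) i j := by rw [h1]
  rw [Matrix.mul_apply, Matrix.mul_apply] at h2 ⊢
  have h3 := congrArg l h2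
  rw [map_sum, map_sum] at h3
  have h4 : ∀ (c : ℂ) (q : ℚ), l (c * (q : ℂ)) = l c * q := by
    intro c q
    have h5 : c * (q : ℂ) = q • c := by
      rw [Rat.smul_def, mul_comm]
    rw [h5, map_smul, smul_eq_mul, mul_comm]
  have e1 : ∀ k, l (D i k * cm Z k j) = (D.map l) i k * Z k j := by
    intro k
    have h5 : cm Z k j = ((Z k j : ℚ) : ℂ) := rfl
    rw [h5, h4, Matrix.map_apply]
  have e2 : ∀ k, l (cm Z i k * D k j) = Z i k * (D.map l) k j := by
    intro k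
    have h5 : cm Z i k = ((Z i k : ℚ) : ℂ) := rfl
    rw [h5, mul_comm, h4, Matrix.map_apply, mul_comm]
  rw [Finset.sum_congr rfl fun k _ => e1 k, Finset.sum_congr rfl fun k _ => e2 k] at h3
  exact h3

theorem exists_sepD (g : Submodule ℚ (Matrix (Fin n) (Fin n) ℚ)) (Y : Matrix (Fin n) (Fin n) ℚ)
    (P : Matrix (Fin n) (Fin n) ℂ) (hu : IsUnit P.det)
    (hP : ∀ Z ∈ g, Y * Z = Z * Y → Dia P (cm Z)) :
    ∃ D ∈ cx (comm2 g Y : Set (Matrix (Fin n) (Fin n) ℚ)), D.charpoly.Separable := by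
  have hinv : P⁻¹ * P = 1 := Matrix.nonsing_inv_mul P hu
  refine ⟨P * Matrix.diagonal (fun i : Fin n => ((i : ℕ) : ℂ)) * P⁻¹, ?_, ?_⟩
  · refine comm2_cx g Y _ fun Z hZ hYZ => ?_
    obtain ⟨-, D, hD⟩ := hP Z hZ hYZ
    rw [hD]
    have h1 : ∀ a b : Matrix (Fin n) (Fin n) ℂ, P * a * P⁻¹ * (P * b * P⁻¹) =
        P * (a * b) * P⁻¹ := by
      intro a b
      calc P * a * P⁻¹ * (P * b * P⁻¹) = P * a * (P⁻¹ * P) * b * P⁻¹ := by
            simp only [Matrix.mul_assoc]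
        _ = P * (a * b) * P⁻¹ := by
            rw [hinv, Matrix.mul_one, Matrix.mul_assoc P a b]
    rw [h1, h1, Matrix.diagonal_mul_diagonal, Matrix.diagonal_mul_diagonal]
    congr 2
    congr 1
    funext i
    exact mul_comm _ _
  · obtain ⟨u, hu'⟩ := (Matrix.isUnit_iff_isUnit_det P).2 hu
    have h1 : (P * Matrix.diagonal (fun i : Fin n => ((i : ℕ) : ℂ)) * P⁻¹).charpoly =
        (Matrix.diagonal (fun i : Fin n => ((i : ℕ) : ℂ))).charpoly := by
      have h2 := Matrix.charpoly_units_conj u (Matrix.diagonal (fun i : Fin n => ((i : ℕ) : ℂ)))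
      rw [hu'] at h2
      exact h2
    rw [h1, Matrix.charpoly_diagonal]
    refine Polynomial.separable_prod_X_sub_C_iff.2 ?_
    intro i j hij
    have h2 : ((i : ℕ) : ℂ) = ((j : ℕ) : ℂ) := hij
    exact Fin.ext (Nat.cast_injective h2)

end MP2794d1.GD
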