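import Pool.Agent.Lib.MP_2794d1_ag.GD.T1
import Pool.Agent.Lib.MP_2794d1_ag.GD.T8
import Pool.Agent.Lib.MP_2794d1_ag.E06

/-!
T9: a real element of type `(0,0)` is diagonalisable. `Z` real in `cx g`: `Zᵀ Q + Q Z = c Q` with `c ∈ ℂ` (span induction
from `h.sim`). In an adapted basis `S`: `z = S⁻¹ Z S` is block diagonal (`E05_mu`: `z a b ≠ 0 → d a = d b`),
`Sᵀ Q (mconj S) = D` (`Adapted.on`), so `zᵀ D + D (mconj z) = c D`, hence `z + zᴴ = c`, so `2 z - c = z - zᴴ` is skew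
hermitian, `I • (z - zᴴ)` is hermitian: `Matrix.IsHermitian.spectral_theorem`.
-/

namespace MP2794d1.GD

open Matrix Complex Filter Topology

variable {n : ℕ} {wt : ℤ} {Q : Matrix (Fin n) (Fin n) ℤ} {g : Submodule ℚ (Matrix (Fin n) (Fin n) ℚ)}
  {Fl : ℤ → Submodule ℂ (Fin n → ℂ)} {μ : Matrix (Fin n) (Fin n) ℂ}

theorem T9_cm_mul (X Y : Matrix (Fin n) (Fin n) ℚ) : cm (X * Y) = cm X * cm Y := by
  ext i j
  simp [cm, Matrix.mul_apply]

theorem T9_cm_qm (X : Matrix (Fin n) (Fin n) ℤ) : cm (qm X) = im X := by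
  ext i j
  simp [cm, qm, im]

theorem T9_sim (h : HD wt Q g Fl μ) {Z : Matrix (Fin n) (Fin n) ℂ}
    (hZ : Z ∈ cx (g : Set (Matrix (Fin n) (Fin n) ℚ))) :
    ∃ c : ℂ, Zᵀ * im Q + im Q * Z = c • im Q := by
  unfold cx at hZ
  induction hZ using Submodule.span_induction with
  | mem x hx =>
    obtain ⟨A, hA, rfl⟩ := hx
    obtain ⟨c, hc⟩ := h.sim A hA
    refine ⟨(c : ℂ), ?_⟩
    have h1 := congrArg cm hc
    have h2 : cm (Aᵀ * qm Q + qm Q * A) = (cm A)ᵀ * im Q + im Q * cm A := by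
      have e1 : cm (Aᵀ * qm Q + qm Q * A) = cm (Aᵀ * qm Q) + cm (qm Q * A) := by
        ext i j
        simp [cm]
      rw [e1, T9_cm_mul, T9_cm_mul, T9_cm_qm]
      rfl
    have h3 : cm (c • qm Q) = (c : ℂ) • im Q := by
      ext i j
      simp [cm, qm, im]
    rw [← h2, ← h3, h1]
  | zero => exact ⟨0, by simp⟩
  | add x y _ _ hx hy =>
    obtain ⟨a, ha⟩ := hx
    obtain ⟨b, hb⟩ := hy
    refine ⟨a + b, ?_⟩
    rw [Matrix.transpose_add, Matrix.add_mul, Matrix.mul_add, add_smul, ← ha, ← hb]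
    abel
  | smul a x _ hx =>
    obtain ⟨b, hb⟩ := hx
    refine ⟨a * b, ?_⟩
    rw [Matrix.transpose_smul, Matrix.smul_mul, Matrix.mul_smul, ← smul_add, hb, smul_smul]

/-- a matrix `z` with `z + zᴴ` scalar is diagonalisable -/
theorem T9_herm {z : Matrix (Fin n) (Fin n) ℂ} {c : ℂ}
    (h : z + zᴴ = c • (1 : Matrix (Fin n) (Fin n) ℂ)) : ∃ P, Dia P z := by
  have hB : (Complex.I • (z - zᴴ)).IsHermitian := by
    unfold Matrix.IsHermitian
    rw [Matrix.conjTranspose_smul, Matrix.conjTranspose_sub, Matrix.conjTranspose_conjTranspose]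
    simp only [RCLike.star_def, Complex.conj_I]
    module
  have hsp := hB.spectral_theorem
  obtain ⟨U, hU⟩ : ∃ U : Matrix.unitaryGroup (Fin n) ℂ, U = hB.eigenvectorUnitary := ⟨_, rfl⟩
  rw [Unitary.conjStarAlgAut_apply, ← hU] at hsp
  have hu1 : (U : Matrix (Fin n) (Fin n) ℂ) * star (U : Matrix (Fin n) (Fin n) ℂ) = 1 :=
    (Matrix.mem_unitaryGroup_iff).mp U.2
  have hu2 : star (U : Matrix (Fin n) (Fin n) ℂ) * (U : Matrix (Fin n) (Fin n) ℂ) = 1 :=
    (Matrix.mem_unitaryGroup_iff').mp U.2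
  have hdet : IsUnit (U : Matrix (Fin n) (Fin n) ℂ).det := by
    rw [← Matrix.isUnit_iff_isUnit_det]
    exact ⟨⟨_, _, hu1, hu2⟩, rfl⟩
  have hinv : (U : Matrix (Fin n) (Fin n) ℂ)⁻¹ = star (U : Matrix (Fin n) (Fin n) ℂ) :=
    Matrix.inv_eq_right_inv hu1
  refine ⟨(U : Matrix (Fin n) (Fin n) ℂ), hdet,
    fun i => (1 / 2 : ℂ) * (c - Complex.I * (hB.eigenvalues i : ℂ)), ?_⟩
  have hz : z = (1 / 2 : ℂ) • (c • (1 : Matrix (Fin n) (Fin n) ℂ) -
      Complex.I • (Complex.I • (z - zᴴ))) := by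
    rw [← h, smul_smul, Complex.I_mul_I]
    module
  have hdiag : Matrix.diagonal (fun i => (1 / 2 : ℂ) * (c - Complex.I * (hB.eigenvalues i : ℂ))) =
      (1 / 2 : ℂ) • (c • (1 : Matrix (Fin n) (Fin n) ℂ) -
        Complex.I • Matrix.diagonal (RCLike.ofReal ∘ hB.eigenvalues)) := by
    ext i j
    by_cases hij : i = j
    · subst hij; simp
    · simp [hij]
  rw [hdiag, Matrix.mul_smul, Matrix.smul_mul, Matrix.mul_sub, Matrix.sub_mul, Matrix.mul_smul,
    Matrix.mul_smul, Matrix.smul_mul, Matrix.smul_mul, hinv, Matrix.mul_one, hu1, ← hsp]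
  exact hz

theorem HD.diag (h : HD wt Q g Fl μ) {Z : Matrix (Fin n) (Fin n) ℂ}
    (hZ : Z ∈ cx (g : Set (Matrix (Fin n) (Fin n) ℚ))) (hr : mconj Z = Z) (h0 : br μ Z = 0) :
    ∃ P, Dia P Z := by
  obtain ⟨S, d, hS⟩ := exists_adapted h.phs
  obtain ⟨c, hc⟩ := T9_sim h hZ
  have hSu : IsUnit S.det := hS.inv
  have hSS : S * S⁻¹ = 1 := Matrix.mul_nonsing_inv S hSu
  have hSS' : S⁻¹ * S = 1 := Matrix.nonsing_inv_mul S hSu
  have hT : mconj S * mconj S⁻¹ = 1 := by rw [← e06_mul, hSS, e06_one]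
  have hSt : S⁻¹ᵀ * Sᵀ = 1 := by rw [← Matrix.transpose_mul, hSS, Matrix.transpose_one]
  obtain ⟨D, hD⟩ : ∃ D : Matrix (Fin n) (Fin n) ℂ,
    D = Matrix.diagonal (fun a => Complex.I ^ (wt - 2 * d a)) := ⟨_, rfl⟩
  have hon : Sᵀ * im Q * mconj S = D := by rw [hD]; exact hS.on
  obtain ⟨z, hz⟩ : ∃ z, z = S⁻¹ * Z * S := ⟨_, rfl⟩
  have hzc : mconj z = mconj S⁻¹ * Z * mconj S := by
    rw [hz, e06_mul, e06_mul, hr]
  have e1 : zᵀ * D = Sᵀ * (Zᵀ * im Q) * mconj S := by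
    calc zᵀ * D = Sᵀ * Zᵀ * (S⁻¹ᵀ * Sᵀ) * im Q * mconj S := by
          rw [← hon, hz, Matrix.transpose_mul, Matrix.transpose_mul]
          simp only [Matrix.mul_assoc]
      _ = _ := by rw [hSt]; simp only [Matrix.mul_assoc, Matrix.mul_one]
  have e2 : D * mconj z = Sᵀ * (im Q * Z) * mconj S := by
    calc D * mconj z = Sᵀ * im Q * (mconj S * mconj S⁻¹) * Z * mconj S := by
          rw [← hon, hzc]
          simp only [Matrix.mul_assoc]
      _ = _ := by rw [hT]; simp only [Matrix.mul_assoc, Matrix.mul_one]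
  have key : zᵀ * D + D * mconj z = c • D := by
    rw [e1, e2, ← Matrix.add_mul, ← Matrix.mul_add, hc, Matrix.mul_smul, Matrix.smul_mul, hon]
  have hblock : ∀ a b, z a b ≠ 0 → d a = d b := by
    intro a b hne
    have e := E05_mu hS h.gr Z a b
    rw [h0, Matrix.mul_zero, Matrix.zero_mul, Matrix.zero_apply, ← hz] at e
    rcases mul_eq_zero.mp e.symm with e3 | e3
    · have e4 : (d a : ℂ) = (d b : ℂ) := sub_eq_zero.mp e3
      exact_mod_cast e4
    · exact absurd e3 hne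
  have hI : ∀ k : ℤ, Complex.I ^ k ≠ 0 := fun k => zpow_ne_zero _ Complex.I_ne_zero
  have hsum : z + zᴴ = c • (1 : Matrix (Fin n) (Fin n) ℂ) := by
    ext a b
    have hk := congrFun (congrFun key b) a
    rw [Matrix.add_apply, hD, Matrix.mul_diagonal, Matrix.diagonal_mul, Matrix.transpose_apply] at hk
    rw [Matrix.add_apply, Matrix.conjTranspose_apply]
    have hm : mconj z b a = Star.star (z b a) := rfl
    rw [hm] at hk
    have h1 : z a b * Complex.I ^ (wt - 2 * d a) = z a b * Complex.I ^ (wt - 2 * d b) := by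
      by_cases hx : z a b = 0
      · rw [hx, zero_mul, zero_mul]
      · rw [hblock a b hx]
    rw [h1] at hk
    have h2 : (c • Matrix.diagonal (fun a => Complex.I ^ (wt - 2 * d a))) b a =
        Complex.I ^ (wt - 2 * d b) * (c • (1 : Matrix (Fin n) (Fin n) ℂ)) a b := by
      by_cases hab : a = b
      · subst hab
        simp
        ring
      · have hba : b ≠ a := fun h => hab h.symm
        simp [hab, hba]
    rw [h2] at hk
    apply mul_left_cancel₀ (hI (wt - 2 * d b))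
    rw [← hk]
    ring
  obtain ⟨P, hP, E, hE⟩ := T9_herm hsum
  refine ⟨S * P, ?_, E, ?_⟩
  · rw [Matrix.det_mul]
    exact hSu.mul hP
  · rw [Matrix.mul_inv_rev]
    calc Z = (S * S⁻¹) * Z * (S * S⁻¹) := by rw [hSS, Matrix.one_mul, Matrix.mul_one]
      _ = S * (S⁻¹ * Z * S) * S⁻¹ := by simp only [Matrix.mul_assoc]
      _ = S * (P * Matrix.diagonal E * P⁻¹) * S⁻¹ := by rw [← hz, hE]
      _ = _ := by simp only [Matrix.mul_assoc]

end MP2794d1.GD
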