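import Pool.Agent.Lib.MP_2794d1_ag.GD.T14
import Pool.Agent.Lib.MP_2794d1_ag.GD.T15
import Pool.Agent.Lib.MP_2794d1_ag.GD.T9
import Pool.Agent.Lib.MP_2794d1_ag.H01

/-!
T16: an integral `Y ∈ g` which commutes with the grading and has an abelian centraliser in `g` gives a small integral matrix with
separable characteristic polynomial which preserves the Hodge filtration. `𝔷 = {Z ∈ g | [Y, Z] = 0}`; `μ ∈ cen g Y`, and `cen g Y` is
the complexification of `𝔷` (rational linear system, as `comm2_cx`); `cen g Y` is abelian, so all `cm Z`, `Z ∈ 𝔷`, commute with `μ` and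
with each other, so they are diagonalisable (`HD.diag`) and simultaneously so (`simdiag`); `exists_sepD`, `comm_basis`, `sep_combo`. The
matrix `A ∈ comm2` commutes with `𝔷`, so with `cen g Y ∋ μ`, so it preserves `Fl p` (`FEnd0_of_comm`).
-/

set_option autoImplicit false

namespace MP2794d1.GD

open Matrix Complex Filter Topology

private theorem t16_cm_mul {n : ℕ} (X Z : Matrix (Fin n) (Fin n) ℚ) : cm (X * Z) = cm X * cm Z := by
  unfold cm
  ext i j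
  simp [Matrix.mul_apply]

private theorem t16_im {n : ℕ} (X : Matrix (Fin n) (Fin n) ℤ) : im X = cm (qm X) := by
  unfold im cm qm
  ext i j
  simp

private theorem t16_map_mul {n : ℕ} (Y : Matrix (Fin n) (Fin n) ℚ) (X : Matrix (Fin n) (Fin n) ℂ)
    (l : ℂ →ₗ[ℚ] ℚ) : (cm Y * X).map l = Y * X.map l := by
  ext i j
  simp only [Matrix.map_apply, Matrix.mul_apply, map_sum, cm]
  refine Finset.sum_congr rfl fun a _ => ?_
  have h1 : ((Y i a : ℚ) : ℂ) * X a j = Y i a • X a j := by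
    rw [Rat.smul_def]
  rw [h1, map_smul, smul_eq_mul]

private theorem t16_map_mul' {n : ℕ} (Y : Matrix (Fin n) (Fin n) ℚ) (X : Matrix (Fin n) (Fin n) ℂ)
    (l : ℂ →ₗ[ℚ] ℚ) : (X * cm Y).map l = X.map l * Y := by
  ext i j
  simp only [Matrix.map_apply, Matrix.mul_apply, map_sum, cm]
  refine Finset.sum_congr rfl fun a _ => ?_
  have h1 : X i a * ((Y a j : ℚ) : ℂ) = Y a j • X i a := by
    rw [Rat.smul_def, mul_comm]
  rw [h1, map_smul, smul_eq_mul, mul_comm]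

/-- the centraliser of `Y` in `g` -/
private def t16_z {n : ℕ} (g : Submodule ℚ (Matrix (Fin n) (Fin n) ℚ))
    (Y : Matrix (Fin n) (Fin n) ℚ) : Submodule ℚ (Matrix (Fin n) (Fin n) ℚ) where
  carrier := {Z | Z ∈ g ∧ Y * Z = Z * Y}
  add_mem' := by
    rintro a b ⟨ha, ha'⟩ ⟨hb, hb'⟩
    exact ⟨g.add_mem ha hb, by rw [Matrix.mul_add, Matrix.add_mul, ha', hb']⟩
  zero_mem' := ⟨g.zero_mem, by rw [Matrix.zero_mul, Matrix.mul_zero]⟩
  smul_mem' := by
    rintro c a ⟨ha, ha'⟩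
    exact ⟨g.smul_mem c ha, by rw [Matrix.mul_smul, Matrix.smul_mul, ha']⟩

private theorem t16_cen {n : ℕ} (g : Submodule ℚ (Matrix (Fin n) (Fin n) ℚ))
    (Y : Matrix (Fin n) (Fin n) ℚ) {X : Matrix (Fin n) (Fin n) ℂ}
    (hX : X ∈ cx (g : Set (Matrix (Fin n) (Fin n) ℚ))) (hc : cm Y * X = X * cm Y) :
    X ∈ cx (t16_z g Y : Set (Matrix (Fin n) (Fin n) ℚ)) := by
  rw [mem_cx_iff] at hX ⊢
  intro l
  refine ⟨hX l, ?_⟩
  rw [← t16_map_mul, ← t16_map_mul', hc]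

variable {n k : ℕ}

theorem cm_of_abelian (B : Fin k → Matrix (Fin n) (Fin n) ℤ) : ∃ C e : ℕ, ∀ (T : ℕ), 1 ≤ T →
    ∀ y : Fin k → ℤ, (∀ i, |y i| ≤ (T : ℤ)) →
    ∀ (wt : ℤ) (Q : Matrix (Fin n) (Fin n) ℤ) (Fl : ℤ → Submodule ℂ (Fin n → ℂ))
      (μ : Matrix (Fin n) (Fin n) ℂ),
      HD wt Q (Submodule.span ℚ (Set.range fun i => qm (B i))) Fl μ →
      br μ (im (∑ i, y i • B i)) = 0 →
      (∀ Z ∈ cen (Submodule.span ℚ (Set.range fun i => qm (B i))) (im (∑ i, y i • B i)),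
        ∀ Z' ∈ cen (Submodule.span ℚ (Set.range fun i => qm (B i))) (im (∑ i, y i • B i)),
        Z * Z' = Z' * Z) →
      ∃ A : Matrix (Fin n) (Fin n) ℤ, (im A).charpoly.Separable ∧
        (∀ p, ∀ v ∈ Fl p, (im A) *ᵥ v ∈ Fl p) ∧ ∀ i j, |A i j| ≤ ((C * T ^ e : ℕ) : ℤ) := by
  obtain ⟨C₁, e₁, h₁⟩ := comm_basis B
  obtain ⟨C₂, h₂⟩ := sep_combo n
  refine ⟨C₂ * C₁, e₁, fun T hT y hy wt Q Fl μ h hμ hab => ?_⟩
  obtain ⟨g, hg⟩ : ∃ g : Submodule ℚ (Matrix (Fin n) (Fin n) ℚ),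
      g = Submodule.span ℚ (Set.range fun i => qm (B i)) := ⟨_, rfl⟩
  obtain ⟨Yz, hYz⟩ : ∃ Yz : Matrix (Fin n) (Fin n) ℤ, Yz = ∑ i, y i • B i := ⟨_, rfl⟩
  have hb := h₁ T hT y hy
  rw [← hg] at h hab hb
  rw [← hYz] at hμ hab hb
  rw [t16_im] at hμ hab
  -- the centraliser
  have hcen : ∀ Z ∈ t16_z g (qm Yz), cm Z ∈ cen g (cm (qm Yz)) := by
    rintro Z ⟨hZ, hc⟩
    refine ⟨Submodule.subset_span ⟨Z, hZ, rfl⟩, ?_⟩
    unfold br
    rw [← t16_cm_mul, ← t16_cm_mul, hc, sub_self]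
  have hμc : cm (qm Yz) * μ = μ * cm (qm Yz) := by
    unfold br at hμ
    exact (sub_eq_zero.1 hμ).symm
  have hμmem : μ ∈ cen g (cm (qm Yz)) := by
    refine ⟨h.mem, ?_⟩
    unfold br
    rw [hμc, sub_self]
  have hreal : ∀ Z : Matrix (Fin n) (Fin n) ℚ, mconj (cm Z) = cm Z := by
    intro Z
    unfold mconj cm
    ext i j
    simp
  obtain ⟨P, hP, hdia⟩ := simdiag {X : Matrix (Fin n) (Fin n) ℂ | ∃ Z ∈ t16_z g (qm Yz), X = cm Z}
    (by
      rintro A ⟨Z, hZ, rfl⟩ A' ⟨Z', hZ', rfl⟩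
      exact hab _ (hcen Z hZ) _ (hcen Z' hZ'))
    (by
      rintro A ⟨Z, hZ, rfl⟩
      refine h.diag (hcen Z hZ).1 (hreal Z) ?_
      unfold br
      rw [hab _ hμmem _ (hcen Z hZ), sub_self])
  obtain ⟨D, hD, hsep⟩ := exists_sepD g (qm Yz) P hP
    (fun Z hZ hc => hdia (cm Z) ⟨Z, ⟨hZ, hc⟩, rfl⟩)
  obtain ⟨A, hA, hAsep, hAb⟩ := h₂ (comm2 g (qm Yz)) (C₁ * T ^ e₁) hb D hD hsep
  refine ⟨A, hAsep, ?_, fun i j => ?_⟩
  · -- `A` commutes with `μ`
    have hAc : ∀ X ∈ cx (t16_z g (qm Yz) : Set (Matrix (Fin n) (Fin n) ℚ)), im A * X = X * im A := by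
      intro X hX
      unfold cx at hX
      induction hX using Submodule.span_induction with
      | mem X hX =>
        obtain ⟨Z, hZ, rfl⟩ := hX
        rw [t16_im, ← t16_cm_mul, ← t16_cm_mul, hA Z hZ.1 hZ.2]
      | zero => rw [Matrix.mul_zero, Matrix.zero_mul]
      | add X X' _ _ h1 h2 => rw [Matrix.mul_add, Matrix.add_mul, h1, h2]
      | smul c X _ h1 => rw [Matrix.mul_smul, Matrix.smul_mul, h1]
    have h0 : br μ (im A) = 0 := by
      unfold br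
      rw [hAc μ (t16_cen g (qm Yz) h.mem hμc), sub_self]
    have h3 := FEnd0_of_comm h.phs h.gr (im A) h0
    intro p v hv
    have h4 := h3 p v hv
    rwa [add_zero] at h4
  · refine (hAb i j).trans (le_of_eq ?_)
    push_cast
    ring

end MP2794d1.GD
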