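import Pool.Agent.Lib.MP_2794d1_ag.GD.Defs

/-!
T17: the complexity is bounded by the entries.
-/

namespace MP2794d1.GD

open Matrix Complex Filter Topology

theorem trace_bound {n : ℕ} (Q : Matrix (Fin n) (Fin n) ℤ) : ∃ C : ℝ, 0 < C ∧
    ∀ (A : Matrix (Fin n) (Fin n) ℤ) (T : ℝ), (∀ i j, |(A i j : ℝ)| ≤ T) →
      (((qm A * radj Q A).trace : ℚ) : ℝ) ≤ (C * T) ^ 2 := by
  set K : ℝ := ∑ i, ∑ j, ∑ k, ∑ l, |((((qm Q)⁻¹ : Matrix (Fin n) (Fin n) ℚ) j l : ℚ) : ℝ)| *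
    |(Q k i : ℝ)| with hK
  have hK0 : 0 ≤ K := Finset.sum_nonneg fun i _ => Finset.sum_nonneg fun j _ =>
    Finset.sum_nonneg fun k _ => Finset.sum_nonneg fun l _ =>
      mul_nonneg (abs_nonneg _) (abs_nonneg _)
  refine ⟨K + 1, by linarith, fun A T hA => ?_⟩
  have h1 : (((qm A * radj Q A).trace : ℚ) : ℝ) = ∑ i, ∑ j, ∑ k, ∑ l,
      (A i j : ℝ) * ((((qm Q)⁻¹ : Matrix (Fin n) (Fin n) ℚ) j l : ℚ) : ℝ) * (A k l : ℝ) *
        (Q k i : ℝ) := by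
    unfold Matrix.trace
    push_cast
    refine Finset.sum_congr rfl fun i _ => ?_
    rw [Matrix.diag_apply, Matrix.mul_apply]
    push_cast
    refine Finset.sum_congr rfl fun j _ => ?_
    unfold radj
    rw [Matrix.mul_apply]
    push_cast
    rw [Finset.mul_sum]
    refine Finset.sum_congr rfl fun k _ => ?_
    rw [Matrix.mul_apply]
    push_cast
    rw [Finset.sum_mul, Finset.mul_sum]
    refine Finset.sum_congr rfl fun l _ => ?_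
    simp only [qm, Matrix.map_apply, Matrix.transpose_apply, Rat.cast_intCast]
    ring
  rw [h1]
  have h2 : ∀ i j k l, (A i j : ℝ) * ((((qm Q)⁻¹ : Matrix (Fin n) (Fin n) ℚ) j l : ℚ) : ℝ) *
      (A k l : ℝ) * (Q k i : ℝ) ≤
      T ^ 2 * (|((((qm Q)⁻¹ : Matrix (Fin n) (Fin n) ℚ) j l : ℚ) : ℝ)| * |(Q k i : ℝ)|) := by
    intro i j k l
    have hT : 0 ≤ T := (abs_nonneg _).trans (hA i j)
    refine (le_abs_self _).trans ?_
    rw [abs_mul, abs_mul, abs_mul]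
    have h3 : |(A i j : ℝ)| * |(A k l : ℝ)| ≤ T ^ 2 := by
      rw [pow_two]
      exact mul_le_mul (hA i j) (hA k l) (abs_nonneg _) hT
    calc |(A i j : ℝ)| * |((((qm Q)⁻¹ : Matrix (Fin n) (Fin n) ℚ) j l : ℚ) : ℝ)| *
          |(A k l : ℝ)| * |(Q k i : ℝ)|
        = |(A i j : ℝ)| * |(A k l : ℝ)| *
          (|((((qm Q)⁻¹ : Matrix (Fin n) (Fin n) ℚ) j l : ℚ) : ℝ)| * |(Q k i : ℝ)|) := by ring
      _ ≤ _ := mul_le_mul_of_nonneg_right h3 (mul_nonneg (abs_nonneg _) (abs_nonneg _))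
  calc ∑ i, ∑ j, ∑ k, ∑ l, (A i j : ℝ) *
        ((((qm Q)⁻¹ : Matrix (Fin n) (Fin n) ℚ) j l : ℚ) : ℝ) * (A k l : ℝ) * (Q k i : ℝ)
      ≤ ∑ i, ∑ j, ∑ k, ∑ l,
        T ^ 2 * (|((((qm Q)⁻¹ : Matrix (Fin n) (Fin n) ℚ) j l : ℚ) : ℝ)| * |(Q k i : ℝ)|) :=
        Finset.sum_le_sum fun i _ => Finset.sum_le_sum fun j _ => Finset.sum_le_sum fun k _ =>
          Finset.sum_le_sum fun l _ => h2 i j k l
    _ = T ^ 2 * K := by
        rw [hK]
        simp only [Finset.mul_sum]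
    _ ≤ T ^ 2 * (K + 1) ^ 2 := by
        refine mul_le_mul_of_nonneg_left ?_ (sq_nonneg T)
        nlinarith
    _ = ((K + 1) * T) ^ 2 := by ring

end MP2794d1.GD
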