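import Mathlib

/-!
GD, T6: Newton / implicit function theorem in the form of an abstract lemma.
-/

namespace MP2794d1.GD

open Filter Topology

theorem newton {T E : Type*} [NormedAddCommGroup T] [NormedSpace ℝ T] [FiniteDimensional ℝ T]
    [NormedAddCommGroup E] [NormedSpace ℝ E] [FiniteDimensional ℝ E] (θ : T × E → E) (t₁ : T)
    (hθ : ContDiffAt ℝ 1 θ (t₁, 0)) (h0 : θ (t₁, 0) = 0)
    (hinj : ∀ w : E, fderiv ℝ θ (t₁, 0) (0, w) = 0 → w = 0) :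
    ∃ δ C : ℝ, 0 < δ ∧ 0 < C ∧ ∀ (t ts : T) (us : E), ‖t - t₁‖ < δ → ‖ts - t₁‖ < δ → ‖us‖ < δ →
      θ (ts, us) = 0 → ∃ u : E, ‖u - us‖ ≤ C * ‖t - ts‖ ∧ θ (t, u) = 0 := by
  have : CompleteSpace (T × E) := FiniteDimensional.complete ℝ (T × E)
  have hs : HasStrictFDerivAt θ (fderiv ℝ θ (t₁, 0)) (t₁, 0) :=
    hθ.hasStrictFDerivAt one_ne_zero
  obtain ⟨L, hL⟩ : ∃ L : T × E →L[ℝ] T × E,
      L = (ContinuousLinearMap.fst ℝ T E).prod (fderiv ℝ θ (t₁, 0)) := ⟨_, rfl⟩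
  have hLinj : Function.Injective (L : T × E →ₗ[ℝ] T × E) := by
    rw [injective_iff_map_eq_zero]
    rintro ⟨a, w⟩ h
    have h1 : L (a, w) = 0 := h
    rw [hL, ContinuousLinearMap.prod_apply, ContinuousLinearMap.coe_fst', Prod.mk_eq_zero] at h1
    obtain ⟨h2, h3⟩ := h1
    have h2' : a = 0 := h2
    subst h2'
    rw [hinj w h3]
    rfl
  obtain ⟨e, he⟩ : ∃ e : (T × E) ≃L[ℝ] (T × E), (e : T × E →L[ℝ] T × E) = L := by
    refine ⟨(LinearEquiv.ofInjectiveEndo (L : T × E →ₗ[ℝ] T × E) hLinj).toContinuousLinearEquiv,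
      ?_⟩
    ext x <;> rfl
  obtain ⟨Ψ, hΨ⟩ : ∃ Ψ : T × E → T × E, Ψ = fun p => (p.1, θ p) := ⟨_, rfl⟩
  have hΨs : HasStrictFDerivAt Ψ (e : T × E →L[ℝ] T × E) (t₁, 0) := by
    rw [he, hL, hΨ]
    exact hasStrictFDerivAt_fst.prodMk hs
  have hΨ0 : Ψ (t₁, 0) = (t₁, 0) := by
    rw [hΨ]
    show (t₁, θ (t₁, 0)) = (t₁, 0)
    rw [h0]
  obtain ⟨g, hg⟩ : ∃ g : T × E → T × E, g = hΨs.localInverse Ψ e (t₁, 0) := ⟨_, rfl⟩
  have hleft : ∀ᶠ x in 𝓝 ((t₁, 0) : T × E), g (Ψ x) = x := by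
    rw [hg]
    exact hΨs.eventually_left_inverse
  have hright : ∀ᶠ y in 𝓝 ((t₁, 0) : T × E), Ψ (g y) = y := by
    have := hΨs.eventually_right_inverse
    rw [hΨ0] at this
    rw [hg]
    exact this
  have hstrict : HasStrictFDerivAt g (e.symm : T × E →L[ℝ] T × E) (t₁, 0) := by
    have := hΨs.to_localInverse
    rw [hΨ0] at this
    rw [hg]
    exact this
  obtain ⟨K, s, hs', hLip⟩ := hstrict.exists_lipschitzOnWith
  obtain ⟨δ1, hδ1, hb1⟩ := Metric.eventually_nhds_iff.mp hleft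
  obtain ⟨δ2, hδ2, hb2⟩ := Metric.eventually_nhds_iff.mp hright
  obtain ⟨δ3, hδ3, hb3⟩ := Metric.mem_nhds_iff.mp hs'
  refine ⟨min δ1 (min δ2 δ3), K + 1, lt_min hδ1 (lt_min hδ2 hδ3), by positivity, ?_⟩
  intro t ts us ht hts hus hz
  have hd : ∀ (a : T) (b : E) (δ : ℝ), ‖a - t₁‖ < δ → ‖b‖ < δ → dist (a, b) (t₁, (0 : E)) < δ := by
    intro a b δ ha hb
    rw [Prod.dist_eq]
    apply max_lt
    · rw [dist_eq_norm]
      exact ha
    · rw [dist_zero_right]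
      exact hb
  have hm1 : min δ1 (min δ2 δ3) ≤ δ1 := min_le_left _ _
  have hm2 : min δ1 (min δ2 δ3) ≤ δ2 := le_trans (min_le_right _ _) (min_le_left _ _)
  have hm3 : min δ1 (min δ2 δ3) ≤ δ3 := le_trans (min_le_right _ _) (min_le_right _ _)
  have e1 : g (ts, 0) = (ts, us) := by
    have h1 := hb1 (hd ts us δ1 (lt_of_lt_of_le hts hm1) (lt_of_lt_of_le hus hm1))
    have h2 : Ψ (ts, us) = (ts, 0) := by
      rw [hΨ]
      show (ts, θ (ts, us)) = (ts, 0)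
      rw [hz]
    rw [h2] at h1
    exact h1
  have hmin : 0 < min δ1 (min δ2 δ3) := lt_min hδ1 (lt_min hδ2 hδ3)
  have e2 : Ψ (g (t, 0)) = (t, 0) :=
    hb2 (hd t 0 δ2 (lt_of_lt_of_le ht hm2) (by rw [norm_zero]; exact hδ2))
  have e3 : (g (t, 0)).1 = t ∧ θ (g (t, 0)) = 0 := by
    rw [hΨ] at e2
    exact ⟨congrArg Prod.fst e2, congrArg Prod.snd e2⟩
  refine ⟨(g (t, 0)).2, ?_, ?_⟩
  · have h1 := hLip.dist_le_mul (t, 0)
      (hb3 (Metric.mem_ball.mpr (hd t 0 δ3 (lt_of_lt_of_le ht hm3)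
        (by rw [norm_zero]; exact hδ3)))) (ts, 0)
      (hb3 (Metric.mem_ball.mpr (hd ts 0 δ3 (lt_of_lt_of_le hts hm3)
        (by rw [norm_zero]; exact hδ3))))
    have h2 : dist ((t, 0) : T × E) (ts, 0) = ‖t - ts‖ := by
      rw [Prod.dist_eq, dist_self, dist_eq_norm]
      exact max_eq_left (norm_nonneg _)
    have h3 : ‖(g (t, 0)).2 - us‖ ≤ dist (g (t, 0)) (g (ts, 0)) := by
      rw [e1, Prod.dist_eq, ← dist_eq_norm]
      exact le_max_right _ _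
    rw [h2] at h1
    have h4 : (K : ℝ) * ‖t - ts‖ ≤ ((K : ℝ) + 1) * ‖t - ts‖ :=
      mul_le_mul_of_nonneg_right (by linarith) (norm_nonneg _)
    linarith
  · have h5 : g (t, 0) = (t, (g (t, 0)).2) := Prod.ext e3.1 rfl
    rw [← h5]
    exact e3.2

end MP2794d1.GD
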