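import Pool.Agent.Lib.MP_2794d1_ag.GD.T5
import Pool.Agent.Lib.MP_2794d1_ag.GD.T6

/-!
T7: Newton in coordinates. With a linear map `q : Matrix → (Fin r → ℂ)`, `q (∑ u j • N j) = u`, put
`θ (t, u) = q (Th (R.nu u) (R.Y t))`, and apply `newton`.
-/

namespace MP2794d1.GD

open Matrix Complex Filter Topology

variable {n : ℕ} {wt : ℤ} {Q : Matrix (Fin n) (Fin n) ℤ} {g : Submodule ℚ (Matrix (Fin n) (Fin n) ℚ)}
  {Fl : ℤ → Submodule ℂ (Fin n → ℂ)} {μ : Matrix (Fin n) (Fin n) ℂ} {k r : ℕ}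

theorem br_add_right' (A B C : Matrix (Fin n) (Fin n) ℂ) : br A (B + C) = br A B + br A C := by
  unfold br
  rw [Matrix.mul_add, Matrix.add_mul]
  abel

theorem br_smul_right' (A B : Matrix (Fin n) (Fin n) ℂ) (c : ℂ) : br A (c • B) = c • br A B := by
  unfold br
  rw [Matrix.mul_smul, Matrix.smul_mul, smul_sub]

theorem br_smul_left' (A B : Matrix (Fin n) (Fin n) ℂ) (c : ℂ) : br (c • A) B = c • br A B := by
  unfold br
  rw [Matrix.mul_smul, Matrix.smul_mul, smul_sub]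

/-- `N(u)` -/
noncomputable def Fr.NN (R : Fr wt Q g Fl μ k r) (u : Fin r → ℂ) : Matrix (Fin n) (Fin n) ℂ :=
  ∑ j, u j • R.N j

theorem Fr.nu_eq (R : Fr wt Q g Fl μ k r) (u : Fin r → ℂ) : R.nu u = μ + R.NN u := rfl

theorem Fr.NN_smul (R : Fr wt Q g Fl μ k r) (c : ℂ) (u : Fin r → ℂ) :
    R.NN (c • u) = c • R.NN u := by
  unfold Fr.NN
  rw [Finset.smul_sum]
  apply Finset.sum_congr rfl
  intro j _
  rw [Pi.smul_apply, smul_assoc]

theorem Fr.NN_mem (R : Fr wt Q g Fl μ k r) (u : Fin r → ℂ) :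
    R.NN u ∈ cx (g : Set (Matrix (Fin n) (Fin n) ℚ)) ∧ br μ (R.NN u) = -R.NN u := by
  constructor
  · exact Submodule.sum_mem _ fun j _ => Submodule.smul_mem _ _ (R.Nmem j).1
  · have h : ∀ s : Finset (Fin r), br μ (∑ j ∈ s, u j • R.N j) = -∑ j ∈ s, u j • R.N j := by
      intro s
      induction s using Finset.induction_on with
      | empty => unfold br; simp
      | insert a s ha ih =>
        rw [Finset.sum_insert ha, br_add_right', ih, br_smul_right', (R.Nmem a).2, smul_neg,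
          neg_add]
    exact h Finset.univ

theorem Fr.Y_cx (R : Fr wt Q g Fl μ k r) (t : Fin k → ℝ) :
    R.Y t ∈ cx (g : Set (Matrix (Fin n) (Fin n) ℚ)) := by
  unfold Fr.Y
  refine Submodule.sum_mem _ fun i _ => Submodule.smul_mem _ _ (Submodule.subset_span ?_)
  refine ⟨qm (R.B i), ?_, ?_⟩
  · have h : qm (R.B i) ∈ Submodule.span ℚ (Set.range fun i => qm (R.B i)) :=
      Submodule.subset_span ⟨i, rfl⟩
    rw [R.Bspan] at h
    exact h
  · ext a b
    show (((R.B i a b : ℤ) : ℚ) : ℂ) = ((R.B i a b : ℤ) : ℂ)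
    push_cast
    rfl

/-- smoothness of a family of matrices, entrywise -/
def SM {P : Type*} [NormedAddCommGroup P] [NormedSpace ℝ P] (A : P → Matrix (Fin n) (Fin n) ℂ) :
    Prop := ∀ i j, ContDiff ℝ 1 (fun p => A p i j)

theorem SM.mul {P : Type*} [NormedAddCommGroup P] [NormedSpace ℝ P]
    {A B : P → Matrix (Fin n) (Fin n) ℂ} (hA : SM A) (hB : SM B) : SM (fun p => A p * B p) := by
  intro i j
  have h : (fun p => (A p * B p) i j) = fun p => ∑ l, A p i l * B p l j := by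
    funext p
    rw [Matrix.mul_apply]
  rw [h]
  exact ContDiff.sum fun l _ => (hA i l).mul (hB l j)

theorem SM.sub {P : Type*} [NormedAddCommGroup P] [NormedSpace ℝ P]
    {A B : P → Matrix (Fin n) (Fin n) ℂ} (hA : SM A) (hB : SM B) : SM (fun p => A p - B p) := by
  intro i j
  exact (hA i j).sub (hB i j)

theorem SM.br {P : Type*} [NormedAddCommGroup P] [NormedSpace ℝ P]
    {A B : P → Matrix (Fin n) (Fin n) ℂ} (hA : SM A) (hB : SM B) :
    SM (fun p => MP2794d1.br (A p) (B p)) :=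
  (hA.mul hB).sub (hB.mul hA)

theorem SM.Th {P : Type*} [NormedAddCommGroup P] [NormedSpace ℝ P]
    {A B : P → Matrix (Fin n) (Fin n) ℂ} (hA : SM A) (hB : SM B) :
    SM (fun p => GD.Th (A p) (B p)) :=
  (hA.br (hA.br hB)).sub (hA.br hB)

theorem Fr.sm_nu (R : Fr wt Q g Fl μ k r) :
    SM (fun p : (Fin k → ℝ) × (Fin r → ℂ) => R.nu p.2) := by
  intro i j
  have h : (fun p : (Fin k → ℝ) × (Fin r → ℂ) => R.nu p.2 i j) =
      fun p => μ i j + ∑ l, p.2 l * R.N l i j := by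
    funext p
    unfold Fr.nu
    rw [Matrix.add_apply, Matrix.sum_apply]
    simp only [Matrix.smul_apply, smul_eq_mul]
  rw [h]
  refine contDiff_const.add (ContDiff.sum fun l _ => ContDiff.mul ?_ contDiff_const)
  exact (contDiff_apply ℝ ℂ l).comp contDiff_snd

theorem Fr.sm_Y (R : Fr wt Q g Fl μ k r) :
    SM (fun p : (Fin k → ℝ) × (Fin r → ℂ) => R.Y p.1) := by
  intro i j
  have h : (fun p : (Fin k → ℝ) × (Fin r → ℂ) => R.Y p.1 i j) =
      fun p => ∑ l, ((p.1 l : ℝ) : ℂ) * im (R.B l) i j := by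
    funext p
    unfold Fr.Y
    rw [Matrix.sum_apply]
    simp only [Matrix.smul_apply, smul_eq_mul]
  rw [h]
  refine ContDiff.sum fun l _ => ContDiff.mul ?_ contDiff_const
  exact Complex.ofRealCLM.contDiff.comp ((contDiff_apply ℝ ℝ l).comp contDiff_fst)

theorem fr_newton (R : Fr wt Q g Fl μ k r) (t₁ : Fin k → ℝ) (h1 : br μ (R.Y t₁) = 0)
    (hinj : ∀ Z ∈ cx (g : Set (Matrix (Fin n) (Fin n) ℚ)), br μ Z = -Z → br Z (R.Y t₁) = 0 →
      Z = 0) :
    ∃ δ C : ℝ, 0 < δ ∧ 0 < C ∧ ∀ (t ts : Fin k → ℝ) (us : Fin r → ℂ), ‖t - t₁‖ < δ →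
      ‖ts - t₁‖ < δ → ‖us‖ < δ → Th (R.nu us) (R.Y ts) = 0 →
      ∃ u : Fin r → ℂ, ‖u - us‖ ≤ C * ‖t - ts‖ ∧ Th (R.nu u) (R.Y t) = 0 := by
  -- the left inverse of `u ↦ N(u)`
  obtain ⟨q, hq⟩ : ∃ q : Matrix (Fin n) (Fin n) ℂ →ₗ[ℂ] (Fin r → ℂ), ∀ u, q (R.NN u) = u := by
    obtain ⟨F, hF⟩ : ∃ F : (Fin r → ℂ) →ₗ[ℂ] Matrix (Fin n) (Fin n) ℂ, ∀ u, F u = R.NN u :=
      ⟨Fintype.linearCombination ℂ R.N, fun u => Fintype.linearCombination_apply ℂ R.N u⟩
    have hker : LinearMap.ker F = ⊥ := by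
      rw [LinearMap.ker_eq_bot']
      intro u hu
      rw [hF] at hu
      funext j
      exact Fintype.linearIndependent_iff.mp R.Nind u hu j
    obtain ⟨q, hq⟩ := F.exists_leftInverse_of_injective hker
    refine ⟨q, fun u => ?_⟩
    rw [← hF u]
    exact LinearMap.congr_fun hq u
  have hzero : ∀ (t : Fin k → ℝ) (u : Fin r → ℂ), q (Th (R.nu u) (R.Y t)) = 0 →
      Th (R.nu u) (R.Y t) = 0 := by
    intro t u h
    obtain ⟨a1, a2⟩ := Th_mem R.hd (R.NN_mem u).1 (R.NN_mem u).2 (R.Y_cx t)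
    rw [← R.nu_eq u] at a1 a2
    have h3 := R.Nspan _ a1 a2
    obtain ⟨v, hv⟩ := (Submodule.mem_span_range_iff_exists_fun ℂ).mp h3
    have h4 : Th (R.nu u) (R.Y t) = R.NN v := hv.symm
    rw [h4, hq] at h
    rw [h4, h]
    unfold Fr.NN
    simp
  obtain ⟨θ, hθdef⟩ : ∃ θ : (Fin k → ℝ) × (Fin r → ℂ) → (Fin r → ℂ),
      θ = fun p => q (Th (R.nu p.2) (R.Y p.1)) := ⟨_, rfl⟩
  have hθ : ContDiff ℝ 1 θ := by
    rw [hθdef, contDiff_pi]
    intro a
    have hexp : (fun p : (Fin k → ℝ) × (Fin r → ℂ) => q (Th (R.nu p.2) (R.Y p.1)) a) =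
        fun p => ∑ i, ∑ j, Th (R.nu p.2) (R.Y p.1) i j * q (Matrix.single i j 1) a := by
      funext p
      conv_lhs => rw [Matrix.matrix_eq_sum_single (Th (R.nu p.2) (R.Y p.1))]
      rw [map_sum, Finset.sum_apply]
      apply Finset.sum_congr rfl
      intro i _
      rw [map_sum, Finset.sum_apply]
      apply Finset.sum_congr rfl
      intro j _
      have h5 : Matrix.single i j (Th (R.nu p.2) (R.Y p.1) i j) =
          (Th (R.nu p.2) (R.Y p.1) i j) • Matrix.single i j (1 : ℂ) := by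
        rw [Matrix.smul_single, smul_eq_mul, mul_one]
      rw [h5, map_smul, Pi.smul_apply, smul_eq_mul]
    rw [hexp]
    refine ContDiff.sum fun i _ => ContDiff.sum fun j _ => ContDiff.mul ?_ contDiff_const
    exact (SM.Th R.sm_nu R.sm_Y) i j
  have hθ1 : ∀ u : Fin r → ℂ, θ (t₁, u) = (-2 : ℂ) • q (br (R.NN u) (R.Y t₁)) := by
    intro u
    rw [hθdef]
    show q (Th (R.nu u) (R.Y t₁)) = _
    rw [R.nu_eq, Th_J R.hd (R.NN_mem u).1 (R.NN_mem u).2 (R.Y_cx t₁) h1, map_smul]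
  have hlin : ∀ (c : ℂ) (u : Fin r → ℂ), θ (t₁, c • u) = c • θ (t₁, u) := by
    intro c u
    rw [hθ1, hθ1, R.NN_smul, br_smul_left', map_smul, smul_comm]
  have h0 : θ (t₁, 0) = 0 := by
    have h := hlin 0 0
    rw [zero_smul, zero_smul] at h
    exact h
  have hinj' : ∀ w : Fin r → ℂ, fderiv ℝ θ (t₁, 0) (0, w) = 0 → w = 0 := by
    intro w hw
    have hd1 : HasFDerivAt θ (fderiv ℝ θ (t₁, 0)) (t₁, 0) :=
      (hθ.differentiable one_ne_zero).differentiableAt.hasFDerivAt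
    have hd2 : HasDerivAt (fun s : ℝ => ((t₁, s • w) : (Fin k → ℝ) × (Fin r → ℂ))) (0, w) 0 := by
      refine HasDerivAt.prodMk (hasDerivAt_const 0 t₁) ?_
      have h := (hasDerivAt_id (0 : ℝ)).smul_const w
      rw [one_smul] at h
      exact h
    have hd3 : HasDerivAt (fun s : ℝ => θ (t₁, s • w)) (fderiv ℝ θ (t₁, 0) (0, w)) 0 := by
      have h2 : ((t₁, (0 : ℝ) • w) : (Fin k → ℝ) × (Fin r → ℂ)) = (t₁, 0) := by rw [zero_smul]
      rw [← h2] at hd1
      have h := HasFDerivAt.comp_hasDerivAt (0 : ℝ) hd1 hd2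
      rw [h2] at h
      exact h
    have hd4 : HasDerivAt (fun s : ℝ => θ (t₁, s • w)) (θ (t₁, w)) 0 := by
      have h3 : (fun s : ℝ => θ (t₁, s • w)) = fun s : ℝ => s • θ (t₁, w) := by
        funext s
        have h4 : s • w = (s : ℂ) • w := by
          funext j
          rw [Pi.smul_apply, Pi.smul_apply, Complex.real_smul, smul_eq_mul]
        rw [h4, hlin]
        funext j
        rw [Pi.smul_apply, Pi.smul_apply, Complex.real_smul, smul_eq_mul]
      rw [h3]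
      have h := (hasDerivAt_id (0 : ℝ)).smul_const (θ (t₁, w))
      rw [one_smul] at h
      exact h
    have h5 : θ (t₁, w) = 0 := by rw [← hw]; exact hd4.unique hd3
    have h6 : Th (R.nu w) (R.Y t₁) = 0 := by
      apply hzero
      rw [hθdef] at h5
      exact h5
    rw [R.nu_eq, Th_J R.hd (R.NN_mem w).1 (R.NN_mem w).2 (R.Y_cx t₁) h1] at h6
    have h7 : br (R.NN w) (R.Y t₁) = 0 := by
      rcases smul_eq_zero.mp h6 with h | h
      · norm_num at h
      · exact h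
    have h8 := hinj _ (R.NN_mem w).1 (R.NN_mem w).2 h7
    rw [← hq w, h8, map_zero]
  obtain ⟨δ, C, hδ, hC, H⟩ := newton θ t₁ hθ.contDiffAt h0 hinj'
  refine ⟨δ, C, hδ, hC, ?_⟩
  intro t ts us ht hts hus hz
  obtain ⟨u, hu1, hu2⟩ := H t ts us ht hts hus (by
    rw [hθdef]
    show q (Th (R.nu us) (R.Y ts)) = 0
    rw [hz, map_zero])
  refine ⟨u, hu1, hzero t u ?_⟩
  rw [hθdef] at hu2
  exact hu2

end MP2794d1.GD
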