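import Pool.Agent.Lib.MP_2794d1_ag.GD.Defs
import Pool.Agent.Lib.MP_2794d1_ag.E05
import Pool.Agent.Lib.MP_2794d1_ag.E04
import Pool.Agent.Lib.MP_2794d1_ag.H01

/-!
T1: types. `cx_conj`, `cx_br`, `cx_smul_real`: span induction (`cx g` is spanned by the real matrices `cm A`, `A ∈ g`).
`HD.one`: `gr_conj`. `HD.fe`: `cx g ≤ FEnd Fl (-1)` (span). `HD.three`: adapted basis (`exists_adapted`), `mem_FEnd_iff` and
`conj_mem_FEnd_iff` for `A` and `mconj A` give `|d a - d b| ≤ 1` for non-zero entries; `E05_mu`, `E05_inj`. `HD.comm`: the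
commutator lies in `cx g` and has degree `-2` (`E05_mu`), so it is `0` (entries have `|d a - d b| ≤ 1`).
-/

namespace MP2794d1.GD

open Matrix Complex Filter Topology

variable {n : ℕ} {wt : ℤ} {Q : Matrix (Fin n) (Fin n) ℤ} {g : Submodule ℚ (Matrix (Fin n) (Fin n) ℚ)}
  {Fl : ℤ → Submodule ℂ (Fin n → ℂ)} {μ : Matrix (Fin n) (Fin n) ℂ}

private theorem T1_mconj_mul (A B : Matrix (Fin n) (Fin n) ℂ) : mconj (A * B) = mconj A * mconj B := by
  unfold mconj
  exact Matrix.map_mul

private theorem T1_mconj_sub (A B : Matrix (Fin n) (Fin n) ℂ) : mconj (A - B) = mconj A - mconj B := by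
  ext i j
  simp [mconj]

private theorem T1_mconj_br (A B : Matrix (Fin n) (Fin n) ℂ) :
    mconj (br A B) = br (mconj A) (mconj B) := by
  rw [br, br, T1_mconj_sub, T1_mconj_mul, T1_mconj_mul]

theorem cx_conj {A : Matrix (Fin n) (Fin n) ℂ} (hA : A ∈ cx (g : Set (Matrix (Fin n) (Fin n) ℚ))) :
    mconj A ∈ cx (g : Set (Matrix (Fin n) (Fin n) ℚ)) := by
  unfold cx at hA ⊢
  induction hA using Submodule.span_induction with
  | mem x hx =>
    obtain ⟨y, hy, rfl⟩ := hx
    have h1 : mconj (cm y) = cm y := by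
      ext i j
      simp [mconj, cm]
    rw [h1]
    exact Submodule.subset_span ⟨y, hy, rfl⟩
  | zero =>
    have h1 : mconj (0 : Matrix (Fin n) (Fin n) ℂ) = 0 := by
      ext i j
      simp [mconj]
    rw [h1]
    exact Submodule.zero_mem _
  | add x y _ _ hx hy =>
    have h1 : mconj (x + y) = mconj x + mconj y := by
      ext i j
      simp [mconj]
    rw [h1]
    exact Submodule.add_mem _ hx hy
  | smul c x _ hx =>
    have h1 : mconj (c • x) = (starRingEnd ℂ c) • mconj x := by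
      ext i j
      simp [mconj]
    rw [h1]
    exact Submodule.smul_mem _ _ hx

theorem cx_br (hl : IsLie g) {A B : Matrix (Fin n) (Fin n) ℂ}
    (hA : A ∈ cx (g : Set (Matrix (Fin n) (Fin n) ℚ)))
    (hB : B ∈ cx (g : Set (Matrix (Fin n) (Fin n) ℚ))) :
    br A B ∈ cx (g : Set (Matrix (Fin n) (Fin n) ℚ)) := by
  unfold cx at hA hB ⊢
  induction hA using Submodule.span_induction with
  | mem x hx =>
    obtain ⟨y, hy, rfl⟩ := hx
    induction hB using Submodule.span_induction with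
    | mem z hz =>
      obtain ⟨w, hw, rfl⟩ := hz
      have h1 : br (cm y) (cm w) = cm (y * w - w * y) := by
        have h2 : ∀ P R : Matrix (Fin n) (Fin n) ℚ, cm P * cm R = cm (P * R) := by
          intro P R
          ext i j
          simp [cm, Matrix.mul_apply]
        rw [br, h2, h2]
        ext i j
        simp [cm]
      rw [h1]
      exact Submodule.subset_span ⟨_, hl y hy w hw, rfl⟩
    | zero =>
      have h1 : br (cm y) 0 = 0 := by
        simp [br]
      rw [h1]
      exact Submodule.zero_mem _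
    | add u v _ _ hu hv =>
      have h1 : br (cm y) (u + v) = br (cm y) u + br (cm y) v := by
        simp only [br, Matrix.mul_add, Matrix.add_mul]
        abel
      rw [h1]
      exact Submodule.add_mem _ hu hv
    | smul c u _ hu =>
      have h1 : br (cm y) (c • u) = c • br (cm y) u := by
        simp only [br, Matrix.mul_smul, Matrix.smul_mul, smul_sub]
      rw [h1]
      exact Submodule.smul_mem _ _ hu
  | zero =>
    have h1 : br 0 B = 0 := by
      simp [br]
    rw [h1]
    exact Submodule.zero_mem _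
  | add u v _ _ hu hv =>
    have h1 : br (u + v) B = br u B + br v B := by
      simp only [br, Matrix.mul_add, Matrix.add_mul]
      abel
    rw [h1]
    exact Submodule.add_mem _ hu hv
  | smul c u _ hu =>
    have h1 : br (c • u) B = c • br u B := by
      simp only [br, Matrix.mul_smul, Matrix.smul_mul, smul_sub]
    rw [h1]
    exact Submodule.smul_mem _ _ hu

theorem HD.one (h : HD wt Q g Fl μ) :
    (wt : ℂ) • (1 : Matrix (Fin n) (Fin n) ℂ) ∈ cx (g : Set (Matrix (Fin n) (Fin n) ℚ)) := by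
  have h1 := gr_conj h.phs h.gr
  have h2 : (wt : ℂ) • (1 : Matrix (Fin n) (Fin n) ℂ) = μ + mconj μ := by
    rw [h1]
    abel
  rw [h2]
  exact Submodule.add_mem _ h.mem (cx_conj h.mem)

theorem HD.fe (h : HD wt Q g Fl μ) {A : Matrix (Fin n) (Fin n) ℂ}
    (hA : A ∈ cx (g : Set (Matrix (Fin n) (Fin n) ℚ))) : A ∈ FEnd Fl (-1) := by
  have h1 : cx (g : Set (Matrix (Fin n) (Fin n) ℚ)) ≤ FEnd Fl (-1) := by
    unfold cx
    rw [Submodule.span_le]
    rintro x ⟨y, hy, rfl⟩
    exact h.sv1 y hy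
  exact h1 hA

/-- non-zero entries of `A ∈ cx g` in an adapted basis -/
theorem HD.entry (h : HD wt Q g Fl μ) {S : Matrix (Fin n) (Fin n) ℂ} {d : Fin n → ℤ}
    (hS : Adapted wt Q Fl S d) {A : Matrix (Fin n) (Fin n) ℂ}
    (hA : A ∈ cx (g : Set (Matrix (Fin n) (Fin n) ℚ))) (a b : Fin n) (hne : (S⁻¹ * A * S) a b ≠ 0) :
    d b - 1 ≤ d a ∧ d a ≤ d b + 1 := by
  have h1 := (mem_FEnd_iff hS A (-1)).1 (h.fe hA) a b hne
  have h2 := (conj_mem_FEnd_iff hS A (-1)).1 (h.fe (cx_conj hA)) a b hne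
  constructor <;> linarith

theorem HD.three (h : HD wt Q g Fl μ) {A : Matrix (Fin n) (Fin n) ℂ}
    (hA : A ∈ cx (g : Set (Matrix (Fin n) (Fin n) ℚ))) : br μ (br μ (br μ A)) = br μ A := by
  obtain ⟨S, d, hS⟩ := exists_adapted h.phs
  apply E05_inj hS.inv
  intro a b
  rw [E05_mu hS h.gr, E05_mu hS h.gr, E05_mu hS h.gr]
  by_cases hne : (S⁻¹ * A * S) a b = 0
  · rw [hne]
    ring
  obtain ⟨h1, h2⟩ := h.entry hS hA a b hne
  have h3 : d a - d b = -1 ∨ d a - d b = 0 ∨ d a - d b = 1 := by omega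
  have h4 : ((d a : ℂ) - (d b : ℂ)) ^ 3 = (d a : ℂ) - (d b : ℂ) := by
    have h5 : (d a - d b) ^ 3 = d a - d b := by
      rcases h3 with h3 | h3 | h3 <;> rw [h3] <;> norm_num
    exact_mod_cast h5
  calc ((d a : ℂ) - d b) * (((d a : ℂ) - d b) * (((d a : ℂ) - d b) * (S⁻¹ * A * S) a b))
      = ((d a : ℂ) - d b) ^ 3 * (S⁻¹ * A * S) a b := by ring
    _ = _ := by rw [h4]

theorem HD.comm (h : HD wt Q g Fl μ) {N N' : Matrix (Fin n) (Fin n) ℂ}
    (hN : N ∈ cx (g : Set (Matrix (Fin n) (Fin n) ℚ))) (hN1 : br μ N = -N)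
    (hN' : N' ∈ cx (g : Set (Matrix (Fin n) (Fin n) ℚ))) (hN1' : br μ N' = -N') : br N N' = 0 := by
  have hmem := cx_br h.lie hN hN'
  have hjac : br μ (br N N') = (-2 : ℂ) • br N N' := by
    have h1 : br μ (br N N') = br (br μ N) N' + br N (br μ N') := by
      simp only [br, Matrix.mul_sub, Matrix.sub_mul, Matrix.mul_assoc]
      abel
    rw [h1, hN1, hN1']
    have h2 : br (-N) N' = -br N N' := by
      simp only [br, Matrix.neg_mul, Matrix.mul_neg]
      abel
    have h3 : br N (-N') = -br N N' := by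
      simp only [br, Matrix.neg_mul, Matrix.mul_neg]
      abel
    rw [h2, h3]
    module
  obtain ⟨S, d, hS⟩ := exists_adapted h.phs
  apply E05_inj hS.inv
  intro a b
  rw [Matrix.mul_zero, Matrix.zero_mul, Matrix.zero_apply]
  by_contra hne
  obtain ⟨h1, h2⟩ := h.entry hS hmem a b hne
  have h3 := E05_mu hS h.gr (br N N') a b
  rw [hjac, Matrix.mul_smul, Matrix.smul_mul, Matrix.smul_apply, smul_eq_mul] at h3
  have h4 := mul_right_cancel₀ hne h3
  have h5 : d a - d b = -2 := by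
    have h6 : ((d a - d b : ℤ) : ℂ) = ((-2 : ℤ) : ℂ) := by
      push_cast
      exact h4.symm
    exact_mod_cast h6
  omega

/-- the real element of type `(0,0)` closest to `J` -/
theorem HD.star (h : HD wt Q g Fl μ) {J : Matrix (Fin n) (Fin n) ℂ}
    (hJ : J ∈ cx (g : Set (Matrix (Fin n) (Fin n) ℚ))) (hr : mconj J = J) :
    J - br μ (br μ J) ∈ cx (g : Set (Matrix (Fin n) (Fin n) ℚ)) ∧
      mconj (J - br μ (br μ J)) = J - br μ (br μ J) ∧ br μ (J - br μ (br μ J)) = 0 := by
  refine ⟨Submodule.sub_mem _ hJ (cx_br h.lie h.mem (cx_br h.lie h.mem hJ)), ?_, ?_⟩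
  · have h1 := gr_conj h.phs h.gr
    rw [T1_mconj_sub, T1_mconj_br, T1_mconj_br, hr, h1]
    congr 1
    have h2 : ∀ X : Matrix (Fin n) (Fin n) ℂ,
        br ((wt : ℂ) • (1 : Matrix (Fin n) (Fin n) ℂ) - μ) X = -br μ X := by
      intro X
      simp only [br, Matrix.sub_mul, Matrix.mul_sub, Matrix.smul_mul, Matrix.mul_smul, Matrix.one_mul,
        Matrix.mul_one]
      abel
    have h3 : br μ (-br μ J) = -br μ (br μ J) := by
      simp only [br, Matrix.neg_mul, Matrix.mul_neg]
      abel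
    rw [h2, h2, h3, neg_neg]
  · have h1 : br μ (J - br μ (br μ J)) = br μ J - br μ (br μ (br μ J)) := by
      simp only [br, Matrix.sub_mul, Matrix.mul_sub]
      abel
    rw [h1, h.three hJ, sub_self]

/-- a real element which preserves the filtration commutes with the grading -/
theorem HD.comm_of (h : HD wt Q g Fl μ) {J : Matrix (Fin n) (Fin n) ℂ} (hr : mconj J = J)
    (h0 : J ∈ FEnd Fl 0) : br μ J = 0 :=
  comm_of_FEnd h.phs h.gr J h0 (by rw [hr]; exact h0)

end MP2794d1.GD
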