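import Pool.Agent.Lib.MP_2794d1_ag.GD.Defs

/-!
T11: the dimension of the centraliser is upper semicontinuous. `cen g J` is the kernel of `ad J` on
`cx g`; finitely many linearly independent vectors remain so under small perturbations
(`isOpen_setOf_linearIndependent`).
-/

namespace MP2794d1.GD

open Matrix Complex Filter Topology

variable {n : ℕ} (g : Submodule ℚ (Matrix (Fin n) (Fin n) ℚ))

/-- `ad J` on the complexification of `g` -/
private noncomputable def T11_ad (J : Matrix (Fin n) (Fin n) ℂ) :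
    (cx (g : Set (Matrix (Fin n) (Fin n) ℚ))) →ₗ[ℂ] Matrix (Fin n) (Fin n) ℂ where
  toFun := fun Z => br J Z
  map_add' := by
    intro a b
    unfold br
    rw [Submodule.coe_add, Matrix.mul_add, Matrix.add_mul]
    abel
  map_smul' := by
    intro c a
    unfold br
    rw [Submodule.coe_smul, Matrix.mul_smul, Matrix.smul_mul, RingHom.id_apply, smul_sub]

private theorem T11_dim (J : Matrix (Fin n) (Fin n) ℂ) :
    Module.finrank ℂ (LinearMap.range (T11_ad g J)) + Module.finrank ℂ (cen g J) =
      Module.finrank ℂ (cx (g : Set (Matrix (Fin n) (Fin n) ℚ))) := by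
  have h1 : cen g J = (LinearMap.ker (T11_ad g J)).map
      (cx (g : Set (Matrix (Fin n) (Fin n) ℚ))).subtype := by
    ext Z
    constructor
    · rintro ⟨h1, h2⟩
      exact ⟨⟨Z, h1⟩, h2, rfl⟩
    · rintro ⟨Y, h1, rfl⟩
      exact ⟨Y.2, h1⟩
  rw [h1, Submodule.finrank_map_subtype_eq]
  exact LinearMap.finrank_range_add_finrank_ker _

theorem cen_semi (J₁ : Matrix (Fin n) (Fin n) ℂ) :
    ∀ᶠ J in 𝓝 J₁, Module.finrank ℂ (cen g J) ≤ Module.finrank ℂ (cen g J₁) := by
  classical
  set r := Module.finrank ℂ (LinearMap.range (T11_ad g J₁)) with hr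
  have b := Module.finBasis ℂ (LinearMap.range (T11_ad g J₁))
  have hw : ∀ i, ∃ w, T11_ad g J₁ w = (b i : Matrix (Fin n) (Fin n) ℂ) := fun i => (b i).2
  choose w hw using hw
  have hli : LinearIndependent ℂ
      (fun i => (T11_ad g J₁ (w i) : Matrix (Fin n) (Fin n) ℂ)) := by
    have h1 := b.linearIndependent.map' (LinearMap.range (T11_ad g J₁)).subtype
      (Submodule.ker_subtype _)
    have h2 : (fun i => (T11_ad g J₁ (w i) : Matrix (Fin n) (Fin n) ℂ)) =
        (LinearMap.range (T11_ad g J₁)).subtype ∘ b := by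
      funext i
      exact hw i
    rw [h2]
    exact h1
  let Φ : Matrix (Fin n) (Fin n) ℂ → (Fin r → (Fin n → Fin n → ℂ)) :=
    fun J i => T11_ad g J (w i)
  have hΦ : Continuous Φ := by
    refine continuous_pi fun i => ?_
    show Continuous fun J : Matrix (Fin n) (Fin n) ℂ =>
      J * (w i : Matrix (Fin n) (Fin n) ℂ) - (w i : Matrix (Fin n) (Fin n) ℂ) * J
    exact (continuous_id.matrix_mul continuous_const).sub
      (continuous_const.matrix_mul continuous_id)
  have hopen : IsOpen {f : Fin r → (Fin n → Fin n → ℂ) | LinearIndependent ℂ f} :=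
    isOpen_setOf_linearIndependent
  have hmem : Φ J₁ ∈ {f : Fin r → (Fin n → Fin n → ℂ) | LinearIndependent ℂ f} := hli
  filter_upwards [hΦ.continuousAt.preimage_mem_nhds (hopen.mem_nhds hmem)] with J hJ
  have hJ' : LinearIndependent ℂ (fun i => (T11_ad g J (w i) : Matrix (Fin n) (Fin n) ℂ)) := hJ
  have h1 : r ≤ Module.finrank ℂ (LinearMap.range (T11_ad g J)) := by
    have h2 := finrank_span_eq_card hJ'
    rw [Fintype.card_fin] at h2
    rw [hr, ← h2]
    refine Submodule.finrank_mono (Submodule.span_le.2 ?_)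
    rintro _ ⟨i, rfl⟩
    exact ⟨w i, rfl⟩
  have h3 := T11_dim g J
  have h4 := T11_dim g J₁
  omega

end MP2794d1.GD
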