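import Pool.Agent.Lib.MP_2794d1_ag.GD.X1
import Pool.Agent.Lib.MP_2794d1_ag.GD.T1
import Pool.Agent.Lib.MP_2794d1_ag.GD.T11
import Pool.Agent.Lib.MP_2794d1_ag.AH.S11

/-!
X5: a good point. Minimise `finrank (cen (gMT V) A)` over `x ∈ U` and the real `A ∈ cx (gMT V)` with `[μ_x, A] = 0` (not empty: `A = 0`):
`(x', J')`. For `x` near `x'` the real matrix `J' - [μ_x, [μ_x, J']]` (`HD.star`) is near `J'` (`JX_cont`), so its centraliser has the minimal
dimension (`cen_semi`); take `x = x₀ ∈ U` near `x'` with `rankX V x₀ = ρ` (`rank_dense`).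
-/

namespace MP2794d1.GD

open Matrix Complex Filter Topology MP2794d1.PC MP2794d1.AH
open scoped ContDiff Manifold

variable {n m : ℕ} {X G : Type} [TopologicalSpace X] [ChartedSpace (Fin m → ℂ) X]
  [IsManifold 𝓘(ℂ, Fin m → ℂ) ω X] [ConnectedSpace X] [Group G] [MulAction G X]
  (V : MVHS n m X G)

theorem X5_br_cont {Y : Type} [TopologicalSpace Y] {f h : Y → Matrix (Fin n) (Fin n) ℂ} {x : Y}
    (hf : ContinuousAt f x) (hh : ContinuousAt h x) : ContinuousAt (fun y => br (f y) (h y)) x := by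
  unfold br
  exact (A18_mul hf hh).sub (A18_mul hh hf)

theorem good_point {ρ : ℕ} (hρ : IsGreatest (Set.range (rankX V)) ρ) (hS : IsShimuraDom V ρ)
    (U : Set X) (hU : IsOpen U) (hne : U.Nonempty) :
    ∃ x₀ ∈ U, rankX V x₀ = ρ ∧ ∃ J ∈ cx (gMT V : Set (Matrix (Fin n) (Fin n) ℚ)),
      mconj J = J ∧ br (JX V x₀) J = 0 ∧
      ∀ x ∈ U, ∀ A ∈ cx (gMT V : Set (Matrix (Fin n) (Fin n) ℚ)), mconj A = A →
        br (JX V x) A = 0 →
        Module.finrank ℂ (cen (gMT V) J) ≤ Module.finrank ℂ (cen (gMT V) A) := by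
  classical
  let P : ℕ → Prop := fun k => ∃ x ∈ U, ∃ A ∈ cx (gMT V : Set (Matrix (Fin n) (Fin n) ℚ)),
    mconj A = A ∧ br (JX V x) A = 0 ∧ Module.finrank ℂ (cen (gMT V) A) = k
  have hP : ∃ k, P k := by
    obtain ⟨x, hx⟩ := hne
    refine ⟨_, x, hx, 0, Submodule.zero_mem _, ?_, ?_, rfl⟩
    · ext i j
      simp [mconj]
    · unfold br
      rw [Matrix.mul_zero, Matrix.zero_mul, sub_zero]
  obtain ⟨x', hx', J', hJ', hJr, hJ0, hJk⟩ := Nat.find_spec hP
  have hmin : ∀ x ∈ U, ∀ A ∈ cx (gMT V : Set (Matrix (Fin n) (Fin n) ℚ)), mconj A = A →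
      br (JX V x) A = 0 →
      Module.finrank ℂ (cen (gMT V) J') ≤ Module.finrank ℂ (cen (gMT V) A) := by
    intro x hx A hA hAr hA0
    rw [hJk]
    exact Nat.find_min' hP ⟨x, hx, A, hA, hAr, hA0, rfl⟩
  have hc : ContinuousAt (fun x => J' - br (JX V x) (br (JX V x) J')) x' := by
    have h1 : ContinuousAt (fun x => br (JX V x) J') x' :=
      X5_br_cont (JX_cont V x') continuousAt_const
    exact continuousAt_const.sub (X5_br_cont (JX_cont V x') h1)
  have hval : J' - br (JX V x') (br (JX V x') J') = J' := by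
    rw [hJ0]
    unfold br
    rw [Matrix.mul_zero, Matrix.zero_mul, sub_zero, sub_zero]
  have h2 : ∀ᶠ A in 𝓝 (J' - br (JX V x') (br (JX V x') J')),
      Module.finrank ℂ (cen (gMT V) A) ≤ Module.finrank ℂ (cen (gMT V) J') := by
    rw [hval]
    exact cen_semi (gMT V) J'
  have h3 := hc.eventually h2
  have h4 : ∀ᶠ x in 𝓝 x', x ∈ U := hU.mem_nhds hx'
  obtain ⟨x₀, hr, hfin, hx₀⟩ := ((rank_dense V hρ x').and_eventually (h3.and h4)).exists
  obtain ⟨s1, s2, s3⟩ := (hdX V hS x₀).star hJ' hJr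
  exact ⟨x₀, hx₀, hr, _, s1, s2, s3, fun x hx A hA hAr hA0 => hfin.trans (hmin x hx A hA hAr hA0)⟩

end MP2794d1.GD
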