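import Pool.Agent.Lib.MP_2794d1_ag.GD.Defs

/-!
X6: coordinates exist. `B`: an integral basis of `g` (clear denominators of a `ℚ`-basis), `N`: a
basis of the space `{N ∈ cx g | br μ N = -N}`. `Fr.real`: the real elements of `cx g` are the
`R.Y t`. `Fr.near`: a real element close to `R.Y t₁` has coordinates close to `t₁`.
-/

namespace MP2794d1.GD

open Matrix Complex Filter Topology

variable {n : ℕ} {wt : ℤ} {Q : Matrix (Fin n) (Fin n) ℤ} {g : Submodule ℚ (Matrix (Fin n) (Fin n) ℚ)}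
  {Fl : ℤ → Submodule ℂ (Fin n → ℂ)} {μ : Matrix (Fin n) (Fin n) ℂ} {k r : ℕ}

private theorem X6_den (A : Matrix (Fin n) (Fin n) ℚ) :
    ∃ (d : ℚ) (Az : Matrix (Fin n) (Fin n) ℤ), d ≠ 0 ∧ qm Az = d • A := by
  obtain ⟨b, hb⟩ := IsLocalization.exist_integer_multiples (nonZeroDivisors ℤ)
    (Finset.univ : Finset (Fin n × Fin n)) (fun p => A p.1 p.2)
  have h1 : ∀ i j, ∃ z : ℤ, (z : ℚ) = ((b : ℤ) : ℚ) * A i j := by
    intro i j
    obtain ⟨z, hz⟩ := hb (i, j) (Finset.mem_univ _)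
    refine ⟨z, ?_⟩
    have h2 : ((algebraMap ℤ ℚ) z : ℚ) = (b : ℤ) • A i j := hz
    rw [zsmul_eq_mul] at h2
    exact h2
  choose z hz using h1
  refine ⟨((b : ℤ) : ℚ), Matrix.of z, ?_, ?_⟩
  · exact Int.cast_ne_zero.2 (nonZeroDivisors.ne_zero b.2)
  · ext i j
    rw [Matrix.smul_apply, smul_eq_mul]
    exact hz i j

theorem exists_B (g : Submodule ℚ (Matrix (Fin n) (Fin n) ℚ)) :
    ∃ (k : ℕ) (B : Fin k → Matrix (Fin n) (Fin n) ℤ),
      Submodule.span ℚ (Set.range fun i => qm (B i)) = g ∧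
      LinearIndependent ℚ (fun i => qm (B i)) := by
  have b := Module.finBasis ℚ g
  have h1 : ∀ i, ∃ (d : ℚ) (Az : Matrix (Fin n) (Fin n) ℤ), d ≠ 0 ∧
      qm Az = d • (b i : Matrix (Fin n) (Fin n) ℚ) := fun i => X6_den _
  choose d B hd hB using h1
  have hu : ∀ i, IsUnit (d i) := fun i => (hd i).isUnit
  have h2 : (fun i => qm (B i)) = g.subtype ∘ (b.isUnitSMul hu) := by
    funext i
    rw [Function.comp_apply, Module.Basis.isUnitSMul_apply, hB i]
    rfl
  refine ⟨_, B, ?_, ?_⟩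
  · rw [h2, Set.range_comp, ← Submodule.map_span, (b.isUnitSMul hu).span_eq,
      Submodule.map_subtype_top]
  · rw [h2]
    exact (b.isUnitSMul hu).linearIndependent.map' g.subtype (Submodule.ker_subtype _)

/-- the part of type `(-1,1)` of the complexification of `g` -/
private noncomputable def X6_E (g : Submodule ℚ (Matrix (Fin n) (Fin n) ℚ))
    (μ : Matrix (Fin n) (Fin n) ℂ) : Submodule ℂ (Matrix (Fin n) (Fin n) ℂ) where
  carrier := {Z | Z ∈ cx (g : Set (Matrix (Fin n) (Fin n) ℚ)) ∧ br μ Z = -Z}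
  add_mem' := by
    rintro a b ⟨ha, ha'⟩ ⟨hb, hb'⟩
    refine ⟨Submodule.add_mem _ ha hb, ?_⟩
    have h : br μ (a + b) = br μ a + br μ b := by
      unfold br
      simp only [Matrix.mul_add, Matrix.add_mul]
      abel
    rw [h, ha', hb', neg_add]
  zero_mem' := ⟨Submodule.zero_mem _, by unfold br; simp⟩
  smul_mem' := by
    rintro c a ⟨ha, ha'⟩
    refine ⟨Submodule.smul_mem _ _ ha, ?_⟩
    have h : br μ (c • a) = c • br μ a := by
      unfold br
      simp only [Matrix.mul_smul, Matrix.smul_mul, smul_sub]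
    rw [h, ha', smul_neg]

theorem exists_Fr (h : HD wt Q g Fl μ) (B : Fin k → Matrix (Fin n) (Fin n) ℤ)
    (hB : Submodule.span ℚ (Set.range fun i => qm (B i)) = g)
    (hB' : LinearIndependent ℚ (fun i => qm (B i))) :
    ∃ (r : ℕ) (R : Fr wt Q g Fl μ k r), R.B = B := by
  have b := Module.finBasis ℂ (X6_E g μ)
  refine ⟨_, ⟨h, B, hB, hB', fun j => (b j : Matrix (Fin n) (Fin n) ℂ), fun j => (b j).2,
    b.linearIndependent.map' (X6_E g μ).subtype (Submodule.ker_subtype _), ?_⟩, rfl⟩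
  intro Z hZ hZ'
  have h1 : (Set.range fun j => (b j : Matrix (Fin n) (Fin n) ℂ)) =
      (X6_E g μ).subtype '' (Set.range b) := by
    rw [← Set.range_comp]
    rfl
  rw [h1, ← Submodule.map_span, b.span_eq, Submodule.map_subtype_top]
  exact ⟨hZ, hZ'⟩

private theorem X6_im (A : Matrix (Fin n) (Fin n) ℤ) : im A = cm (qm A) := by
  ext i j
  simp [im, cm, qm]

private theorem X6_mconj_im (c : ℂ) (A : Matrix (Fin n) (Fin n) ℤ) :
    mconj (c • im A) = (starRingEnd ℂ c) • im A := by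
  ext i j
  simp [mconj, im]

private theorem X6_mconj_sum {ι : Type} (s : Finset ι) (F : ι → Matrix (Fin n) (Fin n) ℂ) :
    mconj (∑ i ∈ s, F i) = ∑ i ∈ s, mconj (F i) := by
  ext a b
  simp only [mconj, Matrix.map_apply, Matrix.sum_apply, map_sum]

theorem Fr.Y_mem (R : Fr wt Q g Fl μ k r) (t : Fin k → ℝ) :
    R.Y t ∈ cx (g : Set (Matrix (Fin n) (Fin n) ℚ)) ∧ mconj (R.Y t) = R.Y t := by
  constructor
  · unfold Fr.Y
    refine Submodule.sum_mem _ fun i _ => Submodule.smul_mem _ _ ?_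
    rw [X6_im]
    refine Submodule.subset_span ⟨qm (R.B i), ?_, rfl⟩
    show qm (R.B i) ∈ g
    have h1 : qm (R.B i) ∈ Submodule.span ℚ (Set.range fun i => qm (R.B i)) :=
      Submodule.subset_span ⟨i, rfl⟩
    rwa [R.Bspan] at h1
  · unfold Fr.Y
    rw [X6_mconj_sum]
    refine Finset.sum_congr rfl fun i _ => ?_
    rw [X6_mconj_im, Complex.conj_ofReal]

private theorem X6_span (R : Fr wt Q g Fl μ k r) {A : Matrix (Fin n) (Fin n) ℂ}
    (hA : A ∈ cx (g : Set (Matrix (Fin n) (Fin n) ℚ))) :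
    A ∈ Submodule.span ℂ (Set.range fun i => im (R.B i)) := by
  have h1 : cx (g : Set (Matrix (Fin n) (Fin n) ℚ)) ≤
      Submodule.span ℂ (Set.range fun i => im (R.B i)) := by
    refine Submodule.span_le.2 ?_
    rintro _ ⟨Y, hY, rfl⟩
    have hY' : Y ∈ Submodule.span ℚ (Set.range fun i => qm (R.B i)) := by
      rw [R.Bspan]
      exact hY
    show cm Y ∈ Submodule.span ℂ (Set.range fun i => im (R.B i))
    clear hY
    induction hY' using Submodule.span_induction with
    | mem Z hZ =>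
      obtain ⟨i, rfl⟩ := hZ
      have h2 : cm (qm (R.B i)) = im (R.B i) := (X6_im _).symm
      show cm (qm (R.B i)) ∈ _
      rw [h2]
      exact Submodule.subset_span ⟨i, rfl⟩
    | zero =>
      have h2 : cm (0 : Matrix (Fin n) (Fin n) ℚ) = 0 := by
        ext i j
        simp [cm]
      rw [h2]
      exact Submodule.zero_mem _
    | add Y Z hY hZ hY' hZ' =>
      have h2 : cm (Y + Z) = cm Y + cm Z := by
        ext i j
        simp [cm]
      rw [h2]
      exact Submodule.add_mem _ hY' hZ'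
    | smul c Y hY hY' =>
      have h2 : cm (c • Y) = (c : ℂ) • cm Y := by
        ext i j
        simp [cm]
      rw [h2]
      exact Submodule.smul_mem _ _ hY'
  exact h1 hA

theorem Fr.real (R : Fr wt Q g Fl μ k r) {A : Matrix (Fin n) (Fin n) ℂ}
    (hA : A ∈ cx (g : Set (Matrix (Fin n) (Fin n) ℚ))) (hr : mconj A = A) : ∃ t, A = R.Y t := by
  obtain ⟨c, hc⟩ := (Submodule.mem_span_range_iff_exists_fun ℂ).1 (X6_span R hA)
  refine ⟨fun i => (c i).re, ?_⟩
  have h1 : mconj A = ∑ i, (starRingEnd ℂ (c i)) • im (R.B i) := by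
    rw [← hc, X6_mconj_sum]
    exact Finset.sum_congr rfl fun i _ => X6_mconj_im _ _
  have h2 : A = (2 : ℂ)⁻¹ • (A + mconj A) := by
    rw [hr, ← two_smul ℂ A, smul_smul, inv_mul_cancel₀ (two_ne_zero), one_smul]
  rw [h2, h1]
  conv_lhs => rw [← hc]
  rw [← Finset.sum_add_distrib, Finset.smul_sum]
  unfold Fr.Y
  refine Finset.sum_congr rfl fun i _ => ?_
  rw [← add_smul, smul_smul]
  congr 1
  rw [Complex.add_conj]
  push_cast
  ring

/-- the coordinates as a real linear map -/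
private noncomputable def X6_lin (R : Fr wt Q g Fl μ k r) :
    (Fin k → ℝ) →ₗ[ℝ] Matrix (Fin n) (Fin n) ℂ where
  toFun := R.Y
  map_add' := by
    intro s t
    unfold Fr.Y
    rw [← Finset.sum_add_distrib]
    refine Finset.sum_congr rfl fun i _ => ?_
    rw [← add_smul, Pi.add_apply, Complex.ofReal_add]
  map_smul' := by
    intro c t
    unfold Fr.Y
    rw [RingHom.id_apply, Finset.smul_sum]
    refine Finset.sum_congr rfl fun i _ => ?_
    ext a b
    simp only [Matrix.smul_apply, Pi.smul_apply, smul_eq_mul, Complex.ofReal_mul,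
      Complex.real_smul]
    ring

private theorem X6_inj (R : Fr wt Q g Fl μ k r) : LinearMap.ker (X6_lin R) = ⊥ := by
  rw [LinearMap.ker_eq_bot']
  intro t ht
  have h0 : ∀ a b, ∑ i, t i * ((R.B i a b : ℤ) : ℝ) = 0 := by
    intro a b
    have h1 : (R.Y t) a b = 0 := by
      have h2 : R.Y t = 0 := ht
      rw [h2]
      rfl
    unfold Fr.Y at h1
    rw [Matrix.sum_apply] at h1
    have h2 : ((∑ i, t i * ((R.B i a b : ℤ) : ℝ) : ℝ) : ℂ) = 0 := by
      rw [← h1]
      push_cast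
      refine Finset.sum_congr rfl fun i _ => ?_
      simp [im]
    exact_mod_cast h2
  funext j
  show t j = 0
  refine (Module.forall_dual_apply_eq_zero_iff ℚ (t j)).1 fun l => ?_
  have h1 : ∑ i, (l (t i)) • qm (R.B i) = 0 := by
    ext a b
    rw [Matrix.sum_apply]
    have h2 := congrArg l (h0 a b)
    rw [map_sum, map_zero] at h2
    show _ = (0 : ℚ)
    rw [← h2]
    refine Finset.sum_congr rfl fun i _ => ?_
    rw [Matrix.smul_apply, smul_eq_mul]
    have h3 : t i * ((R.B i a b : ℤ) : ℝ) = (R.B i a b : ℤ) • t i := by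
      rw [zsmul_eq_mul]
      ring
    rw [h3, map_zsmul, zsmul_eq_mul]
    show l (t i) * ((R.B i a b : ℤ) : ℚ) = _
    ring
  exact Fintype.linearIndependent_iff.1 R.Bind (fun i => l (t i)) h1 j

theorem Fr.near (R : Fr wt Q g Fl μ k r) (t₁ : Fin k → ℝ) (δ : ℝ) (hδ : 0 < δ) :
    ∀ᶠ A in 𝓝 (R.Y t₁), ∀ t, A = R.Y t → ‖t - t₁‖ < δ := by
  obtain ⟨L, hL⟩ := LinearMap.exists_leftInverse_of_injective (X6_lin R) (X6_inj R)
  have hLY : ∀ t, L (R.Y t) = t := fun t => congrArg (fun f : _ →ₗ[ℝ] _ => f t) hL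
  have hcont : Continuous L := L.continuous_of_finiteDimensional
  have h1 : ∀ᶠ A in 𝓝 (R.Y t₁), L A ∈ Metric.ball t₁ δ := by
    have h2 : Metric.ball t₁ δ ∈ 𝓝 (L (R.Y t₁)) := by
      rw [hLY]
      exact Metric.ball_mem_nhds _ hδ
    exact hcont.continuousAt.eventually h2
  filter_upwards [h1] with A hA t ht
  rw [ht, hLY] at hA
  rwa [← dist_eq_norm]

theorem Fr.Y_cont (R : Fr wt Q g Fl μ k r) : Continuous R.Y :=
  (X6_lin R).continuous_of_finiteDimensional

end MP2794d1.GD
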