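import Pool.Agent.Lib.MP_2794d1_ag.GD.X4
import Pool.Agent.Lib.MP_2794d1_ag.GD.X5
import Pool.Agent.Lib.MP_2794d1_ag.GD.X6
import Pool.Agent.Lib.MP_2794d1_ag.GD.T7
import Pool.Agent.Lib.MP_2794d1_ag.GD.T10
import Pool.Agent.Lib.MP_2794d1_ag.GD.T16
import Pool.Agent.Lib.MP_2794d1_ag.GD.T17

/-!
F1: the net. `(x₀, J)` from `good_point`, `R` from `exists_Fr (hdX V hS x₀)`, `J = R.Y t₁` (`Fr.real`), `min_abelian` (for `x = x₀`);
`hinj` of `fr_newton`: if `[Z, J] = 0` then `Z ∈ cen g J`, so `[μ, Z] = 0`, so `Z = 0`. For `u` small: `x*` near `x₀` with splitting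
`R.nu u` (`nu_open`, `W` = points of `U` where `JX V` is close to `JX V x₀`), `A* = J - [μ_x*, [μ_x*, J]] = R.Y t*`, `t*` close to `t₁`
(`HD.star`, `Fr.near`, `JX_cont`), preserves `F_x*` (`FEnd0_of_comm`), so `Th (R.nu u) (R.Y t*) = 0` (`Th_zero_iff`). `t = ⌊H t*⌋ / H`; `fr_newton`:
`s`, `‖s - u‖ ≤ C / H`, `Th (R.nu s) (R.Y t) = 0`; `x ∈ U` with splitting `R.nu s` (`nu_open` again), `R.Y t ∈ FEnd F_x 0` (`Th_zero_iff`), so
`[μ_x, R.Y t] = 0` (`HD.comm_of`), its centraliser has minimal dimension (`cen_semi`, `Fr.Y_cont`) so it is abelian (`min_abelian` at `x`, with the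
minimality from `good_point`); `H • R.Y t = im (∑ y i • B i)` has the same centraliser, `|y i| ≤ C H`; `cm_of_abelian`, `trace_bound`.
The exponent `e` does not depend on `U`:
choose `B` first (`exists_B (gMT V)`), `e` from `cm_of_abelian B`, then `exists_Fr … B`.
-/

namespace MP2794d1.GD

open Matrix Complex Filter Topology MP2794d1.PC MP2794d1.AH
open scoped ContDiff Manifold

variable {n m : ℕ} {X G : Type} [TopologicalSpace X] [ChartedSpace (Fin m → ℂ) X]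
  [IsManifold 𝓘(ℂ, Fin m → ℂ) ω X] [ConnectedSpace X] [Group G] [MulAction G X]
  (V : MVHS n m X G)

theorem F1_smul_cen (g : Submodule ℚ (Matrix (Fin n) (Fin n) ℚ)) (Y : Matrix (Fin n) (Fin n) ℂ)
    (c : ℂ) (hc : c ≠ 0) : cen g (c • Y) = cen g Y := by
  ext Z
  have h : br (c • Y) Z = c • br Y Z := by
    unfold br
    rw [Matrix.smul_mul, Matrix.mul_smul, smul_sub]
  constructor
  · rintro ⟨h1, h2⟩
    refine ⟨h1, ?_⟩
    rw [h] at h2
    exact (smul_eq_zero.1 h2).resolve_left hc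
  · rintro ⟨h1, h2⟩
    refine ⟨h1, ?_⟩
    rw [h, h2, smul_zero]

/-- In every open set `U` there is a point `x₀` such that the CM points of `U` of complexity at most `C * H ^ e` form a `C / H`-net of a
neighbourhood of `x₀` (in the coordinates `u` of the splitting); the exponent `e` does not depend on `U`. -/
theorem net {ρ : ℕ} (hρ : IsGreatest (Set.range (rankX V)) ρ) (hS : IsShimuraDom V ρ) :
    ∃ e : ℕ, ∀ U : Set X, IsOpen U → U.Nonempty →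
      ∃ x₀ ∈ U, rankX V x₀ = ρ ∧ ∃ (k r : ℕ)
        (R : Fr V.wt V.Q (gMT V) (fun p => V.F p x₀) (JX V x₀) k r) (δ C : ℝ),
        0 < δ ∧ 0 < C ∧ ∀ H : ℕ, C ≤ H → ∀ u : Fin r → ℂ, ‖u‖ < δ →
          ∃ s : Fin r → ℂ, ‖s - u‖ ≤ C / H ∧ ∃ x ∈ U, IsCMX V x (C * (H : ℝ) ^ e) ∧
            Spl V.wt (fun p => V.F p x₀) (fun p => V.F p x) (R.nu s) := by
  obtain ⟨k, B, hB, hB'⟩ := exists_B (gMT V)
  obtain ⟨C₁, e, hcm⟩ := cm_of_abelian B
  obtain ⟨CQ, hCQ, htr⟩ := trace_bound V.Q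
  refine ⟨e, fun U hU hne => ?_⟩
  obtain ⟨x₀, hx₀, hr, J, hJ, hJr, hJ0, hmin⟩ := good_point V hρ hS U hU hne
  have h0 := hdX V hS x₀
  obtain ⟨r, R, hRB⟩ := exists_Fr h0 B hB hB'
  subst hRB
  obtain ⟨t₁, ht₁⟩ := R.real hJ hJr
  obtain ⟨hab1, hab2⟩ := min_abelian h0 hJ hJr hJ0 (fun A hA hAr hA0 => hmin x₀ hx₀ A hA hAr hA0)
  have hinj : ∀ Z ∈ cx (gMT V : Set (Matrix (Fin n) (Fin n) ℚ)), br (JX V x₀) Z = -Z →
      br Z (R.Y t₁) = 0 → Z = 0 := by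
    intro Z hZ hZ1 hZ2
    have h1 : br J Z = 0 := by
      have e1 : br J Z = -br Z J := by unfold br; abel
      rw [e1, ht₁, hZ2, neg_zero]
    have h2 := hab1 Z ⟨hZ, h1⟩
    rw [h2] at hZ1
    exact (neg_eq_zero.1 hZ1.symm)
  obtain ⟨δ₁, C₂, hδ₁, hC₂, hN⟩ := fr_newton R t₁ (by rw [← ht₁]; exact hJ0) hinj
  -- semicontinuity
  obtain ⟨δ₂, hδ₂, hsemi⟩ : ∃ δ₂ : ℝ, 0 < δ₂ ∧ ∀ t : Fin k → ℝ, ‖t - t₁‖ < δ₂ →
      Module.finrank ℂ (cen (gMT V) (R.Y t)) ≤ Module.finrank ℂ (cen (gMT V) J) := by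
    have h1 := (R.Y_cont.continuousAt (x := t₁)).eventually (cen_semi (gMT V) (R.Y t₁))
    obtain ⟨ε, hε, h2⟩ := Metric.eventually_nhds_iff.1 h1
    refine ⟨ε, hε, fun t ht => ?_⟩
    rw [ht₁]
    exact h2 (by rwa [dist_eq_norm])
  set δ₃ : ℝ := min δ₁ δ₂ / 2 with hδ₃
  have hδ₃0 : 0 < δ₃ := by positivity
  have hδ₃1 : 2 * δ₃ ≤ δ₁ := by rw [hδ₃]; linarith [min_le_left δ₁ δ₂]
  have hδ₃2 : 2 * δ₃ ≤ δ₂ := by rw [hδ₃]; linarith [min_le_right δ₁ δ₂]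
  -- the neighbourhood
  let W : Set X := {x | x ∈ U ∧ ∀ t, J - br (JX V x) (br (JX V x) J) = R.Y t → ‖t - t₁‖ < δ₃}
  have hW : W ∈ 𝓝 x₀ := by
    have hc : ContinuousAt (fun x => J - br (JX V x) (br (JX V x) J)) x₀ := by
      have h1 : ContinuousAt (fun x => br (JX V x) J) x₀ :=
        X5_br_cont (JX_cont V x₀) continuousAt_const
      exact continuousAt_const.sub (X5_br_cont (JX_cont V x₀) h1)
    have hval : J - br (JX V x₀) (br (JX V x₀) J) = R.Y t₁ := by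
      rw [hJ0, ← ht₁]
      unfold br
      rw [Matrix.mul_zero, Matrix.zero_mul, sub_zero, sub_zero]
    have h2 : ∀ᶠ A in 𝓝 (J - br (JX V x₀) (br (JX V x₀) J)), ∀ t, A = R.Y t → ‖t - t₁‖ < δ₃ := by
      rw [hval]
      exact R.near t₁ δ₃ hδ₃0
    have h3 : ∀ᶠ x in 𝓝 x₀, x ∈ U := hU.mem_nhds hx₀
    exact h3.and (hc.eventually h2)
  obtain ⟨δ₄, hδ₄, hopen⟩ := nu_open V hS hr R W hW
  -- constants
  set K : ℕ := ⌈‖t₁‖ + δ₃ + 1⌉₊ with hK
  set δ : ℝ := min δ₁ δ₄ / 2 with hδ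
  have hδ0 : 0 < δ := by positivity
  set C : ℝ := 1 + 1 / δ₃ + C₂ + 2 * C₂ / δ₄ + CQ * (C₁ * (K : ℝ) ^ e) with hC
  have hp1 : 0 < 1 / δ₃ := by positivity
  have hp2 : 0 < 2 * C₂ / δ₄ := by positivity
  have hp3 : 0 ≤ CQ * (C₁ * (K : ℝ) ^ e) := by positivity
  have hC0 : 0 < C := by positivity
  refine ⟨x₀, hx₀, hr, k, r, R, δ, C, hδ0, hC0, fun H hH u hu => ?_⟩
  have hH1 : (1 : ℝ) ≤ H := by linarith
  have hH0 : (0 : ℝ) < H := by linarith
  have hHne : (H : ℂ) ≠ 0 := by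
    have : (H : ℝ) ≠ 0 := hH0.ne'
    exact_mod_cast this
  have hHδ₃ : 1 / (H : ℝ) < δ₃ := by
    rw [div_lt_iff₀ hH0, ← div_lt_iff₀' hδ₃0]
    linarith
  have hHδ₄ : C₂ / (H : ℝ) < δ₄ / 2 := by
    rw [div_lt_iff₀ hH0]
    have h1 : 2 * C₂ / δ₄ < H := by linarith
    rw [div_lt_iff₀ hδ₄] at h1
    linarith
  have huδ₁ : ‖u‖ < δ₁ := by
    have := min_le_left δ₁ δ₄
    linarith
  have huδ₄ : ‖u‖ < δ₄ / 2 := by
    have := min_le_right δ₁ δ₄
    linarith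
  obtain ⟨xs, ⟨hxsU, hxst⟩, hspl⟩ := hopen u (by linarith)
  have hs := hdX V hS xs
  obtain ⟨s1, s2, s3⟩ := hs.star hJ hJr
  obtain ⟨ts, hts⟩ := R.real s1 s2
  have hts1 : ‖ts - t₁‖ < δ₃ := hxst ts hts
  have hTh : Th (R.nu u) (R.Y ts) = 0 := by
    refine (Th_zero_iff h0 hs hspl (R.Y_mem ts).1).2 ?_
    rw [← hts]
    exact FEnd0_of_comm (V.phs xs) (JX_gr V xs) _ s3
  -- the rational approximation
  set y : Fin k → ℤ := fun i => ⌊(H : ℝ) * ts i⌋ with hy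
  set t : Fin k → ℝ := fun i => (y i : ℝ) / H with ht
  have htts : ‖t - ts‖ ≤ 1 / H := by
    rw [pi_norm_le_iff_of_nonneg (by positivity)]
    intro i
    rw [Pi.sub_apply, Real.norm_eq_abs]
    have h1 := Int.floor_le ((H : ℝ) * ts i)
    have h2 := Int.lt_floor_add_one ((H : ℝ) * ts i)
    have h3 : t i - ts i = ((⌊(H : ℝ) * ts i⌋ : ℝ) - H * ts i) / H := by
      rw [ht, hy]
      field_simp
    rw [h3, abs_div, abs_of_pos hH0]
    gcongr
    rw [abs_le]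
    constructor <;> linarith
  have htt₁ : ‖t - t₁‖ < 2 * δ₃ := by
    have h1 : t - t₁ = (t - ts) + (ts - t₁) := by abel
    rw [h1]
    have h2 := norm_add_le (t - ts) (ts - t₁)
    linarith
  obtain ⟨s, hsu, hsTh⟩ := hN t ts u (by linarith) (by linarith) huδ₁ hTh
  have hsu' : ‖s - u‖ ≤ C₂ / H := by
    refine hsu.trans ?_
    calc C₂ * ‖t - ts‖ ≤ C₂ * (1 / H) := by gcongr
      _ = C₂ / H := by ring
  have hsδ : ‖s‖ < δ₄ := by
    have h1 : s = (s - u) + u := by abel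
    have h2 := norm_add_le (s - u) u
    rw [← h1] at h2
    linarith
  obtain ⟨x, ⟨hxU, hxt⟩, hsplx⟩ := hopen s hsδ
  refine ⟨s, ?_, x, hxU, ?_, hsplx⟩
  · refine hsu'.trans ?_
    gcongr
    linarith
  have hx := hdX V hS x
  have hYt := R.Y_mem t
  have hYF : R.Y t ∈ FEnd (fun p => V.F p x) 0 := (Th_zero_iff h0 hx hsplx hYt.1).1 hsTh
  have hYb : br (JX V x) (R.Y t) = 0 := hx.comm_of hYt.2 hYF
  have hYmin : ∀ A ∈ cx (gMT V : Set (Matrix (Fin n) (Fin n) ℚ)), mconj A = A →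
      br (JX V x) A = 0 →
      Module.finrank ℂ (cen (gMT V) (R.Y t)) ≤ Module.finrank ℂ (cen (gMT V) A) := by
    intro A hA hAr hA0
    exact (hsemi t (by linarith)).trans (hmin x hxU A hA hAr hA0)
  obtain ⟨-, hYab⟩ := min_abelian hx hYt.1 hYt.2 hYb hYmin
  have himY : im (∑ i, y i • R.B i) = (H : ℂ) • R.Y t := by
    unfold Fr.Y
    rw [Finset.smul_sum]
    ext a b
    simp only [im, Matrix.map_apply, Matrix.sum_apply, Matrix.smul_apply, smul_eq_mul]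
    push_cast
    refine Finset.sum_congr rfl fun i _ => ?_
    rw [ht]
    push_cast
    field_simp
  have hcen : cen (gMT V) (im (∑ i, y i • R.B i)) = cen (gMT V) (R.Y t) := by
    rw [himY]
    exact F1_smul_cen _ _ _ hHne
  have hybd : ∀ i, |y i| ≤ ((K * H : ℕ) : ℤ) := by
    intro i
    have h1 : |ts i| ≤ ‖t₁‖ + δ₃ := by
      have h2 : ‖ts i‖ ≤ ‖ts‖ := norm_le_pi_norm ts i
      have h3 : ts = (ts - t₁) + t₁ := by abel
      have h4 := norm_add_le (ts - t₁) t₁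
      rw [← h3] at h4
      rw [Real.norm_eq_abs] at h2
      linarith
    have h5 : |(y i : ℝ)| ≤ (K * H : ℕ) := by
      have h6 : |(y i : ℝ)| ≤ |(H : ℝ) * ts i| + 1 := by
        have h7 := Int.floor_le ((H : ℝ) * ts i)
        have h8 := Int.lt_floor_add_one ((H : ℝ) * ts i)
        rw [abs_le]
        have h9 := neg_abs_le ((H : ℝ) * ts i)
        have h10 := le_abs_self ((H : ℝ) * ts i)
        constructor
        · show -(|(H : ℝ) * ts i| + 1) ≤ ((⌊(H : ℝ) * ts i⌋ : ℤ) : ℝ)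
          linarith
        · show ((⌊(H : ℝ) * ts i⌋ : ℤ) : ℝ) ≤ |(H : ℝ) * ts i| + 1
          linarith
      have h11 : |(H : ℝ) * ts i| ≤ H * (‖t₁‖ + δ₃) := by
        rw [abs_mul, abs_of_pos hH0]
        gcongr
      have h12 : ‖t₁‖ + δ₃ + 1 ≤ K := Nat.le_ceil _
      push_cast
      nlinarith
    exact_mod_cast h5
  have hK1 : 1 ≤ K := by
    rw [hK, Nat.one_le_ceil_iff]
    positivity
  have hT1 : 1 ≤ K * H := by
    have : 1 ≤ H := by exact_mod_cast hH1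
    exact Nat.mul_pos hK1 this
  obtain ⟨A, hAs, hAF, hAb⟩ := hcm (K * H) hT1 y hybd V.wt V.Q (fun p => V.F p x) (JX V x)
    (by rw [hB]; exact hx) (by
      rw [himY]
      have e1 : br (JX V x) ((H : ℂ) • R.Y t) = (H : ℂ) • br (JX V x) (R.Y t) := by
        unfold br
        rw [Matrix.smul_mul, Matrix.mul_smul, smul_sub]
      rw [e1, hYb, smul_zero]) (by
      rw [hB, hcen]
      exact hYab)
  refine ⟨A, hAs, hAF, ?_⟩
  have h1 := htr A ((C₁ * (K * H) ^ e : ℕ) : ℝ) (fun i j => by exact_mod_cast hAb i j)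
  refine h1.trans ?_
  have h2 : CQ * ((C₁ * (K * H) ^ e : ℕ) : ℝ) ≤ C * (H : ℝ) ^ e := by
    push_cast
    calc CQ * ((C₁ : ℝ) * ((K : ℝ) * H) ^ e) = (CQ * (C₁ * (K : ℝ) ^ e)) * (H : ℝ) ^ e := by
          rw [mul_pow]
          ring
      _ ≤ C * (H : ℝ) ^ e := by
          gcongr
          rw [hC]
          linarith
  have h3 : 0 ≤ CQ * ((C₁ * (K * H) ^ e : ℕ) : ℝ) := by positivity
  gcongr

end MP2794d1.GD
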