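import Pool.Agent.Lib.MP_2794d1_ag.GD.Defs
import Pool.Agent.Lib.MP_2794d1_ag.E03

/-!
T3: bases adapted to a filtration and the conjugate of another one.
-/

namespace MP2794d1.GD

open Matrix Complex Filter Topology

variable {n : ℕ} {wt : ℤ} {Q : Matrix (Fin n) (Fin n) ℤ} {Fl Fl' : ℤ → Submodule ℂ (Fin n → ℂ)}
  {ν : Matrix (Fin n) (Fin n) ℂ} {S : Matrix (Fin n) (Fin n) ℂ} {d : Fin n → ℤ}

private lemma t3_anti {Fl : ℤ → Submodule ℂ (Fin n → ℂ)} (h : IsPHS wt Q Fl) {p q : ℤ}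
    (hpq : p ≤ q) : conjSub (Fl q) ≤ conjSub (Fl p) := fun _ hx => h.anti p q hpq hx

private lemma t3_bas (W : Submodule ℂ (Fin n → ℂ)) :
    ∃ (m : ℕ) (v : Fin m → (Fin n → ℂ)), (∀ i, v i ∈ W) ∧
      W ≤ Submodule.span ℂ (Set.range v) ∧ LinearIndependent ℂ v := by
  let b := Module.finBasis ℂ W
  refine ⟨Module.finrank ℂ W, fun i => (b i : Fin n → ℂ), fun i => (b i).2, ?_, ?_⟩
  · intro x hx
    have h1 : (⟨x, hx⟩ : W) ∈ Submodule.span ℂ (Set.range b) := by
      rw [b.span_eq]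
      trivial
    have h2 := Submodule.mem_map_of_mem (f := W.subtype) h1
    rw [Submodule.map_span, ← Set.range_comp] at h2
    exact h2
  · exact b.linearIndependent.map' W.subtype W.ker_subtype

private lemma t3_step (h' : IsPHS wt Q Fl')
    (ho : ∀ p, IsCompl (Fl' p) (conjSub (Fl (wt + 1 - p)))) (p : ℤ) (x : Fin n → ℂ)
    (hx : x ∈ Fl' p) : ∃ y ∈ Fl' (p + 1), ∃ z ∈ Fl' p ⊓ conjSub (Fl (wt - p)), x = y + z := by
  have hc := ho (p + 1)
  have ht : x ∈ Fl' (p + 1) ⊔ conjSub (Fl (wt + 1 - (p + 1))) := by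
    rw [hc.sup_eq_top]
    trivial
  obtain ⟨y, hy, z, hz, hyz⟩ := Submodule.mem_sup.mp ht
  refine ⟨y, hy, z, ⟨?_, ?_⟩, hyz.symm⟩
  · have h1 : z = x - y := by
      rw [← hyz]
      abel
    rw [h1]
    exact (Fl' p).sub_mem hx (h'.anti _ _ (by omega) hy)
  · have h1 : wt + 1 - (p + 1) = wt - p := by ring
    rw [h1] at hz
    exact hz

theorem exists_MA (h : IsPHS wt Q Fl) (h' : IsPHS wt Q Fl')
    (ho : ∀ p, IsCompl (Fl' p) (conjSub (Fl (wt + 1 - p)))) :
    ∃ (S : Matrix (Fin n) (Fin n) ℂ) (d : Fin n → ℤ), MA wt Fl Fl' S d := by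
  classical
  obtain ⟨lo0, hlo0⟩ := h'.top
  obtain ⟨hi, hhi⟩ := h'.bot
  obtain ⟨lo, hlo, K, hK⟩ : ∃ lo : ℤ, Fl' lo = ⊤ ∧ ∃ K : ℕ, hi = lo + K := by
    refine ⟨min lo0 hi, ?_, (hi - min lo0 hi).toNat, ?_⟩
    · rw [eq_top_iff, ← hlo0]
      exact h'.anti _ _ (min_le_left _ _)
    · have : min lo0 hi ≤ hi := min_le_right _ _
      omega
  choose m v hv1 hv2 hv3 using fun p : ℤ => t3_bas (Fl' p ⊓ conjSub (Fl (wt - p)))
  let ι : Type := Σ k : Fin K, Fin (m (lo + (k : ℕ)))
  let w : ι → (Fin n → ℂ) := fun x => v (lo + (x.1 : ℕ)) x.2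
  let dg : ι → ℤ := fun x => lo + ((x.1 : ℕ) : ℤ)
  have hw1 : ∀ a, w a ∈ Fl' (dg a) := fun a => (hv1 (dg a) a.2).1
  have hw2 : ∀ a, w a ∈ conjSub (Fl (wt - dg a)) := fun a => (hv1 (dg a) a.2).2
  -- spanning
  have hspan0 : ∀ k : ℕ, k ≤ K → Fl' (hi - k) ≤ Submodule.span ℂ (Set.range w) := by
    intro k
    induction k with
    | zero =>
      intro _
      have : hi - ((0 : ℕ) : ℤ) = hi := by simp
      rw [this, hhi]
      exact bot_le
    | succ k ih =>
      intro hk x hx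
      obtain ⟨y, hy, z, hz, hyz⟩ := t3_step h' ho _ x hx
      rw [hyz]
      refine Submodule.add_mem _ ?_ ?_
      · have : hi - ((k + 1 : ℕ) : ℤ) + 1 = hi - (k : ℤ) := by push_cast; ring
        rw [this] at hy
        exact ih (by omega) hy
      · have hkk : ∃ l : Fin K, hi - ((k + 1 : ℕ) : ℤ) = lo + ((l : ℕ) : ℤ) := by
          refine ⟨⟨K - (k + 1), by omega⟩, ?_⟩
          rw [hK]
          simp only
          omega
        obtain ⟨l, hl⟩ := hkk
        rw [hl] at hz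
        have hz' := hv2 _ hz
        refine Submodule.span_mono ?_ hz'
        rintro _ ⟨i, rfl⟩
        exact ⟨⟨l, i⟩, rfl⟩
  have hspan : ⊤ ≤ Submodule.span ℂ (Set.range w) := by
    have := hspan0 K le_rfl
    have h' : hi - (K : ℤ) = lo := by rw [hK]; ring
    rw [h', hlo] at this
    exact this
  -- the two parts of a sum
  have hp1 : ∀ (c : ι → ℂ) (p : ℤ), (∑ a, if p ≤ dg a then c a • w a else 0) ∈ Fl' p := by
    intro c p
    refine Submodule.sum_mem _ fun a _ => ?_
    split_ifs with ha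
    · exact Submodule.smul_mem _ _ (h'.anti _ _ ha (hw1 a))
    · exact Submodule.zero_mem _
  have hp2 : ∀ (c : ι → ℂ) (p : ℤ), (∑ a, if p ≤ dg a then 0 else c a • w a) ∈
      conjSub (Fl (wt + 1 - p)) := by
    intro c p
    refine Submodule.sum_mem _ fun a _ => ?_
    split_ifs with ha
    · exact Submodule.zero_mem _
    · exact Submodule.smul_mem _ _ (t3_anti h (by omega) (hw2 a))
  have hp3 : ∀ (c : ι → ℂ) (p : ℤ), ∑ a, c a • w a =
      (∑ a, if p ≤ dg a then c a • w a else 0) + ∑ a, if p ≤ dg a then 0 else c a • w a := by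
    intro c p
    rw [← Finset.sum_add_distrib]
    refine Finset.sum_congr rfl fun a _ => ?_
    split_ifs
    · rw [add_zero]
    · rw [zero_add]
  have hdis : ∀ (p : ℤ) (x : Fin n → ℂ), x ∈ Fl' p → x ∈ conjSub (Fl (wt + 1 - p)) → x = 0 := by
    intro p x h1 h2
    have h3 := (ho p).inf_eq_bot
    have h4 : x ∈ Fl' p ⊓ conjSub (Fl (wt + 1 - p)) := ⟨h1, h2⟩
    rw [h3] at h4
    exact (Submodule.mem_bot ℂ).1 h4
  have hp4 : ∀ (c : ι → ℂ) (p : ℤ), ∑ a, c a • w a = 0 →
      (∑ a, if p ≤ dg a then c a • w a else 0) = 0 := by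
    intro c p h0
    apply hdis p _ (hp1 c p)
    have h1 := hp3 c p
    rw [h0] at h1
    rw [eq_neg_of_add_eq_zero_left h1.symm]
    exact Submodule.neg_mem _ (hp2 c p)
  have hli : LinearIndependent ℂ w := by
    rw [Fintype.linearIndependent_iff]
    intro c hc b
    obtain ⟨kb, ib⟩ := b
    have h1 := hp4 c (lo + ((kb : ℕ) : ℤ)) hc
    have h2 := hp4 c (lo + ((kb : ℕ) : ℤ) + 1) hc
    have h3 : ∑ a : ι, (if a.1 = kb then c a • w a else 0) = 0 := by
      have h4 : ∑ a : ι, (if a.1 = kb then c a • w a else 0) =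
          (∑ a, if lo + ((kb : ℕ) : ℤ) ≤ dg a then c a • w a else 0) -
            ∑ a, if lo + ((kb : ℕ) : ℤ) + 1 ≤ dg a then c a • w a else 0 := by
        rw [← Finset.sum_sub_distrib]
        refine Finset.sum_congr rfl fun a _ => ?_
        have hda : dg a = lo + ((a.1 : ℕ) : ℤ) := rfl
        rw [hda]
        by_cases hak : a.1 = kb
        · rw [if_pos hak, if_pos (by rw [hak]), if_neg (by rw [hak]; omega), sub_zero]
        · have hne : ((a.1 : ℕ) : ℤ) ≠ ((kb : ℕ) : ℤ) := by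
            intro h5
            exact hak (Fin.ext (by exact_mod_cast h5))
          rw [if_neg hak]
          by_cases h6 : lo + ((kb : ℕ) : ℤ) ≤ lo + ((a.1 : ℕ) : ℤ)
          · rw [if_pos h6, if_pos (by omega), sub_self]
          · rw [if_neg h6, if_neg (by omega), sub_zero]
      rw [h4, h1, h2, sub_zero]
    rw [Fintype.sum_sigma, Finset.sum_eq_single kb] at h3
    · have h5 : ∑ i, c ⟨kb, i⟩ • v (lo + ((kb : ℕ) : ℤ)) i = 0 := by
        rw [← h3]
        refine Finset.sum_congr rfl fun i _ => ?_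
        rw [if_pos rfl]
      exact Fintype.linearIndependent_iff.1 (hv3 (lo + ((kb : ℕ) : ℤ))) (fun i => c ⟨kb, i⟩) h5 ib
    · intro k _ hk
      refine Finset.sum_eq_zero fun i _ => ?_
      rw [if_neg hk]
    · intro hk
      exact absurd (Finset.mem_univ kb) hk
  let bas : Module.Basis ι ℂ (Fin n → ℂ) := Module.Basis.mk hli hspan
  have hcard : Fintype.card (Fin n) = Fintype.card ι := by
    have h1 := Module.finrank_eq_card_basis bas
    rw [Module.finrank_fin_fun] at h1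
    rw [Fintype.card_fin]
    exact h1
  let e : Fin n ≃ ι := Fintype.equivOfCardEq hcard
  let S : Matrix (Fin n) (Fin n) ℂ := Matrix.of fun i a => w (e a) i
  have hST : ∀ a, Sᵀ a = w (e a) := fun a => rfl
  have hmemc : ∀ (x : Fin n → ℂ), ∃ c : ι → ℂ, x = ∑ a, c a • w a := by
    intro x
    refine ⟨fun a => bas.repr x a, ?_⟩
    have h1 := bas.sum_repr x
    have h2 : ∀ a, bas a = w a := fun a => by simp only [bas, Module.Basis.mk_apply]
    simp only [h2] at h1
    exact h1.symm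
  refine ⟨S, fun a => dg (e a), ?_, ?_, ?_⟩
  · rw [← Matrix.isUnit_iff_isUnit_det]
    rw [← Matrix.isUnit_transpose]
    rw [← Matrix.linearIndependent_rows_iff_isUnit]
    exact hli.comp e e.injective
  · intro p
    apply le_antisymm
    · intro x hx
      obtain ⟨c, hc⟩ := hmemc x
      have h1 := hp3 c p
      rw [← hc] at h1
      have h2 : (∑ a, if p ≤ dg a then 0 else c a • w a) = 0 := by
        apply hdis p _ _ (hp2 c p)
        have h3 : (∑ a, if p ≤ dg a then 0 else c a • w a) =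
            x - ∑ a, if p ≤ dg a then c a • w a else 0 := by
          rw [h1]
          abel
        rw [h3]
        exact Submodule.sub_mem _ hx (hp1 c p)
      rw [h1, h2, add_zero]
      refine Submodule.sum_mem _ fun a _ => ?_
      split_ifs with ha
      · refine Submodule.smul_mem _ _ (Submodule.subset_span ⟨e.symm a, ?_, ?_⟩)
        · show p ≤ dg (e (e.symm a))
          rw [Equiv.apply_symm_apply]; exact ha
        · rw [hST, Equiv.apply_symm_apply]
      · exact Submodule.zero_mem _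
    · rw [Submodule.span_le]
      rintro _ ⟨a, ha, rfl⟩
      rw [hST]
      exact h'.anti _ _ ha (hw1 (e a))
  · intro q
    apply le_antisymm
    · intro x hx
      obtain ⟨c, hc⟩ := hmemc x
      have h1 := hp3 c (wt + 1 - q)
      rw [← hc] at h1
      have hq : wt + 1 - (wt + 1 - q) = q := by ring
      have h2 : (∑ a, if wt + 1 - q ≤ dg a then c a • w a else 0) = 0 := by
        apply hdis (wt + 1 - q) _ (hp1 c _)
        have h3 : (∑ a, if wt + 1 - q ≤ dg a then c a • w a else 0) =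
            x - ∑ a, if wt + 1 - q ≤ dg a then 0 else c a • w a := by
          rw [h1]
          abel
        rw [h3]
        have h4 := hp2 c (wt + 1 - q)
        rw [hq] at h4 ⊢
        exact Submodule.sub_mem _ hx h4
      rw [h1, h2, zero_add]
      refine Submodule.sum_mem _ fun a _ => ?_
      split_ifs with ha
      · exact Submodule.zero_mem _
      · refine Submodule.smul_mem _ _ (Submodule.subset_span ⟨e.symm a, ?_, ?_⟩)
        · show dg (e (e.symm a)) ≤ wt - q
          rw [Equiv.apply_symm_apply]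
          omega
        · rw [hST, Equiv.apply_symm_apply]
    · rw [Submodule.span_le]
      rintro _ ⟨a, ha, rfl⟩
      rw [hST]
      have ha' : dg (e a) ≤ wt - q := ha
      exact t3_anti h (by omega) (hw2 (e a))

private lemma t3_fl (hS : MA wt Fl Fl' S d) (p : ℤ) (x : Fin n → ℂ) :
    x ∈ Fl' p ↔ ∀ a, (S⁻¹ *ᵥ x) a ≠ 0 → p ≤ d a := by
  rw [hS.fl p, E03_mem hS.inv]
  constructor
  · intro h a ha
    by_contra hc
    exact ha (h a hc)
  · intro h a ha
    by_contra hc
    exact ha (h a hc)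

private lemma t3_cfl (hS : MA wt Fl Fl' S d) (p : ℤ) (x : Fin n → ℂ) :
    x ∈ conjSub (Fl p) ↔ ∀ a, (S⁻¹ *ᵥ x) a ≠ 0 → d a ≤ wt - p := by
  rw [hS.cfl p, E03_mem hS.inv]
  constructor
  · intro h a ha
    by_contra hc
    exact ha (h a hc)
  · intro h a ha
    by_contra hc
    exact ha (h a hc)

theorem MA.nu (hS : MA wt Fl Fl' S d) (hs : Spl wt Fl Fl' ν) :
    S⁻¹ * ν * S = Matrix.diagonal (fun a => (d a : ℂ)) := by
  have h1 : ν * S = S * Matrix.diagonal (fun a => (d a : ℂ)) := by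
    ext i a
    have h2 : ν *ᵥ (Sᵀ a) = ((d a : ℤ) : ℂ) • Sᵀ a := by
      apply hs.2
      refine Submodule.mem_inf.mpr ⟨?_, ?_⟩
      · refine (t3_fl hS _ _).mpr ?_
        intro b hb
        rw [E03_colcoef hS.inv b a hb]
      · refine (t3_cfl hS _ _).mpr ?_
        intro b hb
        rw [E03_colcoef hS.inv b a hb]
        linarith
    have h3 := congrFun h2 i
    rw [Matrix.mul_diagonal]
    have h4 : (ν * S) i a = (ν *ᵥ (Sᵀ a)) i := rfl
    rw [h4, h3, Pi.smul_apply, smul_eq_mul, mul_comm]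
    rfl
  rw [Matrix.mul_assoc, h1, ← Matrix.mul_assoc, Matrix.nonsing_inv_mul _ hS.inv, Matrix.one_mul]

theorem MA.mem_FEnd (hS : MA wt Fl Fl' S d) (X : Matrix (Fin n) (Fin n) ℂ) (k : ℤ) :
    X ∈ FEnd Fl' k ↔ ∀ a b, (S⁻¹ * X * S) a b ≠ 0 → d b + k ≤ d a := by
  constructor
  · intro h a b hab
    have h1 : Sᵀ b ∈ Fl' (d b) := by
      rw [t3_fl hS]
      intro c hc
      rw [E03_colcoef hS.inv c b hc]
    have h2 : X *ᵥ (Sᵀ b) ∈ Fl' (d b + k) := h _ _ h1
    rw [t3_fl hS] at h2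
    rw [E03_entry hS.inv] at hab
    exact h2 a hab
  · intro h p x hx
    rw [t3_fl hS] at hx ⊢
    intro a ha
    rw [E03_coord hS.inv] at ha
    obtain ⟨b, hb1, hb2⟩ := E03_supp _ _ _ ha
    have e1 := h a b hb1
    have e2 := hx b hb2
    omega

/-- matrices mapping `conj (Fl p)` to `conj (Fl (p + k))` -/
theorem MA.mem_conj (hS : MA wt Fl Fl' S d) (X : Matrix (Fin n) (Fin n) ℂ) (k : ℤ) :
    mconj X ∈ FEnd Fl k ↔ ∀ a b, (S⁻¹ * X * S) a b ≠ 0 → d a + k ≤ d b := by
  have key : mconj X ∈ FEnd Fl k ↔ ∀ p, ∀ y ∈ conjSub (Fl p), X *ᵥ y ∈ conjSub (Fl (p + k)) := by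
    constructor
    · intro h p y hy
      have h1 : mconj X *ᵥ star y ∈ Fl (p + k) := h p (star y) hy
      show star (X *ᵥ y) ∈ Fl (p + k)
      rw [E03_star]
      exact h1
    · intro h p x hx
      have h1 : star x ∈ conjSub (Fl p) := by
        show star (star x) ∈ Fl p
        rw [star_star]; exact hx
      have h2 : star (X *ᵥ star x) ∈ Fl (p + k) := h p (star x) h1
      rw [E03_star, star_star] at h2
      exact h2
  rw [key]
  constructor
  · intro h a b hab
    have h1 : Sᵀ b ∈ conjSub (Fl (wt - d b)) := by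
      rw [t3_cfl hS]
      intro c hc
      rw [E03_colcoef hS.inv c b hc]
      linarith
    have h2 := h _ _ h1
    rw [t3_cfl hS] at h2
    rw [E03_entry hS.inv] at hab
    have h3 := h2 a hab
    omega
  · intro h p x hx
    rw [t3_cfl hS] at hx ⊢
    intro a ha
    rw [E03_coord hS.inv] at ha
    obtain ⟨b, hb1, hb2⟩ := E03_supp _ _ _ ha
    have e1 := h a b hb1
    have e2 := hx b hb2
    omega

theorem MA.mu (hS : MA wt Fl Fl' S d) (hs : Spl wt Fl Fl' ν) (X : Matrix (Fin n) (Fin n) ℂ)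
    (a b : Fin n) : (S⁻¹ * br ν X * S) a b = ((d a : ℂ) - (d b : ℂ)) * (S⁻¹ * X * S) a b := by
  have h1 := hS.nu hs
  have h2 : S⁻¹ * br ν X * S = (S⁻¹ * ν * S) * (S⁻¹ * X * S) - (S⁻¹ * X * S) * (S⁻¹ * ν * S) := by
    have e : S * S⁻¹ = 1 := Matrix.mul_nonsing_inv _ hS.inv
    unfold br
    rw [Matrix.mul_sub, Matrix.sub_mul]
    congr 1
    · calc S⁻¹ * (ν * X) * S = S⁻¹ * ν * 1 * X * S := by rw [Matrix.mul_one]; simp only [Matrix.mul_assoc]
        _ = _ := by rw [← e]; simp only [Matrix.mul_assoc]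
    · calc S⁻¹ * (X * ν) * S = S⁻¹ * X * 1 * ν * S := by rw [Matrix.mul_one]; simp only [Matrix.mul_assoc]
        _ = _ := by rw [← e]; simp only [Matrix.mul_assoc]
  rw [h2, h1, Matrix.sub_apply, Matrix.diagonal_mul, Matrix.mul_diagonal]
  ring

end MP2794d1.GD
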