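import Pool.Agent.Lib.MP_2794d1_ag.GD.C0b
import Pool.Agent.Lib.MP_2794d1_ag.GD.C2
import Pool.Agent.Lib.MP_2794d1_ag.GD.F1
import Pool.Agent.Lib.MP_2794d1_ag.GD.T3

/-!
C1: the number of CM points of bounded complexity on a curve grows like a power of the bound, if the variation is of
Shimura type and not constant.
-/

namespace MP2794d1.GD

open Matrix Complex Filter Topology MP2794d1.PC MP2794d1.AH
open scoped ContDiff Manifold

theorem c1_spl_unique {n : ℕ} {wt : ℤ} {Q : Matrix (Fin n) (Fin n) ℤ}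
    {Fl Fl' : ℤ → Submodule ℂ (Fin n → ℂ)} (h : IsPHS wt Q Fl) (h' : IsPHS wt Q Fl')
    {ν ν' : Matrix (Fin n) (Fin n) ℂ} (hν : Spl wt Fl Fl' ν) (hν' : Spl wt Fl Fl' ν') :
    ν = ν' := by
  obtain ⟨S, d, hS⟩ := exists_MA h h' hν.1
  have h1 := hS.nu hν
  have h2 := hS.nu hν'
  refine E05_inj hS.inv fun a b => ?_
  rw [h1, h2]

theorem c1_nu_inj {n : ℕ} {wt : ℤ} {Q : Matrix (Fin n) (Fin n) ℤ}
    {g : Submodule ℚ (Matrix (Fin n) (Fin n) ℚ)} {Fl : ℤ → Submodule ℂ (Fin n → ℂ)}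
    {μ : Matrix (Fin n) (Fin n) ℂ} {k r : ℕ} (R : Fr wt Q g Fl μ k r) {s s' : Fin r → ℂ}
    (h : R.nu s = R.nu s') : s = s' := by
  unfold Fr.nu at h
  have h1 : ∑ j, s j • R.N j = ∑ j, s' j • R.N j := add_left_cancel h
  have h2 : ∑ j, (s j - s' j) • R.N j = 0 := by
    rw [← sub_eq_zero.2 h1, ← Finset.sum_sub_distrib]
    exact Finset.sum_congr rfl fun j _ => sub_smul _ _ _
  funext j
  exact sub_eq_zero.1 (Fintype.linearIndependent_iff.1 R.Nind (fun j => s j - s' j) h2 j)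

/-- separated points in a ball -/
theorem c1_sep {r : ℕ} (hr : 0 < r) (δ C h : ℝ) (hC : 0 < C) (hh : 0 < h) (M : ℕ)
    (hM : (M : ℝ) ≤ δ * h / (3 * C)) : ∃ u : Fin M → Fin r → ℂ, (∀ j, ‖u j‖ < δ) ∧
      ∀ i j, i ≠ j → 3 * C / h ≤ ‖u i - u j‖ := by
  refine ⟨fun j => Pi.single ⟨0, hr⟩ (((3 * C * (j : ℕ) / h : ℝ)) : ℂ), fun j => ?_,
    fun i j hij => ?_⟩
  · rw [Pi.norm_single, Complex.norm_real, Real.norm_of_nonneg (by positivity), div_lt_iff₀ hh]
    have h1 : ((j : ℕ) : ℝ) < M := by exact_mod_cast j.2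
    rw [le_div_iff₀ (by positivity)] at hM
    nlinarith
  · rw [← Pi.single_sub, Pi.norm_single, ← Complex.ofReal_sub, Complex.norm_real,
      Real.norm_eq_abs]
    have h4 : (3 * C * (i : ℕ) / h : ℝ) - 3 * C * (j : ℕ) / h =
        (3 * C / h) * (((i : ℕ) : ℝ) - ((j : ℕ) : ℝ)) := by ring
    have h5 : 1 ≤ |((i : ℕ) : ℝ) - ((j : ℕ) : ℝ)| := by
      have h6 : ((i : ℕ) : ℤ) - ((j : ℕ) : ℤ) ≠ 0 := by
        intro h
        apply hij
        apply Fin.ext
        omega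
      have h7 := Int.one_le_abs h6
      have h8 : ((1 : ℤ) : ℝ) ≤ ((|((i : ℕ) : ℤ) - ((j : ℕ) : ℤ)| : ℤ) : ℝ) := by exact_mod_cast h7
      push_cast at h8
      exact h8
    rw [h4, abs_mul, abs_of_nonneg (by positivity : (0 : ℝ) ≤ 3 * C / h)]
    have h9 : 3 * C / h * 1 ≤ 3 * C / h * |((i : ℕ) : ℝ) - ((j : ℕ) : ℝ)| :=
      mul_le_mul_of_nonneg_left h5 (by positivity)
    rwa [mul_one] at h9

/-- Nonconstant and of Shimura type: a compact set contains at least `H / C` CM points with different Hodge flags and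
complexity at most `C H ^ e`. -/
theorem many_flags {n : ℕ} (V : PolVHS n) (hS : IsShimuraCurve V)
    (hnc : ∃ z w : ℂ, 0 < z.im ∧ 0 < w.im ∧ ∃ p, V.F p z ≠ V.F p w) :
    ∃ (K : Set ℂ) (e : ℕ) (C : ℝ), IsCompact K ∧ (∀ z ∈ K, 0 < z.im) ∧ 0 < C ∧
      ∀ H : ℕ, C ≤ H → ∃ P : Finset ℂ, (∀ z ∈ P, z ∈ K ∧ IsCMc V z (C * (H : ℝ) ^ e)) ∧
        (∀ z ∈ P, ∀ w ∈ P, (∀ p, V.F p z = V.F p w) → z = w) ∧ (H : ℝ) ≤ C * P.card := by
  classical
  obtain ⟨x₁, hx₁⟩ := exists_rank_one V hnc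
  have hρ : IsGreatest (Set.range (rankX (toM V))) 1 := by
    refine ⟨⟨x₁, hx₁⟩, ?_⟩
    rintro _ ⟨x, rfl⟩
    exact c0b_rank_le V x
  obtain ⟨e, he⟩ := net (toM V) hρ (dom_of_curve V hS)
  have hε : 0 < (x₁.1 0).im / 2 := half_pos (UH_pos x₁)
  have hUo : IsOpen {x : UH | ‖x.1 0 - x₁.1 0‖ < (x₁.1 0).im / 2} := by
    have hc : Continuous (fun x : UH => ‖x.1 0 - x₁.1 0‖) :=
      (((continuous_apply (0 : Fin 1)).comp continuous_subtype_val).sub continuous_const).norm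
    exact isOpen_lt hc continuous_const
  obtain ⟨x₀, hx₀U, hx₀, k, r, R, δ, C, hδ, hC, hnet⟩ := he _ hUo ⟨x₁, by
    show ‖x₁.1 0 - x₁.1 0‖ < _
    rw [sub_self, norm_zero]
    exact hε⟩
  -- the dimension is positive
  have hr : 0 < r := by
    rcases Nat.eq_zero_or_pos r with h0 | h0
    · exfalso
      subst h0
      have hT : TV V (x₀.1 0) ≠ 0 := by
        intro h
        rw [c0b_rank_zero V x₀ h] at hx₀
        exact zero_ne_one hx₀
      apply hT
      have h1 := R.Nspan (TV V (x₀.1 0)) (by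
        rw [toM_gMT]
        exact TV_mem_MT V hS.grading (UH_pos x₀)) (by
        have h2 : JX (toM V) x₀ = JV V (x₀.1 0) :=
          gr_unique (V.phs _ (UH_pos x₀)) (JX_gr (toM V) x₀) (JV_gr V (UH_pos x₀))
        rw [h2]
        exact JV_br V (UH_pos x₀))
      rw [Set.range_eq_empty, Submodule.span_empty, Submodule.mem_bot] at h1
      exact h1
    · exact h0
  obtain ⟨A, hA⟩ : ∃ A : ℝ, A = max (max C (6 * C / δ)) 1 := ⟨_, rfl⟩
  have hA1 : C ≤ A := by rw [hA]; exact (le_max_left _ _).trans (le_max_left _ _)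
  have hA2 : 6 * C / δ ≤ A := by rw [hA]; exact (le_max_right _ _).trans (le_max_left _ _)
  have hA3 : 1 ≤ A := by rw [hA]; exact le_max_right _ _
  refine ⟨Metric.closedBall (x₁.1 0) ((x₁.1 0).im / 2), e, A, isCompact_closedBall _ _, ?_,
    by linarith, ?_⟩
  · intro z hz
    rw [Metric.mem_closedBall, dist_eq_norm] at hz
    have h1 : |(z - x₁.1 0).im| ≤ (x₁.1 0).im / 2 := (Complex.abs_im_le_norm _).trans hz
    rw [Complex.sub_im] at h1
    have h2 := (abs_le.1 h1).1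
    have := UH_pos x₁
    linarith
  intro H hH
  have hH0 : 0 < (H : ℝ) := by linarith
  obtain ⟨M, hM⟩ : ∃ M : ℕ, M = ⌊δ * H / (3 * C)⌋₊ := ⟨_, rfl⟩
  have hM1 : (M : ℝ) ≤ δ * H / (3 * C) := by
    rw [hM]
    exact Nat.floor_le (by positivity)
  have hM2 : δ * H / (3 * C) < M + 1 := by
    rw [hM]
    exact Nat.lt_floor_add_one _
  -- the points
  obtain ⟨u, hu, hsep⟩ := c1_sep hr δ C H hC hH0 M hM1
  choose s hs x hxU hxc hxs using fun j => hnet H (hA1.trans hH) _ (hu j)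
  -- different points have different splittings
  have hne : ∀ i j : Fin M, s i = s j → i = j := by
    intro i j hij
    by_contra hne
    have h1 : ‖u i - u j‖ ≤ C / H + C / H := by
      have h2 := hs i
      have h3 := hs j
      rw [norm_sub_rev] at h2
      rw [← hij] at h3
      calc _ = ‖(u i - s i) + (s i - u j)‖ := by rw [sub_add_sub_cancel]
        _ ≤ _ := (norm_add_le _ _).trans (add_le_add h2 h3)
    have h10 : C / H + C / H < 3 * C / H := by
      have h11 : 0 < C / H := by positivity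
      have h12 : 3 * C / H = 3 * (C / H) := by ring
      rw [h12]
      linarith
    have h13 := hsep i j hne
    linarith
  have hfl : ∀ i j : Fin M, (∀ p, V.F p ((x i).1 0) = V.F p ((x j).1 0)) → i = j := by
    intro i j hF
    apply hne
    have h1 := hxs i
    have h2 := hxs j
    have h3 : (fun p => (toM V).F p (x i)) = fun p => (toM V).F p (x j) := funext fun p => hF p
    rw [h3] at h1
    exact c1_nu_inj R (c1_spl_unique ((toM V).phs x₀) ((toM V).phs (x j)) h1 h2)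
  refine ⟨Finset.univ.image fun j => (x j).1 0, ?_, ?_, ?_⟩
  · intro z hz
    obtain ⟨j, -, rfl⟩ := Finset.mem_image.1 hz
    refine ⟨?_, ?_⟩
    · rw [Metric.mem_closedBall, dist_eq_norm]
      exact le_of_lt (hxU j)
    · obtain ⟨B, h1, h2, h3⟩ := hxc j
      refine ⟨B, h1, h2, h3.trans ?_⟩
      have h4 : 0 ≤ C * (H : ℝ) ^ e := by positivity
      have h5 : C * (H : ℝ) ^ e ≤ A * (H : ℝ) ^ e := mul_le_mul_of_nonneg_right hA1 (by positivity)
      exact pow_le_pow_left₀ h4 h5 2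
  · intro z hz w hw hF
    obtain ⟨i, -, rfl⟩ := Finset.mem_image.1 hz
    obtain ⟨j, -, rfl⟩ := Finset.mem_image.1 hw
    rw [hfl i j hF]
  · rw [Finset.card_image_of_injective, Finset.card_univ, Fintype.card_fin]
    · have h1 : 6 * C / δ ≤ H := hA2.trans hH
      rw [div_le_iff₀ hδ] at h1
      have h2 : 2 ≤ δ * H / (3 * C) := by
        rw [le_div_iff₀ (by positivity)]
        linarith
      have h3 : δ * H / (3 * C) / 2 ≤ M := by linarith
      have h4 : (H : ℝ) = 6 * C / δ * (δ * H / (3 * C) / 2) := by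
        field_simp
        ring
      rw [h4]
      have h5 : 0 ≤ 6 * C / δ := by positivity
      calc 6 * C / δ * (δ * H / (3 * C) / 2) ≤ 6 * C / δ * M := mul_le_mul_of_nonneg_left h3 h5
        _ ≤ A * M := mul_le_mul_of_nonneg_right hA2 (Nat.cast_nonneg _)
    · intro i j hij
      exact hfl i j fun p => by
        have h6 : (x i).1 0 = (x j).1 0 := hij
        rw [h6]

end MP2794d1.GD
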