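import Pool.Agent.Lib.MP_2794d1_ag.GD.C1
import Pool.Agent.Lib.MP_2794d1_ag.AE.Main

/-!
C3: power growth of the number of CM points on a curve, and the dichotomy for curves.
-/

namespace MP2794d1.GD

open Matrix Complex Filter Topology MP2794d1.PC MP2794d1.AH
open scoped ContDiff Manifold

/-- The finite set `S` of points of the upper half plane represents all CM points of complexity at most `h` modulo the
group: every such point is a translate of a point of `S`. -/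
def Covers {n : ℕ} (V : PolVHS n) (h : ℝ) (S : Finset ℂ) : Prop :=
  ∀ z : ℂ, 0 < z.im → IsCMc V z h → ∃ g : V.grp, ∃ w ∈ S, z = mob g w

/-- The number of CM points of complexity at most `h` on `Δ \ ℍ` is at least `h ^ κ` for large `h`, for some `κ > 0`. -/
def ManyCM {n : ℕ} (V : PolVHS n) : Prop :=
  ∃ κ : ℝ, 0 < κ ∧ ∃ h₀ : ℝ, ∀ h : ℝ, h₀ ≤ h → ∀ S : Finset ℂ, Covers V h S →
    h ^ κ ≤ (S.card : ℝ)

/-- The number of CM points of complexity at most `h` on `Δ \ ℍ` is at most `C (log h) ^ 5` for `h ≥ 2`. -/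
def FewCM {n : ℕ} (V : PolVHS n) : Prop :=
  ∃ C : ℝ, ∀ h : ℝ, 2 ≤ h → ∃ S : Finset ℂ, (S.card : ℝ) ≤ C * Real.log h ^ 5 ∧ Covers V h S

/-- the period map is constant -/
def Const {n : ℕ} (V : PolVHS n) : Prop :=
  ∀ z w : ℂ, 0 < z.im → 0 < w.im → ∀ p, V.F p z = V.F p w

theorem c3_im {g : Matrix.SpecialLinearGroup (Fin 2) ℝ} {w : ℂ} (h : 0 < (mob g w).im) :
    0 < w.im := by
  by_contra hcon
  have hd : (g 0 0 : ℝ) * g 1 1 - g 0 1 * g 1 0 = 1 := by
    have h1 := g.2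
    rw [Matrix.det_fin_two] at h1
    exact h1
  have h1 : (mob g w).im * Complex.normSq (((g 1 0 : ℝ) : ℂ) * w + ((g 1 1 : ℝ) : ℂ)) =
      w.im := by
    unfold mob
    by_cases h0 : ((g 1 0 : ℝ) : ℂ) * w + ((g 1 1 : ℝ) : ℂ) = 0
    · exfalso
      unfold mob at h
      rw [h0, div_zero, Complex.zero_im] at h
      exact lt_irrefl _ h
    · have hn : Complex.normSq (((g 1 0 : ℝ) : ℂ) * w + ((g 1 1 : ℝ) : ℂ)) ≠ 0 :=
        (Complex.normSq_pos.2 h0).ne'
      rw [Complex.div_im, sub_mul, div_mul_cancel₀ _ hn, div_mul_cancel₀ _ hn]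
      simp only [Complex.add_re, Complex.add_im, Complex.mul_re, Complex.mul_im, Complex.ofReal_re,
        Complex.ofReal_im, zero_mul, sub_zero, add_zero]
      linear_combination w.im * hd
  have h2 := Complex.normSq_nonneg (((g 1 0 : ℝ) : ℂ) * w + ((g 1 1 : ℝ) : ℂ))
  have h3 := mul_nonneg h.le h2
  rw [h1] at h3
  have h4 : w.im = 0 := le_antisymm (not_lt.1 hcon) h3
  rw [h4] at h1
  rcases mul_eq_zero.1 h1 with h5 | h5
  · exact h.ne' h5
  · have h6 := Complex.normSq_eq_zero.1 h5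
    unfold mob at h
    rw [h6, div_zero, Complex.zero_im] at h
    exact lt_irrefl _ h

/-- Nonconstant and of Shimura type: the number of CM points of complexity at most `h` grows like a power of `h`. -/
theorem curve_growth {n : ℕ} (V : PolVHS n) (hS : IsShimuraCurve V) (hnc : ¬ Const V) :
    ManyCM V := by
  have hnc' : ∃ z w : ℂ, 0 < z.im ∧ 0 < w.im ∧ ∃ p, V.F p z ≠ V.F p w := by
    unfold Const at hnc
    push Not at hnc
    obtain ⟨z, w, hz, hw, p, hp⟩ := hnc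
    exact ⟨z, w, hz, hw, p, hp⟩
  obtain ⟨K, e, C, hK, hKH, hC, hP⟩ := many_flags V hS hnc'
  obtain ⟨B, hB⟩ := class_count V K hK hKH
  obtain ⟨D, hD⟩ : ∃ D : ℝ, D = 2 * C * B + C + 2 := ⟨_, rfl⟩
  have hB0 : (0 : ℝ) ≤ B := Nat.cast_nonneg _
  have hD2 : 2 ≤ D := by
    rw [hD]
    nlinarith
  have hDC : C ≤ D := by
    rw [hD]
    nlinarith
  have hDB : 2 * C * B ≤ D := by
    rw [hD]
    linarith
  have hκ : (0 : ℝ) < 1 / (2 * (e + 1) : ℕ) := by positivity
  refine ⟨1 / (2 * (e + 1) : ℕ), hκ, D ^ (2 * (e + 1)), fun h hh S hcov => ?_⟩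
  have hh0 : 0 < h := lt_of_lt_of_le (by positivity) hh
  obtain ⟨t, ht⟩ : ∃ t : ℝ, t = h ^ (1 / ((2 * (e + 1) : ℕ) : ℝ)) := ⟨_, rfl⟩
  have hth : t ^ (2 * (e + 1)) = h := by
    rw [ht, ← Real.rpow_natCast, ← Real.rpow_mul hh0.le, one_div_mul_cancel, Real.rpow_one]
    positivity
  have ht0 : 0 ≤ t := by
    rw [ht]
    exact Real.rpow_nonneg hh0.le _
  have htD : D ≤ t := by
    have h1 : D ^ (2 * (e + 1)) ≤ t ^ (2 * (e + 1)) := by rw [hth]; exact hh
    exact le_of_pow_le_pow_left₀ (by omega) ht0 h1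
  rw [← ht]
  obtain ⟨H, hH⟩ : ∃ H : ℕ, H = ⌊t ^ 2⌋₊ := ⟨_, rfl⟩
  have hH1 : (H : ℝ) ≤ t ^ 2 := by
    rw [hH]
    exact Nat.floor_le (by positivity)
  have hH2 : t ^ 2 < H + 1 := by
    rw [hH]
    exact Nat.lt_floor_add_one _
  have htt : D * t ≤ t ^ 2 := by nlinarith
  have hCH : C ≤ H := by nlinarith
  obtain ⟨P, hP1, hP2, hP3⟩ := hP H hCH
  have hle : C * (H : ℝ) ^ e ≤ h := by
    have h1 : (H : ℝ) ^ e ≤ (t ^ 2) ^ e := pow_le_pow_left₀ (Nat.cast_nonneg _) hH1 e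
    have h2 : C ≤ t ^ 2 := by nlinarith
    calc C * (H : ℝ) ^ e ≤ t ^ 2 * (t ^ 2) ^ e :=
          mul_le_mul h2 h1 (by positivity) (by positivity)
      _ = t ^ (2 * (e + 1)) := by
          rw [pow_mul, pow_succ (t ^ 2) e, mul_comm]
      _ = h := hth
  have h5 := hB P S (fun z hz => (hP1 z hz).1) hP2 (by
    intro z hz
    have hz0 := hKH z (hP1 z hz).1
    obtain ⟨A, h1, h2, h3⟩ := (hP1 z hz).2
    obtain ⟨g, w, hw, hzw⟩ := hcov z hz0 ⟨A, h1, h2, h3.trans
      (pow_le_pow_left₀ (by positivity) hle 2)⟩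
    refine ⟨g, w, hw, ?_, hzw⟩
    rw [hzw] at hz0
    exact c3_im hz0)
  have h6 : (P.card : ℝ) ≤ B * S.card := by exact_mod_cast h5
  have h7 : (H : ℝ) ≤ C * B * S.card := by
    calc (H : ℝ) ≤ C * P.card := hP3
      _ ≤ C * (B * S.card) := mul_le_mul_of_nonneg_left h6 hC.le
      _ = C * B * S.card := by ring
  have h8 : t ^ 2 / 2 ≤ H := by nlinarith
  by_contra hcon
  push Not at hcon
  have hS0 : (0 : ℝ) ≤ S.card := Nat.cast_nonneg _
  have h9 : C * B * S.card ≤ C * B * t := mul_le_mul_of_nonneg_left hcon.le (by positivity)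
  have h10 : C * B * t ≤ D / 2 * t := mul_le_mul_of_nonneg_right (by linarith) ht0
  have h11 : t ^ 2 / 2 ≤ D / 2 * t := by linarith
  have h12 : 0 < t := by linarith
  nlinarith

theorem not_few_of_many {n : ℕ} (V : PolVHS n) (h : ManyCM V) : ¬ FewCM V := by
  rintro ⟨C, hC⟩
  obtain ⟨κ, hκ, h₀, hm⟩ := h
  have h1 : (fun x : ℝ => Real.log x ^ (5 : ℝ)) =o[atTop] fun x => x ^ κ :=
    isLittleO_log_rpow_rpow_atTop 5 hκ
  have h2 : (0 : ℝ) < 1 / (|C| + 1) := by positivity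
  have h3 := (Asymptotics.isLittleO_iff.1 h1) h2
  obtain ⟨h, hh1, hh2, hh3⟩ :=
    (h3.and ((eventually_ge_atTop h₀).and (eventually_ge_atTop (2 : ℝ)))).exists
  obtain ⟨S, hS1, hS2⟩ := hC h hh3
  have h4 := hm h hh2 S hS2
  have hlog : 0 < Real.log h := Real.log_pos (by linarith)
  have hx : 0 < h ^ κ := Real.rpow_pos_of_pos (by linarith) κ
  rw [Real.norm_of_nonneg (Real.rpow_nonneg hlog.le _), Real.norm_of_nonneg hx.le] at hh1
  have h5 : Real.log h ^ (5 : ℝ) = Real.log h ^ 5 := by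
    rw [← Real.rpow_natCast]
    norm_num
  rw [h5, div_mul_eq_mul_div, one_mul, le_div_iff₀ (by positivity)] at hh1
  have h6 : C * Real.log h ^ 5 ≤ |C| * Real.log h ^ 5 :=
    mul_le_mul_of_nonneg_right (le_abs_self C) (by positivity)
  have h7 : 0 < Real.log h ^ 5 := by positivity
  nlinarith

/-- The dichotomy for curves: polylogarithmically few CM points, or Shimura type; and for a nonconstant period map
Shimura type is equivalent to a power of `h` of CM points. -/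
theorem curve_dichotomy {n : ℕ} (V : PolVHS n) (hΔ : FiniteType V.grp) :
    (IsShimuraCurve V ∨ FewCM V) ∧ (¬ Const V → (IsShimuraCurve V ↔ ManyCM V)) := by
  have h1 : IsShimuraCurve V ∨ FewCM V := AE.all_curves V hΔ
  refine ⟨h1, fun hnc => ⟨fun h => curve_growth V h hnc, fun h => ?_⟩⟩
  rcases h1 with h2 | h2
  · exact h2
  · exact absurd h2 (not_few_of_many V h)

end MP2794d1.GD
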