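import Pool.Agent.Lib.MP_2794d1_ag.AH.Defs
import Pool.Agent.Lib.MP_2794d1_ag.Base
import Pool.Agent.Lib.MP_2794d1_ag.U00

/-!
# Growth of the set of CM points: definitions

`GD`: if the variation is of Shimura type with dominant period map, then the degree of a hypersurface
(in Pluecker coordinates) through all CM points of complexity at most `h` of a nonempty open set grows
at least like a power of `h`.
-/

namespace MP2794d1.GD

open Matrix Complex Filter Topology MP2794d1.AH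
open scoped ContDiff Manifold

/-- `F` is a form of degree `d` with complex coefficients -/
def CForm {ι : Type} [Fintype ι] (d : ℕ) (F : (ι → ℂ) → ℂ) : Prop :=
  ∃ c : (Fin d → ι) → ℂ, ∀ v, F v = ∑ I, c I * ∏ i, v (I i)

/-- Power growth: any form of degree at most `h ^ κ` in the Pluecker coordinates which vanishes at all
CM points of complexity at most `h` of the nonempty open set `U` vanishes at all points of `X`, for `h`
sufficiently large. -/
def PowerGrowth {n m : ℕ} {X G : Type} [TopologicalSpace X] [ChartedSpace (Fin m → ℂ) X] [Group G]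
    [MulAction G X] [Nonempty X] (V : MVHS n m X G) : Prop :=
  ∃ κ : ℝ, 0 < κ ∧ ∀ U : Set X, IsOpen U → U.Nonempty → ∃ h₀ : ℝ, ∀ h : ℝ, h₀ ≤ h →
    ∀ (d : ℕ) (F : (Jx V → ℂ) → ℂ), CForm d F → (d : ℝ) ≤ h ^ κ →
      (∀ x ∈ U, IsCMX V x h → ∀ v, PX V x v → F v = 0) → ∀ x v, PX V x v → F v = 0

/-! ## linear algebra at one point -/

variable {n : ℕ}

/-- A polarised Hodge structure with its grading `μ`, and a rational Lie algebra `g` whose
complexification contains `μ`, of Hodge type `(-1,1), (0,0), (1,-1)`, consisting of infinitesimal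
similitudes of `Q`. -/
structure HD (wt : ℤ) (Q : Matrix (Fin n) (Fin n) ℤ) (g : Submodule ℚ (Matrix (Fin n) (Fin n) ℚ))
    (Fl : ℤ → Submodule ℂ (Fin n → ℂ)) (μ : Matrix (Fin n) (Fin n) ℂ) : Prop where
  phs : IsPHS wt Q Fl
  gr : IsGr wt Fl μ
  mem : μ ∈ cx (g : Set (Matrix (Fin n) (Fin n) ℚ))
  lie : IsLie g
  sv1 : ∀ A ∈ g, cm A ∈ FEnd Fl (-1)
  sim : ∀ A ∈ g, ∃ c : ℚ, Aᵀ * qm Q + qm Q * A = c • qm Q

/-- The filtrations `Fl'` and `conj Fl` are opposite, and `ν` is the grading which splits them: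
multiplication by `p` on `Fl' p ∩ conj (Fl (wt - p))`. -/
def Spl (wt : ℤ) (Fl Fl' : ℤ → Submodule ℂ (Fin n → ℂ)) (ν : Matrix (Fin n) (Fin n) ℂ) : Prop :=
  (∀ p, IsCompl (Fl' p) (conjSub (Fl (wt + 1 - p)))) ∧
    ∀ p, ∀ y ∈ Fl' p ⊓ conjSub (Fl (wt - p)), ν *ᵥ y = (p : ℂ) • y

/-- twice the `(-1,1)` part of `Y` with respect to the grading `ν` -/
def Th (ν Y : Matrix (Fin n) (Fin n) ℂ) : Matrix (Fin n) (Fin n) ℂ := br ν (br ν Y) - br ν Y

/-- centralizer of `J` in the complexification of `g` -/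
def cen (g : Submodule ℚ (Matrix (Fin n) (Fin n) ℚ)) (J : Matrix (Fin n) (Fin n) ℂ) :
    Submodule ℂ (Matrix (Fin n) (Fin n) ℂ) where
  carrier := {Z | Z ∈ cx (g : Set (Matrix (Fin n) (Fin n) ℚ)) ∧ br J Z = 0}
  add_mem' := by
    rintro a b ⟨ha, ha'⟩ ⟨hb, hb'⟩
    refine ⟨Submodule.add_mem _ ha hb, ?_⟩
    have h : br J (a + b) = br J a + br J b := by
      unfold br
      simp only [Matrix.mul_add, Matrix.add_mul]
      abel
    rw [h, ha', hb', add_zero]
  zero_mem' := ⟨Submodule.zero_mem _, by unfold br; simp⟩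
  smul_mem' := by
    rintro c a ⟨ha, ha'⟩
    refine ⟨Submodule.smul_mem _ _ ha, ?_⟩
    have h : br J (c • a) = c • br J a := by
      unfold br
      simp only [Matrix.mul_smul, Matrix.smul_mul, smul_sub]
    rw [h, ha', smul_zero]

/-- The Lagrange polynomial which is `1` at the integers `a ∈ [p, hi)` and `0` at the integers
`a ∈ [lo, hi)`, `a < p`. -/
noncomputable def lpol (lo hi p : ℤ) : Polynomial ℂ :=
  ∑ a ∈ (Finset.Ico lo hi).filter (fun a => p ≤ a), ∏ b ∈ (Finset.Ico lo hi).erase a,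
    (Polynomial.C (((a : ℂ) - (b : ℂ))⁻¹) * (Polynomial.X - Polynomial.C (b : ℂ)))

/-- its value at a matrix -/
noncomputable def LP (lo hi p : ℤ) (M : Matrix (Fin n) (Fin n) ℂ) : Matrix (Fin n) (Fin n) ℂ :=
  Polynomial.aeval M (lpol lo hi p)

/-- basis (columns of `S`, of degrees `d`) adapted to the opposite filtrations `Fl'` and `conj Fl` -/
structure MA (wt : ℤ) (Fl Fl' : ℤ → Submodule ℂ (Fin n → ℂ)) (S : Matrix (Fin n) (Fin n) ℂ)
    (d : Fin n → ℤ) : Prop where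
  inv : IsUnit S.det
  fl : ∀ p, Fl' p = Submodule.span ℂ (Sᵀ '' {a | p ≤ d a})
  cfl : ∀ p, conjSub (Fl p) = Submodule.span ℂ (Sᵀ '' {a | d a ≤ wt - p})

/-- Coordinates: an integral basis `B` of `g` and a basis `N` of the part of type `(-1,1)` of its
complexification. -/
structure Fr (wt : ℤ) (Q : Matrix (Fin n) (Fin n) ℤ) (g : Submodule ℚ (Matrix (Fin n) (Fin n) ℚ))
    (Fl : ℤ → Submodule ℂ (Fin n → ℂ)) (μ : Matrix (Fin n) (Fin n) ℂ) (k r : ℕ) where
  hd : HD wt Q g Fl μ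
  B : Fin k → Matrix (Fin n) (Fin n) ℤ
  Bspan : Submodule.span ℚ (Set.range fun i => qm (B i)) = g
  Bind : LinearIndependent ℚ (fun i => qm (B i))
  N : Fin r → Matrix (Fin n) (Fin n) ℂ
  Nmem : ∀ j, N j ∈ cx (g : Set (Matrix (Fin n) (Fin n) ℚ)) ∧ br μ (N j) = -N j
  Nind : LinearIndependent ℂ N
  Nspan : ∀ Z ∈ cx (g : Set (Matrix (Fin n) (Fin n) ℚ)), br μ Z = -Z →
    Z ∈ Submodule.span ℂ (Set.range N)

variable {wt : ℤ} {Q : Matrix (Fin n) (Fin n) ℤ} {g : Submodule ℚ (Matrix (Fin n) (Fin n) ℚ)}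
  {Fl : ℤ → Submodule ℂ (Fin n → ℂ)} {μ : Matrix (Fin n) (Fin n) ℂ} {k r : ℕ}

/-- the real element of `g ⊗ ℝ` with coordinates `t` -/
noncomputable def Fr.Y (R : Fr wt Q g Fl μ k r) (t : Fin k → ℝ) : Matrix (Fin n) (Fin n) ℂ :=
  ∑ i, ((t i : ℝ) : ℂ) • im (R.B i)

/-- the grading `μ + N(u)` -/
noncomputable def Fr.nu (R : Fr wt Q g Fl μ k r) (u : Fin r → ℂ) : Matrix (Fin n) (Fin n) ℂ :=
  μ + ∑ j, u j • R.N j

end MP2794d1.GD
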