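import Pool.Agent.Lib.MP_2794d1_ag.GD.T1
import Pool.Agent.Lib.MP_2794d1_ag.GD.T3

/-!
T2: the splitting of `Fl'` and `conj Fl` lies in `cx g`. Let `𝔫 = {N ∈ cx g | br μ N = -N}`, `𝔫'` the same for `μ'`, `F0 = cx g ⊓ FEnd Fl 0`,
`F0' = cx g ⊓ FEnd Fl' 0`. `𝔫 ⊓ F0' = 0`: `N ∈ 𝔫` maps `conj (Fl q)` to `conj (Fl (q + 1))` (adapted basis), so in a mixed
adapted basis (`exists_MA`, `MA.mem_FEnd`, `MA.mem_conj`) a non-zero entry has `d a + 1 ≤ d b` and `d b ≤ d a`. `cx g = 𝔫' ⊕ F0'`: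
`A = ½ (ad² - ad) A + (A - ½ (ad² - ad) A)` (`HD.three`). So `dim 𝔫 + dim F0' ≤ dim cx g = dim 𝔫' + dim F0'`, and by symmetry
(`Fl`, `conj Fl'` are also opposite: conjugate `ho (wt + 1 - p)`) `dim 𝔫 = dim 𝔫'`, so `cx g = 𝔫 ⊕ F0'`; write `μ = -N + f`.
`f = μ + N ∈ FEnd Fl' 0`; for `y ∈ Fl' p ⊓ conj (Fl (wt - p))`: `(μ + N - p) y ∈ Fl' p` and `∈ conj (Fl (wt - p + 1))` (adapted
basis of `Fl`), so it is `0` by `ho`.
-/

namespace MP2794d1.GD

open Matrix Complex Filter Topology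

variable {n : ℕ} {wt : ℤ} {Q : Matrix (Fin n) (Fin n) ℤ} {g : Submodule ℚ (Matrix (Fin n) (Fin n) ℚ)}
  {Fl Fl' : ℤ → Submodule ℂ (Fin n → ℂ)} {μ μ' : Matrix (Fin n) (Fin n) ℂ}

theorem T2_br_add (μ X Y : Matrix (Fin n) (Fin n) ℂ) : br μ (X + Y) = br μ X + br μ Y := by
  unfold br
  rw [Matrix.mul_add, Matrix.add_mul]
  abel

theorem T2_br_smul (μ X : Matrix (Fin n) (Fin n) ℂ) (c : ℂ) : br μ (c • X) = c • br μ X := by
  unfold br
  rw [Matrix.mul_smul, Matrix.smul_mul, smul_sub]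

/-- the part of type `(-1,1)` -/
def T2_nn (g : Submodule ℚ (Matrix (Fin n) (Fin n) ℚ)) (μ : Matrix (Fin n) (Fin n) ℂ) :
    Submodule ℂ (Matrix (Fin n) (Fin n) ℂ) where
  carrier := {N | N ∈ cx (g : Set (Matrix (Fin n) (Fin n) ℚ)) ∧ br μ N = -N}
  add_mem' := by
    rintro a b ⟨ha, ha'⟩ ⟨hb, hb'⟩
    refine ⟨Submodule.add_mem _ ha hb, ?_⟩
    rw [T2_br_add, ha', hb', neg_add]
  zero_mem' := ⟨Submodule.zero_mem _, by unfold br; simp⟩
  smul_mem' := by
    rintro c a ⟨ha, ha'⟩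
    refine ⟨Submodule.smul_mem _ _ ha, ?_⟩
    rw [T2_br_smul, ha', smul_neg]

/-- the part preserving the filtration -/
noncomputable def T2_F0 (g : Submodule ℚ (Matrix (Fin n) (Fin n) ℚ)) (Fl : ℤ → Submodule ℂ (Fin n → ℂ)) :
    Submodule ℂ (Matrix (Fin n) (Fin n) ℂ) :=
  cx (g : Set (Matrix (Fin n) (Fin n) ℚ)) ⊓ FEnd Fl 0

theorem T2_dec (h : HD wt Q g Fl μ) :
    cx (g : Set (Matrix (Fin n) (Fin n) ℚ)) ≤ T2_nn g μ ⊔ T2_F0 g Fl := by
  intro A hA
  have h3 := h.three hA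
  have hb1 : br μ A ∈ cx (g : Set (Matrix (Fin n) (Fin n) ℚ)) := cx_br h.lie h.mem hA
  have hb2 : br μ (br μ A) ∈ cx (g : Set (Matrix (Fin n) (Fin n) ℚ)) := cx_br h.lie h.mem hb1
  set P : Matrix (Fin n) (Fin n) ℂ := (1 / 2 : ℂ) • (br μ (br μ A) + (-1 : ℂ) • br μ A) with hP
  have hPm : P ∈ cx (g : Set (Matrix (Fin n) (Fin n) ℚ)) :=
    Submodule.smul_mem _ _ (Submodule.add_mem _ hb2 (Submodule.smul_mem _ _ hb1))
  have hPn : P ∈ T2_nn g μ := by
    refine ⟨hPm, ?_⟩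
    rw [hP, T2_br_smul, T2_br_add, T2_br_smul, h3]
    ext i j
    simp only [Matrix.smul_apply, Matrix.add_apply, Matrix.neg_apply, smul_eq_mul]
    ring
  have hRm : A - P ∈ T2_F0 g Fl := by
    refine ⟨Submodule.sub_mem _ hA hPm, ?_⟩
    obtain ⟨S, d, hS⟩ := exists_adapted h.phs
    show A - P ∈ FEnd Fl 0
    rw [mem_FEnd_iff hS]
    intro a b hne
    have e1 : (S⁻¹ * (A - P) * S) a b = (1 - (1 / 2) * (((d a : ℂ) - d b) * ((d a : ℂ) - d b) -
        ((d a : ℂ) - d b))) * (S⁻¹ * A * S) a b := by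
      have e2 : S⁻¹ * (A - P) * S = S⁻¹ * A * S - (1 / 2 : ℂ) • (S⁻¹ * br μ (br μ A) * S +
          (-1 : ℂ) • (S⁻¹ * br μ A * S)) := by
        rw [hP, Matrix.mul_sub, Matrix.sub_mul, Matrix.mul_smul, Matrix.smul_mul, Matrix.mul_add,
          Matrix.add_mul, Matrix.mul_smul, Matrix.smul_mul]
      rw [e2, Matrix.sub_apply, Matrix.smul_apply, Matrix.add_apply, Matrix.smul_apply,
        E05_mu hS h.gr, E05_mu hS h.gr]
      simp only [smul_eq_mul]
      ring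
    rw [e1] at hne
    have hA0 : (S⁻¹ * A * S) a b ≠ 0 := fun h0 => hne (by rw [h0, mul_zero])
    obtain ⟨k1, k2⟩ := h.entry hS hA a b hA0
    by_contra hlt
    have e3 : d a = d b - 1 := by omega
    apply hne
    rw [e3]
    push_cast
    ring
  rw [← add_sub_cancel P A]
  exact Submodule.add_mem_sup hPn hRm

theorem T2_conj1 (h : HD wt Q g Fl μ) {N : Matrix (Fin n) (Fin n) ℂ} (hN1 : br μ N = -N) :
    mconj N ∈ FEnd Fl 1 := by
  apply FEnd1_of h.phs h.gr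
  have e1 : mconj (br μ N) = br (mconj μ) (mconj N) := by
    have e : mconj (μ * N - N * μ) = mconj (μ * N) - mconj (N * μ) := by
      ext i j
      simp only [mconj, Matrix.map_apply, Matrix.sub_apply, map_sub]
    have em : ∀ A B : Matrix (Fin n) (Fin n) ℂ, mconj (A * B) = mconj A * mconj B := by
      intro A B
      unfold mconj
      exact Matrix.map_mul
    unfold br
    rw [e, em, em]
  rw [gr_conj h.phs h.gr, hN1] at e1
  have e2 : mconj (-N) = -mconj N := by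
    ext i j
    simp [mconj]
  have e3 : br ((wt : ℂ) • (1 : Matrix (Fin n) (Fin n) ℂ) - μ) (mconj N) = -br μ (mconj N) := by
    unfold br
    rw [Matrix.sub_mul, Matrix.mul_sub, Matrix.smul_mul, Matrix.mul_smul, Matrix.one_mul,
      Matrix.mul_one]
    abel
  rw [e2, e3] at e1
  exact (neg_inj.1 e1).symm

theorem T2_inj (h : HD wt Q g Fl μ) (h' : HD wt Q g Fl' μ')
    (ho : ∀ p, IsCompl (Fl' p) (conjSub (Fl (wt + 1 - p)))) :
    Disjoint (T2_nn g μ) (T2_F0 g Fl') := by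
  rw [Submodule.disjoint_def]
  rintro N ⟨-, hN1⟩ ⟨-, hN0⟩
  obtain ⟨S, d, hS⟩ := exists_MA h.phs h'.phs ho
  have h1 := (hS.mem_conj N 1).1 (T2_conj1 h hN1)
  have h0 := (hS.mem_FEnd N 0).1 hN0
  apply E05_inj hS.inv
  intro a b
  rw [Matrix.mul_zero, Matrix.zero_mul, Matrix.zero_apply]
  by_contra hne
  have e1 := h1 a b hne
  have e2 := h0 a b hne
  omega

theorem T2_conjCompl {A B : Submodule ℂ (Fin n → ℂ)} (h : IsCompl A B) :
    IsCompl (conjSub A) (conjSub B) := by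
  constructor
  · rw [Submodule.disjoint_def]
    intro x hx hy
    have hx' : star x ∈ A := hx
    have hy' : star x ∈ B := hy
    have h1 := Submodule.disjoint_def.1 h.disjoint _ hx' hy'
    rw [← star_star x, h1, star_zero]
  · rw [codisjoint_iff, eq_top_iff]
    intro x _
    have h1 : star x ∈ A ⊔ B := by
      rw [h.sup_eq_top]
      trivial
    obtain ⟨a, ha, b, hb, hab⟩ := Submodule.mem_sup.1 h1
    refine Submodule.mem_sup.2 ⟨star a, ?_, star b, ?_, ?_⟩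
    · show star (star a) ∈ A
      rw [star_star]
      exact ha
    · show star (star b) ∈ B
      rw [star_star]
      exact hb
    · rw [← star_add, hab, star_star]

theorem T2_conjconj (A : Submodule ℂ (Fin n → ℂ)) : conjSub (conjSub A) = A := by
  ext x
  show star (star x) ∈ A ↔ x ∈ A
  rw [star_star]

theorem T2_swap (ho : ∀ p, IsCompl (Fl' p) (conjSub (Fl (wt + 1 - p)))) :
    ∀ p, IsCompl (Fl p) (conjSub (Fl' (wt + 1 - p))) := by
  intro p
  have h1 := T2_conjCompl (ho (wt + 1 - p))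
  rw [T2_conjconj] at h1
  have e : wt + 1 - (wt + 1 - p) = p := by ring
  rw [e] at h1
  exact h1.symm

theorem spl_exists (h : HD wt Q g Fl μ) (h' : HD wt Q g Fl' μ')
    (ho : ∀ p, IsCompl (Fl' p) (conjSub (Fl (wt + 1 - p)))) :
    ∃ N ∈ cx (g : Set (Matrix (Fin n) (Fin n) ℚ)), br μ N = -N ∧ Spl wt Fl Fl' (μ + N) := by
  have hd := T2_inj h h' ho
  have hd' := T2_inj h' h (T2_swap ho)
  have le1 : T2_nn g μ ⊔ T2_F0 g Fl' ≤ cx (g : Set (Matrix (Fin n) (Fin n) ℚ)) :=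
    sup_le (fun N hN => hN.1) inf_le_left
  have le2 : T2_nn g μ' ⊔ T2_F0 g Fl ≤ cx (g : Set (Matrix (Fin n) (Fin n) ℚ)) :=
    sup_le (fun N hN => hN.1) inf_le_left
  have e1 := Submodule.finrank_sup_add_finrank_inf_eq (T2_nn g μ) (T2_F0 g Fl')
  have e2 := Submodule.finrank_sup_add_finrank_inf_eq (T2_nn g μ') (T2_F0 g Fl)
  rw [disjoint_iff.1 hd, finrank_bot, add_zero] at e1
  rw [disjoint_iff.1 hd', finrank_bot, add_zero] at e2
  have d1 := T2_dec h
  have d2 := T2_dec h'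
  have f1 := Submodule.finrank_mono le1
  have f2 := Submodule.finrank_mono le2
  have f3 := Submodule.finrank_mono d1
  have f4 := Submodule.finrank_mono d2
  have f5 := Submodule.finrank_add_le_finrank_add_finrank (T2_nn g μ) (T2_F0 g Fl)
  have f6 := Submodule.finrank_add_le_finrank_add_finrank (T2_nn g μ') (T2_F0 g Fl')
  have heq : T2_nn g μ ⊔ T2_F0 g Fl' = cx (g : Set (Matrix (Fin n) (Fin n) ℚ)) :=
    Submodule.eq_of_le_of_finrank_le le1 (by omega)
  have hμ : μ ∈ T2_nn g μ ⊔ T2_F0 g Fl' := by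
    rw [heq]
    exact h.mem
  obtain ⟨N, ⟨hN, hN1⟩, f, ⟨hf, hf0⟩, hNf⟩ := Submodule.mem_sup.1 hμ
  refine ⟨-N, Submodule.neg_mem _ hN, ?_, ho, ?_⟩
  · rw [← neg_one_smul ℂ N, T2_br_smul, hN1]
    simp
  · have hf1 : μ + -N = f := by rw [← hNf]; abel
    rintro p y ⟨hy1, hy2⟩
    have hN2 : br μ (-N) = -(-N) := by
      rw [← neg_one_smul ℂ N, T2_br_smul, hN1]
      simp
    -- the difference
    have h1 : (μ + -N) *ᵥ y - (p : ℂ) • y ∈ Fl' p := by
      refine Submodule.sub_mem _ ?_ (Submodule.smul_mem _ _ hy1)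
      rw [hf1]
      have := hf0 p y hy1
      rwa [add_zero] at this
    have h2 : (μ + -N) *ᵥ y - (p : ℂ) • y ∈ conjSub (Fl (wt + 1 - p)) := by
      have hy2' : star y ∈ Fl (wt - p) := hy2
      have e3 : (μ + -N) *ᵥ y - (p : ℂ) • y = (μ *ᵥ y - (p : ℂ) • y) + (-N) *ᵥ y := by
        rw [Matrix.add_mulVec]
        abel
      rw [e3]
      refine Submodule.add_mem _ ?_ ?_
      · show star (μ *ᵥ y - (p : ℂ) • y) ∈ Fl (wt + 1 - p)
        have e4 : star (μ *ᵥ y - (p : ℂ) • y) = -(μ *ᵥ star y - ((wt - p : ℤ) : ℂ) • star y) := by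
          rw [star_sub, E03_star, gr_conj h.phs h.gr, Matrix.sub_mulVec, Matrix.smul_mulVec,
            Matrix.one_mulVec, star_smul]
          ext i
          simp
          ring
        rw [e4]
        have := gr_shift h.phs h.gr (wt - p) (star y) hy2'
        have e5 : wt - p + 1 = wt + 1 - p := by ring
        rw [e5] at this
        exact Submodule.neg_mem _ this
      · show star ((-N) *ᵥ y) ∈ Fl (wt + 1 - p)
        rw [E03_star]
        have := T2_conj1 h hN2 (wt - p) (star y) hy2'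
        have e5 : wt - p + 1 = wt + 1 - p := by ring
        rw [e5] at this
        exact this
    have h3 := Submodule.disjoint_def.1 (ho p).disjoint _ h1 h2
    exact sub_eq_zero.1 h3

end MP2794d1.GD
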