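import Pool.Agent.Lib.MP_2794d1_ag.GD.T3

/-!
T4: the flag `Fl'` is the image of the flag `Fl` under Lagrange projectors in `ν`. In a mixed adapted basis
`S⁻¹ (LP lo hi p ν) S = diagonal (if p ≤ d a then 1 else 0)` (`MA.nu`; all `d a ∈ [lo, hi)` by `hlo`, `hhi`;
`Polynomial.aeval` of a conjugate of a diagonal matrix), so `LP lo hi p ν` is the projector onto `Fl' p` along
`conj (Fl (wt + 1 - p))`; `Fl p ⊓ conj (Fl (wt + 1 - p)) = ⊥` and `Fl p`, `Fl' p` have the same dimension (both are complements).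
-/

namespace MP2794d1.GD

open Matrix Complex Filter Topology

variable {n : ℕ} {wt : ℤ} {Q : Matrix (Fin n) (Fin n) ℤ} {Fl Fl' : ℤ → Submodule ℂ (Fin n → ℂ)}
  {ν : Matrix (Fin n) (Fin n) ℂ} {S : Matrix (Fin n) (Fin n) ℂ} {d : Fin n → ℤ}

theorem T4.mem_span_cols (hS : IsUnit S.det) (A : Set (Fin n)) (v : Fin n → ℂ) :
    v ∈ Submodule.span ℂ (Sᵀ '' A) ↔ ∀ a, a ∉ A → (S⁻¹ *ᵥ v) a = 0 := by
  constructor
  · intro hv
    induction hv using Submodule.span_induction with
    | mem x hx =>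
      obtain ⟨b, hb, rfl⟩ := hx
      intro a ha
      have h1 : Sᵀ b = S *ᵥ Pi.single b 1 := by
        rw [Matrix.mulVec_single_one]
        rfl
      rw [h1, Matrix.mulVec_mulVec, Matrix.nonsing_inv_mul _ hS, Matrix.one_mulVec,
        Pi.single_eq_of_ne (fun h : a = b => ha (by rw [h]; exact hb))]
    | zero => intro a _; rw [Matrix.mulVec_zero]; rfl
    | add x y _ _ hx hy =>
      intro a ha
      rw [Matrix.mulVec_add, Pi.add_apply, hx a ha, hy a ha, add_zero]
    | smul c x _ hx =>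
      intro a ha
      rw [Matrix.mulVec_smul, Pi.smul_apply, hx a ha, smul_zero]
  · intro h
    have h1 : v = S *ᵥ (S⁻¹ *ᵥ v) := by
      rw [Matrix.mulVec_mulVec, Matrix.mul_nonsing_inv _ hS, Matrix.one_mulVec]
    rw [h1]
    have h2 : S *ᵥ (S⁻¹ *ᵥ v) = ∑ a, (S⁻¹ *ᵥ v) a • Sᵀ a := by
      ext i
      rw [Finset.sum_apply]
      simp only [Matrix.mulVec, dotProduct, Pi.smul_apply, Matrix.transpose_apply, smul_eq_mul]
      exact Finset.sum_congr rfl fun a _ => mul_comm _ _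
    rw [h2]
    refine Submodule.sum_mem _ fun a _ => ?_
    by_cases ha : a ∈ A
    · exact Submodule.smul_mem _ _ (Submodule.subset_span ⟨a, ha, rfl⟩)
    · rw [h a ha, zero_smul]
      exact Submodule.zero_mem _

theorem T4.eval_lpol {lo hi : ℤ} (p x : ℤ) (h1 : lo ≤ x) (h2 : x < hi) :
    (lpol lo hi p).eval (x : ℂ) = if p ≤ x then 1 else 0 := by
  classical
  have hx : x ∈ Finset.Ico lo hi := Finset.mem_Ico.mpr ⟨h1, h2⟩
  have key : ∀ a ∈ Finset.Ico lo hi,
      (∏ b ∈ (Finset.Ico lo hi).erase a, (Polynomial.C (((a : ℂ) - (b : ℂ))⁻¹) *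
        (Polynomial.X - Polynomial.C (b : ℂ)))).eval (x : ℂ) = if a = x then 1 else 0 := by
    intro a ha
    rw [Polynomial.eval_prod]
    simp only [Polynomial.eval_mul, Polynomial.eval_C, Polynomial.eval_sub, Polynomial.eval_X]
    by_cases hax : a = x
    · rw [if_pos hax]
      refine Finset.prod_eq_one fun b hb => ?_
      have hne : (a : ℂ) - (b : ℂ) ≠ 0 := by
        rw [sub_ne_zero]
        intro h
        exact (Finset.mem_erase.mp hb).1 (by exact_mod_cast h.symm)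
      rw [← hax]
      exact inv_mul_cancel₀ hne
    · rw [if_neg hax]
      refine Finset.prod_eq_zero (Finset.mem_erase.mpr ⟨fun h => hax h.symm, hx⟩) ?_
      rw [sub_self, mul_zero]
  rw [lpol, Polynomial.eval_finsetSum]
  have h3 : ∀ a ∈ (Finset.Ico lo hi).filter (fun a => p ≤ a),
      (∏ b ∈ (Finset.Ico lo hi).erase a, (Polynomial.C (((a : ℂ) - (b : ℂ))⁻¹) *
        (Polynomial.X - Polynomial.C (b : ℂ)))).eval (x : ℂ) = if a = x then 1 else 0 :=
    fun a ha => key a (Finset.mem_filter.mp ha).1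
  rw [Finset.sum_congr rfl h3, Finset.sum_ite_eq']
  simp only [Finset.mem_filter, hx, true_and]

theorem T4.aeval_conj (hS : IsUnit S.det) (M : Matrix (Fin n) (Fin n) ℂ) (f : Polynomial ℂ) :
    S⁻¹ * Polynomial.aeval M f * S = Polynomial.aeval (S⁻¹ * M * S) f := by
  induction f using Polynomial.induction_on' with
  | add p q hp hq =>
    rw [map_add, map_add, mul_add, add_mul, hp, hq]
  | monomial k c =>
    rw [Polynomial.aeval_monomial, Polynomial.aeval_monomial]
    have hpow : ∀ k : ℕ, (S⁻¹ * M * S) ^ k = S⁻¹ * M ^ k * S := by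
      intro k
      induction k with
      | zero => rw [pow_zero, pow_zero, mul_one, Matrix.nonsing_inv_mul _ hS]
      | succ k ih =>
        rw [pow_succ, ih, pow_succ]
        have : S⁻¹ * M ^ k * S * (S⁻¹ * M * S) = S⁻¹ * M ^ k * (S * S⁻¹) * M * S := by
          simp only [mul_assoc]
        rw [this, Matrix.mul_nonsing_inv _ hS, mul_one]
        simp only [mul_assoc]
    rw [hpow, ← mul_assoc, ← mul_assoc, ← mul_assoc, Algebra.commutes]

theorem T4.aeval_diagonal (e : Fin n → ℂ) (f : Polynomial ℂ) :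
    Polynomial.aeval (Matrix.diagonal e) f = Matrix.diagonal (fun a => f.eval (e a)) := by
  induction f using Polynomial.induction_on' with
  | add p q hp hq =>
    rw [map_add, hp, hq, Matrix.diagonal_add]
    simp only [Polynomial.eval_add]
  | monomial k c =>
    rw [Polynomial.aeval_monomial, Matrix.diagonal_pow, Matrix.algebraMap_eq_diagonal,
      Matrix.diagonal_mul_diagonal]
    simp only [Polynomial.eval_monomial]
    rfl

theorem LP_flag (h : IsPHS wt Q Fl) (h' : IsPHS wt Q Fl') (hs : Spl wt Fl Fl' ν) {lo hi : ℤ}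
    (hlo : Fl' lo = ⊤) (hhi : Fl' hi = ⊥) (p : ℤ) {q : ℕ} (W : Matrix (Fin n) (Fin q) ℂ)
    (hW : LinearIndependent ℂ Wᵀ) (hF : Fl p = LinearMap.range W.mulVecLin) :
    LinearIndependent ℂ (LP lo hi p ν * W)ᵀ ∧
      Fl' p = LinearMap.range (LP lo hi p ν * W).mulVecLin := by
  obtain ⟨S, d, hM⟩ := exists_MA h h' hs.1
  have hS := hM.inv
  have hcol : ∀ a b, (S⁻¹ *ᵥ Sᵀ a) b = if b = a then 1 else 0 := by
    intro a b
    have h1 : Sᵀ a = S *ᵥ Pi.single a 1 := by
      rw [Matrix.mulVec_single_one]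
      rfl
    rw [h1, Matrix.mulVec_mulVec, Matrix.nonsing_inv_mul _ hS, Matrix.one_mulVec, Pi.single_apply]
  have hdlo : ∀ a, lo ≤ d a := by
    intro a
    by_contra hc
    have h1 : Sᵀ a ∈ Submodule.span ℂ (Sᵀ '' {a | lo ≤ d a}) := by
      rw [← hM.fl lo, hlo]
      exact Submodule.mem_top
    have h2 := (T4.mem_span_cols hS _ _).mp h1 a hc
    rw [hcol, if_pos rfl] at h2
    exact one_ne_zero h2
  have hdhi : ∀ a, d a < hi := by
    intro a
    by_contra hc
    have h1 : Sᵀ a ∈ Fl' hi := by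
      rw [hM.fl hi]
      exact Submodule.subset_span ⟨a, not_lt.mp hc, rfl⟩
    rw [hhi, Submodule.mem_bot] at h1
    have h2 := hcol a a
    rw [h1, Matrix.mulVec_zero, if_pos rfl] at h2
    exact zero_ne_one h2
  set P := LP lo hi p ν with hP
  have hPS : S⁻¹ * P * S = Matrix.diagonal (fun a => if p ≤ d a then (1 : ℂ) else 0) := by
    rw [hP, LP, T4.aeval_conj hS, hM.nu hs, T4.aeval_diagonal]
    congr 1
    funext a
    exact T4.eval_lpol p (d a) (hdlo a) (hdhi a)
  have hco : ∀ v a, (S⁻¹ *ᵥ (P *ᵥ v)) a = if p ≤ d a then (S⁻¹ *ᵥ v) a else 0 := by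
    intro v a
    have h1 : S⁻¹ *ᵥ (P *ᵥ v) = (S⁻¹ * P * S) *ᵥ (S⁻¹ *ᵥ v) := by
      rw [Matrix.mulVec_mulVec, Matrix.mulVec_mulVec]
      congr 1
      rw [mul_assoc (S⁻¹ * P) S S⁻¹, Matrix.mul_nonsing_inv _ hS, mul_one]
    rw [h1, hPS, Matrix.mulVec_diagonal]
    split_ifs
    · rw [one_mul]
    · rw [zero_mul]
  have hinj : ∀ v w : Fin n → ℂ, S⁻¹ *ᵥ v = S⁻¹ *ᵥ w → v = w := by
    intro v w hvw
    have h1 := congrArg (fun u => S *ᵥ u) hvw
    simpa only [Matrix.mulVec_mulVec, Matrix.mul_nonsing_inv _ hS, Matrix.one_mulVec] using h1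
  have hmem : ∀ v, v ∈ Fl' p ↔ ∀ a, ¬ p ≤ d a → (S⁻¹ *ᵥ v) a = 0 := by
    intro v
    rw [hM.fl p]
    exact T4.mem_span_cols hS _ _
  have hcmem : ∀ v, v ∈ conjSub (Fl (wt + 1 - p)) ↔ ∀ a, p ≤ d a → (S⁻¹ *ᵥ v) a = 0 := by
    intro v
    rw [hM.cfl (wt + 1 - p), T4.mem_span_cols hS]
    refine forall_congr' fun a => ?_
    have : a ∉ {a | d a ≤ wt - (wt + 1 - p)} ↔ p ≤ d a := by
      simp only [Set.mem_ofPred_eq]
      omega
    rw [this]
  have hP1 : ∀ v, v ∈ Fl' p → P *ᵥ v = v := by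
    intro v hv
    apply hinj
    funext a
    rw [hco]
    split_ifs with hc
    · rfl
    · exact ((hmem v).mp hv a hc).symm
  have hP2 : ∀ v, P *ᵥ v = 0 ↔ v ∈ conjSub (Fl (wt + 1 - p)) := by
    intro v
    rw [hcmem]
    constructor
    · intro h0 a ha
      have h1 := hco v a
      rw [h0, Matrix.mulVec_zero, if_pos ha] at h1
      exact h1.symm
    · intro h0
      apply hinj
      funext a
      rw [hco, Matrix.mulVec_zero]
      split_ifs with hc
      · exact h0 a hc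
      · rfl
  have hP3 : ∀ v, P *ᵥ v ∈ Fl' p := by
    intro v
    rw [hmem]
    intro a ha
    rw [hco, if_neg ha]
  have hker : ∀ v ∈ Fl p, P *ᵥ v = 0 → v = 0 := by
    intro v hv h0
    have h1 : v ∈ Fl p ⊓ conjSub (Fl (wt + 1 - p)) := ⟨hv, (hP2 v).mp h0⟩
    rw [(h.opp p).inf_eq_bot] at h1
    exact (Submodule.mem_bot ℂ).mp h1
  have hsp : Submodule.span ℂ (Set.range Wᵀ) = Fl p := by
    rw [hF, Matrix.range_mulVecLin]
    rfl
  constructor
  · have h1 : (P * W)ᵀ = fun i => P.mulVecLin (Wᵀ i) := by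
      funext i
      ext j
      rw [Matrix.transpose_apply, Matrix.mul_apply, Matrix.mulVecLin_apply, Matrix.mulVec,
        dotProduct]
      rfl
    rw [h1]
    refine hW.map (f := P.mulVecLin) ?_
    rw [hsp, Submodule.disjoint_def]
    intro v hv h0
    exact hker v hv (by simpa using h0)
  · apply le_antisymm
    · intro w hw
      have h1 : w ∈ Fl p ⊔ conjSub (Fl (wt + 1 - p)) := by
        rw [(h.opp p).sup_eq_top]
        exact Submodule.mem_top
      obtain ⟨a, ha, b, hb, hab⟩ := Submodule.mem_sup.mp h1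
      rw [hF] at ha
      obtain ⟨u, hu⟩ := ha
      refine ⟨u, ?_⟩
      rw [Matrix.mulVecLin_apply] at hu ⊢
      rw [← Matrix.mulVec_mulVec, hu]
      have h2 := hP1 w hw
      rw [← hab, Matrix.mulVec_add, (hP2 b).mpr hb, add_zero] at h2
      rw [h2, hab]
    · rintro w ⟨u, rfl⟩
      rw [Matrix.mulVecLin_apply, ← Matrix.mulVec_mulVec]
      exact hP3 _

end MP2794d1.GD
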