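import Pool.Agent.Lib.MP_2794d1_ag.GD.F1
import Pool.Agent.Lib.MP_2794d1_ag.GD.T2
import Pool.Agent.Lib.MP_2794d1_ag.GD.T4
import Pool.Agent.Lib.MP_2794d1_ag.GD.B2
import Pool.Agent.Lib.MP_2794d1_ag.GD.B3
import Pool.Agent.Lib.MP_2794d1_ag.AH.B07

/-!
F2: power growth. `κ` = any number with `0 < κ < 1 / e` (e.g. `1 / (e + 1)`, also if `e = 0`; `κ ≤ 1/2`); for `h` large choose `H` with
`C * H ^ e ≤ h` and `C * H ^ e > h / 2^(e+1)`-like, so `H ≥ c h ^ (1/e)` and `L d ≤ L h ^ κ ≤ c' H`. `f u = F (pmin (rX V) (fun p => LP lo hi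
(V.lo + p) (R.nu u) * W₀ p))`, `W₀` = frames of `V.F · x₀`: continuous (`form_cont`), polynomial on lines of degree `≤ L d` (`form_line`),
zero at the net points (`LP_flag`: the matrices are frames of `V.F · x`, so `PX V x (pmin …)`), so `f = 0` (`bern`, with `N = max 1 (L d)`). For
`x` near `x₀` the splitting is `R.nu u` for some `u` (`nu_hol`, `spl_exists`: `ν - μ` is in the span of `N`), so `F` vanishes on the Pluecker
vectors at `x` (all are multiples of one: `PX_uniq`, `CForm` is homogeneous). `PX_ident`.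
-/

namespace MP2794d1.GD

open Matrix Complex Filter Topology MP2794d1.PC MP2794d1.AH
open scoped ContDiff Manifold

variable {n m : ℕ} {X G : Type} [TopologicalSpace X] [ChartedSpace (Fin m → ℂ) X]
  [IsManifold 𝓘(ℂ, Fin m → ℂ) ω X] [ConnectedSpace X] [Group G] [MulAction G X]
  (V : MVHS n m X G)

theorem CForm.smul {ι : Type} [Fintype ι] {d : ℕ} {F : (ι → ℂ) → ℂ} (hF : CForm d F) (c : ℂ)
    (v : ι → ℂ) : F (c • v) = c ^ d * F v := by
  obtain ⟨a, ha⟩ := hF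
  rw [ha, ha, Finset.mul_sum]
  refine Finset.sum_congr rfl fun I _ => ?_
  have h : ∏ i, (c • v) (I i) = c ^ d * ∏ i, v (I i) := by
    simp only [Pi.smul_apply, smul_eq_mul]
    rw [Finset.prod_mul_distrib, Finset.prod_const, Finset.card_univ, Fintype.card_fin]
  rw [h]
  ring

theorem CForm.hom {ι : Type} [Fintype ι] {d : ℕ} {F : (ι → ℂ) → ℂ} (hF : CForm d F) :
    AC.Hom d F := by
  refine ⟨hF.smul, ?_⟩
  obtain ⟨a, ha⟩ := hF
  have e : F = fun v => ∑ I, a I * ∏ i, v (I i) := funext ha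
  rw [e]
  refine Differentiable.fun_sum fun I _ => ?_
  refine Differentiable.const_mul ?_ (a I)
  have h1 : ∀ s : Finset (Fin d), Differentiable ℂ (fun v : ι → ℂ => ∏ i ∈ s, v (I i)) := by
    intro s
    induction s using Finset.induction_on with
    | empty => simp only [Finset.prod_empty]; exact differentiable_const 1
    | insert j s hj ih =>
      simp only [Finset.prod_insert hj]
      exact Differentiable.mul (differentiable_apply (I j)) ih
  exact h1 Finset.univ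

/-- frames of the flag at the point with splitting `ν` -/
theorem F2_PX (x₀ x : X) (ν : Matrix (Fin n) (Fin n) ℂ)
    (hs : Spl V.wt (fun p => V.F p x₀) (fun p => V.F p x) ν)
    (W : (p : Fin (Ls V)) → Matrix (Fin n) (Fin (rX V p)) ℂ)
    (hW : ∀ p, LinearIndependent ℂ (W p)ᵀ ∧
      V.F (V.lo + ((p : ℕ) : ℤ)) x₀ = LinearMap.range (W p).mulVecLin) :
    PX V x (pmin (rX V) (fun p => LP V.lo V.hi (V.lo + ((p : ℕ) : ℤ)) ν * W p)) := by
  refine ⟨fun p => LP V.lo V.hi (V.lo + ((p : ℕ) : ℤ)) ν * W p, 1, one_ne_zero, fun p => ?_, ?_⟩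
  · exact LP_flag (V.phs x₀) (V.phs x) hs (V.F_lo x) (V.F_hi x) _ (W p) (hW p).1 (hW p).2
  · rw [one_smul]

theorem F2_nu_cont {wt : ℤ} {Q : Matrix (Fin n) (Fin n) ℤ}
    {g : Submodule ℚ (Matrix (Fin n) (Fin n) ℚ)} {Fl : ℤ → Submodule ℂ (Fin n → ℂ)}
    {μ : Matrix (Fin n) (Fin n) ℂ} {k r : ℕ} (R : Fr wt Q g Fl μ k r) : Continuous R.nu := by
  unfold Fr.nu
  refine continuous_const.add (continuous_finsetSum _ fun j _ => ?_)
  exact (continuous_apply j).smul continuous_const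

theorem F2_nu_line {wt : ℤ} {Q : Matrix (Fin n) (Fin n) ℤ}
    {g : Submodule ℚ (Matrix (Fin n) (Fin n) ℚ)} {Fl : ℤ → Submodule ℂ (Fin n → ℂ)}
    {μ : Matrix (Fin n) (Fin n) ℂ} {k r : ℕ} (R : Fr wt Q g Fl μ k r) (a b : Fin r → ℂ) (t : ℂ) :
    R.nu (a + t • b) = R.nu a + t • ∑ j, b j • R.N j := by
  unfold Fr.nu
  rw [add_assoc, Finset.smul_sum, ← Finset.sum_add_distrib]
  congr 1
  refine Finset.sum_congr rfl fun j _ => ?_
  rw [Pi.add_apply, Pi.smul_apply, add_smul, smul_smul, smul_eq_mul]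

theorem power_growth {ρ : ℕ} (hρ : IsGreatest (Set.range (rankX V)) ρ)
    (hS : IsShimuraDom V ρ) : PowerGrowth V := by
  obtain ⟨e, hnet⟩ := net V hρ hS
  have he : (0 : ℝ) < 2 * ((e : ℝ) + 1) := by positivity
  refine ⟨1 / (2 * ((e : ℝ) + 1)), by positivity, fun U hU hne => ?_⟩
  obtain ⟨x₀, hx₀, hr, k, r, R, δ, C, hδ, hC, hNet⟩ := hnet U hU hne
  obtain ⟨L, hL⟩ := form_line (n := n) (rX V) V.lo V.hi (fun p : Fin (Ls V) => V.lo + ((p : ℕ) : ℤ))
  obtain ⟨c, hc, hB⟩ := bern r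
  -- the threshold
  set a₀ : ℝ := 2 + C + 2 * C * (1 + L) / (c * δ) with ha₀
  have hq : 0 ≤ 2 * C * (1 + (L : ℝ)) / (c * δ) := by positivity
  have ha₀2 : 2 ≤ a₀ := by rw [ha₀]; linarith
  refine ⟨a₀ ^ (2 * (e + 1)), fun h hh d F hF hd hv => ?_⟩
  have hh0 : 0 < h := lt_of_lt_of_le (by positivity) hh
  set a : ℝ := h ^ (1 / (2 * ((e : ℝ) + 1))) with ha
  have ha0 : 0 ≤ a := Real.rpow_nonneg hh0.le _
  have hpow : a ^ (2 * (e + 1)) = h := by
    rw [ha, ← Real.rpow_natCast, ← Real.rpow_mul hh0.le]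
    have : 1 / (2 * ((e : ℝ) + 1)) * ((2 * (e + 1) : ℕ) : ℝ) = 1 := by
      push_cast
      field_simp
    rw [this, Real.rpow_one]
  have haa₀ : a₀ ≤ a := by
    by_contra hlt
    push Not at hlt
    have h1 : a ^ (2 * (e + 1)) < a₀ ^ (2 * (e + 1)) := by
      gcongr
    rw [hpow] at h1
    linarith
  have ha2 : 2 ≤ a := ha₀2.trans haa₀
  -- the integer H
  set H : ℕ := ⌊a ^ 2⌋₊ with hH
  have hH1 : (H : ℝ) ≤ a ^ 2 := Nat.floor_le (by positivity)
  have hH2 : a ^ 2 - 1 < H := by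
    have := Nat.lt_floor_add_one (a ^ 2)
    linarith
  have hH3 : a ^ 2 / 2 ≤ H := by nlinarith
  have hH0 : (0 : ℝ) < H := lt_of_lt_of_le (by positivity) hH3
  have hCa : C ≤ a := by
    have : C ≤ a₀ := by rw [ha₀]; linarith
    linarith
  have hCH : C ≤ H := by nlinarith
  have hcomp : C * (H : ℝ) ^ e ≤ h := by
    rw [← hpow]
    calc C * (H : ℝ) ^ e ≤ a ^ 2 * (a ^ 2) ^ e := by
          gcongr
          nlinarith
      _ = a ^ (2 * (e + 1)) := by ring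
  -- the frames at x₀
  obtain ⟨v₀, W₀, c₀, hc₀, hW₀, -⟩ := PX_ex V x₀
  set f : (Fin r → ℂ) → ℂ := fun u =>
    F (pmin (rX V) (fun p => LP V.lo V.hi (V.lo + ((p : ℕ) : ℤ)) (R.nu u) * W₀ p)) with hf
  have hfc : Continuous f :=
    (form_cont (n := n) (rX V) V.lo V.hi (fun p : Fin (Ls V) => V.lo + ((p : ℕ) : ℤ)) W₀ d F hF).comp
      (F2_nu_cont R)
  set N : ℕ := 1 + L * d with hN
  have hline : ∀ a b : Fin r → ℂ, ∃ q : Polynomial ℂ, q.natDegree ≤ N ∧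
      ∀ t : ℂ, q.eval t = f (a + t • b) := by
    intro a b
    obtain ⟨q, hq1, hq2⟩ := hL W₀ d F hF (R.nu a) (∑ j, b j • R.N j)
    refine ⟨q, by omega, fun t => ?_⟩
    rw [hq2 t, hf]
    simp only
    rw [F2_nu_line]
  have hNbd : C / H * N ≤ c * δ := by
    have hda : (d : ℝ) ≤ a := hd
    have h1 : (N : ℝ) ≤ (1 + L) * a := by
      rw [hN]
      push_cast
      nlinarith [Nat.cast_nonneg (α := ℝ) L]
    have h2 : 2 * C * (1 + (L : ℝ)) ≤ c * δ * a := by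
      have h3 : 2 * C * (1 + (L : ℝ)) / (c * δ) ≤ a := by
        have : 2 * C * (1 + (L : ℝ)) / (c * δ) ≤ a₀ := by rw [ha₀]; linarith
        linarith
      rw [div_le_iff₀ (by positivity)] at h3
      linarith
    rw [div_mul_eq_mul_div, div_le_iff₀ hH0]
    calc C * N ≤ C * ((1 + L) * a) := by gcongr
      _ = (2 * C * (1 + L)) * (a / 2) := by ring
      _ ≤ (c * δ * a) * (a / 2) := by gcongr
      _ = c * δ * (a ^ 2 / 2) := by ring
      _ ≤ c * δ * H := by gcongr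
  have hf0 : ∀ u, f u = 0 := by
    refine hB f N (by omega) hfc hline δ (C / H) hδ (by positivity) hNbd fun u hu => ?_
    obtain ⟨s, hs1, x, hxU, hcm, hspl⟩ := hNet H hCH u hu
    refine ⟨s, hs1, ?_⟩
    obtain ⟨A, hA1, hA2, hA3⟩ := hcm
    refine hv x hxU ⟨A, hA1, hA2, hA3.trans ?_⟩ _ (F2_PX V x₀ x _ hspl W₀ hW₀)
    gcongr
  -- identity theorem
  refine PX_ident V d F hF.hom ⟨x₀, ?_⟩
  obtain ⟨Ch⟩ := exists_ch (m := m) x₀
  obtain ⟨ν, -, -, hν⟩ := nu_hol V Ch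
  have hnh := Ch.nhd 0 (Metric.mem_ball_self Ch.pos)
  rw [Ch.κ0] at hnh
  rw [← hnh, Filter.eventually_map]
  filter_upwards [hν] with y hy v hvx
  obtain ⟨Nn, hNn, hNn1, hspl⟩ := spl_exists (hdX V hS x₀) (hdX V hS (Ch.κ y)) hy.1
  have h1 := R.Nspan Nn hNn hNn1
  rw [Submodule.mem_span_range_iff_exists_fun] at h1
  obtain ⟨u, hu⟩ := h1
  have h2 : R.nu u = JX V x₀ + Nn := by
    unfold Fr.nu
    rw [hu]
  rw [← h2] at hspl
  have h3 := F2_PX V x₀ (Ch.κ y) _ hspl W₀ hW₀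
  obtain ⟨c', rfl⟩ := PX_uniq V (Ch.κ y) _ _ h3 hvx
  have h4 : F (pmin (rX V) (fun p => LP V.lo V.hi (V.lo + ((p : ℕ) : ℤ)) (R.nu u) * W₀ p)) = 0 :=
    hf0 u
  rw [hF.smul, h4, mul_zero]

end MP2794d1.GD
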