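import Pool.Agent.Lib.MP_2794d1_ag.GD.F2
import Pool.Agent.Lib.MP_2794d1_ag.WV.Fin2

/-!
F3: the dichotomy; power growth excludes the other alternatives (`log` versus power).
-/

namespace MP2794d1.GD

open Matrix Complex Filter Topology MP2794d1.PC MP2794d1.AH MP2794d1.WV
open scoped ContDiff Manifold

variable {n m : ℕ} {X G : Type} [TopologicalSpace X] [ChartedSpace (Fin m → ℂ) X]
  [IsManifold 𝓘(ℂ, Fin m → ℂ) ω X] [ConnectedSpace X] [Group G] [MulAction G X]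

theorem exists_CM_of_power (V : MVHS n m X G) (hP : PowerGrowth V) :
    ∃ (x : X) (h : ℝ), IsCMX V x h := by
  by_contra hcon
  push Not at hcon
  obtain ⟨κ, hκ, hU⟩ := hP
  obtain ⟨h₀, hh⟩ := hU Set.univ isOpen_univ Set.univ_nonempty
  obtain ⟨x⟩ := (inferInstance : Nonempty X)
  obtain ⟨v, hv⟩ := PX_ex V x
  have h1 := hh (max h₀ 1) (le_max_left _ _) 0 (fun _ => 1) ⟨fun _ => 1, fun v => by simp⟩
    (by
      have : 0 ≤ (max h₀ 1) ^ κ := Real.rpow_nonneg (le_trans zero_le_one (le_max_right _ _)) κ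
      simpa using this)
    (fun x _ hx => absurd hx (hcon x _)) x v hv
  exact one_ne_zero h1

theorem not_hyper_of_power (V : MVHS n m X G) (hP : PowerGrowth V) {K : Set X}
    (hK : (interior K).Nonempty) (a b : ℝ) : ¬ HypersurfaceBd V (CMin V K) a b := by
  rintro ⟨C, hC⟩
  obtain ⟨κ, hκ, hU⟩ := hP
  obtain ⟨h₀, hm⟩ := hU (interior K) isOpen_interior hK
  have h1 : (fun x : ℝ => Real.log x ^ a) =o[atTop] fun x => x ^ κ :=
    isLittleO_log_rpow_rpow_atTop a hκ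
  have h2 : (0 : ℝ) < 1 / (|C| + 1) := by positivity
  have h3 := (Asymptotics.isLittleO_iff.1 h1) h2
  obtain ⟨h, hh1, hh2, hh3⟩ :=
    (h3.and ((eventually_ge_atTop h₀).and (eventually_ge_atTop (2 : ℝ)))).exists
  obtain ⟨d, F, e1, ⟨p, hp, -⟩, ⟨x, v, hx, hxv⟩, e4⟩ := hC h hh3
  have hlog : 0 < Real.log h := Real.log_pos (by linarith)
  have hx' : 0 < h ^ κ := Real.rpow_pos_of_pos (by linarith) κ
  have hl' : 0 < Real.log h ^ a := Real.rpow_pos_of_pos hlog a
  rw [Real.norm_of_nonneg hl'.le, Real.norm_of_nonneg hx'.le, div_mul_eq_mul_div, one_mul,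
    le_div_iff₀ (by positivity)] at hh1
  have h6 : C * Real.log h ^ a ≤ |C| * Real.log h ^ a :=
    mul_le_mul_of_nonneg_right (le_abs_self C) hl'.le
  have h7 : (d : ℝ) ≤ h ^ κ := by nlinarith
  refine hxv (hm h hh2 d F ⟨fun I => (p I : ℂ), fun v => ?_⟩ h7 ?_ x v hx)
  · rw [hp v]
    rfl
  · intro y hy hcm w hw
    exact e4 y ⟨interior_subset hy, hcm⟩ w hw

/-- the conclusion of Q1 is equivalent to power growth, and otherwise there is no CM point or the growth is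
polylogarithmic -/
theorem dichotomy (V : MVHS n m X G) (hC : CurvesSpan m X G) :
    ∃ ρ D : ℕ, IsGreatest (Set.range (rankX V)) ρ ∧ IsGreatest {D | IndX V D} D ∧
    (∀ K : Set X, IsCompact K → HilbertBd V (CMin V K) ρ ρ) ∧
    (∀ (l k J : ℕ) (ch : Fin J → Chart V l), (∀ j, (ch j).I.card ≤ k) →
      HilbertBd V (CMin V (Cov ch)) l (l + k)) ∧
    (IsShimuraDom V ρ ↔ PowerGrowth V) ∧
    (PowerGrowth V ∨ (∀ (x : X) (h : ℝ), ¬ IsCMX V x h) ∨
    (ρ < D ∧
      (∀ K : Set X, IsCompact K →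
        HypersurfaceBd V (CMin V K) ((ρ : ℝ) / ((D : ℝ) - ρ)) ((D : ℝ) / ((D : ℝ) - ρ))) ∧
      ∀ (l k J : ℕ) (ch : Fin J → Chart V l), l < D → (∀ j, (ch j).I.card ≤ k) →
        HypersurfaceBd V (CMin V (Cov ch)) (((l : ℝ) + k) / ((D : ℝ) - l))
          (((D : ℝ) + k) / ((D : ℝ) - l)))) := by
  obtain ⟨ρ, D, hρ, hD, h1, h2, h3⟩ := whole2 V hC
  have hpg : IsShimuraDom V ρ → PowerGrowth V := fun hS => power_growth V hρ hS
  refine ⟨ρ, D, hρ, hD, h1, h2, ⟨hpg, fun hP => ?_⟩, ?_⟩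
  · rcases h3 with h | h | ⟨-, h, -⟩
    · exact h
    · obtain ⟨x, t, hx⟩ := exists_CM_of_power V hP
      exact absurd hx (h x t)
    · exfalso
      haveI : LocallyCompactSpace X := ChartedSpace.locallyCompactSpace (Fin m → ℂ) X
      obtain ⟨x⟩ := (inferInstance : Nonempty X)
      obtain ⟨K, hK, hxK⟩ := exists_compact_mem_nhds x
      exact not_hyper_of_power V hP ⟨x, mem_interior_iff_mem_nhds.2 hxK⟩ _ _ (h K hK)
  · rcases h3 with h | h | h
    · exact Or.inl (hpg h)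
    · exact Or.inr (Or.inl h)
    · exact Or.inr (Or.inr h)

end MP2794d1.GD
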