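import Mathlib

/-!
T12: the kernel of an integral matrix is spanned by small integral vectors (Siegel's lemma on the
support, one coordinate of the support is removed at each step).
-/

set_option autoImplicit false

namespace MP2794d1.GD

open Matrix

section

attribute [local instance] Matrix.seminormedAddCommGroup

/-- A nonzero rational kernel vector gives a small nonzero integral kernel vector. -/
private theorem kb_small {M S : Type} [Fintype M] [Fintype S] (A : Matrix M S ℤ) (T : ℕ) (hT : 1 ≤ T)
    (hA : ∀ i j, |A i j| ≤ (T : ℤ)) (v : S → ℚ) (hv : v ≠ 0)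
    (hAv : (A.map (fun q : ℤ => (q : ℚ))) *ᵥ v = 0) :
    ∃ z : S → ℤ, z ≠ 0 ∧ A *ᵥ z = 0 ∧
      ∀ j, |z j| ≤ (((Fintype.card S * T) ^ Fintype.card S : ℕ) : ℤ) := by
  classical
  obtain ⟨κ, a, ha, hspan, hind⟩ :=
    exists_linearIndependent' ℚ (fun i : M => fun j : S => ((A i j : ℤ) : ℚ))
  have hfin : Finite κ := Finite.of_injective a ha
  let _ : Fintype κ := Fintype.ofFinite κ
  -- all vectors orthogonal to the chosen rows are orthogonal to all rows
  have key : ∀ w : S → ℚ, (∀ c : κ, ∑ j, ((A (a c) j : ℤ) : ℚ) * w j = 0) →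
      ∀ i : M, ∑ j, ((A i j : ℤ) : ℚ) * w j = 0 := by
    intro w hw i
    have hmem : (fun j : S => ((A i j : ℤ) : ℚ)) ∈
        Submodule.span ℚ (Set.range ((fun i : M => fun j : S => ((A i j : ℤ) : ℚ)) ∘ a)) := by
      rw [hspan]
      exact Submodule.subset_span ⟨i, rfl⟩
    have h2 : ∀ x ∈ Submodule.span ℚ
        (Set.range ((fun i : M => fun j : S => ((A i j : ℤ) : ℚ)) ∘ a)), ∑ j, x j * w j = 0 := by
      intro x hx
      induction hx using Submodule.span_induction with
      | mem x hx =>
        obtain ⟨c, rfl⟩ := hx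
        exact hw c
      | zero => simp
      | add x y _ _ h1 h2 =>
        simp only [Pi.add_apply, add_mul, Finset.sum_add_distrib, h1, h2, add_zero]
      | smul r x _ h1 =>
        simp only [Pi.smul_apply, smul_eq_mul, mul_assoc, ← Finset.mul_sum, h1, mul_zero]
    exact h2 _ hmem
  -- the rank is smaller than the number of columns
  have hcard : Fintype.card κ < Fintype.card S := by
    by_contra hcon
    push Not at hcon
    have hle : Fintype.card κ ≤ Module.finrank ℚ (S → ℚ) := hind.fintype_card_le_finrank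
    rw [Module.finrank_fintype_fun_eq_card] at hle
    have heq : Fintype.card κ = Module.finrank ℚ (S → ℚ) := by
      rw [Module.finrank_fintype_fun_eq_card]
      omega
    have htop : Submodule.span ℚ
        (Set.range ((fun i : M => fun j : S => ((A i j : ℤ) : ℚ)) ∘ a)) = ⊤ :=
      hind.span_eq_top_of_card_eq_finrank' heq
    apply hv
    have h2 : ∀ x ∈ Submodule.span ℚ
        (Set.range ((fun i : M => fun j : S => ((A i j : ℤ) : ℚ)) ∘ a)), ∑ j, x j * v j = 0 := by
      intro x hx
      induction hx using Submodule.span_induction with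
      | mem x hx =>
        obtain ⟨c, rfl⟩ := hx
        have := congrFun hAv (a c)
        simpa [Matrix.mulVec, dotProduct] using this
      | zero => simp
      | add x y _ _ h1 h2 =>
        simp only [Pi.add_apply, add_mul, Finset.sum_add_distrib, h1, h2, add_zero]
      | smul r x _ h1 =>
        simp only [Pi.smul_apply, smul_eq_mul, mul_assoc, ← Finset.mul_sum, h1, mul_zero]
    ext j
    have := h2 (Pi.single j 1) (by rw [htop]; exact Submodule.mem_top)
    simpa [Pi.single_apply] using this
  have hSpos : 0 < Fintype.card S := by omega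
  have hbase : 1 ≤ Fintype.card S * T := Nat.mul_pos hSpos hT
  by_cases hκ : 0 < Fintype.card κ
  · obtain ⟨t, ht0, htA, htn⟩ := Int.Matrix.exists_ne_zero_int_vec_norm_le
      (A.submatrix a id) hcard hκ
    refine ⟨t, ht0, ?_, ?_⟩
    · have h3 := key (fun j => (t j : ℚ)) (by
        intro c
        have := congrFun htA c
        simp only [Matrix.mulVec, dotProduct, Matrix.submatrix_apply, id, Pi.zero_apply] at this
        exact_mod_cast this)
      ext i
      have := h3 i
      simp only [Matrix.mulVec, dotProduct, Pi.zero_apply]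
      exact_mod_cast this
    · intro j
      have hn : ‖A.submatrix a id‖ ≤ (T : ℝ) := by
        rw [Matrix.norm_le_iff (by positivity)]
        intro i j
        rw [Matrix.submatrix_apply, Int.norm_eq_abs]
        exact_mod_cast hA (a i) (id j)
      have h1T : (1 : ℝ) ≤ (T : ℝ) := by exact_mod_cast hT
      have hb : ((Fintype.card S : ℝ) * max 1 ‖A.submatrix a id‖) ≤ ((Fintype.card S * T : ℕ) : ℝ) := by
        push_cast
        exact mul_le_mul_of_nonneg_left (max_le h1T hn) (by positivity)
      have hb0 : (0 : ℝ) ≤ ((Fintype.card S : ℝ) * max 1 ‖A.submatrix a id‖) := by positivity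
      have hexp : (Fintype.card κ : ℝ) / ((Fintype.card S : ℝ) - (Fintype.card κ : ℝ)) ≤
          (Fintype.card S : ℝ) := by
        have h1 : (Fintype.card κ : ℝ) + 1 ≤ (Fintype.card S : ℝ) := by exact_mod_cast hcard
        rw [div_le_iff₀ (by linarith)]
        nlinarith [h1, (Nat.cast_nonneg (Fintype.card κ) : (0 : ℝ) ≤ (Fintype.card κ : ℝ))]
      have hexp0 : 0 ≤ (Fintype.card κ : ℝ) / ((Fintype.card S : ℝ) - (Fintype.card κ : ℝ)) := by
        have h1 : (Fintype.card κ : ℝ) + 1 ≤ (Fintype.card S : ℝ) := by exact_mod_cast hcard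
        exact div_nonneg (by positivity) (by linarith)
      have h4 : ‖t‖ ≤ (((Fintype.card S * T : ℕ) : ℝ)) ^ (Fintype.card S : ℝ) := by
        refine htn.trans ((Real.rpow_le_rpow hb0 hb hexp0).trans ?_)
        exact Real.rpow_le_rpow_of_exponent_le (by exact_mod_cast hbase) hexp
      have h5 : ‖t j‖ ≤ ‖t‖ := norm_le_pi_norm t j
      rw [Real.rpow_natCast] at h4
      have h6 : ‖t j‖ ≤ ((((Fintype.card S * T) ^ Fintype.card S : ℕ)) : ℝ) := by
        push_cast
        push_cast at h4
        exact h5.trans h4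
      rw [Int.norm_eq_abs] at h6
      exact_mod_cast h6
  · -- no rows
    obtain ⟨j0⟩ : Nonempty S := Fintype.card_pos_iff.mp hSpos
    refine ⟨Pi.single j0 1, ?_, ?_, ?_⟩
    · intro h
      have := congrFun h j0
      simp at this
    · have hemp : IsEmpty κ := by
        rw [← Fintype.card_eq_zero_iff]
        omega
      have h3 := key (fun j => ((Pi.single j0 1 : S → ℤ) j : ℚ)) (fun c => hemp.elim c)
      ext i
      have := h3 i
      simp only [Matrix.mulVec, dotProduct, Pi.zero_apply]
      exact_mod_cast this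
    · intro j
      have h1 : (1 : ℤ) ≤ (((Fintype.card S * T) ^ Fintype.card S : ℕ) : ℤ) := by
        exact_mod_cast Nat.one_le_pow _ _ hbase
      by_cases h : j = j0
      · subst h
        simpa using h1
      · rw [Pi.single_eq_of_ne h, abs_zero]
        linarith

end

theorem ker_basis (N : ℕ) : ∃ C e : ℕ, ∀ (M : Type) [Fintype M] (A : Matrix M (Fin N) ℤ) (T : ℕ),
    1 ≤ T → (∀ i j, |A i j| ≤ (T : ℤ)) → ∀ v : Fin N → ℚ,
      (A.map (fun q : ℤ => (q : ℚ))) *ᵥ v = 0 →
      v ∈ Submodule.span ℚ {w : Fin N → ℚ | ∃ z : Fin N → ℤ, (w = fun i => (z i : ℚ)) ∧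
        A *ᵥ z = 0 ∧ ∀ i, |z i| ≤ ((C * T ^ e : ℕ) : ℤ)} := by
  classical
  refine ⟨N ^ N, N, ?_⟩
  intro M _ A T hT hA
  -- strong induction on the size of the support
  suffices H : ∀ s : ℕ, ∀ v : Fin N → ℚ, (Finset.univ.filter (fun j => v j ≠ 0)).card ≤ s →
      (A.map (fun q : ℤ => (q : ℚ))) *ᵥ v = 0 →
      v ∈ Submodule.span ℚ {w : Fin N → ℚ | ∃ z : Fin N → ℤ, (w = fun i => (z i : ℚ)) ∧
        A *ᵥ z = 0 ∧ ∀ i, |z i| ≤ ((N ^ N * T ^ N : ℕ) : ℤ)} by
    intro v hv
    exact H _ v le_rfl hv
  intro s
  induction s with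
  | zero =>
    intro v hs _
    have hv0 : v = 0 := by
      ext j
      by_contra hj
      have : j ∈ Finset.univ.filter (fun j => v j ≠ 0) := by simpa using hj
      rw [Nat.le_zero, Finset.card_eq_zero] at hs
      rw [hs] at this
      simp at this
    rw [hv0]
    exact Submodule.zero_mem _
  | succ s ih =>
    intro v hs hAv
    by_cases hv0 : v = 0
    · rw [hv0]
      exact Submodule.zero_mem _
    set S : Finset (Fin N) := Finset.univ.filter (fun j => v j ≠ 0) with hS
    -- the restriction to the support
    have hsum : ∀ (i : M) (w : Fin N → ℚ), (∀ j, j ∉ S → w j = 0) →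
        ∑ j : S, ((A i j : ℤ) : ℚ) * w j = ∑ j, ((A i j : ℤ) : ℚ) * w j := by
      intro i w hw
      rw [Finset.sum_coe_sort S (fun j => ((A i j : ℤ) : ℚ) * w j)]
      apply Finset.sum_subset (Finset.subset_univ S)
      intro j _ hj
      rw [hw j hj, mul_zero]
    have hvS : ∀ j, j ∉ S → v j = 0 := by
      intro j hj
      by_contra h
      exact hj (by simp [hS, h])
    obtain ⟨z, hz0, hzA, hzb⟩ := kb_small (A.submatrix id (fun j : S => (j : Fin N))) T hT
      (fun i j => hA i j) (fun j : S => v j)
      (by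
        intro h
        apply hv0
        ext j
        by_cases hj : j ∈ S
        · exact congrFun h ⟨j, hj⟩
        · exact hvS j hj)
      (by
        ext i
        have h1 := congrFun hAv i
        simp only [Matrix.mulVec, dotProduct, Matrix.map_apply, Matrix.submatrix_apply, id,
          Pi.zero_apply] at h1 ⊢
        rw [hsum i v hvS]
        exact h1)
    -- extension by zero
    set z' : Fin N → ℤ := fun j => if h : j ∈ S then z ⟨j, h⟩ else 0 with hz'
    have hz'S : ∀ j : S, z' j = z j := by
      intro j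
      simp [hz']
    have hz'0 : ∀ j, j ∉ S → z' j = 0 := by
      intro j hj
      simp [hz', hj]
    have hz'A : A *ᵥ z' = 0 := by
      ext i
      have h1 := congrFun hzA i
      simp only [Matrix.mulVec, dotProduct, Matrix.submatrix_apply, id, Pi.zero_apply] at h1 ⊢
      have h2 := hsum i (fun j => (z' j : ℚ)) (fun j hj => by simp [hz'0 j hj])
      have h3 : ∑ j : S, ((A i j : ℤ) : ℚ) * ((z' j : ℤ) : ℚ) = 0 := by
        have : ∑ j : S, ((A i j : ℤ) : ℚ) * ((z' j : ℤ) : ℚ) =
            ∑ j : S, ((A i j : ℤ) : ℚ) * ((z j : ℤ) : ℚ) := by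
          apply Finset.sum_congr rfl
          intro j _
          rw [hz'S j]
        rw [this]
        exact_mod_cast h1
      rw [h3] at h2
      exact_mod_cast h2.symm
    obtain ⟨j0, hj0⟩ : ∃ j : S, z j ≠ 0 := by
      by_contra hcon
      push Not at hcon
      exact hz0 (funext hcon)
    have hj0' : (z' j0 : ℚ) ≠ 0 := by
      rw [hz'S j0]
      exact_mod_cast hj0
    have hmem : (fun i => (z' i : ℚ)) ∈ Submodule.span ℚ {w : Fin N → ℚ | ∃ z : Fin N → ℤ,
        (w = fun i => (z i : ℚ)) ∧ A *ᵥ z = 0 ∧ ∀ i, |z i| ≤ ((N ^ N * T ^ N : ℕ) : ℤ)} := by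
      apply Submodule.subset_span
      refine ⟨z', rfl, hz'A, ?_⟩
      intro j
      by_cases hj : j ∈ S
      · have h1 := hzb ⟨j, hj⟩
        have h2 : z' j = z ⟨j, hj⟩ := hz'S ⟨j, hj⟩
        rw [h2]
        refine h1.trans ?_
        have hc : Fintype.card S ≤ N := by
          rw [Fintype.card_coe]
          simpa using Finset.card_le_univ S
        have hc1 : 1 ≤ Fintype.card S := Fintype.card_pos_iff.mpr ⟨⟨j, hj⟩⟩
        have : (Fintype.card S * T) ^ Fintype.card S ≤ N ^ N * T ^ N := by
          rw [← mul_pow]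
          calc (Fintype.card S * T) ^ Fintype.card S ≤ (Fintype.card S * T) ^ N :=
                Nat.pow_le_pow_right (Nat.mul_pos hc1 hT) hc
            _ ≤ (N * T) ^ N := Nat.pow_le_pow_left (Nat.mul_le_mul_right T hc) N
        exact_mod_cast this
      · rw [hz'0 j hj, abs_zero]
        positivity
    have hAz : (A.map (fun q : ℤ => (q : ℚ))) *ᵥ (fun i => (z' i : ℚ)) = 0 := by
      ext i
      have h1 := congrFun hz'A i
      simp only [Matrix.mulVec, dotProduct, Matrix.map_apply, Pi.zero_apply] at h1 ⊢
      exact_mod_cast h1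
    set c : ℚ := v j0 / z' j0 with hc
    have hrest := ih (v - c • (fun i => (z' i : ℚ))) (by
        have hsub : Finset.univ.filter (fun j => (v - c • (fun i => (z' i : ℚ))) j ≠ 0) ⊆
            S.erase (j0 : Fin N) := by
          intro j hj
          rw [Finset.mem_filter] at hj
          rw [Finset.mem_erase]
          constructor
          · rintro rfl
            apply hj.2
            simp only [Pi.sub_apply, Pi.smul_apply, smul_eq_mul, hc]
            field_simp
            ring
          · by_contra hjS
            apply hj.2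
            simp [hvS j hjS, hz'0 j hjS]
        have h1 := Finset.card_le_card hsub
        rw [Finset.card_erase_of_mem j0.2] at h1
        omega)
      (by rw [Matrix.mulVec_sub, Matrix.mulVec_smul, hAv, hAz, smul_zero, sub_zero])
    have : v = (v - c • (fun i => (z' i : ℚ))) + c • (fun i => (z' i : ℚ)) := by
      rw [sub_add_cancel]
    rw [this]
    exact Submodule.add_mem _ hrest (Submodule.smul_mem _ _ hmem)

end MP2794d1.GD
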