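import Pool.Agent.Lib.MP_2794d1_ag.GD.Defs
import Pool.Agent.Lib.MP_2794d1_ag.GD.T12

/-!
T13: the commutant of the centraliser of `Y = ∑ y i • B i` in `g` is spanned by small integral
matrices (`ker_basis` twice).
-/

set_option autoImplicit false

namespace MP2794d1.GD

open Matrix Complex Filter Topology

variable {n k : ℕ}

/-- the matrices which commute with all elements of `g` which commute with `Y` -/
def comm2 (g : Submodule ℚ (Matrix (Fin n) (Fin n) ℚ)) (Y : Matrix (Fin n) (Fin n) ℚ) :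
    Submodule ℚ (Matrix (Fin n) (Fin n) ℚ) where
  carrier := {A | ∀ Z ∈ g, Y * Z = Z * Y → A * Z = Z * A}
  add_mem' := by
    intro a b ha hb Z hZ h
    rw [Matrix.add_mul, Matrix.mul_add, ha Z hZ h, hb Z hZ h]
  zero_mem' := by
    intro Z _ _
    rw [Matrix.zero_mul, Matrix.mul_zero]
  smul_mem' := by
    intro c a ha Z hZ h
    rw [Matrix.smul_mul, Matrix.mul_smul, ha Z hZ h]

private theorem t13_qm_sum {ι : Type} (s : Finset ι) (f : ι → Matrix (Fin n) (Fin n) ℤ) :
    qm (∑ i ∈ s, f i) = ∑ i ∈ s, qm (f i) := by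
  ext p q
  simp [qm, Matrix.sum_apply]

private theorem t13_qm_smul (c : ℤ) (f : Matrix (Fin n) (Fin n) ℤ) :
    qm (c • f) = (c : ℚ) • qm f := by
  ext p q
  simp only [qm, Matrix.map_apply, Matrix.smul_apply, smul_eq_mul]
  push_cast
  rfl

private theorem t13_qm_comb (B : Fin k → Matrix (Fin n) (Fin n) ℤ) (z : Fin k → ℤ) :
    qm (∑ j, z j • B j) = ∑ j, (z j : ℚ) • qm (B j) := by
  rw [t13_qm_sum]
  exact Finset.sum_congr rfl fun j _ => t13_qm_smul _ _

private theorem t13_comb_bound (B : Fin k → Matrix (Fin n) (Fin n) ℤ) {b T : ℕ}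
    (hb : ∀ i p q, |B i p q| ≤ (b : ℤ)) {z : Fin k → ℤ} (hz : ∀ j, |z j| ≤ (T : ℤ)) (p q : Fin n) :
    |(∑ j, z j • B j) p q| ≤ ((k * T * b : ℕ) : ℤ) := by
  rw [Matrix.sum_apply]
  refine (Finset.abs_sum_le_sum_abs _ _).trans ?_
  calc ∑ j, |(z j • B j) p q| ≤ ∑ _j : Fin k, ((T * b : ℕ) : ℤ) := by
        apply Finset.sum_le_sum
        intro j _
        rw [Matrix.smul_apply, smul_eq_mul, abs_mul]
        push_cast
        exact mul_le_mul (hz j) (hb j p q) (abs_nonneg _) (by positivity)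
    _ = ((k * T * b : ℕ) : ℤ) := by
        rw [Finset.sum_const, Finset.card_univ, Fintype.card_fin, nsmul_eq_mul]
        push_cast
        ring

private theorem t13_mul_bound {X Y : Matrix (Fin n) (Fin n) ℤ} {a b : ℕ}
    (hX : ∀ p q, |X p q| ≤ (a : ℤ)) (hY : ∀ p q, |Y p q| ≤ (b : ℤ)) (p q : Fin n) :
    |(X * Y) p q| ≤ ((n * (a * b) : ℕ) : ℤ) := by
  rw [Matrix.mul_apply]
  refine (Finset.abs_sum_le_sum_abs _ _).trans ?_
  calc ∑ j, |X p j * Y j q| ≤ ∑ _j : Fin n, ((a * b : ℕ) : ℤ) := by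
        apply Finset.sum_le_sum
        intro j _
        rw [abs_mul]
        push_cast
        exact mul_le_mul (hX p j) (hY j q) (abs_nonneg _) (by positivity)
    _ = ((n * (a * b) : ℕ) : ℤ) := by
        rw [Finset.sum_const, Finset.card_univ, Fintype.card_fin, nsmul_eq_mul]
        push_cast
        ring

theorem comm_basis (B : Fin k → Matrix (Fin n) (Fin n) ℤ) : ∃ C e : ℕ, ∀ (T : ℕ), 1 ≤ T →
    ∀ y : Fin k → ℤ, (∀ i, |y i| ≤ (T : ℤ)) →
    ∀ A ∈ comm2 (Submodule.span ℚ (Set.range fun i => qm (B i))) (qm (∑ i, y i • B i)),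
      A ∈ Submodule.span ℚ {A' : Matrix (Fin n) (Fin n) ℚ |
        A' ∈ comm2 (Submodule.span ℚ (Set.range fun i => qm (B i))) (qm (∑ i, y i • B i)) ∧
        ∃ Az : Matrix (Fin n) (Fin n) ℤ, A' = qm Az ∧ ∀ i j, |Az i j| ≤ ((C * T ^ e : ℕ) : ℤ)} := by
  classical
  obtain ⟨C1, e1, h1⟩ := ker_basis k
  obtain ⟨C2, e2, h2⟩ := ker_basis (n * n)
  -- a bound for the entries of `B`
  obtain ⟨b, hb⟩ : ∃ b : ℕ, ∀ i p q, |B i p q| ≤ (b : ℤ) := by
    refine ⟨∑ i, ∑ p, ∑ q, (B i p q).natAbs, ?_⟩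
    intro i p q
    rw [Int.abs_eq_natAbs]
    have hq : (B i p q).natAbs ≤ ∑ q, (B i p q).natAbs :=
      Finset.single_le_sum (f := fun q => (B i p q).natAbs) (fun _ _ => Nat.zero_le _)
        (Finset.mem_univ q)
    have hp : ∑ q, (B i p q).natAbs ≤ ∑ p, ∑ q, (B i p q).natAbs :=
      Finset.single_le_sum (f := fun p => ∑ q, (B i p q).natAbs) (fun _ _ => Nat.zero_le _)
        (Finset.mem_univ p)
    have hi : ∑ p, ∑ q, (B i p q).natAbs ≤ ∑ i, ∑ p, ∑ q, (B i p q).natAbs :=
      Finset.single_le_sum (f := fun i => ∑ p, ∑ q, (B i p q).natAbs) (fun _ _ => Nat.zero_le _)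
        (Finset.mem_univ i)
    exact_mod_cast hq.trans (hp.trans hi)
  set c1 : ℕ := 2 * (n * (k * b * b)) + 1 with hc1
  set c3 : ℕ := 2 * (k * (C1 * c1 ^ e1) * b) + 1 with hc3
  refine ⟨C2 * c3 ^ e2, e1 * e2, ?_⟩
  intro T hT y hy A hA
  set Y : Matrix (Fin n) (Fin n) ℤ := ∑ i, y i • B i with hY
  set g : Submodule ℚ (Matrix (Fin n) (Fin n) ℚ) := Submodule.span ℚ (Set.range fun i => qm (B i))
    with hg
  have hYb : ∀ p q, |Y p q| ≤ ((k * T * b : ℕ) : ℤ) := t13_comb_bound B hb hy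
  -- the first system
  set A1 : Matrix (Fin n × Fin n) (Fin k) ℤ := fun pq j => (Y * B j - B j * Y) pq.1 pq.2 with hA1
  have hA1b : ∀ i j, |A1 i j| ≤ ((c1 * T : ℕ) : ℤ) := by
    intro pq j
    simp only [hA1, Matrix.sub_apply]
    have e1' := t13_mul_bound hYb (hb j) pq.1 pq.2
    have e2' := t13_mul_bound (hb j) hYb pq.1 pq.2
    have e3 : |(Y * B j) pq.1 pq.2 - (B j * Y) pq.1 pq.2| ≤
        ((n * (k * T * b * b) : ℕ) : ℤ) + ((n * (b * (k * T * b)) : ℕ) : ℤ) :=
      (abs_sub _ _).trans (add_le_add e1' e2')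
    refine e3.trans ?_
    have : n * (k * T * b * b) + n * (b * (k * T * b)) ≤ c1 * T := by
      rw [hc1]
      nlinarith [Nat.zero_le T]
    exact_mod_cast this
  have hc1T : 1 ≤ c1 * T := Nat.mul_pos (by omega) hT
  set T2 : ℕ := C1 * (c1 * T) ^ e1 with hT2
  have hk1 := h1 (Fin n × Fin n) A1 (c1 * T) hc1T hA1b
  -- the small vectors of the first kernel
  let Zs : Type := {z : Fin k → Set.Icc (-(T2 : ℤ)) (T2 : ℤ) // A1 *ᵥ (fun j => (z j : ℤ)) = 0}
  let Zm : Zs → Matrix (Fin n) (Fin n) ℤ := fun z => ∑ j, ((z.1 j : ℤ)) • B j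
  have hZb : ∀ z : Zs, ∀ p q, |Zm z p q| ≤ ((k * T2 * b : ℕ) : ℤ) := by
    intro z p q
    exact t13_comb_bound B hb (fun j => abs_le.mpr ⟨(z.1 j).2.1, (z.1 j).2.2⟩) p q
  -- the combination with coordinates `t` commutes with `Y` iff `t` is in the kernel of `A1`
  have hcomm1 : ∀ t : Fin k → ℚ, (A1.map (fun q : ℤ => (q : ℚ))) *ᵥ t = 0 ↔
      qm Y * (∑ j, t j • qm (B j)) = (∑ j, t j • qm (B j)) * qm Y := by
    intro t
    have hqm : ∀ j p q, (((Y * B j - B j * Y) p q : ℤ) : ℚ) =
        (qm Y * qm (B j) - qm (B j) * qm Y) p q := by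
      intro j p q
      simp only [Matrix.sub_apply, Matrix.mul_apply, qm, Matrix.map_apply]
      push_cast
      rfl
    have hexp : ∀ p q, ((A1.map (fun q : ℤ => (q : ℚ))) *ᵥ t) (p, q) =
        (qm Y * (∑ j, t j • qm (B j)) - (∑ j, t j • qm (B j)) * qm Y) p q := by
      intro p q
      rw [Matrix.mul_sum, Matrix.sum_mul, ← Finset.sum_sub_distrib, Matrix.sum_apply]
      simp only [Matrix.mulVec, dotProduct, Matrix.map_apply, hA1]
      apply Finset.sum_congr rfl
      intro j _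
      rw [hqm, Matrix.mul_smul, Matrix.smul_mul, ← smul_sub, Matrix.smul_apply, smul_eq_mul,
        mul_comm]
    constructor
    · intro h
      rw [← sub_eq_zero]
      ext p q
      rw [← hexp, h]
      rfl
    · intro h
      rw [← sub_eq_zero] at h
      ext ⟨p, q⟩
      rw [hexp, h]
      rfl
  have hZcomm : ∀ z : Zs, qm (Zm z) ∈ g ∧ qm Y * qm (Zm z) = qm (Zm z) * qm Y := by
    intro z
    have e3 : qm (Zm z) = ∑ j, ((z.1 j : ℤ) : ℚ) • qm (B j) := t13_qm_comb B _
    constructor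
    · rw [e3]
      exact Submodule.sum_mem _ fun j _ =>
        Submodule.smul_mem _ _ (Submodule.subset_span ⟨j, rfl⟩)
    · rw [e3, ← hcomm1 (fun j => ((z.1 j : ℤ) : ℚ))]
      ext i
      have := congrFun z.2 i
      simp only [Matrix.mulVec, dotProduct, Matrix.map_apply, Pi.zero_apply] at this ⊢
      exact_mod_cast this
  -- membership in the commutant is a finite system
  have hmem : ∀ A : Matrix (Fin n) (Fin n) ℚ, A ∈ comm2 g (qm Y) ↔
      ∀ z : Zs, A * qm (Zm z) = qm (Zm z) * A := by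
    intro A
    constructor
    · intro h z
      exact h _ (hZcomm z).1 (hZcomm z).2
    · intro h Z hZ hYZ
      obtain ⟨t, ht⟩ := (Submodule.mem_span_range_iff_exists_fun ℚ).mp hZ
      rw [← ht] at hYZ ⊢
      have hk := hk1 t ((hcomm1 t).mpr hYZ)
      -- the linear map from coordinates
      have hgen : ∀ x ∈ Submodule.span ℚ {w : Fin k → ℚ | ∃ z : Fin k → ℤ,
          (w = fun i => (z i : ℚ)) ∧ A1 *ᵥ z = 0 ∧ ∀ i, |z i| ≤ ((C1 * (c1 * T) ^ e1 : ℕ) : ℤ)},
          A * (∑ j, x j • qm (B j)) = (∑ j, x j • qm (B j)) * A := by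
        intro x hx
        induction hx using Submodule.span_induction with
        | mem x hx =>
          obtain ⟨z, rfl, hz0, hzb⟩ := hx
          have := h ⟨fun j => ⟨z j, abs_le.mp (hzb j)⟩, hz0⟩
          have e3 : qm (Zm ⟨fun j => ⟨z j, abs_le.mp (hzb j)⟩, hz0⟩) =
              ∑ j, (z j : ℚ) • qm (B j) := t13_qm_comb B _
          rw [e3] at this
          exact this
        | zero => simp
        | add x y _ _ hx hy =>
          simp only [Pi.add_apply, add_smul, Finset.sum_add_distrib, Matrix.mul_add,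
            Matrix.add_mul, hx, hy]
        | smul r x _ hx =>
          simp only [Pi.smul_apply, smul_eq_mul, mul_smul, ← Finset.smul_sum, Matrix.mul_smul,
            Matrix.smul_mul, hx]
      exact hgen t hk
  -- the second system
  let A2 : Matrix (Zs × (Fin n × Fin n)) (Fin (n * n)) ℤ := fun zpq i =>
    (if (finProdFinEquiv.symm i).1 = zpq.2.1 then Zm zpq.1 (finProdFinEquiv.symm i).2 zpq.2.2 else 0) -
    (if (finProdFinEquiv.symm i).2 = zpq.2.2 then Zm zpq.1 zpq.2.1 (finProdFinEquiv.symm i).1 else 0)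
  have hA2eq : ∀ (v : Fin (n * n) → ℚ) (z : Zs) (p q : Fin n),
      ((A2.map (fun q : ℤ => (q : ℚ))) *ᵥ v) (z, (p, q)) =
      ((Matrix.of fun p q => v (finProdFinEquiv (p, q))) * qm (Zm z) -
        qm (Zm z) * (Matrix.of fun p q => v (finProdFinEquiv (p, q)))) p q := by
    intro v z p q
    simp only [Matrix.mulVec, dotProduct, Matrix.map_apply, A2, Matrix.sub_apply, Matrix.mul_apply,
      Matrix.of_apply, qm]
    rw [← finProdFinEquiv.sum_comp]
    simp only [Equiv.symm_apply_apply]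
    rw [Fintype.sum_prod_type]
    push_cast
    simp only [sub_mul, Finset.sum_sub_distrib]
    congr 1
    · rw [Finset.sum_eq_single p]
      · apply Finset.sum_congr rfl
        intro s _
        simp [mul_comm]
      · intro r _ hr
        apply Finset.sum_eq_zero
        intro s _
        simp [hr]
      · intro h
        exact absurd (Finset.mem_univ p) h
    · rw [Finset.sum_comm]
      rw [Finset.sum_eq_single q]
      · apply Finset.sum_congr rfl
        intro s _
        simp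
      · intro r _ hr
        apply Finset.sum_eq_zero
        intro s _
        simp [hr]
      · intro h
        exact absurd (Finset.mem_univ q) h
  have hA2iff : ∀ (v : Fin (n * n) → ℚ), (A2.map (fun q : ℤ => (q : ℚ))) *ᵥ v = 0 ↔
      (Matrix.of fun p q => v (finProdFinEquiv (p, q))) ∈ comm2 g (qm Y) := by
    intro v
    rw [hmem]
    constructor
    · intro h z
      rw [← sub_eq_zero]
      ext p q
      rw [← hA2eq, h]
      rfl
    · intro h
      ext ⟨z, p, q⟩
      rw [hA2eq, sub_eq_zero.mpr (h z)]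
      rfl
  have hA2b : ∀ i j, |A2 i j| ≤ ((c3 * T ^ e1 : ℕ) : ℤ) := by
    rintro ⟨z, p, q⟩ i
    have e3 : ∀ (P : Prop) [Decidable P] (x : ℤ), |x| ≤ ((k * T2 * b : ℕ) : ℤ) →
        |if P then x else 0| ≤ ((k * T2 * b : ℕ) : ℤ) := by
      intro P _ x hx
      split_ifs
      · exact hx
      · rw [abs_zero]
        positivity
    have e4 : |A2 (z, (p, q)) i| ≤ ((k * T2 * b : ℕ) : ℤ) + ((k * T2 * b : ℕ) : ℤ) :=
      (abs_sub _ _).trans (add_le_add (e3 _ _ (hZb z _ _)) (e3 _ _ (hZb z _ _)))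
    refine e4.trans ?_
    have e5 : k * T2 * b + k * T2 * b ≤ c3 * T ^ e1 := by
      rw [hT2, hc3, mul_pow]
      have : 2 * (k * (C1 * c1 ^ e1) * b) * T ^ e1 ≤ (2 * (k * (C1 * c1 ^ e1) * b) + 1) * T ^ e1 :=
        Nat.mul_le_mul_right _ (Nat.le_succ _)
      calc k * (C1 * (c1 ^ e1 * T ^ e1)) * b + k * (C1 * (c1 ^ e1 * T ^ e1)) * b
          = 2 * (k * (C1 * c1 ^ e1) * b) * T ^ e1 := by ring
        _ ≤ _ := this
    exact_mod_cast e5
  have hc3T : 1 ≤ c3 * T ^ e1 := Nat.mul_pos (by omega) (Nat.pos_of_ne_zero (by positivity))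
  have hfin : Finite (Zs × (Fin n × Fin n)) := inferInstance
  let _ : Fintype (Zs × (Fin n × Fin n)) := Fintype.ofFinite _
  have hk2 := h2 (Zs × (Fin n × Fin n)) A2 (c3 * T ^ e1) hc3T hA2b
    (fun i => A (finProdFinEquiv.symm i).1 (finProdFinEquiv.symm i).2)
    ((hA2iff _).mpr (by
      have : (Matrix.of fun p q => (fun i => A (finProdFinEquiv.symm i).1
          (finProdFinEquiv.symm i).2) (finProdFinEquiv (p, q))) = A := by
        ext p q
        simp
      rw [this]
      exact hA))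
  -- back to matrices
  have hgen : ∀ x ∈ Submodule.span ℚ {w : Fin (n * n) → ℚ | ∃ z : Fin (n * n) → ℤ,
      (w = fun i => (z i : ℚ)) ∧ A2 *ᵥ z = 0 ∧
        ∀ i, |z i| ≤ ((C2 * (c3 * T ^ e1) ^ e2 : ℕ) : ℤ)},
      (Matrix.of fun p q => x (finProdFinEquiv (p, q))) ∈
        Submodule.span ℚ {A' : Matrix (Fin n) (Fin n) ℚ |
          A' ∈ comm2 g (qm Y) ∧ ∃ Az : Matrix (Fin n) (Fin n) ℤ, A' = qm Az ∧
            ∀ i j, |Az i j| ≤ ((C2 * c3 ^ e2 * T ^ (e1 * e2) : ℕ) : ℤ)} := by
    intro x hx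
    induction hx using Submodule.span_induction with
    | mem x hx =>
      obtain ⟨z, rfl, hz0, hzb⟩ := hx
      apply Submodule.subset_span
      refine ⟨(hA2iff (fun i => (z i : ℚ))).mp ?_,
        Matrix.of fun p q => z (finProdFinEquiv (p, q)), ?_, ?_⟩
      · ext i
        have := congrFun hz0 i
        simp only [Matrix.mulVec, dotProduct, Matrix.map_apply, Pi.zero_apply] at this ⊢
        exact_mod_cast this
      · ext p q
        simp [qm]
      · intro i j
        have := hzb (finProdFinEquiv (i, j))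
        rw [mul_pow, ← pow_mul, ← mul_assoc] at this
        exact this
    | zero =>
      have : (Matrix.of fun p q => (0 : Fin (n * n) → ℚ) (finProdFinEquiv (p, q))) =
          (0 : Matrix (Fin n) (Fin n) ℚ) := by
        ext p q
        simp
      rw [this]
      exact Submodule.zero_mem _
    | add x y _ _ hx hy =>
      have : (Matrix.of fun p q => (x + y) (finProdFinEquiv (p, q))) =
          (Matrix.of fun p q => x (finProdFinEquiv (p, q))) +
            (Matrix.of fun p q => y (finProdFinEquiv (p, q)) : Matrix (Fin n) (Fin n) ℚ) := by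
        ext p q
        simp
      rw [this]
      exact Submodule.add_mem _ hx hy
    | smul r x _ hx =>
      have : (Matrix.of fun p q => (r • x) (finProdFinEquiv (p, q))) =
          r • (Matrix.of fun p q => x (finProdFinEquiv (p, q)) : Matrix (Fin n) (Fin n) ℚ) := by
        ext p q
        simp
      rw [this]
      exact Submodule.smul_mem _ _ hx
  have := hgen _ hk2
  have hAe : (Matrix.of fun p q => (fun i => A (finProdFinEquiv.symm i).1
      (finProdFinEquiv.symm i).2) (finProdFinEquiv (p, q))) = A := by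
    ext p q
    simp
  rw [hAe] at this
  exact this

end MP2794d1.GD
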