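import Pool.Agent.Lib.MP_2794d1_ag.GD.Defs

/-!
T14: small elements with separable characteristic polynomial. The resultant of the characteristic
polynomial of the generic matrix and of its derivative is one polynomial in the entries; on the lines
`P + t Q` it is a polynomial in `t` of degree at most its total degree `K`. The coefficients of a
combination with separable characteristic polynomial are replaced by integers in `[0, K]`, one by one.
-/

namespace MP2794d1.GD

open Matrix Complex Filter Topology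

private noncomputable def t14U (n : ℕ) : MvPolynomial (Fin n × Fin n) ℂ :=
  Polynomial.resultant (Matrix.charpoly.univ ℂ (Fin n))
    (Polynomial.derivative (Matrix.charpoly.univ ℂ (Fin n))) n (n - 1)

/-- the value of the generic polynomial under a homomorphism -/
private theorem t14_hom {n : ℕ} {S : Type} [CommRing S] [Algebra ℂ S]
    (M : Matrix (Fin n) (Fin n) S) :
    MvPolynomial.aeval (fun p : Fin n × Fin n => M p.1 p.2) (t14U n) =
      Polynomial.resultant M.charpoly (Polynomial.derivative M.charpoly) n (n - 1) := by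
  have h1 := Matrix.charpoly.univ_map_eval₂Hom (R := ℂ) (Fin n) (algebraMap ℂ S)
    (fun p : Fin n × Fin n => M p.1 p.2)
  have h2 : Matrix.of (Function.curry fun p : Fin n × Fin n => M p.1 p.2) = M := rfl
  rw [h2] at h1
  have h3 := Polynomial.resultant_map_map (f := Matrix.charpoly.univ ℂ (Fin n))
    (g := Polynomial.derivative (Matrix.charpoly.univ ℂ (Fin n))) (m := n) (n := n - 1)
    (MvPolynomial.eval₂Hom (algebraMap ℂ S) (fun p : Fin n × Fin n => M p.1 p.2))
  rw [← Polynomial.derivative_map, h1] at h3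
  rw [h3]
  rfl

private theorem t14_sep {n : ℕ} (M : Matrix (Fin n) (Fin n) ℂ) :
    MvPolynomial.aeval (fun p : Fin n × Fin n => M p.1 p.2) (t14U n) ≠ 0 ↔
      M.charpoly.Separable := by
  rw [t14_hom M]
  have h1 : M.charpoly.natDegree = n := by
    rw [Matrix.charpoly_natDegree_eq_dim, Fintype.card_fin]
  have h2 : (Polynomial.derivative M.charpoly).natDegree = n - 1 := by
    rw [Polynomial.natDegree_derivative, h1]
  have h3 := Polynomial.isUnit_resultant_iff_isCoprime (f := M.charpoly)
    (g := Polynomial.derivative M.charpoly) (Matrix.charpoly_monic M)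
  rw [h1, h2, isUnit_iff_ne_zero] at h3
  exact h3

/-- one variable: a small natural number instead of a complex one -/
private theorem t14_line {n : ℕ} (P Q : Matrix (Fin n) (Fin n) ℂ) (c : ℂ)
    (h : (P + c • Q).charpoly.Separable) :
    ∃ z : ℕ, z ≤ (t14U n).totalDegree ∧ (P + (z : ℂ) • Q).charpoly.Separable := by
  classical
  obtain ⟨q, hq⟩ : ∃ q : Polynomial ℂ, q = MvPolynomial.aeval
      (fun p : Fin n × Fin n => Polynomial.C (P p.1 p.2) + Polynomial.X * Polynomial.C (Q p.1 p.2))
      (t14U n) := ⟨_, rfl⟩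
  have hdeg : q.natDegree ≤ (t14U n).totalDegree * 1 := by
    rw [hq]
    refine MvPolynomial.aeval_natDegree_le _ le_rfl _ fun p => ?_
    refine (Polynomial.natDegree_add_le _ _).trans (max_le ?_ ?_)
    · rw [Polynomial.natDegree_C]
      exact Nat.zero_le _
    · refine (Polynomial.natDegree_mul_le).trans ?_
      rw [Polynomial.natDegree_C, add_zero]
      exact Polynomial.natDegree_X_le
  have heval : ∀ t : ℂ, q.eval t =
      MvPolynomial.aeval (fun p : Fin n × Fin n => (P + t • Q) p.1 p.2) (t14U n) := by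
    intro t
    have h1 : q.eval t = (Polynomial.aeval t) q := by
      rw [Polynomial.coe_aeval_eq_eval]
    rw [h1, hq, ← AlgHom.comp_apply, MvPolynomial.comp_aeval]
    refine congrArg (fun f : Fin n × Fin n → ℂ => MvPolynomial.aeval f (t14U n)) ?_
    funext p
    simp only [map_add, map_mul, Polynomial.aeval_C, Polynomial.aeval_X, Matrix.add_apply,
      Matrix.smul_apply, smul_eq_mul]
    rfl
  by_contra hcon
  push Not at hcon
  have hz : ∀ z : Fin ((t14U n).totalDegree + 1), q.eval ((z : ℕ) : ℂ) = 0 := by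
    intro z
    by_contra h1
    rw [heval] at h1
    exact hcon z (Nat.lt_succ_iff.1 z.2) ((t14_sep _).1 h1)
  have hq0 : q = 0 := by
    refine Polynomial.eq_zero_of_natDegree_lt_card_of_eval_eq_zero q
      (f := fun z : Fin ((t14U n).totalDegree + 1) => ((z : ℕ) : ℂ)) ?_ hz ?_
    · intro z z' hzz
      exact Fin.ext (Nat.cast_injective hzz)
    · rw [Fintype.card_fin]
      omega
  have h1 := (t14_sep (P + c • Q)).2 h
  rw [← heval, hq0] at h1
  exact h1 Polynomial.eval_zero

/-- all variables -/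
private theorem t14_all {n : ℕ} {ι : Type} (s : Finset ι) (A : ι → Matrix (Fin n) (Fin n) ℂ)
    (c : ι → ℂ) (R : Matrix (Fin n) (Fin n) ℂ)
    (h : (R + ∑ i ∈ s, c i • A i).charpoly.Separable) :
    ∃ z : ι → ℕ, (∀ i, z i ≤ (t14U n).totalDegree) ∧
      (R + ∑ i ∈ s, (z i : ℂ) • A i).charpoly.Separable := by
  classical
  induction s using Finset.induction_on generalizing R with
  | empty => exact ⟨fun _ => 0, fun _ => Nat.zero_le _, by simpa using h⟩
  | insert j s hj ih =>
    rw [Finset.sum_insert hj] at h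
    have h1 : R + (c j • A j + ∑ i ∈ s, c i • A i) = (R + ∑ i ∈ s, c i • A i) + c j • A j := by
      abel
    rw [h1] at h
    obtain ⟨k, hk, hk2⟩ := t14_line _ _ _ h
    have h2 : (R + ∑ i ∈ s, c i • A i) + (k : ℂ) • A j =
        (R + (k : ℂ) • A j) + ∑ i ∈ s, c i • A i := by abel
    rw [h2] at hk2
    obtain ⟨z, hz, hz2⟩ := ih _ hk2
    refine ⟨Function.update z j k, ?_, ?_⟩
    · intro i
      by_cases hi : i = j
      · rw [hi, Function.update_self]
        exact hk
      · rw [Function.update_of_ne hi]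
        exact hz i
    · rw [Finset.sum_insert hj, Function.update_self]
      have h3 : ∑ i ∈ s, ((Function.update z j k i : ℕ) : ℂ) • A i =
          ∑ i ∈ s, (z i : ℂ) • A i := by
        refine Finset.sum_congr rfl fun i hi => ?_
        rw [Function.update_of_ne (ne_of_mem_of_not_mem hi hj)]
      rw [h3, ← add_assoc]
      exact hz2

theorem sep_combo (n : ℕ) : ∃ C : ℕ, ∀ (a : Submodule ℚ (Matrix (Fin n) (Fin n) ℚ)) (T : ℕ),
    (∀ A ∈ a, A ∈ Submodule.span ℚ {A' : Matrix (Fin n) (Fin n) ℚ | A' ∈ a ∧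
      ∃ Az : Matrix (Fin n) (Fin n) ℤ, A' = qm Az ∧ ∀ i j, |Az i j| ≤ (T : ℤ)}) →
    ∀ D ∈ cx (a : Set (Matrix (Fin n) (Fin n) ℚ)), D.charpoly.Separable →
    ∃ Az : Matrix (Fin n) (Fin n) ℤ, qm Az ∈ a ∧ (im Az).charpoly.Separable ∧
      ∀ i j, |Az i j| ≤ ((C * T : ℕ) : ℤ) := by
  classical
  refine ⟨n * n * (t14U n).totalDegree, ?_⟩
  intro a T ha D hD hDs
  -- the small integral matrices
  obtain ⟨Z, hZ⟩ : ∃ Z : Set (Matrix (Fin n) (Fin n) ℤ), Z = {Az | qm Az ∈ a ∧
    ∀ i j, |Az i j| ≤ (T : ℤ)} := ⟨_, rfl⟩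
  have hcm : ∀ Az : Matrix (Fin n) (Fin n) ℤ, cm (qm Az) = im Az := by
    intro Az
    ext i j
    simp [cm, qm, im]
  have hDim : D ∈ Submodule.span ℂ (im '' Z) := by
    have h1 : cx (a : Set (Matrix (Fin n) (Fin n) ℚ)) ≤ Submodule.span ℂ (im '' Z) := by
      refine Submodule.span_le.2 ?_
      rintro _ ⟨A, hA, rfl⟩
      have h2 := ha A hA
      have h3 : ∀ A' ∈ Submodule.span ℚ {A' : Matrix (Fin n) (Fin n) ℚ | A' ∈ a ∧
          ∃ Az : Matrix (Fin n) (Fin n) ℤ, A' = qm Az ∧ ∀ i j, |Az i j| ≤ (T : ℤ)},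
          cm A' ∈ Submodule.span ℂ (im '' Z) := by
        intro A' hA'
        induction hA' using Submodule.span_induction with
        | mem x hx =>
          obtain ⟨hx1, Az, rfl, hx2⟩ := hx
          rw [hcm]
          refine Submodule.subset_span ⟨Az, ?_, rfl⟩
          rw [hZ]
          exact ⟨hx1, hx2⟩
        | zero =>
          have h4 : cm (0 : Matrix (Fin n) (Fin n) ℚ) = 0 := by
            ext i j
            simp [cm]
          rw [h4]
          exact Submodule.zero_mem _
        | add x y _ _ hx hy =>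
          have h4 : cm (x + y) = cm x + cm y := by
            ext i j
            simp [cm]
          rw [h4]
          exact Submodule.add_mem _ hx hy
        | smul q x _ hx =>
          have h4 : cm (q • x) = (q : ℂ) • cm x := by
            ext i j
            simp [cm]
          rw [h4]
          exact Submodule.smul_mem _ _ hx
      exact h3 A h2
    exact h1 hD
  -- at most `n ^ 2` of them
  obtain ⟨b, hb1, hb2, hb3⟩ := exists_linearIndependent ℂ (im '' Z)
  rw [← hb2] at hDim
  have hbf : b.Finite := hb3.set_finite_of_isNoetherian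
  have hbcard : hbf.toFinset.card ≤ n * n := by
    have h1 : LinearIndependent ℂ (Subtype.val : hbf.toFinset → Matrix (Fin n) (Fin n) ℂ) := by
      have h2 : Function.Injective (fun x : hbf.toFinset =>
          (⟨x.1, hbf.mem_toFinset.1 x.2⟩ : b)) := by
        intro x y hxy
        exact Subtype.ext (congrArg (fun z : b => z.1) hxy)
      exact hb3.comp _ h2
    have h2 := h1.fintype_card_le_finrank
    rw [Fintype.card_coe, Module.finrank_matrix, Fintype.card_fin, Module.finrank_self,
      mul_one] at h2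
    exact h2
  have hDim2 : D ∈ Submodule.span ℂ (hbf.toFinset : Set (Matrix (Fin n) (Fin n) ℂ)) := by
    rw [hbf.coe_toFinset]
    exact hDim
  obtain ⟨c, -, hc⟩ := Submodule.mem_span_finset.1 hDim2
  -- integral representatives
  have hrep : ∀ x : Matrix (Fin n) (Fin n) ℂ, ∃ Az : Matrix (Fin n) (Fin n) ℤ,
      x ∈ hbf.toFinset → Az ∈ Z ∧ im Az = x := by
    intro x
    by_cases hx : x ∈ hbf.toFinset
    · obtain ⟨Az, h1, h2⟩ := hb1 (hbf.mem_toFinset.1 hx)
      exact ⟨Az, fun _ => ⟨h1, h2⟩⟩
    · exact ⟨0, fun h => absurd h hx⟩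
  choose rep hrep using hrep
  have hDs' : (0 + ∑ x ∈ hbf.toFinset, c x • x).charpoly.Separable := by
    rw [zero_add, hc]
    exact hDs
  obtain ⟨z, hz1, hz2⟩ := t14_all hbf.toFinset (fun x => x) c 0 hDs'
  rw [zero_add] at hz2
  refine ⟨∑ x ∈ hbf.toFinset, (z x : ℤ) • rep x, ?_, ?_, ?_⟩
  · have h1 : qm (∑ x ∈ hbf.toFinset, (z x : ℤ) • rep x) =
        ∑ x ∈ hbf.toFinset, (z x : ℚ) • qm (rep x) := by
      ext i j
      simp only [qm, Matrix.map_apply, Matrix.sum_apply, Matrix.smul_apply, smul_eq_mul,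
        Int.cast_sum, Int.cast_mul, Int.cast_natCast]
    rw [h1]
    refine Submodule.sum_mem _ fun x hx => Submodule.smul_mem _ _ ?_
    have h2 := (hrep x hx).1
    rw [hZ] at h2
    exact h2.1
  · have h1 : im (∑ x ∈ hbf.toFinset, (z x : ℤ) • rep x) =
        ∑ x ∈ hbf.toFinset, (z x : ℂ) • x := by
      have h2 : im (∑ x ∈ hbf.toFinset, (z x : ℤ) • rep x) =
          ∑ x ∈ hbf.toFinset, (z x : ℂ) • im (rep x) := by
        ext i j
        simp only [im, Matrix.map_apply, Matrix.sum_apply, Matrix.smul_apply, smul_eq_mul,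
          Int.cast_sum, Int.cast_mul, Int.cast_natCast]
      rw [h2]
      refine Finset.sum_congr rfl fun x hx => ?_
      rw [(hrep x hx).2]
    rw [h1]
    exact hz2
  · intro i j
    rw [Matrix.sum_apply]
    refine (Finset.abs_sum_le_sum_abs _ _).trans ?_
    have h1 : ∀ x ∈ hbf.toFinset, |((z x : ℤ) • rep x) i j| ≤
        (((t14U n).totalDegree * T : ℕ) : ℤ) := by
      intro x hx
      have h2 := (hrep x hx).1
      rw [hZ] at h2
      rw [Matrix.smul_apply, smul_eq_mul, abs_mul, Nat.abs_cast, Nat.cast_mul]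
      exact mul_le_mul (by exact_mod_cast hz1 x) (h2.2 i j) (abs_nonneg _) (Nat.cast_nonneg _)
    refine (Finset.sum_le_card_nsmul _ _ _ h1).trans ?_
    rw [nsmul_eq_mul]
    have h3 : ((hbf.toFinset.card : ℕ) : ℤ) ≤ ((n * n : ℕ) : ℤ) := by exact_mod_cast hbcard
    refine (mul_le_mul_of_nonneg_right h3 (Nat.cast_nonneg _)).trans (le_of_eq ?_)
    push_cast
    ring

end MP2794d1.GD
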