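import Pool.Agent.Lib.MP_2794d1_ag.GD.T1
import Pool.Agent.Lib.MP_2794d1_ag.GD.T3

/-!
T5: the `(-1,1)` part. `Th_mem`: expand; adapted basis of `Fl`, or: `N ∈ 𝔫`, `Y = Y₋ + Y₀ + Y₊` (`HD.three`) gives
`Th (μ + N) Y = 2 Y₋ - 2 [N, Y₀] + [N, [N, Y₊]]` (`HD.comm`). `Th_zero_iff`: mixed adapted basis: entries of `Y` have
`|d a - d b| ≤ 1` (`HD.fe` for `h'`, and for `h` with `cx_conj`), the entry of `Th` is `(e² - e)` times the entry of `Y`,
`e = d a - d b`. `Th_J`: `Th (μ + N) J = -2 [N, J]` for `J` of degree `0`.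
-/

namespace MP2794d1.GD

open Matrix Complex Filter Topology

variable {n : ℕ} {wt : ℤ} {Q : Matrix (Fin n) (Fin n) ℤ} {g : Submodule ℚ (Matrix (Fin n) (Fin n) ℚ)}
  {Fl Fl' : ℤ → Submodule ℂ (Fin n → ℂ)} {μ μ' : Matrix (Fin n) (Fin n) ℂ}

theorem T5_add (A B C : Matrix (Fin n) (Fin n) ℂ) : br A (B + C) = br A B + br A C := by
  unfold br
  rw [Matrix.mul_add, Matrix.add_mul]
  abel

theorem T5_addl (A B C : Matrix (Fin n) (Fin n) ℂ) : br (A + B) C = br A C + br B C := by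
  unfold br
  rw [Matrix.mul_add, Matrix.add_mul]
  abel

theorem T5_smul (c : ℂ) (A B : Matrix (Fin n) (Fin n) ℂ) : br A (c • B) = c • br A B := by
  unfold br
  rw [Matrix.mul_smul, Matrix.smul_mul, smul_sub]

theorem T5_sub (A B C : Matrix (Fin n) (Fin n) ℂ) : br A (B - C) = br A B - br A C := by
  unfold br
  rw [Matrix.mul_sub, Matrix.sub_mul]
  abel

theorem T5_neg (A B : Matrix (Fin n) (Fin n) ℂ) : br A (-B) = -br A B := by
  unfold br
  rw [Matrix.mul_neg, Matrix.neg_mul]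
  abel

theorem T5_jac (A B C : Matrix (Fin n) (Fin n) ℂ) : br A (br B C) = br (br A B) C + br B (br A C) := by
  unfold br
  noncomm_ring

/-- if `N` has degree `-1` and `Y` has degree `q`, then `[N, Y]` has degree `q - 1` -/
theorem T5_deg {N Y : Matrix (Fin n) (Fin n) ℂ} {q : ℂ} (hN1 : br μ N = -N) (hY : br μ Y = q • Y) :
    br μ (br N Y) = (q - 1) • br N Y := by
  rw [T5_jac, hN1, hY, T5_smul]
  have h : br (-N) Y = -br N Y := by
    unfold br
    rw [Matrix.mul_neg, Matrix.neg_mul]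
    abel
  rw [h, sub_smul, one_smul]
  abel

theorem Th_mem (h : HD wt Q g Fl μ) {N : Matrix (Fin n) (Fin n) ℂ}
    (hN : N ∈ cx (g : Set (Matrix (Fin n) (Fin n) ℚ))) (hN1 : br μ N = -N)
    {Y : Matrix (Fin n) (Fin n) ℂ} (hY : Y ∈ cx (g : Set (Matrix (Fin n) (Fin n) ℚ))) :
    Th (μ + N) Y ∈ cx (g : Set (Matrix (Fin n) (Fin n) ℚ)) ∧
      br μ (Th (μ + N) Y) = -Th (μ + N) Y := by
  have hm := h.mem
  have hmN : μ + N ∈ cx (g : Set (Matrix (Fin n) (Fin n) ℚ)) := Submodule.add_mem _ hm hN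
  have haY := cx_br h.lie hm hY
  have haaY := cx_br h.lie hm haY
  have h3 := h.three hY
  refine ⟨Submodule.sub_mem _ (cx_br h.lie hmN (cx_br h.lie hmN hY)) (cx_br h.lie hmN hY), ?_⟩
  -- the three components
  obtain ⟨Ym, hYm⟩ : ∃ Z, Z = (1 / 2 : ℂ) • (br μ (br μ Y) - br μ Y) := ⟨_, rfl⟩
  obtain ⟨Y0, hY0⟩ : ∃ Z, Z = Y - br μ (br μ Y) := ⟨_, rfl⟩
  obtain ⟨Yp, hYp⟩ : ∃ Z, Z = (1 / 2 : ℂ) • (br μ (br μ Y) + br μ Y) := ⟨_, rfl⟩
  have hsum : Y = Ym + Y0 + Yp := by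
    rw [hYm, hY0, hYp]
    module
  have hYm_mem : Ym ∈ cx (g : Set (Matrix (Fin n) (Fin n) ℚ)) := by
    rw [hYm]; exact Submodule.smul_mem _ _ (Submodule.sub_mem _ haaY haY)
  have hY0_mem : Y0 ∈ cx (g : Set (Matrix (Fin n) (Fin n) ℚ)) := by
    rw [hY0]; exact Submodule.sub_mem _ hY haaY
  have hYp_mem : Yp ∈ cx (g : Set (Matrix (Fin n) (Fin n) ℚ)) := by
    rw [hYp]; exact Submodule.smul_mem _ _ (Submodule.add_mem _ haaY haY)
  have dm : br μ Ym = (-1 : ℂ) • Ym := by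
    rw [hYm, T5_smul, T5_sub, h3]
    module
  have d0 : br μ Y0 = (0 : ℂ) • Y0 := by
    rw [hY0, T5_sub, h3, sub_self, zero_smul]
  have dp : br μ Yp = (1 : ℂ) • Yp := by
    rw [hYp, T5_smul, T5_add, h3]
    module
  have dm' : br μ Ym = -Ym := by rw [dm, neg_smul, one_smul]
  -- commutators with `N`
  have c1 : br N Ym = 0 := h.comm hN hN1 hYm_mem dm'
  have e0 : br μ (br N Y0) = -br N Y0 := by
    rw [T5_deg hN1 d0]; module
  have c2 : br N (br N Y0) = 0 := h.comm hN hN1 (cx_br h.lie hN hY0_mem) e0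
  have e1 : br μ (br N Yp) = (0 : ℂ) • br N Yp := by
    rw [T5_deg hN1 dp]; module
  have e2 : br μ (br N (br N Yp)) = (-1 : ℂ) • br N (br N Yp) := by
    rw [T5_deg hN1 e1]; module
  have e2' : br μ (br N (br N Yp)) = -br N (br N Yp) := by
    rw [e2, neg_smul, one_smul]
  have c3 : br N (br N (br N Yp)) = 0 :=
    h.comm hN hN1 (cx_br h.lie hN (cx_br h.lie hN hYp_mem)) e2'
  -- the value
  have hv : Th (μ + N) Y = (2 : ℂ) • Ym - (2 : ℂ) • br N Y0 + br N (br N Yp) := by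
    have g1 : br (μ + N) Y = -Ym + br N Y0 + Yp + br N Yp := by
      rw [hsum, T5_addl, T5_add, T5_add, T5_add, T5_add, dm, d0, dp, c1]
      module
    have g2 : br (μ + N) (br (μ + N) Y) = Ym - br N Y0 + Yp + br N (br N Yp) - br N Y0 + br N Y0 +
        br N Yp - br N Y0 + br N Y0 := by
      rw [g1, T5_addl]
      simp only [T5_add, T5_neg, dm, c1, e0, c2, dp, e1]
      module
    unfold Th
    rw [g2, g1]
    module
  rw [hv]
  rw [T5_add, T5_sub, T5_smul, T5_smul, dm, e0, e2]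
  module

theorem Th_zero_iff (h : HD wt Q g Fl μ) (h' : HD wt Q g Fl' μ') {N : Matrix (Fin n) (Fin n) ℂ}
    (hs : Spl wt Fl Fl' (μ + N))
    {Y : Matrix (Fin n) (Fin n) ℂ} (hY : Y ∈ cx (g : Set (Matrix (Fin n) (Fin n) ℚ))) :
    Th (μ + N) Y = 0 ↔ Y ∈ FEnd Fl' 0 := by
  obtain ⟨S, d, hS⟩ := exists_MA h.phs h'.phs hs.1
  have hent : ∀ a b, (S⁻¹ * Th (μ + N) Y * S) a b =
      (((d a : ℂ) - (d b : ℂ)) ^ 2 - ((d a : ℂ) - (d b : ℂ))) * (S⁻¹ * Y * S) a b := by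
    intro a b
    unfold Th
    rw [Matrix.mul_sub, Matrix.sub_mul, Matrix.sub_apply, hS.mu hs, hS.mu hs]
    ring
  have h1 := (hS.mem_FEnd Y (-1)).mp (h'.fe hY)
  have h2 := (hS.mem_conj Y (-1)).mp (h.fe (cx_conj hY))
  rw [hS.mem_FEnd Y 0]
  constructor
  · intro hT a b hne
    have e := hent a b
    rw [hT, Matrix.mul_zero, Matrix.zero_mul, Matrix.zero_apply] at e
    rcases mul_eq_zero.mp e.symm with e3 | e3
    · have k1 := h1 a b hne
      have k2 := h2 a b hne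
      by_contra hlt
      have k3 : d a = d b - 1 := by omega
      rw [k3] at e3
      push_cast at e3
      ring_nf at e3
      norm_num at e3
    · exact absurd e3 hne
  · intro hF
    apply E05_inj hS.inv
    intro a b
    rw [hent, Matrix.mul_zero, Matrix.zero_mul, Matrix.zero_apply]
    by_cases hx : (S⁻¹ * Y * S) a b = 0
    · rw [hx, mul_zero]
    · have k1 := hF a b hx
      have k2 := h2 a b hx
      have k3 : d a = d b ∨ d a = d b + 1 := by omega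
      rcases k3 with k3 | k3
      · rw [k3]; ring
      · rw [k3]; push_cast; ring

theorem Th_J (h : HD wt Q g Fl μ) {N : Matrix (Fin n) (Fin n) ℂ}
    (hN : N ∈ cx (g : Set (Matrix (Fin n) (Fin n) ℚ))) (hN1 : br μ N = -N)
    {J : Matrix (Fin n) (Fin n) ℂ} (hJ : J ∈ cx (g : Set (Matrix (Fin n) (Fin n) ℚ)))
    (hJ0 : br μ J = 0) : Th (μ + N) J = (-2 : ℂ) • br N J := by
  have d0 : br μ J = (0 : ℂ) • J := by rw [hJ0, zero_smul]
  have e0 : br μ (br N J) = -br N J := by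
    rw [T5_deg hN1 d0]; module
  have c2 : br N (br N J) = 0 := h.comm hN hN1 (cx_br h.lie hN hJ) e0
  have g1 : br (μ + N) J = br N J := by rw [T5_addl, hJ0, zero_add]
  unfold Th
  rw [g1, T5_addl, e0, c2]
  module

end MP2794d1.GD
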