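import Pool.Agent.Lib.MP_2794d1_ag.GD.Defs
import Pool.Agent.Lib.MP_2794d1_ag.AH.S03
import Pool.Agent.Lib.MP_2794d1_ag.AH.A18
import Pool.Agent.Lib.MP_2794d1_ag.J01
import Pool.Agent.Lib.MP_2794d1_ag.H01

/-!
X1: Hodge data at every point. `sim`: `gMT V ≤` the rational Lie algebra of the `A` with `∃ c : ℚ, Aᵀ Q + Q A = c Q` (`sInf_le`): it
contains the gradings: `μᵀ Q + Q μ = wt • Q` (adapted basis, first bilinear relation), and the
complexification of this rational subspace is `{A | ∃ c : ℂ, Aᵀ Q + Q A = c Q}` (linear system over `ℚ`; `mem_cx_iff`). The other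
fields: `hS.grading`, `gr_unique`, `hS.lie`, `hS.sv1`. `JX_cont`: `gr_eq_sum` (J01) and `A18_prj`.
-/

namespace MP2794d1.GD

open Matrix Complex Filter Topology MP2794d1.PC MP2794d1.AH
open scoped ContDiff Manifold

/-- entries of `Sᵀ Q S` in an adapted basis -/
theorem x1_orth {n : ℕ} {wt : ℤ} {Q : Matrix (Fin n) (Fin n) ℤ}
    {Fl : ℤ → Submodule ℂ (Fin n → ℂ)} (h : IsPHS wt Q Fl) {S : Matrix (Fin n) (Fin n) ℂ}
    {d : Fin n → ℤ} (hS : Adapted wt Q Fl S d) (a b : Fin n) (hab : d a + d b ≠ wt) :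
    Sᵀ a ⬝ᵥ (im Q *ᵥ (Sᵀ b)) = 0 := by
  have hmem : ∀ c : Fin n, Sᵀ c ∈ Fl (d c) := by
    intro c
    refine (E03_fl hS _ _).mpr ?_
    intro e he
    rw [E03_colcoef hS.inv e c he]
  have hmem' : ∀ c : Fin n, star (Sᵀ c) ∈ Fl (wt - d c) := by
    intro c
    have h1 : Sᵀ c ∈ conjSub (Fl (wt - d c)) := by
      refine (E03_cfl hS _ _).mpr ?_
      intro e he
      rw [E03_colcoef hS.inv e c he]
      linarith
    exact h1
  rcases lt_or_gt_of_ne hab with hlt | hgt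
  · have h1 : star (Sᵀ b) ∈ Fl (wt + 1 - (wt - d a)) :=
      h.anti _ _ (by omega) (hmem' b)
    have h2 := h.orth (wt - d a) _ (hmem' a) _ h1
    have h3 : star (Sᵀ a ⬝ᵥ (im Q *ᵥ (Sᵀ b))) = 0 := by
      rw [← h2]
      simp only [dotProduct, Matrix.mulVec, star_sum, Pi.star_apply, star_mul', im,
        Matrix.map_apply, RCLike.star_def, map_intCast]
    rw [star_eq_zero] at h3
    exact h3
  · exact h.orth (d a) _ (hmem a) _ (h.anti _ _ (by omega) (hmem b))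

/-- the grading is an infinitesimal similitude with factor the weight -/
theorem x1_sim {n : ℕ} {wt : ℤ} {Q : Matrix (Fin n) (Fin n) ℤ}
    {Fl : ℤ → Submodule ℂ (Fin n → ℂ)} (h : IsPHS wt Q Fl) {μ : Matrix (Fin n) (Fin n) ℂ}
    (hμ : IsGr wt Fl μ) : μᵀ * im Q + im Q * μ = (wt : ℂ) • im Q := by
  obtain ⟨S, d, hS⟩ := exists_adapted h
  set D : Matrix (Fin n) (Fin n) ℂ := Matrix.diagonal (fun a => (d a : ℂ)) with hD
  have h1 : S * S⁻¹ = 1 := Matrix.mul_nonsing_inv _ hS.inv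
  have h2 : S⁻¹ * S = 1 := Matrix.nonsing_inv_mul _ hS.inv
  have hμS : μ * S = S * D := by
    rw [gr_eq hS μ hμ, Matrix.mul_assoc, h2, Matrix.mul_one]
  have hSμ : Sᵀ * μᵀ = D * Sᵀ := by
    rw [← Matrix.transpose_mul, hμS, Matrix.transpose_mul, hD, Matrix.diagonal_transpose]
  have hM : D * (Sᵀ * im Q * S) + (Sᵀ * im Q * S) * D = (wt : ℂ) • (Sᵀ * im Q * S) := by
    ext a b
    rw [Matrix.add_apply, hD, Matrix.diagonal_mul, Matrix.mul_diagonal, Matrix.smul_apply,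
      smul_eq_mul]
    by_cases hab : d a + d b = wt
    · have h3 : (wt : ℂ) = (d a : ℂ) + (d b : ℂ) := by
        rw [← hab]
        push_cast
        ring
      rw [h3]
      ring
    · have h3 : (Sᵀ * im Q * S) a b = 0 := by
        rw [← x1_orth h hS a b hab, Matrix.mul_assoc]
        simp only [Matrix.mul_apply, dotProduct, Matrix.mulVec, Matrix.transpose_apply]
      rw [h3]
      ring
  have h4 : Sᵀ * (μᵀ * im Q + im Q * μ) * S = Sᵀ * ((wt : ℂ) • im Q) * S := by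
    rw [Matrix.mul_add, Matrix.add_mul, Matrix.mul_smul, Matrix.smul_mul, ← hM]
    congr 1
    · rw [← Matrix.mul_assoc, hSμ]
      simp only [Matrix.mul_assoc]
    · rw [Matrix.mul_assoc, Matrix.mul_assoc, hμS]
      simp only [Matrix.mul_assoc]
  have h5 : S⁻¹ᵀ * Sᵀ = 1 := by
    rw [← Matrix.transpose_mul, h1, Matrix.transpose_one]
  calc μᵀ * im Q + im Q * μ
      = (S⁻¹ᵀ * Sᵀ) * (μᵀ * im Q + im Q * μ) * (S * S⁻¹) := by
        rw [h5, h1, Matrix.one_mul, Matrix.mul_one]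
    _ = S⁻¹ᵀ * (Sᵀ * (μᵀ * im Q + im Q * μ) * S) * S⁻¹ := by
        simp only [Matrix.mul_assoc]
    _ = S⁻¹ᵀ * (Sᵀ * ((wt : ℂ) • im Q) * S) * S⁻¹ := by rw [h4]
    _ = (S⁻¹ᵀ * Sᵀ) * ((wt : ℂ) • im Q) * (S * S⁻¹) := by
        simp only [Matrix.mul_assoc]
    _ = (wt : ℂ) • im Q := by
        rw [h5, h1, Matrix.one_mul, Matrix.mul_one]

/-- rational infinitesimal similitudes -/
def x1g {n : ℕ} (Q : Matrix (Fin n) (Fin n) ℤ) : Submodule ℚ (Matrix (Fin n) (Fin n) ℚ) where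
  carrier := {A | ∃ c : ℚ, Aᵀ * qm Q + qm Q * A = c • qm Q}
  add_mem' := by
    rintro A B ⟨c, hc⟩ ⟨e, he⟩
    refine ⟨c + e, ?_⟩
    rw [Matrix.transpose_add, Matrix.add_mul, Matrix.mul_add, add_smul, ← hc, ← he]
    abel
  zero_mem' := ⟨0, by simp⟩
  smul_mem' := by
    rintro t A ⟨c, hc⟩
    refine ⟨t * c, ?_⟩
    rw [Matrix.transpose_smul, Matrix.smul_mul, Matrix.mul_smul, ← smul_add, hc, smul_smul]

theorem x1g_lie {n : ℕ} (Q : Matrix (Fin n) (Fin n) ℤ) : IsLie (x1g Q) := by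
  rintro A ⟨c, hc⟩ B ⟨e, he⟩
  refine ⟨0, ?_⟩
  have hA : Aᵀ * qm Q = c • qm Q - qm Q * A := eq_sub_of_add_eq hc
  have hB : Bᵀ * qm Q = e • qm Q - qm Q * B := eq_sub_of_add_eq he
  have h1 : Bᵀ * Aᵀ * qm Q = c • (e • qm Q - qm Q * B) - (e • qm Q - qm Q * B) * A := by
    rw [Matrix.mul_assoc, hA, Matrix.mul_sub, Matrix.mul_smul, hB, ← Matrix.mul_assoc, hB]
  have h2 : Aᵀ * Bᵀ * qm Q = e • (c • qm Q - qm Q * A) - (c • qm Q - qm Q * A) * B := by
    rw [Matrix.mul_assoc, hB, Matrix.mul_sub, Matrix.mul_smul, hA, ← Matrix.mul_assoc, hA]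
  rw [Matrix.transpose_sub, Matrix.transpose_mul, Matrix.transpose_mul, Matrix.sub_mul, h1, h2,
    Matrix.mul_sub, zero_smul]
  simp only [smul_sub, Matrix.sub_mul, Matrix.smul_mul, Matrix.mul_assoc, smul_smul]
  rw [mul_comm c e]
  abel

theorem x1g_mem {n : ℕ} (Q : Matrix (Fin n) (Fin n) ℤ) (μ : Matrix (Fin n) (Fin n) ℂ) (w : ℂ)
    (h : μᵀ * im Q + im Q * μ = w • im Q) :
    μ ∈ cx (x1g Q : Set (Matrix (Fin n) (Fin n) ℚ)) := by
  rw [mem_cx_iff]
  intro l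
  refine ⟨l w, ?_⟩
  ext i j
  have h1 := congrArg l (congrFun (congrFun h i) j)
  have h2 : ∀ (z : ℤ) (u : ℂ), l (u * (z : ℂ)) = l u * (z : ℚ) := by
    intro z u
    have h3 : u * (z : ℂ) = (z : ℚ) • u := by
      rw [Rat.smul_def]
      push_cast
      ring
    rw [h3, map_smul, smul_eq_mul, mul_comm]
  have h4 : ∀ (z : ℤ) (u : ℂ), l ((z : ℂ) * u) = (z : ℚ) * l u := by
    intro z u
    rw [mul_comm, h2, mul_comm]
  simp only [Matrix.add_apply, Matrix.mul_apply, Matrix.transpose_apply, Matrix.smul_apply,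
    smul_eq_mul, im, Matrix.map_apply, map_add, map_sum, h2, h4] at h1
  simp only [Matrix.add_apply, Matrix.mul_apply, Matrix.transpose_apply, Matrix.smul_apply,
    smul_eq_mul, qm, Matrix.map_apply]
  exact h1

variable {n m : ℕ} {X G : Type} [TopologicalSpace X] [ChartedSpace (Fin m → ℂ) X]
  [IsManifold 𝓘(ℂ, Fin m → ℂ) ω X] [ConnectedSpace X] [Group G] [MulAction G X]
  (V : MVHS n m X G)

theorem hdX {ρ : ℕ} (hS : IsShimuraDom V ρ) (x : X) :
    HD V.wt V.Q (gMT V) (fun p => V.F p x) (JX V x) where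
  phs := V.phs x
  gr := JX_gr V x
  mem := by
    obtain ⟨μ, hμ, hm⟩ := hS.grading x
    have h1 : JX V x = μ := gr_unique (V.phs x) (JX_gr V x) hμ
    rw [h1]
    exact hm
  lie := hS.lie
  sv1 := by
    intro A hA p y hy
    have h1 := hS.sv1 x A hA p y hy
    have h2 : p + -1 = p - 1 := by ring
    rw [h2]
    exact h1
  sim := by
    have h1 : gMT V ≤ x1g V.Q := by
      refine sInf_le ⟨x1g_lie V.Q, ?_⟩
      intro y μ hμ
      exact x1g_mem V.Q μ _ (x1_sim (V.phs y) hμ)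
    intro A hA
    exact h1 hA

theorem JX_cont (x : X) : ContinuousAt (JX V) x := by
  have h1 : JX V = fun y => (V.lo : ℂ) • (1 : Matrix (Fin n) (Fin n) ℂ) +
      ∑ p ∈ Finset.Ioc V.lo V.hi, prj (V.phs y) p := by
    funext y
    exact gr_eq_sum (V.phs y) (JX_gr V y) (V.F_lo y) (V.F_hi y)
  rw [h1]
  exact ContinuousAt.add continuousAt_const (tendsto_finsetSum _ fun p _ => A18_prj V p x)

end MP2794d1.GD
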