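import Pool.Agent.Lib.MP_2794d1_ag.GD.Defs
import Pool.Agent.Lib.MP_2794d1_ag.AH.S03
import Pool.Agent.Lib.MP_2794d1_ag.AH.A18
import Pool.Agent.Lib.MP_2794d1_ag.AH.Ch
import Pool.Agent.Lib.MP_2794d1_ag.J02

/-!
X2: the holomorphic splitting near `x₀`. Frames `W p` of `V.hol p x₀` (`p ∈ [lo, hi)`), `W₀ = W p x₀`; the mixed projector
`E p y = W p y * ((W₀)ᴴ * im Q * W p y)⁻¹ * ((W₀)ᴴ * im Q)` (invertible near `x₀`: `j02_det` at `x₀` and continuity) is the projector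
onto `V.F p y` along `conj (V.F (wt + 1 - p) x₀)` (same proof as `j02_formula`), so the two spaces are complementary; for
`p ≤ lo` or `p ≥ hi` trivial. `ν y = lo • 1 + ∑ p ∈ Ioo lo hi, E p y` (as `gr_eq_sum`, J01) satisfies `Spl`, is holomorphic in the
chart (`C.der`), and `ν 0 = JX V x₀` (`gr_eq_sum`, `j02_formula`).
-/

namespace MP2794d1.GD

open Matrix Complex Filter Topology MP2794d1.PC MP2794d1.AH
open scoped ContDiff Manifold

/-! ### matrices of analytic functions -/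

private theorem X2_mul {m a b c : ℕ} {f : (Fin m → ℂ) → Matrix (Fin a) (Fin b) ℂ}
    {g : (Fin m → ℂ) → Matrix (Fin b) (Fin c) ℂ} {u : Fin m → ℂ}
    (hf : ∀ i j, AnalyticAt ℂ (fun y => f y i j) u) (hg : ∀ i j, AnalyticAt ℂ (fun y => g y i j) u)
    (i : Fin a) (j : Fin c) : AnalyticAt ℂ (fun y => (f y * g y) i j) u := by
  simp only [Matrix.mul_apply]
  exact Finset.analyticAt_fun_sum _ fun k _ => (hf i k).mul (hg k j)

private theorem X2_det {m a : ℕ} {f : (Fin m → ℂ) → Matrix (Fin a) (Fin a) ℂ} {u : Fin m → ℂ}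
    (hf : ∀ i j, AnalyticAt ℂ (fun y => f y i j) u) : AnalyticAt ℂ (fun y => (f y).det) u := by
  simp only [Matrix.det_apply']
  refine Finset.analyticAt_fun_sum _ fun σ _ => analyticAt_const.mul ?_
  exact Finset.analyticAt_fun_prod _ fun i _ => hf _ _

private theorem X2_inv {m a : ℕ} {f : (Fin m → ℂ) → Matrix (Fin a) (Fin a) ℂ} {u : Fin m → ℂ}
    (hf : ∀ i j, AnalyticAt ℂ (fun y => f y i j) u) (hd : (f u).det ≠ 0) (i j : Fin a) :
    AnalyticAt ℂ (fun y => (f y)⁻¹ i j) u := by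
  have h1 : (fun y => (f y)⁻¹ i j) = fun y => ((f y).det)⁻¹ * (f y).adjugate i j := by
    funext y
    rw [Matrix.inv_def, Ring.inverse_eq_inv', Matrix.smul_apply, smul_eq_mul]
  rw [h1]
  refine ((X2_det hf).inv hd).mul ?_
  simp only [Matrix.adjugate_apply]
  refine X2_det fun k l => ?_
  by_cases hk : k = j
  · subst hk
    simp only [Matrix.updateRow_self]
    exact analyticAt_const
  · simp only [Matrix.updateRow_ne hk]
    exact hf k l

private theorem X2_inj {n r : ℕ} (W : Matrix (Fin n) (Fin r) ℂ) (hW : LinearIndependent ℂ Wᵀ)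
    (c : Fin r → ℂ) (h5 : W *ᵥ c = 0) : c = 0 := by
  rw [Fintype.linearIndependent_iff] at hW
  funext i
  refine hW c ?_ i
  rw [← h5, Matrix.mulVec_eq_sum]
  refine Finset.sum_congr rfl fun a _ => ?_
  ext i
  simp [mul_comm]

/-- the kernel of `W * M⁻¹ * B` -/
private theorem X2_ker {n r : ℕ} (W : Matrix (Fin n) (Fin r) ℂ) (hW : LinearIndependent ℂ Wᵀ)
    (M : Matrix (Fin r) (Fin r) ℂ) (hM : M.det ≠ 0) (B : Matrix (Fin r) (Fin n) ℂ)
    (v : Fin n → ℂ) : (W * M⁻¹ * B) *ᵥ v = 0 ↔ B *ᵥ v = 0 := by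
  constructor
  · intro h
    rw [Matrix.mul_assoc, ← Matrix.mulVec_mulVec] at h
    have h1 := X2_inj W hW _ h
    have h2 := congrArg (fun y => M *ᵥ y) h1
    simp only [Matrix.mulVec_mulVec, Matrix.mulVec_zero] at h2
    rw [← Matrix.mul_assoc, Matrix.mul_nonsing_inv _ (isUnit_iff_ne_zero.2 hM),
      Matrix.one_mul] at h2
    exact h2
  · intro h
    rw [← Matrix.mulVec_mulVec, h, Matrix.mulVec_zero]

variable {n m : ℕ} {X G : Type} [TopologicalSpace X] [ChartedSpace (Fin m → ℂ) X]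
  [IsManifold 𝓘(ℂ, Fin m → ℂ) ω X] [ConnectedSpace X] [Group G] [MulAction G X]
  (V : MVHS n m X G)

/-- the mixed projectors: `E p y` is the projector onto `V.F p (C.κ y)` along `conj (V.F (wt + 1 - p) x₀)` -/
theorem mixed_prj {x₀ : X} (C : Ch m X x₀) (p : ℤ) :
    ∃ E : (Fin m → ℂ) → Matrix (Fin n) (Fin n) ℂ, (∀ i j, AnalyticAt ℂ (fun y => E y i j) 0) ∧
      E 0 = prj (V.phs x₀) p ∧
      ∀ᶠ y in 𝓝 (0 : Fin m → ℂ), (∀ v, v ∈ V.F p (C.κ y) ↔ E y *ᵥ v = v) ∧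
        (∀ v, E y *ᵥ v ∈ V.F p (C.κ y)) ∧
        ∀ v, v ∈ conjSub (V.F (V.wt + 1 - p) x₀) ↔ E y *ᵥ v = 0 := by
  obtain ⟨r, W, hW, hev⟩ := V.hol p x₀
  have hball : (0 : Fin m → ℂ) ∈ Metric.ball (0 : Fin m → ℂ) C.ε := Metric.mem_ball_self C.pos
  have h0 := hev.self_of_nhds
  have hWan : ∀ i j, AnalyticAt ℂ (fun y => W (C.κ y) i j) 0 := by
    intro i j
    refine (C.der 0 hball (fun y => W y i j) ?_).1
    rw [C.κ0]
    exact hW i j
  have hMan : ∀ i j, AnalyticAt ℂ (fun y => ((W x₀)ᴴ * im V.Q * W (C.κ y)) i j) 0 :=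
    X2_mul (fun _ _ => analyticAt_const) hWan
  have hd0 : ((W x₀)ᴴ * im V.Q * W (C.κ 0)).det ≠ 0 := by
    rw [C.κ0]
    exact j02_det (V.phs x₀) p (W x₀) h0.1 h0.2
  have hdet : ∀ᶠ y in 𝓝 (0 : Fin m → ℂ), ((W x₀)ᴴ * im V.Q * W (C.κ y)).det ≠ 0 :=
    (X2_det hMan).continuousAt.eventually_ne hd0
  have hκ : Tendsto C.κ (𝓝 0) (𝓝 x₀) := by
    have h1 := C.nhd 0 hball
    rw [C.κ0] at h1
    exact h1.le
  refine ⟨fun y => W (C.κ y) * ((W x₀)ᴴ * im V.Q * W (C.κ y))⁻¹ * ((W x₀)ᴴ * im V.Q),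
    X2_mul (X2_mul hWan (X2_inv hMan hd0)) (fun _ _ => analyticAt_const), ?_, ?_⟩
  · show W (C.κ 0) * ((W x₀)ᴴ * im V.Q * W (C.κ 0))⁻¹ * ((W x₀)ᴴ * im V.Q) = _
    rw [C.κ0, j02_formula (V.phs x₀) p (W x₀) h0.1 h0.2]
  · filter_upwards [hκ.eventually hev, hdet] with y hy hdy
    have hinv : ((W x₀)ᴴ * im V.Q * W (C.κ y))⁻¹ * ((W x₀)ᴴ * im V.Q * W (C.κ y)) = 1 :=
      Matrix.nonsing_inv_mul _ (isUnit_iff_ne_zero.2 hdy)
    have hmem : ∀ v, (W (C.κ y) * ((W x₀)ᴴ * im V.Q * W (C.κ y))⁻¹ * ((W x₀)ᴴ * im V.Q)) *ᵥ v ∈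
        V.F p (C.κ y) := by
      intro v
      rw [hy.2, Matrix.mul_assoc, ← Matrix.mulVec_mulVec]
      exact ⟨_, rfl⟩
    refine ⟨fun v => ⟨fun hv => ?_, fun hv => ?_⟩, hmem, fun v => ?_⟩
    · rw [hy.2] at hv
      obtain ⟨e, rfl⟩ := hv
      rw [Matrix.mulVecLin_apply, Matrix.mulVec_mulVec]
      congr 1
      calc W (C.κ y) * ((W x₀)ᴴ * im V.Q * W (C.κ y))⁻¹ * ((W x₀)ᴴ * im V.Q) * W (C.κ y)
          = W (C.κ y) * (((W x₀)ᴴ * im V.Q * W (C.κ y))⁻¹ *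
            ((W x₀)ᴴ * im V.Q * W (C.κ y))) := by simp only [Matrix.mul_assoc]
        _ = W (C.κ y) := by rw [hinv, Matrix.mul_one]
    · rw [← hv]
      exact hmem v
    · rw [X2_ker _ hy.1 _ hdy, prj_ker (V.phs x₀) p v, j02_formula (V.phs x₀) p (W x₀) h0.1 h0.2,
        X2_ker _ h0.1 _ (j02_det (V.phs x₀) p (W x₀) h0.1 h0.2)]

theorem nu_hol {x₀ : X} (C : Ch m X x₀) :
    ∃ ν : (Fin m → ℂ) → Matrix (Fin n) (Fin n) ℂ, (∀ i j, AnalyticAt ℂ (fun y => ν y i j) 0) ∧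
      ν 0 = JX V x₀ ∧
      ∀ᶠ y in 𝓝 (0 : Fin m → ℂ), Spl V.wt (fun p => V.F p x₀) (fun p => V.F p (C.κ y)) (ν y) := by
  choose E hEan hE0 hE using fun p : ℤ => mixed_prj V C p
  refine ⟨fun y => (V.lo : ℂ) • (1 : Matrix (Fin n) (Fin n) ℂ) + ∑ p ∈ Finset.Ioc V.lo V.hi, E p y,
    ?_, ?_, ?_⟩
  · intro i j
    simp only [Matrix.add_apply, Matrix.sum_apply]
    exact analyticAt_const.add (Finset.analyticAt_fun_sum _ fun p _ => hEan p i j)
  · show (V.lo : ℂ) • (1 : Matrix (Fin n) (Fin n) ℂ) + ∑ p ∈ Finset.Ioc V.lo V.hi, E p 0 = _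
    rw [gr_eq_sum (V.phs x₀) (JX_gr V x₀) (V.F_lo x₀) (V.F_hi x₀)]
    simp only [hE0]
  · have hall : ∀ᶠ y in 𝓝 (0 : Fin m → ℂ), ∀ p ∈ Finset.Ioc V.lo V.hi,
        (∀ v, v ∈ V.F p (C.κ y) ↔ E p y *ᵥ v = v) ∧ (∀ v, E p y *ᵥ v ∈ V.F p (C.κ y)) ∧
        ∀ v, v ∈ conjSub (V.F (V.wt + 1 - p) x₀) ↔ E p y *ᵥ v = 0 :=
      (Filter.eventually_all_finset _).2 fun p _ => hE p
    filter_upwards [hall] with y hy
    have htop : ∀ p, p ≤ V.lo → V.F p (C.κ y) = ⊤ ∧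
        conjSub (V.F (V.wt + 1 - p) x₀) = ⊥ := by
      intro p hp
      have h1 : ∀ x, V.F p x = ⊤ := by
        intro x
        have h2 := (V.phs x).anti p V.lo hp
        rw [V.F_lo x] at h2
        exact top_le_iff.1 h2
      refine ⟨h1 _, ?_⟩
      have h3 := (V.phs x₀).opp p
      rw [h1 x₀] at h3
      have h4 := h3.inf_eq_bot
      rwa [top_inf_eq] at h4
    have hbot : ∀ p, V.hi ≤ p → V.F p (C.κ y) = ⊥ ∧
        conjSub (V.F (V.wt + 1 - p) x₀) = ⊤ := by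
      intro p hp
      have h1 : ∀ x, V.F p x = ⊥ := by
        intro x
        have h2 := (V.phs x).anti V.hi p hp
        rw [V.F_hi x] at h2
        exact le_bot_iff.1 h2
      refine ⟨h1 _, ?_⟩
      have h3 := (V.phs x₀).opp p
      rw [h1 x₀] at h3
      have h4 := h3.sup_eq_top
      rwa [bot_sup_eq] at h4
    constructor
    · intro p
      rcases le_or_gt p V.lo with hp | hp
      · show IsCompl (V.F p (C.κ y)) (conjSub (V.F (V.wt + 1 - p) x₀))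
        rw [(htop p hp).1, (htop p hp).2]
        exact isCompl_top_bot
      rcases le_or_gt V.hi p with hp' | hp'
      · show IsCompl (V.F p (C.κ y)) (conjSub (V.F (V.wt + 1 - p) x₀))
        rw [(hbot p hp').1, (hbot p hp').2]
        exact isCompl_bot_top
      obtain ⟨e1, e2, e3⟩ := hy p (Finset.mem_Ioc.2 ⟨hp, hp'.le⟩)
      refine ⟨?_, ?_⟩
      · rw [Submodule.disjoint_def]
        intro v hv hv'
        rw [← (e1 v).1 hv, (e3 v).1 hv']
      · rw [codisjoint_iff, eq_top_iff]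
        rintro v -
        rw [Submodule.mem_sup]
        refine ⟨E p y *ᵥ v, e2 v, v - E p y *ᵥ v, (e3 _).2 ?_, by abel⟩
        rw [Matrix.mulVec_sub, (e1 _).1 (e2 v), sub_self]
    · rintro p v ⟨hv, hv'⟩
      have hv0 : v ∈ V.F p (C.κ y) := hv
      have hv1 : v ∈ conjSub (V.F (V.wt - p) x₀) := hv'
      have hv2 : v ∈ conjSub (V.F (V.wt + 1 - (p + 1)) x₀) := by
        have : V.wt + 1 - (p + 1) = V.wt - p := by ring
        rw [this]
        exact hv1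
      have hEv : ∀ q ∈ Finset.Ioc V.lo V.hi, E q y *ᵥ v = (if q ≤ p then (1 : ℂ) else 0) • v := by
        intro q hq
        obtain ⟨e1, e2, e3⟩ := hy q hq
        split_ifs with h
        · rw [one_smul]
          exact (e1 v).1 ((V.phs (C.κ y)).anti q p h hv0)
        · rw [zero_smul]
          refine (e3 v).1 ?_
          have h1 : V.F (V.wt - p) x₀ ≤ V.F (V.wt + 1 - q) x₀ :=
            (V.phs x₀).anti _ _ (by omega)
          exact h1 hv1
      have hsum : ((V.lo : ℂ) • (1 : Matrix (Fin n) (Fin n) ℂ) +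
          ∑ q ∈ Finset.Ioc V.lo V.hi, E q y) *ᵥ v =
          ((V.lo : ℂ) + (((Finset.Ioc V.lo V.hi).filter (fun q => q ≤ p)).card : ℂ)) • v := by
        rw [Matrix.add_mulVec, Matrix.smul_mulVec, Matrix.one_mulVec, Matrix.sum_mulVec,
          Finset.sum_congr rfl hEv, ← Finset.sum_smul, ← add_smul, Finset.sum_ite,
          Finset.sum_const_zero, add_zero, Finset.sum_const, nsmul_eq_mul, mul_one]
      show ((V.lo : ℂ) • (1 : Matrix (Fin n) (Fin n) ℂ) +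
          ∑ q ∈ Finset.Ioc V.lo V.hi, E q y) *ᵥ v = (p : ℂ) • v
      rcases lt_or_ge p V.lo with hp | hp
      · have h1 := (htop (p + 1) (by omega)).2
        rw [h1, Submodule.mem_bot] at hv2
        rw [hv2, Matrix.mulVec_zero, smul_zero]
      rcases lt_or_ge V.hi p with hp' | hp'
      · have h1 := (hbot p hp'.le).1
        rw [h1, Submodule.mem_bot] at hv0
        rw [hv0, Matrix.mulVec_zero, smul_zero]
      rw [hsum]
      have h3 : (Finset.Ioc V.lo V.hi).filter (fun q => q ≤ p) = Finset.Ioc V.lo p := by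
        ext q
        simp only [Finset.mem_filter, Finset.mem_Ioc]
        constructor
        · rintro ⟨⟨h3, _⟩, h4⟩
          exact ⟨h3, h4⟩
        · rintro ⟨h3, h4⟩
          exact ⟨⟨h3, by omega⟩, h4⟩
      have h4 : (((p - V.lo).toNat : ℕ) : ℂ) = ((((p - V.lo).toNat : ℕ) : ℤ) : ℂ) := by
        push_cast
        rfl
      rw [h3, Int.card_Ioc, h4, Int.toNat_of_nonneg (by omega)]
      congr 1
      push_cast
      ring

end MP2794d1.GD
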