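import Pool.Agent.Lib.MP_2794d1_ag.GD.X2

/-!
X3: the derivative of the splitting. Let `E p` be the mixed projectors of `X2` (choose `ν` as their sum, or work with any `ν` as in
`nu_hol`: `Spl` determines `ν y` near `0`). Let `Z ∈ cx (gMT V)`, `[μ, Z] = -Z`; by `hS.dom` (extended to complex combinations of
`A ∈ gMT V`) there is `v ∈ T_x₀` with `∇_v s - Z s ∈ F^p` for all sections `s` of `F^p`. For `y₀ ∈ V.F p x₀` take `s = E p · *ᵥ y₀`:
`(dE p(v) - Z) y₀ ∈ F^p`; `E p` is idempotent, so `dE p (v) y₀ ∈ conj F^(wt+1-p)`; for `y₀ ∈ conj (F^(wt+1-p))`: `dE p(v) y₀ = 0`. So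
`dE p (v) = (1 - E p) Z E p`, and the sum over `p` is `Z` (adapted basis: entry `(a,b)` of `Z` only for `d a = d b - 1`; `(1 - E p) Z E p` has
that entry iff `d a < p ≤ d b`, i.e. `p = d b`; `p ∈ (lo, hi)` since `d a ≥ lo`). `C.der`, `w = (C.A 0).symm v`.
-/

namespace MP2794d1.GD

open Matrix Complex Filter Topology MP2794d1.PC MP2794d1.AH
open scoped ContDiff Manifold

variable {n m : ℕ} {X G : Type} [TopologicalSpace X] [ChartedSpace (Fin m → ℂ) X]
  [IsManifold 𝓘(ℂ, Fin m → ℂ) ω X] [ConnectedSpace X] [Group G] [MulAction G X]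
  (V : MVHS n m X G)

theorem dom_cx {ρ : ℕ} (hS : IsShimuraDom V ρ) {x : X} (hx : rankX V x = ρ)
    {A : Matrix (Fin n) (Fin n) ℂ} (hA : A ∈ cx (gMT V : Set (Matrix (Fin n) (Fin n) ℚ))) :
    ∃ v : Fin m → ℂ, ∀ (p : ℤ) (s : X → (Fin n → ℂ)), (∀ i, Hf m (fun y => s y i) x) →
      (∀ᶠ y in 𝓝 x, s y ∈ V.F p y) →
      (fun i => dX m (fun y => s y i) x v) - A *ᵥ (s x) ∈ V.F p x := by
  unfold cx at hA
  induction hA using Submodule.span_induction with
  | mem B hB =>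
    obtain ⟨B₀, hB₀, rfl⟩ := hB
    exact hS.dom x hx B₀ hB₀
  | zero =>
    refine ⟨0, fun p s _ _ => ?_⟩
    have h1 : (fun i => dX m (fun y => s y i) x (0 : Fin m → ℂ)) = 0 := by
      funext i
      exact map_zero (mfderiv 𝓘(ℂ, Fin m → ℂ) 𝓘(ℂ, ℂ) (fun y => s y i) x)
    rw [h1, Matrix.zero_mulVec, sub_zero]
    exact (V.F p x).zero_mem
  | add B C _ _ hB hC =>
    obtain ⟨v, hv⟩ := hB
    obtain ⟨w, hw⟩ := hC
    refine ⟨v + w, fun p s hs hF => ?_⟩
    have h1 : (fun i => dX m (fun y => s y i) x (v + w)) =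
        (fun i => dX m (fun y => s y i) x v) + (fun i => dX m (fun y => s y i) x w) := by
      funext i
      exact map_add (mfderiv 𝓘(ℂ, Fin m → ℂ) 𝓘(ℂ, ℂ) (fun y => s y i) x) v w
    rw [h1, Matrix.add_mulVec, add_sub_add_comm]
    exact (V.F p x).add_mem (hv p s hs hF) (hw p s hs hF)
  | smul c B _ hB =>
    obtain ⟨v, hv⟩ := hB
    refine ⟨c • v, fun p s hs hF => ?_⟩
    have h1 : (fun i => dX m (fun y => s y i) x (c • v)) =
        c • (fun i => dX m (fun y => s y i) x v) := by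
      funext i
      exact map_smul (mfderiv 𝓘(ℂ, Fin m → ℂ) 𝓘(ℂ, ℂ) (fun y => s y i) x) c v
    rw [h1, Matrix.smul_mulVec, ← smul_sub]
    exact (V.F p x).smul_mem c (hv p s hs hF)

/-- the derivative of a matrix function at `0` along `w` -/
private noncomputable def X3_D {a b : ℕ} (M : (Fin m → ℂ) → Matrix (Fin a) (Fin b) ℂ)
    (w : Fin m → ℂ) : Matrix (Fin a) (Fin b) ℂ :=
  Matrix.of fun i j => fderiv ℂ (fun y => M y i j) 0 w

private theorem X3_D_mul {a b c : ℕ} {M : (Fin m → ℂ) → Matrix (Fin a) (Fin b) ℂ}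
    {N : (Fin m → ℂ) → Matrix (Fin b) (Fin c) ℂ}
    (hM : ∀ i j, AnalyticAt ℂ (fun y => M y i j) 0) (hN : ∀ i j, AnalyticAt ℂ (fun y => N y i j) 0)
    (w : Fin m → ℂ) : X3_D (fun y => M y * N y) w = X3_D M w * N 0 + M 0 * X3_D N w := by
  ext i j
  have h1 : HasFDerivAt (fun y => (M y * N y) i j)
      (∑ k, (M 0 i k • fderiv ℂ (fun y => N y k j) 0 + N 0 k j • fderiv ℂ (fun y => M y i k) 0)) 0 := by
    simp only [Matrix.mul_apply]
    exact HasFDerivAt.fun_sum fun k _ =>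
      (hM i k).differentiableAt.hasFDerivAt.mul (hN k j).differentiableAt.hasFDerivAt
  rw [Matrix.add_apply, Matrix.mul_apply, Matrix.mul_apply, ← Finset.sum_add_distrib]
  simp only [X3_D, Matrix.of_apply]
  rw [h1.fderiv, _root_.sum_apply]
  refine Finset.sum_congr rfl fun k _ => ?_
  rw [_root_.add_apply, _root_.smul_apply,
    _root_.smul_apply, smul_eq_mul, smul_eq_mul]
  ring

private theorem X3_D_const {a b : ℕ} (N : Matrix (Fin a) (Fin b) ℂ) (w : Fin m → ℂ) :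
    X3_D (fun _ => N) w = 0 := by
  ext i j
  simp [X3_D]

private theorem X3_D_congr {a b : ℕ} {M N : (Fin m → ℂ) → Matrix (Fin a) (Fin b) ℂ}
    (h : ∀ᶠ y in 𝓝 (0 : Fin m → ℂ), M y = N y) (w : Fin m → ℂ) : X3_D M w = X3_D N w := by
  ext i j
  simp only [X3_D, Matrix.of_apply]
  have h1 : (fun y => M y i j) =ᶠ[𝓝 0] (fun y => N y i j) := by
    filter_upwards [h] with y hy
    rw [hy]
  rw [h1.fderiv_eq]

/-- the derivative of a mixed projector -/
private theorem X3_E {x₀ : X} (C : Ch m X x₀) (p : ℤ) {E : (Fin m → ℂ) → Matrix (Fin n) (Fin n) ℂ}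
    (hE : ∀ i j, AnalyticAt ℂ (fun y => E y i j) 0)
    (hEp : ∀ᶠ y in 𝓝 (0 : Fin m → ℂ), (∀ v, v ∈ V.F p (C.κ y) ↔ E y *ᵥ v = v) ∧
        (∀ v, E y *ᵥ v ∈ V.F p (C.κ y)) ∧
        ∀ v, v ∈ conjSub (V.F (V.wt + 1 - p) x₀) ↔ E y *ᵥ v = 0)
    {Z : Matrix (Fin n) (Fin n) ℂ} {v : Fin m → ℂ}
    (hv : ∀ (s : X → (Fin n → ℂ)), (∀ i, Hf m (fun y => s y i) x₀) →
      (∀ᶠ y in 𝓝 x₀, s y ∈ V.F p y) →
      (fun i => dX m (fun y => s y i) x₀ v) - Z *ᵥ (s x₀) ∈ V.F p x₀) :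
    X3_D E ((C.A 0).symm v) = (1 - E 0) * Z * E 0 := by
  obtain ⟨r, W, hW, hev⟩ := V.hol p x₀
  have hball : (0 : Fin m → ℂ) ∈ Metric.ball (0 : Fin m → ℂ) C.ε := Metric.mem_ball_self C.pos
  have hκ : C.κ 0 = x₀ := C.κ0
  obtain ⟨w, hw⟩ : ∃ w, w = (C.A 0).symm v := ⟨_, rfl⟩
  have hAw : C.A 0 w = v := by
    rw [hw]
    exact (C.A 0).apply_symm_apply v
  rw [← hw]
  have h0 := hEp.self_of_nhds
  rw [hκ] at h0
  obtain ⟨h01, h02, h03⟩ := h0
  have hev' : ∀ᶠ y in 𝓝 (0 : Fin m → ℂ), LinearIndependent ℂ (W (C.κ y))ᵀ ∧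
      V.F p (C.κ y) = LinearMap.range (W (C.κ y)).mulVecLin := by
    have h1 := C.nhd 0 hball
    rw [hκ] at h1
    rw [← h1] at hev
    exact hev
  have hWan : ∀ i j, AnalyticAt ℂ (fun y => W (C.κ y) i j) 0 := fun i j =>
    (C.der 0 hball (fun y => W y i j) (by rw [hκ]; exact hW i j)).1
  have hWd : ∀ i j, fderiv ℂ (fun y => W (C.κ y) i j) 0 w = dX m (fun y => W y i j) x₀ v := by
    intro i j
    have h1 := (C.der 0 hball (fun y => W y i j) (by rw [hκ]; exact hW i j)).2 w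
    rw [hAw, hκ] at h1
    exact h1
  have hcol : ∀ (y : X), V.F p y = LinearMap.range (W y).mulVecLin → ∀ j,
      (fun i => W y i j) ∈ V.F p y := by
    intro y hy j
    rw [hy]
    refine ⟨Pi.single j 1, ?_⟩
    rw [Matrix.mulVecLin_apply, Matrix.mulVec_single_one]
    rfl
  -- `E W = W`
  have hEW : ∀ᶠ y in 𝓝 (0 : Fin m → ℂ), E y * W (C.κ y) = W (C.κ y) := by
    filter_upwards [hEp, hev'] with y hy1 hy2
    ext i j
    have h1 := (hy1.1 _).1 (hcol _ hy2.2 j)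
    have h2 := congrFun h1 i
    rw [Matrix.mul_apply]
    exact h2
  have hd1 := X3_D_congr hEW w
  rw [X3_D_mul hE hWan, hκ] at hd1
  have hE0 : E 0 * E 0 = E 0 := by
    apply j01_ext
    intro x
    rw [← Matrix.mulVec_mulVec]
    exact (h01 _).1 (h02 x)
  have hW0 : V.F p x₀ = LinearMap.range (W x₀).mulVecLin := hev.self_of_nhds.2
  -- the property of `v`
  have hd2 : (1 - E 0) * (X3_D (fun y => W (C.κ y)) w - Z * W x₀) = 0 := by
    ext i j
    have h1 := hv (fun y => fun i => W y i j) (fun i => hW i j) (by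
      filter_upwards [hev] with y hy
      exact hcol y hy.2 j)
    have h2 := (h01 _).1 h1
    have h3 : (1 - E 0) *ᵥ ((fun i => dX m (fun y => W y i j) x₀ v) -
        Z *ᵥ (fun i => W x₀ i j)) = 0 := by
      rw [Matrix.sub_mulVec, Matrix.one_mulVec, h2, sub_self]
    have h4 := congrFun h3 i
    rw [Matrix.mul_apply, Matrix.zero_apply]
    rw [Matrix.mulVec, dotProduct, Pi.zero_apply] at h4
    rw [← h4]
    refine Finset.sum_congr rfl fun k _ => ?_
    congr 1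
    rw [Matrix.sub_apply, Matrix.mul_apply, Pi.sub_apply]
    simp only [X3_D, Matrix.of_apply]
    rw [hWd]
    rfl
  have hd3 : X3_D E w * W x₀ = (1 - E 0) * Z * W x₀ := by
    have h1 : X3_D E w * W x₀ = (1 - E 0) * X3_D (fun y => W (C.κ y)) w := by
      rw [Matrix.sub_mul, Matrix.one_mul]
      exact eq_sub_of_add_eq hd1
    rw [Matrix.mul_sub, sub_eq_zero] at hd2
    rw [h1, hd2, Matrix.mul_assoc]
  -- on the image of `E 0`
  have hd4 : X3_D E w * E 0 = (1 - E 0) * Z * E 0 := by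
    apply j01_ext
    intro x
    have h1 : E 0 *ᵥ x ∈ LinearMap.range (W x₀).mulVecLin := by
      rw [← hW0]
      exact h02 x
    obtain ⟨c, hc⟩ := h1
    rw [Matrix.mulVecLin_apply] at hc
    rw [← Matrix.mulVec_mulVec, ← Matrix.mulVec_mulVec, ← hc, Matrix.mulVec_mulVec,
      Matrix.mulVec_mulVec, hd3]
  -- on the kernel
  have hd5 : X3_D E w * (1 - E 0) = 0 := by
    have h1 : ∀ᶠ y in 𝓝 (0 : Fin m → ℂ), E y * (1 - E 0) = (0 : Matrix (Fin n) (Fin n) ℂ) := by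
      filter_upwards [hEp] with y hy
      apply j01_ext
      intro x
      rw [← Matrix.mulVec_mulVec, Matrix.zero_mulVec]
      refine (hy.2.2 _).1 ((h03 _).2 ?_)
      rw [Matrix.mulVec_mulVec, Matrix.mul_sub, Matrix.mul_one, hE0, sub_self, Matrix.zero_mulVec]
    have h2 := X3_D_congr h1 w
    rw [X3_D_mul (N := fun _ => 1 - E 0) hE (fun i j => analyticAt_const), X3_D_const, X3_D_const,
      Matrix.mul_zero, add_zero] at h2
    exact h2
  have h9 : X3_D E w = X3_D E w * E 0 + X3_D E w * (1 - E 0) := by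
    rw [← Matrix.mul_add, add_sub_cancel, Matrix.mul_one]
  rw [h9, hd5, add_zero, hd4]

/-- the splitting is a sum of projectors -/
private theorem X3_nu {x₀ x₁ : X} {ν : Matrix (Fin n) (Fin n) ℂ}
    (hs : Spl V.wt (fun p => V.F p x₀) (fun p => V.F p x₁) ν)
    {E : ℤ → Matrix (Fin n) (Fin n) ℂ}
    (hE : ∀ p ∈ Finset.Ioo V.lo V.hi, (∀ v, v ∈ V.F p x₁ ↔ E p *ᵥ v = v) ∧
        (∀ v, E p *ᵥ v ∈ V.F p x₁) ∧
        ∀ v, v ∈ conjSub (V.F (V.wt + 1 - p) x₀) ↔ E p *ᵥ v = 0) :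
    ν = (V.lo : ℂ) • (1 : Matrix (Fin n) (Fin n) ℂ) + ∑ p ∈ Finset.Ioo V.lo V.hi, E p := by
  have hconj : ∀ {a b : ℤ}, a ≤ b → conjSub (V.F b x₀) ≤ conjSub (V.F a x₀) :=
    fun {a b} hab x hx => (V.phs x₀).anti a b hab hx
  have key : ∀ k : ℕ, ∀ q : ℤ, V.lo ≤ q → q ≤ V.hi → V.hi - q = k → ∀ x ∈ V.F q x₁,
      ν *ᵥ x = (V.lo : ℂ) • x + ∑ p ∈ Finset.Ioo V.lo V.hi, E p *ᵥ x := by
    intro k
    induction k with
    | zero =>
      intro q _ _ hk x hx
      have h1 : q = V.hi := by omega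
      rw [h1, V.F_hi, Submodule.mem_bot] at hx
      rw [hx]
      simp
    | succ k ih =>
      intro q hq1 hq2 hk x hx
      have hc := hs.1 (q + 1)
      have h1 : x ∈ V.F (q + 1) x₁ ⊔ conjSub (V.F (V.wt + 1 - (q + 1)) x₀) := by
        rw [hc.sup_eq_top]
        trivial
      obtain ⟨a, ha, b, hb, rfl⟩ := Submodule.mem_sup.1 h1
      have ha' : a ∈ V.F q x₁ := (V.phs x₁).anti q (q + 1) (by omega) ha
      have hb' : b ∈ V.F q x₁ := by
        have h2 := (V.F q x₁).sub_mem hx ha'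
        rwa [add_sub_cancel_left] at h2
      have hb2 : b ∈ conjSub (V.F (V.wt - q) x₀) := by
        have h2 : V.wt + 1 - (q + 1) = V.wt - q := by ring
        rw [h2] at hb
        exact hb
      have hνb : ν *ᵥ b = (q : ℂ) • b := hs.2 q b ⟨hb', hb2⟩
      have hνa := ih (q + 1) (by omega) (by omega) (by omega) a ha
      have hsum : ∑ p ∈ Finset.Ioo V.lo V.hi, E p *ᵥ b = ((q : ℂ) - V.lo) • b := by
        have h2 : ∀ p ∈ Finset.Ioo V.lo V.hi, E p *ᵥ b = if p ≤ q then b else 0 := by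
          intro p hp
          by_cases hpq : p ≤ q
          · rw [if_pos hpq]
            exact ((hE p hp).1 b).1 ((V.phs x₁).anti p q hpq hb')
          · rw [if_neg hpq]
            exact ((hE p hp).2.2 b).1 (hconj (by omega) hb2)
        rw [Finset.sum_congr rfl h2, Finset.sum_ite, Finset.sum_const_zero, add_zero,
          Finset.sum_const]
        have h3 : (Finset.Ioo V.lo V.hi).filter (fun p => p ≤ q) = Finset.Ioc V.lo q := by
          ext p
          simp only [Finset.mem_filter, Finset.mem_Ioo, Finset.mem_Ioc]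
          omega
        rw [h3, Int.card_Ioc, ← Nat.cast_smul_eq_nsmul ℂ]
        congr 1
        have h4 : (((q - V.lo).toNat : ℕ) : ℂ) = ((((q - V.lo).toNat : ℕ) : ℤ) : ℂ) := by
          push_cast
          rfl
        rw [h4, Int.toNat_of_nonneg (by omega)]
        push_cast
        ring
      have h5 : ∑ p ∈ Finset.Ioo V.lo V.hi, E p *ᵥ (a + b) =
          ∑ p ∈ Finset.Ioo V.lo V.hi, E p *ᵥ a + ∑ p ∈ Finset.Ioo V.lo V.hi, E p *ᵥ b := by
        rw [← Finset.sum_add_distrib]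
        exact Finset.sum_congr rfl fun p _ => Matrix.mulVec_add _ _ _
      rw [Matrix.mulVec_add, hνa, hνb, h5, hsum]
      module
  apply j01_ext
  intro x
  have hlohi : V.lo ≤ V.hi ∨ V.hi < V.lo := le_or_gt _ _
  rcases hlohi with h | h
  · have h1 := key (V.hi - V.lo).toNat V.lo le_rfl h (by omega) x (by rw [V.F_lo]; trivial)
    rw [h1, Matrix.add_mulVec, Matrix.smul_mulVec, Matrix.one_mulVec, Matrix.sum_mulVec]
  · have h1 : x ∈ V.F V.lo x₁ := by
      rw [V.F_lo]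
      trivial
    have h2 := (V.phs x₁).anti V.hi V.lo h.le h1
    rw [V.F_hi, Submodule.mem_bot] at h2
    rw [h2, Matrix.mulVec_zero, Matrix.mulVec_zero]

/-- an element of degree `-1` is the sum of its components -/
private theorem X3_sum {x₀ : X} {Z : Matrix (Fin n) (Fin n) ℂ} (hZ1 : br (JX V x₀) Z = -Z) :
    ∑ p ∈ Finset.Ioo V.lo V.hi, (1 - prj (V.phs x₀) p) * Z * prj (V.phs x₀) p = Z := by
  obtain ⟨S, d, hS⟩ := exists_adapted (V.phs x₀)
  have hSS : S⁻¹ * S = 1 := Matrix.nonsing_inv_mul _ hS.inv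
  apply E05_inj hS.inv
  intro a b
  rw [Finset.mul_sum, Finset.sum_mul, Matrix.sum_apply]
  have h1 : ∀ p, (S⁻¹ * ((1 - prj (V.phs x₀) p) * Z * prj (V.phs x₀) p) * S) a b =
      (if p ≤ d b ∧ d a < p then (1 : ℂ) else 0) * (S⁻¹ * Z * S) a b := by
    intro p
    obtain ⟨D, hD⟩ : ∃ D : Matrix (Fin n) (Fin n) ℂ,
      D = Matrix.diagonal (fun a => if p ≤ d a then (1 : ℂ) else 0) := ⟨_, rfl⟩
    have h2 : prj (V.phs x₀) p = S * D * S⁻¹ := by
      rw [hD]
      exact prj_adapted (V.phs x₀) hS p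
    have h3 : S⁻¹ * ((1 - prj (V.phs x₀) p) * Z * prj (V.phs x₀) p) * S =
        (1 - D) * (S⁻¹ * Z * S) * D := by
      have h4 : S⁻¹ * (1 - S * D * S⁻¹) = (1 - D) * S⁻¹ := by
        rw [Matrix.mul_sub, Matrix.sub_mul, Matrix.mul_one, Matrix.one_mul, ← Matrix.mul_assoc,
          ← Matrix.mul_assoc, hSS, Matrix.one_mul]
      have h5 : S * D * S⁻¹ * S = S * D := by
        rw [Matrix.mul_assoc, hSS, Matrix.mul_one]
      rw [h2]
      calc S⁻¹ * ((1 - S * D * S⁻¹) * Z * (S * D * S⁻¹)) * S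
          = (S⁻¹ * (1 - S * D * S⁻¹)) * Z * (S * D * S⁻¹ * S) := by
            simp only [Matrix.mul_assoc]
        _ = (1 - D) * (S⁻¹ * Z * S) * D := by
            rw [h4, h5]
            simp only [Matrix.mul_assoc]
    have h6 : (1 : Matrix (Fin n) (Fin n) ℂ) - D =
        Matrix.diagonal (fun a => 1 - if p ≤ d a then (1 : ℂ) else 0) := by
      rw [hD, ← Matrix.diagonal_one, Matrix.diagonal_sub]
    rw [h3, h6, hD, Matrix.mul_diagonal, Matrix.diagonal_mul]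
    by_cases e1 : p ≤ d b
    · by_cases e2 : p ≤ d a
      · rw [if_pos e1, if_pos e2, if_neg (by omega)]
        ring
      · rw [if_pos e1, if_neg e2, if_pos (by omega)]
        ring
    · have e3 : ¬ (p ≤ d b ∧ d a < p) := fun e => e1 e.1
      rw [if_neg e1, if_neg e3]
      ring
  rw [Finset.sum_congr rfl fun p _ => h1 p, ← Finset.sum_mul]
  by_cases hz : (S⁻¹ * Z * S) a b = 0
  · rw [hz, mul_zero]
  have h2 := E05_mu hS (JX_gr V x₀) Z a b
  rw [hZ1, Matrix.mul_neg, Matrix.neg_mul, Matrix.neg_apply] at h2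
  have h3 : d b = d a + 1 := by
    have h4 : ((d a : ℂ) - (d b : ℂ) + 1) * (S⁻¹ * Z * S) a b = 0 := by
      rw [add_mul, ← h2]
      ring
    have h5 := (mul_eq_zero.1 h4).resolve_right hz
    have h6 : ((d a - d b + 1 : ℤ) : ℂ) = 0 := by
      push_cast
      exact h5
    have h7 : d a - d b + 1 = 0 := by exact_mod_cast h6
    omega
  have hba := adapted_bounds hS (V.F_lo x₀) (V.F_hi x₀) a
  have hbb := adapted_bounds hS (V.F_lo x₀) (V.F_hi x₀) b
  have h8 : ∑ p ∈ Finset.Ioo V.lo V.hi, (if p ≤ d b ∧ d a < p then (1 : ℂ) else 0) = 1 := by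
    rw [Finset.sum_eq_single (d b)]
    · rw [if_pos (by omega)]
    · intro p _ hp
      rw [if_neg (by omega)]
    · intro hp
      exfalso
      apply hp
      rw [Finset.mem_Ioo]
      omega
  rw [h8, one_mul]

theorem nu_der {ρ : ℕ} (hS : IsShimuraDom V ρ) {x₀ : X} (hx : rankX V x₀ = ρ) (C : Ch m X x₀)
    (ν : (Fin m → ℂ) → Matrix (Fin n) (Fin n) ℂ) (hν : ∀ i j, AnalyticAt ℂ (fun y => ν y i j) 0)
    (hs : ∀ᶠ y in 𝓝 (0 : Fin m → ℂ),
      Spl V.wt (fun p => V.F p x₀) (fun p => V.F p (C.κ y)) (ν y))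
    {Z : Matrix (Fin n) (Fin n) ℂ} (hZ : Z ∈ cx (gMT V : Set (Matrix (Fin n) (Fin n) ℚ)))
    (hZ1 : br (JX V x₀) Z = -Z) :
    ∃ w : Fin m → ℂ, ∀ i j, fderiv ℂ (fun y => ν y i j) 0 w = Z i j := by
  obtain ⟨v, hv⟩ := dom_cx V hS hx hZ
  choose E hE1 hE2 hE3 using fun p => mixed_prj V C p
  obtain ⟨w, hw⟩ : ∃ w, w = (C.A 0).symm v := ⟨_, rfl⟩
  refine ⟨w, ?_⟩
  have hD : ∀ p, X3_D (E p) w = (1 - E p 0) * Z * E p 0 := by
    intro p
    rw [hw]
    exact X3_E V C p (hE1 p) (hE3 p) (hv p)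
  have hev : ∀ᶠ y in 𝓝 (0 : Fin m → ℂ), ν y = (V.lo : ℂ) • (1 : Matrix (Fin n) (Fin n) ℂ) +
      ∑ p ∈ Finset.Ioo V.lo V.hi, E p y := by
    have h1 : ∀ᶠ y in 𝓝 (0 : Fin m → ℂ), ∀ p ∈ Finset.Ioo V.lo V.hi,
        (∀ v, v ∈ V.F p (C.κ y) ↔ E p y *ᵥ v = v) ∧ (∀ v, E p y *ᵥ v ∈ V.F p (C.κ y)) ∧
        ∀ v, v ∈ conjSub (V.F (V.wt + 1 - p) x₀) ↔ E p y *ᵥ v = 0 := by
      rw [Filter.eventually_all_finset]
      exact fun p _ => hE3 p
    filter_upwards [hs, h1] with y hy1 hy2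
    exact X3_nu V hy1 hy2
  have h2 : X3_D ν w = Z := by
    rw [X3_D_congr hev w, ← X3_sum V hZ1]
    ext i j
    have h3 : HasFDerivAt (fun y => ((V.lo : ℂ) • (1 : Matrix (Fin n) (Fin n) ℂ) +
        ∑ p ∈ Finset.Ioo V.lo V.hi, E p y) i j)
        (∑ p ∈ Finset.Ioo V.lo V.hi, fderiv ℂ (fun y => E p y i j) 0) 0 := by
      simp only [Matrix.add_apply, Matrix.sum_apply]
      refine HasFDerivAt.const_add _ (HasFDerivAt.fun_sum fun p _ => ?_)
      exact (hE1 p i j).differentiableAt.hasFDerivAt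
    simp only [X3_D, Matrix.of_apply]
    rw [h3.fderiv, _root_.sum_apply, Matrix.sum_apply]
    refine Finset.sum_congr rfl fun p _ => ?_
    have h4 := congrFun (congrFun (hD p) i) j
    rw [hE2 p] at h4
    exact h4
  intro i j
  exact congrFun (congrFun h2 i) j

end MP2794d1.GD
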