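import Pool.Agent.Lib.MP_2794d1_ag.GD.X3
import Pool.Agent.Lib.MP_2794d1_ag.GD.T2
import Pool.Agent.Lib.MP_2794d1_ag.GD.X1
import Pool.Agent.Lib.MP_2794d1_ag.AH.B01

/-!
X4: every small `N` of type `(-1,1)` in `cx (gMT V)` is the splitting of a point of `X` near `x₀`. `ν` from `nu_hol`; near `0`
`ν y - μ` lies in the span of the `R.N j` (`spl_exists` and uniqueness of the splitting, `MA.nu`), so `f y = q (ν y - μ)` with a linear
`q`, `q (∑ u j N j) = u`; `f` is analytic at `0`, `f 0 = 0`, with surjective derivative (`nu_der`), so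
`HasStrictFDerivAt.map_nhds_eq_of_surj`; `C.nhd 0`, `C.κ0`.
-/

namespace MP2794d1.GD

open Matrix Complex Filter Topology MP2794d1.PC MP2794d1.AH
open scoped ContDiff Manifold

variable {n m : ℕ} {X G : Type} [TopologicalSpace X] [ChartedSpace (Fin m → ℂ) X]
  [IsManifold 𝓘(ℂ, Fin m → ℂ) ω X] [ConnectedSpace X] [Group G] [MulAction G X]
  (V : MVHS n m X G)

theorem X4.spl_unique {wt : ℤ} {Q : Matrix (Fin n) (Fin n) ℤ}
    {Fl Fl' : ℤ → Submodule ℂ (Fin n → ℂ)} {ν ν' : Matrix (Fin n) (Fin n) ℂ}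
    (h : IsPHS wt Q Fl) (h' : IsPHS wt Q Fl') (hs : Spl wt Fl Fl' ν) (hs' : Spl wt Fl Fl' ν') :
    ν = ν' := by
  obtain ⟨S, d, hM⟩ := exists_MA h h' hs.1
  have h1 : S⁻¹ * ν * S = S⁻¹ * ν' * S := by rw [hM.nu hs, hM.nu hs']
  have h2 := congrArg (fun M => S * M * S⁻¹) h1
  have h3 : ∀ M : Matrix (Fin n) (Fin n) ℂ, S * (S⁻¹ * M * S) * S⁻¹ = M := by
    intro M
    calc S * (S⁻¹ * M * S) * S⁻¹ = (S * S⁻¹) * M * (S * S⁻¹) := by simp only [mul_assoc]
      _ = M := by rw [Matrix.mul_nonsing_inv _ hM.inv, one_mul, mul_one]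
  simpa only [h3] using h2

theorem nu_open {ρ : ℕ} (hS : IsShimuraDom V ρ) {x₀ : X} (hx : rankX V x₀ = ρ) {k r : ℕ}
    (R : Fr V.wt V.Q (gMT V) (fun p => V.F p x₀) (JX V x₀) k r) (W : Set X) (hW : W ∈ 𝓝 x₀) :
    ∃ δ : ℝ, 0 < δ ∧ ∀ u : Fin r → ℂ, ‖u‖ < δ → ∃ x ∈ W,
      Spl V.wt (fun p => V.F p x₀) (fun p => V.F p x) (R.nu u) := by
  classical
  obtain ⟨C⟩ := exists_ch (m := m) x₀
  obtain ⟨ν, hν, hν0, hspl⟩ := nu_hol V C
  -- the linear coordinates
  let L : (Fin r → ℂ) →ₗ[ℂ] Matrix (Fin n) (Fin n) ℂ := Fintype.linearCombination ℂ R.N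
  have hLap : ∀ u, L u = ∑ j, u j • R.N j := fun u => Fintype.linearCombination_apply ℂ R.N u
  have hLinj : LinearMap.ker L = ⊥ := by
    rw [LinearMap.ker_eq_bot']
    intro u hu
    rw [hLap] at hu
    funext j
    exact Fintype.linearIndependent_iff.mp R.Nind u hu j
  obtain ⟨q, hq⟩ := LinearMap.exists_leftInverse_of_injective L hLinj
  have hqL : ∀ u, q (L u) = u := fun u => by
    have := congrArg (fun F => F u) hq
    simpa using this
  let c : Fin r → Fin n → Fin n → ℂ := fun j a b => q (Matrix.single a b 1) j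
  have hqc : ∀ (M : Matrix (Fin n) (Fin n) ℂ) (j : Fin r), q M j = ∑ a, ∑ b, M a b * c j a b := by
    intro M j
    conv_lhs => rw [Matrix.matrix_eq_sum_single M]
    rw [map_sum, Finset.sum_apply]
    refine Finset.sum_congr rfl fun a _ => ?_
    rw [map_sum, Finset.sum_apply]
    refine Finset.sum_congr rfl fun b _ => ?_
    have h1 : Matrix.single a b (M a b) = M a b • Matrix.single a b (1 : ℂ) := by
      rw [Matrix.smul_single, smul_eq_mul, mul_one]
    rw [h1, map_smul, Pi.smul_apply, smul_eq_mul]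
  let f : (Fin m → ℂ) → (Fin r → ℂ) := fun y j => ∑ a, ∑ b, (ν y a b - JX V x₀ a b) * c j a b
  have hfq : ∀ y, f y = q (ν y - JX V x₀) := by
    intro y
    funext j
    rw [hqc]
    rfl
  -- near `0` the splitting has the required form
  have hform : ∀ᶠ y in 𝓝 (0 : Fin m → ℂ), ν y = R.nu (f y) := by
    filter_upwards [hspl] with y hy
    obtain ⟨N, hN, hN1, hN2⟩ := spl_exists (hdX V hS x₀) (hdX V hS (C.κ y)) hy.1
    have h1 : ν y = JX V x₀ + N := X4.spl_unique (hdX V hS x₀).phs (hdX V hS (C.κ y)).phs hy hN2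
    have h2 := R.Nspan N hN hN1
    rw [Submodule.mem_span_range_iff_exists_fun] at h2
    obtain ⟨u, hu⟩ := h2
    have h3 : f y = u := by
      rw [hfq, h1, add_sub_cancel_left, ← hu, ← hLap, hqL]
    rw [h3, h1, ← hu]
    rfl
  -- the derivative
  have hνd : ∀ a b, HasStrictFDerivAt (fun y => ν y a b) (fderiv ℂ (fun y => ν y a b) 0) 0 :=
    fun a b => (hν a b).hasStrictFDerivAt
  let f' : (Fin m → ℂ) →L[ℂ] (Fin r → ℂ) := ContinuousLinearMap.pi fun j =>
    ∑ a, ∑ b, c j a b • fderiv ℂ (fun y => ν y a b) 0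
  have hf' : HasStrictFDerivAt f f' 0 := by
    rw [hasStrictFDerivAt_pi']
    intro j
    have h1 : (ContinuousLinearMap.proj j).comp f' =
        ∑ a, ∑ b, c j a b • fderiv ℂ (fun y => ν y a b) 0 := by
      ext w
      rfl
    rw [h1]
    have h2 : (fun y => f y j) = fun y => ∑ a, ∑ b, (ν y a b - JX V x₀ a b) * c j a b := rfl
    rw [h2]
    exact HasStrictFDerivAt.fun_sum fun a _ => HasStrictFDerivAt.fun_sum fun b _ =>
      ((hνd a b).sub_const _).mul_const _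
  have hsurj : f'.range = ⊤ := by
    rw [LinearMap.range_eq_top]
    intro u
    have hZ : L u ∈ cx (gMT V : Set (Matrix (Fin n) (Fin n) ℚ)) := by
      rw [hLap]
      exact Submodule.sum_mem _ fun j _ => Submodule.smul_mem _ _ (R.Nmem j).1
    have hZ1 : br (JX V x₀) (L u) = -L u := by
      rw [hLap]
      unfold br
      rw [Finset.mul_sum, Finset.sum_mul, ← Finset.sum_sub_distrib, ← Finset.sum_neg_distrib]
      refine Finset.sum_congr rfl fun j _ => ?_
      have h1 : JX V x₀ * R.N j - R.N j * JX V x₀ = -R.N j := (R.Nmem j).2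
      rw [Matrix.mul_smul, Matrix.smul_mul, ← smul_sub, h1, smul_neg]
    obtain ⟨w, hw⟩ := nu_der V hS hx C ν hν hspl hZ hZ1
    refine ⟨w, ?_⟩
    funext j
    have h1 : f' w j = ∑ a, ∑ b, c j a b * fderiv ℂ (fun y => ν y a b) 0 w := by
      show (∑ a, ∑ b, c j a b • fderiv ℂ (fun y => ν y a b) 0) w = _
      simp only [_root_.sum_apply, _root_.smul_apply, smul_eq_mul]
    have h2 := hqc (L u) j
    rw [hqL] at h2
    rw [h2]
    refine Eq.trans h1 ?_
    refine Finset.sum_congr rfl fun a _ => Finset.sum_congr rfl fun b _ => ?_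
    rw [hw, mul_comm]
  have hmap := hf'.map_nhds_eq_of_surj hsurj
  have hf0 : f 0 = 0 := by
    rw [hfq, hν0, sub_self, map_zero]
  rw [hf0] at hmap
  have hκ : ∀ᶠ y in 𝓝 (0 : Fin m → ℂ), C.κ y ∈ W := by
    have h1 := C.nhd 0 (Metric.mem_ball_self C.pos)
    rw [C.κ0] at h1
    have h2 : Filter.Tendsto C.κ (𝓝 0) (𝓝 x₀) := h1.le
    exact h2 hW
  have hA : {y | C.κ y ∈ W ∧
      Spl V.wt (fun p => V.F p x₀) (fun p => V.F p (C.κ y)) (ν y) ∧ ν y = R.nu (f y)} ∈
      𝓝 (0 : Fin m → ℂ) := by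
    filter_upwards [hκ, hspl, hform] with y h1 h2 h3
    exact ⟨h1, h2, h3⟩
  have h5 := Filter.image_mem_map (m := f) hA
  rw [hmap] at h5
  obtain ⟨δ, hδ, hball⟩ := Metric.mem_nhds_iff.mp h5
  refine ⟨δ, hδ, fun u hu => ?_⟩
  obtain ⟨y, ⟨h1, h2, h3⟩, h4⟩ := hball (mem_ball_zero_iff.mpr hu)
  refine ⟨C.κ y, h1, ?_⟩
  rw [h3, h4] at h2
  exact h2

end MP2794d1.GD
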